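import Pool.Agent.HTRank.Defs

/-! Abstract theorem, part 1: finite labelled graphs, cells, links, counting. -/

set_option autoImplicit false

open Finset

namespace Pool.Agent.HTRank.Abs

variable {A V : Type}

/-- reversed edge -/
def rev (P : TriPres A) (e : V × A × V) : V × A × V := (e.2.2, P.inv e.2.1, e.1)

lemma rev_rev (P : TriPres A) (e : V × A × V) : rev P (rev P e) = e := by
  obtain ⟨v, a, w⟩ := e
  simp [rev, P.inv_inv]

lemma rev_ne (P : TriPres A) (e : V × A × V) : rev P e ≠ e := by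
  obtain ⟨v, a, w⟩ := e
  intro h
  simp only [rev, Prod.mk.injEq] at h
  exact P.inv_ne a h.2.1

/-- symmetric set of edges -/
def Symm (P : TriPres A) (E : Finset (V × A × V)) : Prop := ∀ e ∈ E, rev P e ∈ E

/-- deterministic set of edges -/
def Det (E : Finset (V × A × V)) : Prop :=
  ∀ e ∈ E, ∀ e' ∈ E, e.1 = e'.1 → e.2.1 = e'.2.1 → e = e'

/-- the three edges form a cell -/
def IsCell (R0 : Finset (A × A × A)) (t : (V × A × V) × (V × A × V) × (V × A × V)) : Prop :=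
  t.1.2.2 = t.2.1.1 ∧ t.2.1.2.2 = t.2.2.1 ∧ t.2.2.2.2 = t.1.1 ∧
    (t.1.2.1, t.2.1.2.1, t.2.2.2.1) ∈ R0

open Classical in
/-- rooted oriented cells -/
noncomputable def cells (E : Finset (V × A × V)) (R0 : Finset (A × A × A)) :
    Finset ((V × A × V) × (V × A × V) × (V × A × V)) :=
  (E ×ˢ E ×ˢ E).filter (IsCell R0)

lemma mem_cells {E : Finset (V × A × V)} {R0 : Finset (A × A × A)}
    {t : (V × A × V) × (V × A × V) × (V × A × V)} :
    t ∈ cells E R0 ↔ (t.1 ∈ E ∧ t.2.1 ∈ E ∧ t.2.2 ∈ E) ∧ IsCell R0 t := by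
  unfold cells
  simp only [mem_filter, mem_product]

/-- rotation of a triple -/
def rot3 {α : Type} (t : α × α × α) : α × α × α := (t.2.1, t.2.2, t.1)

/-- reversal of a cell -/
def flip3 (P : TriPres A) (t : (V × A × V) × (V × A × V) × (V × A × V)) :
    (V × A × V) × (V × A × V) × (V × A × V) :=
  (rev P t.2.2, rev P t.2.1, rev P t.1)

lemma rot_mem {P : TriPres A} {E : Finset (V × A × V)} {R0 : Finset (A × A × A)}
    (hR : RelClosed P R0) {t : (V × A × V) × (V × A × V) × (V × A × V)}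
    (ht : t ∈ cells E R0) : rot3 t ∈ cells E R0 := by
  rw [mem_cells] at ht ⊢
  obtain ⟨⟨h1, h2, h3⟩, h4, h5, h6, h7⟩ := ht
  exact ⟨⟨h2, h3, h1⟩, h5, h6, h4, hR.rot _ _ _ h7⟩

lemma flip_mem {P : TriPres A} {E : Finset (V × A × V)} {R0 : Finset (A × A × A)}
    (hR : RelClosed P R0) (hE : Symm P E) {t : (V × A × V) × (V × A × V) × (V × A × V)}
    (ht : t ∈ cells E R0) : flip3 P t ∈ cells E R0 := by
  rw [mem_cells] at ht ⊢
  obtain ⟨⟨h1, h2, h3⟩, h4, h5, h6, h7⟩ := ht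
  refine ⟨⟨hE _ h3, hE _ h2, hE _ h1⟩, ?_, ?_, ?_, ?_⟩
  · simp only [flip3, rev]; exact h5.symm
  · simp only [flip3, rev]; exact h4.symm
  · simp only [flip3, rev]; exact h6.symm
  · exact hR.flip _ _ _ h7

open Classical in
/-- letters defined at a vertex -/
noncomputable def Dl (E : Finset (V × A × V)) (v : V) : Finset A :=
  (E.filter (fun e => e.1 = v)).image (fun e => e.2.1)

open Classical in
/-- corners of cells at a vertex -/
noncomputable def Kl (P : TriPres A) (E : Finset (V × A × V)) (R0 : Finset (A × A × A)) (v : V) :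
    Finset (A × A) :=
  ((cells E R0).filter (fun t => t.1.1 = v)).image (fun t => (P.inv t.2.2.2.1, t.1.2.1))

lemma mem_Dl {E : Finset (V × A × V)} {v : V} {a : A} :
    a ∈ Dl E v ↔ ∃ w, (v, a, w) ∈ E := by
  unfold Dl
  simp only [mem_image, mem_filter]
  constructor
  · rintro ⟨⟨v', a', w⟩, ⟨h1, h2⟩, h3⟩
    simp only at h2 h3
    subst h2 h3
    exact ⟨w, h1⟩
  · rintro ⟨w, hw⟩
    exact ⟨(v, a, w), ⟨hw, rfl⟩, rfl⟩

lemma mem_Kl {P : TriPres A} {E : Finset (V × A × V)} {R0 : Finset (A × A × A)} {v : V}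
    {p : A × A} : p ∈ Kl P E R0 v ↔
    ∃ t ∈ cells E R0, t.1.1 = v ∧ (P.inv t.2.2.2.1, t.1.2.1) = p := by
  unfold Kl
  simp only [mem_image, mem_filter, and_assoc]

lemma Kl_corner {P : TriPres A} {E : Finset (V × A × V)} {R0 : Finset (A × A × A)}
    (hR : RelClosed P R0) {v : V} {p : A × A}
    (hp : p ∈ Kl P E R0 v) : corner P R0 p.1 p.2 := by
  rw [mem_Kl] at hp
  obtain ⟨t, ht, h1, rfl⟩ := hp
  rw [mem_cells] at ht
  refine ⟨t.2.1.2.1, ?_⟩
  simp only [P.inv_inv]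
  exact hR.rot _ _ _ (hR.rot _ _ _ ht.2.2.2.2)

lemma Kl_symm {P : TriPres A} {E : Finset (V × A × V)} {R0 : Finset (A × A × A)}
    (hR : RelClosed P R0) (hE : Symm P E) {v : V} {x y : A}
    (hp : (x, y) ∈ Kl P E R0 v) : (y, x) ∈ Kl P E R0 v := by
  rw [mem_Kl] at hp ⊢
  obtain ⟨t, ht, h1, h2⟩ := hp
  refine ⟨flip3 P t, flip_mem hR hE ht, ?_, ?_⟩
  · rw [mem_cells] at ht
    simp only [flip3, rev]
    rw [ht.2.2.2.1, h1]
  · simp only [Prod.mk.injEq] at h2
    simp only [flip3, rev, Prod.mk.injEq, P.inv_inv]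
    exact ⟨h2.2, h2.1⟩

lemma Kl_mem {P : TriPres A} {E : Finset (V × A × V)} {R0 : Finset (A × A × A)}
    (hE : Symm P E) {v : V} {x y : A}
    (hp : (x, y) ∈ Kl P E R0 v) : x ∈ Dl E v ∧ y ∈ Dl E v := by
  rw [mem_Kl] at hp
  obtain ⟨t, ht, h1, h2⟩ := hp
  rw [mem_cells] at ht
  obtain ⟨⟨h3, h4, h5⟩, h6, h7, h8, h9⟩ := ht
  simp only [Prod.mk.injEq] at h2
  rw [mem_Dl, mem_Dl]
  refine ⟨⟨t.2.2.1, ?_⟩, ⟨t.1.2.2, ?_⟩⟩
  · have := hE _ h5
    unfold rev at this
    rw [h8, h1, h2.1] at this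
    exact this
  · rw [← h2.2, ← h1]
    exact h3

lemma Kl_ne {P : TriPres A} {E : Finset (V × A × V)} {R0 : Finset (A × A × A)}
    (hR : RelClosed P R0) {v : V} {x y : A}
    (hp : (x, y) ∈ Kl P E R0 v) : x ≠ y := by
  obtain ⟨c, hc⟩ := Kl_corner hR hp
  intro h
  have := P.ne2 _ _ _ (hR.sub _ _ _ hc)
  simp only at h this
  rw [h] at this
  exact this rfl

lemma card_E [Fintype V] {E : Finset (V × A × V)} (hD : Det E) :
    E.card = ∑ v : V, (Dl E v).card := by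
  classical
  rw [Finset.card_eq_sum_card_fiberwise (f := fun e => e.1) (t := univ) (fun _ _ => by simp)]
  apply Finset.sum_congr rfl
  intro v _
  unfold Dl
  rw [Finset.card_image_of_injOn]
  · intro e he e' he' h
    simp only [coe_filter, Set.mem_ofPred_eq] at he he'
    exact hD e he.1 e' he'.1 (he.2.trans he'.2.symm) h

lemma cell_inj {P : TriPres A} {E : Finset (V × A × V)} {R0 : Finset (A × A × A)}
    (hR : RelClosed P R0) (hE : Symm P E) (hD : Det E)
    {t t' : (V × A × V) × (V × A × V) × (V × A × V)}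
    (ht : t ∈ cells E R0) (ht' : t' ∈ cells E R0) (hv : t.1.1 = t'.1.1)
    (h1 : t.2.2.2.1 = t'.2.2.2.1) (h2 : t.1.2.1 = t'.1.2.1) : t = t' := by
  rw [mem_cells] at ht ht'
  obtain ⟨⟨a1, a2, a3⟩, a4, a5, a6, a7⟩ := ht
  obtain ⟨⟨b1, b2, b3⟩, b4, b5, b6, b7⟩ := ht'
  have e1 : t.1 = t'.1 := hD _ a1 _ b1 hv h2
  have e3' : rev P t.2.2 = rev P t'.2.2 := by
    apply hD _ (hE _ a3) _ (hE _ b3)
    · simp only [rev]; rw [a6, b6, hv]
    · simp only [rev]; rw [h1]
  have e3 : t.2.2 = t'.2.2 := by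
    rw [← rev_rev P t.2.2, e3', rev_rev]
  have e2 : t.2.1 = t'.2.1 := by
    apply hD _ a2 _ b2
    · rw [← a4, ← b4, e1]
    · have c1 := hR.sub _ _ _ (hR.rot _ _ _ (hR.rot _ _ _ a7))
      have c2 := hR.sub _ _ _ (hR.rot _ _ _ (hR.rot _ _ _ b7))
      rw [← h1, ← h2] at c2
      exact P.uniq _ _ _ _ c1 c2
  exact Prod.ext e1 (Prod.ext e2 e3)

lemma card_cells [Fintype V] {P : TriPres A} {E : Finset (V × A × V)} {R0 : Finset (A × A × A)}
    (hR : RelClosed P R0) (hE : Symm P E) (hD : Det E) :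
    (cells E R0).card = ∑ v : V, (Kl P E R0 v).card := by
  classical
  rw [Finset.card_eq_sum_card_fiberwise (f := fun t => t.1.1) (t := univ) (fun _ _ => by simp)]
  apply Finset.sum_congr rfl
  intro v _
  unfold Kl
  rw [Finset.card_image_of_injOn]
  intro t ht t' ht' h
  simp only [coe_filter, Set.mem_ofPred_eq] at ht ht'
  simp only [Prod.mk.injEq] at h
  apply cell_inj hR hE hD ht.1 ht'.1 (ht.2.trans ht'.2.symm) _ h.2
  have := h.1
  rw [← P.inv_inv t.2.2.2.1, this, P.inv_inv]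

lemma sum_rot {P : TriPres A} {E : Finset (V × A × V)} {R0 : Finset (A × A × A)}
    (hR : RelClosed P R0) (f : (V × A × V) × (V × A × V) × (V × A × V) → ℝ) :
    ∑ t ∈ cells E R0, f (rot3 t) = ∑ t ∈ cells E R0, f t := by
  classical
  apply Finset.sum_nbij' (fun t => rot3 t) (fun t => rot3 (rot3 t))
  · intro t ht; exact rot_mem hR ht
  · intro t ht; exact rot_mem hR (rot_mem hR ht)
  · intro t _; rfl
  · intro t _; rfl
  · intro t _; rfl

/-- total corner weight is a third of the number of rooted oriented cells -/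
lemma sum_weight [Fintype V] {P : TriPres A} {E : Finset (V × A × V)} {R0 : Finset (A × A × A)}
    (hR : RelClosed P R0) (hE : Symm P E) (hD : Det E) (w : A → A → ℝ)
    (hw : ∀ a b c, (a, b, c) ∈ R0 → w (P.inv c) a + w (P.inv a) b + w (P.inv b) c = 1) :
    3 * ∑ v : V, ∑ p ∈ Kl P E R0 v, w p.1 p.2 = (cells E R0).card := by
  classical
  have h1 : ∑ v : V, ∑ p ∈ Kl P E R0 v, w p.1 p.2 =
      ∑ t ∈ cells E R0, w (P.inv t.2.2.2.1) t.1.2.1 := by
    rw [← Finset.sum_fiberwise (cells E R0) (fun t => t.1.1)]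
    apply Finset.sum_congr rfl
    intro v _
    unfold Kl
    rw [Finset.sum_image]
    intro t ht t' ht' h
    simp only [coe_filter, Set.mem_ofPred_eq] at ht ht'
    simp only [Prod.mk.injEq] at h
    apply cell_inj hR hE hD ht.1 ht'.1 (ht.2.trans ht'.2.symm) _ h.2
    have := h.1
    rw [← P.inv_inv t.2.2.2.1, this, P.inv_inv]
  have h2 := sum_rot (E := E) hR (fun t => w (P.inv t.2.2.2.1) t.1.2.1)
  have h3 := sum_rot (E := E) hR (fun t => w (P.inv (rot3 t).2.2.2.1) (rot3 t).1.2.1)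
  have h4 : ∑ t ∈ cells E R0, (w (P.inv t.2.2.2.1) t.1.2.1 +
      w (P.inv (rot3 t).2.2.2.1) (rot3 t).1.2.1 +
      w (P.inv (rot3 (rot3 t)).2.2.2.1) (rot3 (rot3 t)).1.2.1) = (cells E R0).card := by
    rw [Finset.card_eq_sum_ones]
    push_cast
    apply Finset.sum_congr rfl
    intro t ht
    rw [mem_cells] at ht
    exact hw _ _ _ ht.2.2.2.2
  rw [Finset.sum_add_distrib, Finset.sum_add_distrib] at h4
  rw [h1]
  linarith

end Pool.Agent.HTRank.Abs
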