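import Pool.Agent.HTRank.Abs1

/-! Abstract theorem, part 2: the pointwise inequality in a link. -/

set_option autoImplicit false

open Finset

namespace Pool.Agent.HTRank.Abs

variable {A : Type}

/-- a finite link: letters `D`, corners `K` -/
structure Lnk (P : TriPres A) (R0 : Finset (A × A × A)) (D : Finset A) (K : Finset (A × A)) :
    Prop where
  mem : ∀ x y, (x, y) ∈ K → x ∈ D ∧ y ∈ D
  symm : ∀ x y, (x, y) ∈ K → (y, x) ∈ K
  ne : ∀ x y, (x, y) ∈ K → x ≠ y
  cor : ∀ x y, (x, y) ∈ K → corner P R0 x y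

/-- closed under adjacency -/
def Clo (K : Finset (A × A)) (C : Finset A) : Prop := ∀ x y, (x, y) ∈ K → x ∈ C → y ∈ C

/-- connected, cut version -/
def Cn (K : Finset (A × A)) (C : Finset A) : Prop :=
  ∀ U ⊆ C, U.Nonempty → U ≠ C → ∃ x ∈ U, ∃ y ∈ C, y ∉ U ∧ (x, y) ∈ K

open Classical in
/-- corners inside a closed set -/
noncomputable def Kin (K : Finset (A × A)) (C : Finset A) : Finset (A × A) :=
  K.filter (fun p => p.1 ∈ C)

/-- total weight of corners inside a closed set -/
noncomputable def Win (w : A → A → ℝ) (K : Finset (A × A)) (C : Finset A) : ℝ :=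
  ∑ p ∈ Kin K C, w p.1 p.2

lemma exists_comp {K : Finset (A × A)} {C : Finset A} (hC : Clo K C) (hne : C.Nonempty) :
    ∃ C1 ⊆ C, C1.Nonempty ∧ Clo K C1 ∧ Cn K C1 := by
  classical
  obtain ⟨C1, hC1, hmin⟩ := Finset.exists_min_image
    ((C.powerset).filter (fun X => X.Nonempty ∧ Clo K X)) (fun X => X.card)
    ⟨C, by simp [hne, hC]⟩
  simp only [Finset.mem_filter, mem_powerset] at hC1 hmin
  obtain ⟨h1, h2, h3⟩ := hC1
  refine ⟨C1, h1, h2, h3, ?_⟩
  intro U hU hUne hUC
  by_contra hcon
  push Not at hcon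
  have hclo : Clo K U := by
    intro x y hxy hx
    by_contra hy
    exact hcon x hx y (h3 x y hxy (hU hx)) hy hxy
  have := hmin U ⟨hU.trans h1, hUne, hclo⟩
  exact hUC (Finset.eq_of_subset_of_card_le hU this)

lemma clo_sdiff [DecidableEq A] {P : TriPres A} {R0 : Finset (A × A × A)} {D : Finset A}
    {K : Finset (A × A)}
    (hL : Lnk P R0 D K) {C C1 : Finset A} (hC : Clo K C) (hC1 : Clo K C1) :
    Clo K (C \ C1) := by
  intro x y hxy hx
  rw [Finset.mem_sdiff] at hx ⊢
  refine ⟨hC x y hxy hx.1, fun hy => hx.2 (hC1 y x (hL.symm x y hxy) hy)⟩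

lemma win_add [DecidableEq A] (w : A → A → ℝ) (K : Finset (A × A)) {C C1 : Finset A}
    (h : C1 ⊆ C) : Win w K C = Win w K C1 + Win w K (C \ C1) := by
  classical
  unfold Win Kin
  rw [← Finset.sum_union]
  · apply Finset.sum_congr _ (fun _ _ => rfl)
    ext p
    simp only [Finset.mem_filter, Finset.mem_union, Finset.mem_sdiff]
    constructor
    · rintro ⟨h1, h2⟩
      by_cases h3 : p.1 ∈ C1
      · exact Or.inl ⟨h1, h3⟩
      · exact Or.inr ⟨h1, h2, h3⟩
    · rintro (⟨h1, h2⟩ | ⟨h1, h2, h3⟩)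
      · exact ⟨h1, h h2⟩
      · exact ⟨h1, h2⟩
  · rw [Finset.disjoint_left]
    intro p hp hp'
    simp only [Finset.mem_filter, Finset.mem_sdiff] at hp hp'
    exact hp'.2.2 hp.2

/-- the graph of a link on a set of letters -/
def Gr {P : TriPres A} {R0 : Finset (A × A × A)} {D : Finset A} {K : Finset (A × A)}
    (hL : Lnk P R0 D K) (C : Finset A) : SimpleGraph {a // a ∈ C} where
  Adj a b := (a.1, b.1) ∈ K
  symm := ⟨fun _ _ h => hL.symm _ _ h⟩
  loopless := ⟨fun _ h => hL.ne _ _ h rfl⟩

lemma Gr_connected {P : TriPres A} {R0 : Finset (A × A × A)} {D : Finset A} {K : Finset (A × A)}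
    (hL : Lnk P R0 D K) {C : Finset A} (hC : Cn K C) (hne : C.Nonempty) :
    (Gr hL C).Connected := by
  classical
  have : Nonempty {a // a ∈ C} := ⟨⟨hne.choose, hne.choose_spec⟩⟩
  rw [SimpleGraph.connected_iff]
  refine ⟨?_, this⟩
  intro a b
  by_contra hab
  obtain ⟨U, hU⟩ : ∃ U : Finset A,
    U = C.filter (fun x => ∃ hx : x ∈ C, (Gr hL C).Reachable a ⟨x, hx⟩) := ⟨_, rfl⟩
  have ha : a.1 ∈ U := by
    rw [hU, Finset.mem_filter]
    exact ⟨a.2, a.2, SimpleGraph.Reachable.refl _⟩
  have hb : b.1 ∉ U := by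
    rw [hU, Finset.mem_filter]
    rintro ⟨_, hx, h⟩
    exact hab h
  obtain ⟨x, hx, y, hy, hyU, hxy⟩ := hC U (by rw [hU]; exact Finset.filter_subset _ _) ⟨_, ha⟩
    (fun h => hb (h ▸ b.2))
  apply hyU
  rw [hU, Finset.mem_filter] at hx ⊢
  obtain ⟨_, hxC, hr⟩ := hx
  refine ⟨hy, hy, hr.trans (SimpleGraph.Adj.reachable ?_)⟩
  exact hxy

lemma Gr_acyclic {P : TriPres A} {R0 : Finset (A × A × A)} {D : Finset A} {K : Finset (A × A)}
    (hR : RelClosed P R0)
    (hL : Lnk P R0 D K) {C : Finset A} {g : ℕ} (hg : P.Girth g) (hC : C.card ≤ g) :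
    (Gr hL C).IsAcyclic := by
  classical
  intro v p hp
  have hlen : p.length ≤ C.card := by
    have h1 := hp.getVert_injOn
    have h2 : (Finset.Icc 1 p.length).card ≤ Fintype.card {a // a ∈ C} := by
      rw [← Finset.card_univ]
      apply Finset.card_le_card_of_injOn p.getVert (fun _ _ => Finset.mem_coe.mpr (Finset.mem_univ _))
      intro i hi j hj hij
      simp only [Finset.coe_Icc, Set.mem_Icc] at hi hj
      exact h1 hi hj hij
    simpa using h2
  have hpos : 1 ≤ p.length := by
    have := hp.three_le_length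
    omega
  have hadj : ∀ i, i < p.length → P.adj (p.getVert i).1 (p.getVert (i + 1)).1 := by
    intro i hi
    have h1 := p.adj_getVert_succ hi
    obtain ⟨c, hc⟩ := hL.cor _ _ h1
    exact ⟨c, hR.sub _ _ _ hc⟩
  have h := hg p.length (fun i => (p.getVert i).1) hpos (hlen.trans hC) hadj (by
    intro i hi h
    have h2 := hp.getVert_sub_one_ne_getVert_add_one (i := i + 1) (by omega)
    simp only [Nat.add_sub_cancel] at h2
    exact h2 (Subtype.ext h))
  apply h.1
  simp

lemma kin_card {P : TriPres A} {R0 : Finset (A × A × A)} {D : Finset A} {K : Finset (A × A)}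
    (hL : Lnk P R0 D K) {C : Finset A} (hC : Clo K C) :
    (Kin K C).card = 2 * Nat.card (Gr hL C).edgeSet := by
  classical
  have h0 : Nat.card (Gr hL C).edgeSet = (Gr hL C).edgeFinset.card := by
    rw [Nat.card_eq_fintype_card, ← SimpleGraph.edgeFinset_card]
  rw [h0, SimpleGraph.two_mul_card_edgeFinset]
  symm
  apply Finset.card_bij (fun (q : {a // a ∈ C} × {a // a ∈ C}) _ => (q.1.1, q.2.1))
  · intro q hq
    rw [Finset.mem_filter] at hq
    unfold Kin
    rw [Finset.mem_filter]
    exact ⟨hq.2, q.1.2⟩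
  · intro q _ q' _ h
    simp only [Prod.mk.injEq] at h
    exact Prod.ext (Subtype.ext h.1) (Subtype.ext h.2)
  · intro p hp
    unfold Kin at hp
    rw [Finset.mem_filter] at hp
    refine ⟨(⟨p.1, hp.2⟩, ⟨p.2, hC p.1 p.2 hp.1 hp.2⟩), ?_, rfl⟩
    rw [Finset.mem_filter]
    exact ⟨Finset.mem_univ _, hp.1⟩

/-- small connected closed sets are trees -/
lemma kin_small {P : TriPres A} {R0 : Finset (A × A × A)} {D : Finset A} {K : Finset (A × A)}
    (hR : RelClosed P R0)
    (hL : Lnk P R0 D K) {C : Finset A} {g : ℕ} (hg : P.Girth g) (hCg : C.card ≤ g)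
    (hC : Clo K C) (hCn : Cn K C) (hne : C.Nonempty) :
    (Kin K C).card + 2 = 2 * C.card := by
  classical
  have h1 : (Gr hL C).IsTree := ⟨Gr_connected hL hCn hne, Gr_acyclic hR hL hg hCg⟩
  have h2 := (SimpleGraph.isTree_iff_connected_and_card.mp h1).2
  rw [kin_card hL hC]
  rw [Nat.card_eq_fintype_card (α := {a // a ∈ C}), Fintype.card_coe] at h2
  omega

variable {P : TriPres A} {R0 : Finset (A × A × A)} {D : Finset A} {K : Finset (A × A)}
  {w : A → A → ℝ} {m g : ℕ} {μ : ℝ}

/-- hypotheses on weights, as in `WeightCond` for a fixed set of relators -/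
structure WH (P : TriPres A) (R0 : Finset (A × A × A)) (w : A → A → ℝ) (m : ℕ) (μ : ℝ) :
    Prop where
  nn : ∀ x y, 0 ≤ w x y
  le : ∀ x y, corner P R0 x y → 2 * w x y ≤ 1 - μ
  big : ∀ (D : Finset A) (K : Finset (A × A)), Lnk P R0 D K → m < D.card → Cn K D →
    ∑ p ∈ K, w p.1 p.2 ≤ (1 - μ / 2) * D.card

lemma win_small (hR : RelClosed P R0) (hL : Lnk P R0 D K) (hw : WH P R0 w m μ)
    (hg : P.Girth g) {C : Finset A} (hCg : C.card ≤ g)
    (hC : Clo K C) (hCn : Cn K C) (hne : C.Nonempty) :
    Win w K C ≤ (1 - μ) * ((C.card : ℝ) - 1) := by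
  classical
  have h1 := kin_small hR hL hg hCg hC hCn hne
  have h2 : 2 * Win w K C ≤ (Kin K C).card * (1 - μ) := by
    unfold Win
    rw [Finset.mul_sum, ← nsmul_eq_mul, ← Finset.sum_const]
    apply Finset.sum_le_sum
    intro p hp
    unfold Kin at hp
    rw [Finset.mem_filter] at hp
    exact hw.le _ _ (hL.cor _ _ hp.1)
  have h3 : ((Kin K C).card : ℝ) = 2 * C.card - 2 := by
    have : ((Kin K C).card : ℝ) + 2 = 2 * C.card := by exact_mod_cast h1
    linarith
  rw [h3] at h2
  linarith

lemma win_big (hL : Lnk P R0 D K) (hw : WH P R0 w m μ) {C : Finset A} (hCm : m < C.card)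
    (hC : Clo K C) (hCn : Cn K C) : Win w K C ≤ (1 - μ / 2) * C.card := by
  classical
  refine hw.big C (Kin K C) ⟨?_, ?_, ?_, ?_⟩ hCm ?_
  · intro x y hxy
    unfold Kin at hxy
    rw [Finset.mem_filter] at hxy
    exact ⟨hxy.2, hC _ _ hxy.1 hxy.2⟩
  · intro x y hxy
    unfold Kin at hxy ⊢
    rw [Finset.mem_filter] at hxy ⊢
    exact ⟨hL.symm _ _ hxy.1, hC _ _ hxy.1 hxy.2⟩
  · intro x y hxy
    unfold Kin at hxy
    rw [Finset.mem_filter] at hxy
    exact hL.ne _ _ hxy.1
  · intro x y hxy
    unfold Kin at hxy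
    rw [Finset.mem_filter] at hxy
    exact hL.cor _ _ hxy.1
  · intro U hU hUne hUC
    obtain ⟨x, hx, y, hy, hyU, hxy⟩ := hCn U hU hUne hUC
    refine ⟨x, hx, y, hy, hyU, ?_⟩
    unfold Kin
    rw [Finset.mem_filter]
    exact ⟨hxy, hU hx⟩

/-- general upper bound for the weight -/
lemma win_le (hR : RelClosed P R0) (hL : Lnk P R0 D K) (hw : WH P R0 w m μ)
    (hμ : 0 < μ) (hμ1 : μ ≤ 1) (hg : P.Girth g) (hmg : m ≤ g) :
    ∀ (N : ℕ) (C : Finset A), C.card ≤ N → Clo K C → Win w K C ≤ (1 - μ / 2) * C.card := by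
  classical
  intro N
  induction N with
  | zero =>
    intro C hC _
    have : C = ∅ := Finset.card_eq_zero.mp (by omega)
    subst this
    simp [Win, Kin]
  | succ N ih =>
    intro C hCN hC
    rcases C.eq_empty_or_nonempty with rfl | hne
    · simp [Win, Kin]
    obtain ⟨C1, hsub, hne1, hclo1, hcn1⟩ := exists_comp hC hne
    have hcard : (C \ C1).card + C1.card = C.card := Finset.card_sdiff_add_card_eq_card hsub
    have hpos : 0 < C1.card := hne1.card_pos
    have h2 := ih (C \ C1) (by omega) (clo_sdiff hL hC hclo1)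
    rw [win_add w K hsub]
    have hcard' : ((C \ C1).card : ℝ) + C1.card = C.card := by exact_mod_cast hcard
    have h1 : Win w K C1 ≤ (1 - μ / 2) * C1.card := by
      by_cases hm : m < C1.card
      · exact win_big hL hw hm hclo1 hcn1
      · have h3 := win_small hR hL hw hg (by omega : C1.card ≤ g) hclo1 hcn1 hne1
        have h4 : (1 : ℝ) ≤ C1.card := by exact_mod_cast hpos
        nlinarith
    rw [← hcard']
    linarith

/-- lower bound for the defect of a nonempty closed set -/
lemma def_ge (hR : RelClosed P R0) (hL : Lnk P R0 D K) (hw : WH P R0 w m μ)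
    (hμ : 0 < μ) (hμ1 : μ ≤ 1) (hg : P.Girth g) (hmg : m ≤ g) (hm8 : 8 / μ ≤ m) :
    ∀ (N : ℕ) (C : Finset A), C.card ≤ N → C.Nonempty → Clo K C →
      μ * C.card + (1 - μ) ≤ C.card - Win w K C ∨
      μ / 4 * C.card + 2 ≤ C.card - Win w K C := by
  classical
  intro N
  induction N with
  | zero =>
    intro C hC hne _
    have := hne.card_pos
    omega
  | succ N ih =>
    intro C hCN hne hC
    obtain ⟨C1, hsub, hne1, hclo1, hcn1⟩ := exists_comp hC hne
    have hcard : (C \ C1).card + C1.card = C.card := Finset.card_sdiff_add_card_eq_card hsub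
    have hpos : 0 < C1.card := hne1.card_pos
    have hcard' : ((C \ C1).card : ℝ) + C1.card = C.card := by exact_mod_cast hcard
    have h1 : μ * C1.card + (1 - μ) ≤ C1.card - Win w K C1 ∨
        μ / 4 * C1.card + 2 ≤ C1.card - Win w K C1 := by
      by_cases hm : m < C1.card
      · right
        have h3 := win_big hL hw hm hclo1 hcn1
        have h4 : (m : ℝ) ≤ C1.card := by exact_mod_cast hm.le
        have h5 : 8 ≤ μ * C1.card := by
          have : 8 / μ ≤ C1.card := hm8.trans h4
          rw [div_le_iff₀ hμ] at this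
          linarith
        nlinarith
      · left
        have h3 := win_small hR hL hw hg (by omega : C1.card ≤ g) hclo1 hcn1 hne1
        nlinarith
    rcases (C \ C1).eq_empty_or_nonempty with he | hne2
    · have : C = C1 := by
        apply Finset.Subset.antisymm _ hsub
        rw [← Finset.sdiff_eq_empty_iff_subset]
        exact he
      rw [this]
      exact h1
    · have h2 := ih (C \ C1) (by omega) hne2 (clo_sdiff hL hC hclo1)
      rw [win_add w K hsub, ← hcard']
      have hp1 : (0 : ℝ) ≤ C1.card := by positivity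
      have hp2 : (0 : ℝ) ≤ (C \ C1).card := by positivity
      rcases h1 with h1 | h1 <;> rcases h2 with h2 | h2
      · left; nlinarith
      · right; nlinarith
      · right; nlinarith
      · right; nlinarith

/-- A link is removable if it is a small tree. -/
def Rem (D : Finset A) (K : Finset (A × A)) (B : ℕ) : Prop :=
  Cn K D ∧ K.card + 2 = 2 * D.card ∧ D.card ≤ B

/-- the pointwise inequality for links that are not removable -/
lemma point (hR : RelClosed P R0) (hL : Lnk P R0 D K) (hw : WH P R0 w m μ)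
    (hμ : 0 < μ) (hμ1 : μ ≤ 1 / 3) (hg : P.Girth g) (hmg : m ≤ g) (hm8 : 8 / μ ≤ m) {B : ℕ}
    (hB : 4 / μ ≤ B) (hD : D.Nonempty) (hrem : ¬ Rem D K B) :
    (3 ≤ D.card ∧ μ / 4 * D.card + 2 ≤ D.card - ∑ p ∈ K, w p.1 p.2) ∨
    (D.card = 2 ∧ K = ∅) := by
  classical
  have hclo : Clo K D := fun x y hxy _ => (hL.mem x y hxy).2
  have hKin : Kin K D = K := by
    unfold Kin
    rw [Finset.filter_eq_self]
    rintro ⟨x, y⟩ hxy
    exact (hL.mem x y hxy).1
  have hWin : Win w K D = ∑ p ∈ K, w p.1 p.2 := by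
    unfold Win; rw [hKin]
  rw [← hWin]
  have hB3 : (12 : ℝ) ≤ B := by
    have h12 : (12 : ℝ) ≤ 4 / μ := by
      rw [le_div_iff₀ hμ]; linarith
    exact h12.trans hB
  have hB3' : 12 ≤ B := by exact_mod_cast hB3
  obtain ⟨C1, hsub, hne1, hclo1, hcn1⟩ := exists_comp hclo hD
  have hcard : (D \ C1).card + C1.card = D.card := Finset.card_sdiff_add_card_eq_card hsub
  have hcard' : ((D \ C1).card : ℝ) + C1.card = D.card := by exact_mod_cast hcard
  rcases (D \ C1).eq_empty_or_nonempty with he | hne2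
  · -- D is connected
    have hDC : D = C1 := by
      apply Finset.Subset.antisymm _ hsub
      rw [← Finset.sdiff_eq_empty_iff_subset]
      exact he
    have hcnD : Cn K D := by rw [hDC]; exact hcn1
    by_cases hm : m < D.card
    · left
      have h3 := win_big hL hw hm hclo hcnD
      have h4 : (m : ℝ) ≤ D.card := by exact_mod_cast hm.le
      have h5 : 8 ≤ μ * D.card := by
        have : 8 / μ ≤ D.card := hm8.trans h4
        rw [div_le_iff₀ hμ] at this
        linarith
      have h6 : (3 : ℝ) ≤ D.card := by nlinarith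
      exact ⟨by exact_mod_cast h6, by nlinarith⟩
    · have hDg : D.card ≤ g := by omega
      have hk := kin_small hR hL hg hDg hclo hcnD hD
      rw [hKin] at hk
      have hBD : B < D.card := by
        by_contra hcon
        exact hrem ⟨hcnD, hk, by omega⟩
      have h3 := win_small hR hL hw hg hDg hclo hcnD hD
      have h4 : (B : ℝ) ≤ D.card := by exact_mod_cast hBD.le
      have h5 : 4 ≤ μ * D.card := by
        have : 4 / μ ≤ D.card := hB.trans h4
        rw [div_le_iff₀ hμ] at this
        linarith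
      left
      exact ⟨by omega, by nlinarith⟩
  · -- at least two components
    have hcloS := clo_sdiff hL hclo hclo1
    have h1 := def_ge hR hL hw hμ (by linarith) hg hmg hm8 C1.card C1 le_rfl hne1 hclo1
    have h2 := def_ge hR hL hw hμ (by linarith) hg hmg hm8 (D \ C1).card (D \ C1) le_rfl hne2 hcloS
    rw [win_add w K hsub, ← hcard']
    have hp1 : (1 : ℝ) ≤ C1.card := by exact_mod_cast hne1.card_pos
    have hp2 : (1 : ℝ) ≤ (D \ C1).card := by exact_mod_cast hne2.card_pos
    by_cases h3D : 3 ≤ D.card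
    · left
      refine ⟨h3D, ?_⟩
      have h3 : (3 : ℝ) ≤ (D \ C1).card + C1.card := by rw [hcard']; exact_mod_cast h3D
      rcases h1 with h1 | h1 <;> rcases h2 with h2 | h2 <;> nlinarith
    · right
      have hc1 : C1.card = 1 := by
        have := hne1.card_pos; have := hne2.card_pos; omega
      have hc2 : (D \ C1).card = 1 := by
        have := hne1.card_pos; have := hne2.card_pos; omega
      refine ⟨by omega, ?_⟩
      rw [Finset.eq_empty_iff_forall_notMem]
      rintro ⟨x, y⟩ hxy
      have hxne := hL.ne x y hxy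
      obtain ⟨u, hu⟩ := Finset.card_eq_one.mp hc1
      obtain ⟨v, hv⟩ := Finset.card_eq_one.mp hc2
      by_cases hx : x ∈ C1
      · have hy := hclo1 x y hxy hx
        rw [hu, Finset.mem_singleton] at hx hy
        exact hxne (hx.trans hy.symm)
      · have hx' : x ∈ D \ C1 := Finset.mem_sdiff.mpr ⟨(hL.mem x y hxy).1, hx⟩
        have hy := hcloS x y hxy hx'
        rw [hv, Finset.mem_singleton] at hx' hy
        exact hxne (hx'.trans hy.symm)

end Pool.Agent.HTRank.Abs
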