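import Pool.Agent.HTRank.Abs1

/-! Abstract theorem, part 3: cocycles, folding, layer cake. -/

set_option autoImplicit false

open Finset Module

namespace Pool.Agent.HTRank.Abs

variable {A V W : Type}

/-- cocycles mod 2 -/
noncomputable def Z (P : TriPres A) (E : Finset (V × A × V)) (R0 : Finset (A × A × A)) :
    Submodule (ZMod 2) ((V × A × V) → ZMod 2) where
  carrier := {f | (∀ e, e ∉ E → f e = 0) ∧ (∀ e ∈ E, f (rev P e) = f e) ∧
    ∀ t ∈ cells E R0, f t.1 + f t.2.1 + f t.2.2 = 0}
  add_mem' := by
    rintro f g ⟨h1, h2, h3⟩ ⟨g1, g2, g3⟩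
    refine ⟨fun e he => ?_, fun e he => ?_, fun t ht => ?_⟩
    · rw [Pi.add_apply, h1 e he, g1 e he, add_zero]
    · rw [Pi.add_apply, Pi.add_apply, h2 e he, g2 e he]
    · simp only [Pi.add_apply]
      have := h3 t ht
      have := g3 t ht
      linear_combination h3 t ht + g3 t ht
  zero_mem' := ⟨fun _ _ => rfl, fun _ _ => rfl, fun _ _ => by simp⟩
  smul_mem' := by
    rintro c f ⟨h1, h2, h3⟩
    refine ⟨fun e he => ?_, fun e he => ?_, fun t ht => ?_⟩
    · rw [Pi.smul_apply, h1 e he, smul_zero]
    · rw [Pi.smul_apply, Pi.smul_apply, h2 e he]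
    · simp only [Pi.smul_apply, smul_eq_mul]
      linear_combination c * h3 t ht

lemma mem_Z {P : TriPres A} {E : Finset (V × A × V)} {R0 : Finset (A × A × A)}
    {f : (V × A × V) → ZMod 2} : f ∈ Z P E R0 ↔ (∀ e, e ∉ E → f e = 0) ∧
    (∀ e ∈ E, f (rev P e) = f e) ∧ ∀ t ∈ cells E R0, f t.1 + f t.2.1 + f t.2.2 = 0 := Iff.rfl

lemma zmod2_add_self (x : ZMod 2) : x + x = 0 := CharTwo.add_self_eq_zero x

lemma zmod2_eq_of_add {x y : ZMod 2} (h : x + y = 0) : x = y := CharTwo.add_eq_zero.mp h

/-! ### dimension lower bound -/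

lemma exists_half [Fintype V] [Fintype A] (P : TriPres A) (E : Finset (V × A × V))
    (hE : Symm P E) : ∃ Ep ⊆ E, (∀ e ∈ E, e ∈ Ep ↔ rev P e ∉ Ep) := by
  classical
  let φ := Fintype.equivFin (V × A × V)
  refine ⟨E.filter (fun e => φ e < φ (rev P e)), Finset.filter_subset _ _, ?_⟩
  intro e he
  rw [Finset.mem_filter, Finset.mem_filter]
  rw [rev_rev]
  have hne : φ e ≠ φ (rev P e) := fun h => rev_ne P e (φ.injective h).symm
  constructor
  · rintro ⟨_, h⟩ ⟨_, h'⟩
    exact absurd h (not_lt.mpr h'.le)
  · intro h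
    refine ⟨he, ?_⟩
    by_contra h'
    exact h ⟨hE e he, lt_of_le_of_ne (not_lt.mp h') hne.symm⟩

lemma card_half [Fintype V] [Fintype A] [DecidableEq V] [DecidableEq A] (P : TriPres A)
    (E Ep : Finset (V × A × V))
    (hE : Symm P E) (hsub : Ep ⊆ E) (h : ∀ e ∈ E, e ∈ Ep ↔ rev P e ∉ Ep) :
    E.card = 2 * Ep.card := by
  have h1 : E = Ep ∪ Ep.image (rev P) := by
    ext e
    rw [Finset.mem_union, Finset.mem_image]
    constructor
    · intro he
      by_cases h2 : e ∈ Ep
      · exact Or.inl h2
      · right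
        refine ⟨rev P e, ?_, rev_rev P e⟩
        by_contra h3
        exact h2 ((h e he).mpr h3)
    · rintro (h2 | ⟨e', he', rfl⟩)
      · exact hsub h2
      · exact hE _ (hsub he')
  have hdisj : Disjoint Ep (Ep.image (rev P)) := by
    rw [Finset.disjoint_left]
    intro e he he'
    rw [Finset.mem_image] at he'
    obtain ⟨e', he', rfl⟩ := he'
    exact ((h e' (hsub he')).mp he') he
  conv_lhs => rw [h1]
  rw [Finset.card_union_of_disjoint hdisj, Finset.card_image_of_injective _
    (fun a b hab => by rw [← rev_rev P a, hab, rev_rev])]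
  ring

lemma cell_ne {P : TriPres A} {E : Finset (V × A × V)} {R0 : Finset (A × A × A)}
    (hR : RelClosed P R0) {t : (V × A × V) × (V × A × V) × (V × A × V)}
    (ht : t ∈ cells E R0) : t.1.2.1 ≠ t.2.1.2.1 ∧ t.2.1.2.1 ≠ t.2.2.2.1 ∧
      t.2.2.2.1 ≠ t.1.2.1 ∧ t.1.2.1 ≠ P.inv t.2.1.2.1 ∧ t.2.1.2.1 ≠ P.inv t.2.2.2.1 ∧
      t.2.2.2.1 ≠ P.inv t.1.2.1 := by
  rw [mem_cells] at ht
  have h := hR.sub _ _ _ ht.2.2.2.2
  have h' := P.rot _ _ _ h
  have h'' := P.rot _ _ _ h'
  exact ⟨P.ne1 _ _ _ h, P.ne1 _ _ _ h', P.ne1 _ _ _ h'', P.ne2 _ _ _ h, P.ne2 _ _ _ h',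
    P.ne2 _ _ _ h''⟩

lemma inv_ne_comm {P : TriPres A} {a b : A} (h : a ≠ P.inv b) : b ≠ P.inv a := by
  intro h'
  apply h
  rw [h', P.inv_inv]

open Classical in
/-- dimension of the space of cocycles is at least edges minus cells -/
lemma dim_ge [Fintype V] [Fintype A] {P : TriPres A} {E : Finset (V × A × V)}
    {R0 : Finset (A × A × A)} (hR : RelClosed P R0) (hE : Symm P E) :
    3 * E.card ≤ 6 * finrank (ZMod 2) (Z P E R0) + (cells E R0).card := by
  obtain ⟨Ep, hsub, hEp⟩ := exists_half P E hE
  have hcard := card_half P E Ep hE hsub hEp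
  -- absolute value
  let ab : V × A × V → V × A × V := fun e => if e ∈ Ep then e else rev P e
  have hab : ∀ e ∈ E, ab e ∈ Ep := by
    intro e he
    simp only [ab]
    split_ifs with h
    · exact h
    · by_contra h2
      exact h ((hEp e he).mpr h2)
  have habr : ∀ e ∈ E, ab (rev P e) = ab e := by
    intro e he
    simp only [ab, rev_rev]
    by_cases h : e ∈ Ep
    · rw [if_pos h, if_neg ((hEp e he).mp h)]
    · have : rev P e ∈ Ep := by
        by_contra h2; exact h ((hEp e he).mpr h2)
      rw [if_neg h, if_pos this]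
  have habeq : ∀ e e', ab e = ab e' → e = e' ∨ e = rev P e' := by
    intro e e' h
    simp only [ab] at h
    split_ifs at h
    · exact Or.inl h
    · exact Or.inr h
    · right; rw [← h, rev_rev]
    · left; rw [← rev_rev P e, h, rev_rev]
  have hablab : ∀ e e', ab e = ab e' → e.2.1 = e'.2.1 ∨ e.2.1 = P.inv e'.2.1 := by
    intro e e' h
    rcases habeq e e' h with h | h
    · left; rw [h]
    · right; rw [h]; rfl
  let q : (V × A × V) × (V × A × V) × (V × A × V) → Finset (V × A × V) :=
    fun t => {ab t.1, ab t.2.1, ab t.2.2}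
  have hdist : ∀ t ∈ cells E R0, ab t.1 ≠ ab t.2.1 ∧ ab t.2.1 ≠ ab t.2.2 ∧ ab t.1 ≠ ab t.2.2 := by
    intro t ht
    obtain ⟨h1, h2, h3, h4, h5, h6⟩ := cell_ne hR ht
    refine ⟨fun h => ?_, fun h => ?_, fun h => ?_⟩
    · rcases hablab _ _ h with h | h
      · exact h1 h
      · exact h4 h
    · rcases hablab _ _ h with h | h
      · exact h2 h
      · exact h5 h
    · rcases hablab _ _ h with h | h
      · exact h3 h.symm
      · exact inv_ne_comm h6 h
  have hsum : ∀ (f : V × A × V → ZMod 2), ∀ t ∈ cells E R0,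
      ∑ x ∈ q t, f x = f (ab t.1) + f (ab t.2.1) + f (ab t.2.2) := by
    intro f t ht
    obtain ⟨h1, h2, h3⟩ := hdist t ht
    simp only [q]
    rw [Finset.sum_insert, Finset.sum_insert, Finset.sum_singleton]
    · ring
    · simpa using h2
    · simp only [mem_insert, mem_singleton, not_or]
      exact ⟨h1, h3⟩
  let Cq := (cells E R0).image q
  have hqr : ∀ t, q (rot3 t) = q t := by
    intro t
    simp only [q, rot3]
    ext x; simp only [mem_insert, mem_singleton]; tauto
  have hqf : ∀ t ∈ cells E R0, q (flip3 P t) = q t := by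
    intro t ht
    rw [mem_cells] at ht
    simp only [q, flip3]
    rw [habr _ ht.1.1, habr _ ht.1.2.1, habr _ ht.1.2.2]
    ext x; simp only [mem_insert, mem_singleton]; tauto
  have h6 : 6 * Cq.card ≤ (cells E R0).card := by
    rw [Finset.card_eq_sum_card_image q (cells E R0)]
    rw [mul_comm, ← smul_eq_mul]
    apply Finset.card_nsmul_le_sum
    intro s hs
    simp only [Cq, mem_image] at hs
    obtain ⟨t, ht, rfl⟩ := hs
    -- six elements
    have m0 := ht
    have m1 := rot_mem hR m0
    have m2 := rot_mem hR m1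
    have n0 := flip_mem hR hE m0
    have n1 := rot_mem hR n0
    have n2 := rot_mem hR n1
    obtain ⟨h1, h2, h3, h4, h5, h6⟩ := cell_ne hR ht
    have h4' := inv_ne_comm h4
    have h5' := inv_ne_comm h5
    have h6' := inv_ne_comm h6
    have hsub6 : ({t, rot3 t, rot3 (rot3 t), flip3 P t, rot3 (flip3 P t),
        rot3 (rot3 (flip3 P t))} : Finset _) ⊆ (cells E R0).filter (fun x => q x = q t) := by
      intro x hx
      simp only [mem_insert, mem_singleton] at hx
      rw [Finset.mem_filter]
      rcases hx with rfl | rfl | rfl | rfl | rfl | rfl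
      · exact ⟨m0, rfl⟩
      · exact ⟨m1, hqr _⟩
      · exact ⟨m2, by rw [hqr, hqr]⟩
      · exact ⟨n0, hqf _ ht⟩
      · exact ⟨n1, by rw [hqr, hqf _ ht]⟩
      · exact ⟨n2, by rw [hqr, hqr, hqf _ ht]⟩
    refine le_trans ?_ (Finset.card_le_card hsub6)
    -- distinct first labels
    have hinj : ({t.1.2.1, t.2.1.2.1, t.2.2.2.1, P.inv t.2.2.2.1, P.inv t.2.1.2.1,
        P.inv t.1.2.1} : Finset A) ⊆ ({t, rot3 t, rot3 (rot3 t), flip3 P t, rot3 (flip3 P t),
        rot3 (rot3 (flip3 P t))} : Finset _).image (fun x => x.1.2.1) := by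
      intro a ha
      simp only [mem_insert, mem_singleton] at ha
      rw [Finset.mem_image]
      rcases ha with rfl | rfl | rfl | rfl | rfl | rfl
      · exact ⟨t, by simp, rfl⟩
      · exact ⟨rot3 t, by simp, rfl⟩
      · exact ⟨rot3 (rot3 t), by simp, rfl⟩
      · exact ⟨flip3 P t, by simp, rfl⟩
      · exact ⟨rot3 (flip3 P t), by simp, rfl⟩
      · exact ⟨rot3 (rot3 (flip3 P t)), by simp, rfl⟩
    have hc := (Finset.card_le_card hinj).trans Finset.card_image_le
    refine le_trans ?_ hc
    have hii : ∀ a b, P.inv a = P.inv b → a = b := fun a b h => by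
      rw [← P.inv_inv a, h, P.inv_inv]
    have i1 := P.inv_ne t.1.2.1
    have i2 := P.inv_ne t.2.1.2.1
    have i3 := P.inv_ne t.2.2.2.1
    rw [Finset.card_insert_of_notMem, Finset.card_insert_of_notMem,
      Finset.card_insert_of_notMem, Finset.card_insert_of_notMem,
      Finset.card_insert_of_notMem, Finset.card_singleton]
    · simp only [mem_singleton]; intro h; exact h1 (hii _ _ h).symm
    · simp only [mem_insert, mem_singleton, not_or]
      exact ⟨fun h => h2 (hii _ _ h).symm, fun h => h3 (hii _ _ h)⟩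
    · simp only [mem_insert, mem_singleton, not_or]
      exact ⟨i3.symm, h5', h6⟩
    · simp only [mem_insert, mem_singleton, not_or]
      exact ⟨h2, h5, i2.symm, h4'⟩
    · simp only [mem_insert, mem_singleton, not_or]
      exact ⟨h1, h3.symm, h6', h4, i1.symm⟩
  -- linear map
  let L : (Ep → ZMod 2) →ₗ[ZMod 2] (Cq → ZMod 2) :=
    { toFun := fun f s => ∑ x ∈ s.1, (if h : x ∈ Ep then f ⟨x, h⟩ else 0)
      map_add' := by
        intro f g
        funext s
        simp only [Pi.add_apply]
        rw [← Finset.sum_add_distrib]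
        apply Finset.sum_congr rfl
        intro x _
        split_ifs <;> simp
      map_smul' := by
        intro c f
        funext s
        simp only [Pi.smul_apply, smul_eq_mul, RingHom.id_apply]
        rw [Finset.mul_sum]
        apply Finset.sum_congr rfl
        intro x _
        split_ifs <;> simp }
  have hker : Ep.card ≤ finrank (ZMod 2) (LinearMap.ker L) + Cq.card := by
    have h1 := LinearMap.finrank_range_add_finrank_ker L
    have h2 : finrank (ZMod 2) (LinearMap.range L) ≤ Cq.card := by
      refine (Submodule.finrank_le _).trans ?_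
      rw [Module.finrank_fintype_fun_eq_card, Fintype.card_coe]
    rw [Module.finrank_fintype_fun_eq_card, Fintype.card_coe] at h1
    omega
  let T : LinearMap.ker L →ₗ[ZMod 2] Z P E R0 :=
    { toFun := fun f => ⟨fun e => if h : e ∈ E then f.1 ⟨ab e, hab e h⟩ else 0, by
        rw [mem_Z]
        refine ⟨fun e he => dif_neg he, fun e he => ?_, fun t ht => ?_⟩
        · rw [dif_pos he, dif_pos (hE e he)]
          have h5 : (⟨ab (rev P e), hab _ (hE e he)⟩ : Ep) = ⟨ab e, hab e he⟩ :=
            Subtype.ext (habr e he)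
          rw [h5]
        · have ht' := ht
          rw [mem_cells] at ht'
          obtain ⟨⟨e1, e2, e3⟩, _⟩ := ht'
          rw [dif_pos e1, dif_pos e2, dif_pos e3]
          have hf := f.2
          rw [LinearMap.mem_ker] at hf
          have hf' := congrFun hf ⟨q t, Finset.mem_image_of_mem q ht⟩
          have hf'' : ∑ x ∈ q t, (if h : x ∈ Ep then f.1 ⟨x, h⟩ else 0) = 0 := hf'
          rw [hsum _ t ht, dif_pos (hab _ e1), dif_pos (hab _ e2), dif_pos (hab _ e3)] at hf''
          exact hf''⟩
      map_add' := by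
        intro f g
        apply Subtype.ext
        funext e
        simp only [Submodule.coe_add, Pi.add_apply]
        split_ifs <;> simp
      map_smul' := by
        intro c f
        apply Subtype.ext
        funext e
        simp only [Submodule.coe_smul, Pi.smul_apply, RingHom.id_apply]
        split_ifs <;> simp }
  have hT : Function.Injective T := by
    intro f g hfg
    apply Subtype.ext
    funext x
    have h1 := congrFun (congrArg Subtype.val hfg) x.1
    have hxE : x.1 ∈ E := hsub x.2
    have h2 : (if h : x.1 ∈ E then f.1 ⟨ab x.1, hab x.1 h⟩ else 0) =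
      (if h : x.1 ∈ E then g.1 ⟨ab x.1, hab x.1 h⟩ else 0) := h1
    rw [dif_pos hxE, dif_pos hxE] at h2
    have h3 : (⟨ab x.1, hab x.1 hxE⟩ : Ep) = x := by
      apply Subtype.ext
      simp only [ab]
      rw [if_pos x.2]
    rw [h3] at h2
    exact h2
  have hle := LinearMap.finrank_le_finrank_of_injective hT
  omega

/-! ### folding -/

/-- the smallest equivalence relation making the quotient deterministic -/
inductive Fold (E : Finset (V × A × V)) : V → V → Prop
  | refl (v : V) : Fold E v v
  | symm {v w : V} : Fold E v w → Fold E w v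
  | trans {u v w : V} : Fold E u v → Fold E v w → Fold E u w
  | step {v w v' w' : V} {a : A} : Fold E v w → (v, a, v') ∈ E → (w, a, w') ∈ E → Fold E v' w'

/-- map on edges -/
def eMap (π : V → W) (e : V × A × V) : W × A × W := (π e.1, e.2.1, π e.2.2)

lemma eMap_rev (P : TriPres A) (π : V → W) (e : V × A × V) :
    eMap π (rev P e) = rev P (eMap π e) := rfl

open Classical in
/-- image of a set of edges -/
noncomputable def img (π : V → W) (E : Finset (V × A × V)) : Finset (W × A × W) :=
  E.image (eMap π)

lemma mem_img {π : V → W} {E : Finset (V × A × V)} {e : W × A × W} :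
    e ∈ img π E ↔ ∃ e' ∈ E, eMap π e' = e := by
  classical
  unfold img
  rw [Finset.mem_image]

lemma mem_img_of {π : V → W} {E : Finset (V × A × V)} {e : V × A × V} (he : e ∈ E) :
    eMap π e ∈ img π E := mem_img.mpr ⟨e, he, rfl⟩

lemma img_symm {P : TriPres A} {π : V → W} {E : Finset (V × A × V)} (hE : Symm P E) :
    Symm P (img π E) := by
  intro e he
  rw [mem_img] at he ⊢
  obtain ⟨e', he', rfl⟩ := he
  exact ⟨rev P e', hE e' he', eMap_rev P _ _⟩

/-- folding exists -/
lemma exists_fold [Fintype V] (P : TriPres A) (E : Finset (V × A × V))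
    (hE : Symm P E) :
    ∃ (W : Type) (_ : Fintype W) (π : V → W), Function.Surjective π ∧
      Symm P (img π E) ∧ Det (img π E) ∧
      ∀ (F : W × A × W → ZMod 2) (h : V → ZMod 2), (∀ e ∈ E, h e.1 + h e.2.2 = F (eMap π e)) →
        ∀ v w, π v = π w → h v = h w := by
  classical
  let s : Setoid V := ⟨Fold E, ⟨Fold.refl, Fold.symm, Fold.trans⟩⟩
  refine ⟨Quotient s, inferInstance, Quotient.mk s, Quotient.mk_surjective, img_symm hE, ?_, ?_⟩
  · intro e he e' he' h1 h2
    rw [mem_img] at he he'
    obtain ⟨⟨v, a, w⟩, he, rfl⟩ := he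
    obtain ⟨⟨v', a', w'⟩, he', rfl⟩ := he'
    simp only [eMap] at h1 h2 ⊢
    subst h2
    have h3 : Fold E v v' := Quotient.exact h1
    have h4 : Fold E w w' := Fold.step h3 he he'
    rw [h1, Quotient.sound (s := s) h4]
  · intro F h hF v w hvw
    have h3 : Fold E v w := Quotient.exact hvw
    have key : ∀ v w, Fold E v w → h v = h w := by
      intro v w hf
      induction hf with
      | refl v => rfl
      | symm _ ih => exact ih.symm
      | trans _ _ ih1 ih2 => exact ih1.trans ih2
      | @step v w v' w' a hf he he' ih =>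
        have e1 := hF _ he
        have e2 := hF _ he'
        simp only [eMap] at e1 e2
        have hq : Quotient.mk s v = Quotient.mk s w := Quotient.sound hf
        have hq' : Quotient.mk s v' = Quotient.mk s w' := Quotient.sound (Fold.step hf he he')
        rw [hq, hq'] at e1
        rw [ih, ← e2] at e1
        exact add_left_cancel e1
    exact key v w h3

lemma cell_img {π : V → W} {E : Finset (V × A × V)} {R0 : Finset (A × A × A)}
    {t : (V × A × V) × (V × A × V) × (V × A × V)} (ht : t ∈ cells E R0) :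
    (eMap π t.1, eMap π t.2.1, eMap π t.2.2) ∈ cells (img π E) R0 := by
  rw [mem_cells] at ht ⊢
  obtain ⟨⟨h1, h2, h3⟩, h4, h5, h6, h7⟩ := ht
  refine ⟨⟨mem_img_of h1, mem_img_of h2, mem_img_of h3⟩, ?_, ?_, ?_, h7⟩
  · simp only [eMap]; rw [h4]
  · simp only [eMap]; rw [h5]
  · simp only [eMap]; rw [h6]

open Classical in
/-- dimension inequality for folding -/
lemma fold_dim [Fintype V] [Fintype A] [Fintype W] {P : TriPres A} {E : Finset (V × A × V)}
    {R0 : Finset (A × A × A)} (hE : Symm P E) (π : V → W)
    (hconst : ∀ (F : W × A × W → ZMod 2) (h : V → ZMod 2),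
      (∀ e ∈ E, h e.1 + h e.2.2 = F (eMap π e)) → ∀ v w, π v = π w → h v = h w)
    (hsurj : Function.Surjective π) :
    finrank (ZMod 2) (Z P (img π E) R0) + Fintype.card V ≤
      finrank (ZMod 2) (Z P E R0) + Fintype.card W := by
  let Ψ : (Z P (img π E) R0 × (V → ZMod 2)) →ₗ[ZMod 2] Z P E R0 :=
    { toFun := fun p => ⟨fun e => if e ∈ E then p.1.1 (eMap π e) + (p.2 e.1 + p.2 e.2.2) else 0, by
        rw [mem_Z]
        obtain ⟨f, h⟩ := p
        have hf := f.2
        rw [mem_Z] at hf
        obtain ⟨f1, f2, f3⟩ := hf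
        refine ⟨fun e he => if_neg he, fun e he => ?_, fun t ht => ?_⟩
        · rw [if_pos he, if_pos (hE e he), eMap_rev, f2 _ (mem_img_of he)]
          simp only [rev]
          ring
        · have ht' := ht
          rw [mem_cells] at ht'
          obtain ⟨⟨h1, h2, h3⟩, h4, h5, h6, h7⟩ := ht'
          rw [if_pos h1, if_pos h2, if_pos h3]
          have := f3 _ (cell_img ht)
          simp only at this
          rw [h4, h5, h6]
          linear_combination this + zmod2_add_self (h t.2.1.1) + zmod2_add_self (h t.2.2.1) +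
            zmod2_add_self (h t.1.1)⟩
      map_add' := by
        intro p q
        apply Subtype.ext
        funext e
        simp only [Prod.fst_add, Prod.snd_add, Submodule.coe_add, Pi.add_apply]
        split_ifs
        · ring
        · simp
      map_smul' := by
        intro c p
        apply Subtype.ext
        funext e
        simp only [Prod.smul_fst, Prod.smul_snd, Submodule.coe_smul, Pi.smul_apply,
          RingHom.id_apply, smul_eq_mul]
        split_ifs
        · ring
        · simp }
  let Θ : (W → ZMod 2) →ₗ[ZMod 2] (Z P (img π E) R0 × (V → ZMod 2)) :=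
    { toFun := fun k => (⟨fun e => if e ∈ img π E then k e.1 + k e.2.2 else 0, by
        rw [mem_Z]
        refine ⟨fun e he => if_neg he, fun e he => ?_, fun t ht => ?_⟩
        · rw [if_pos he, if_pos (img_symm hE e he)]
          simp only [rev]
          ring
        · have ht' := ht
          rw [mem_cells] at ht'
          obtain ⟨⟨h1, h2, h3⟩, h4, h5, h6, h7⟩ := ht'
          rw [if_pos h1, if_pos h2, if_pos h3, h4, h5, h6]
          linear_combination zmod2_add_self (k t.2.1.1) + zmod2_add_self (k t.2.2.1) +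
            zmod2_add_self (k t.1.1)⟩, fun v => k (π v))
      map_add' := by
        intro p q
        refine Prod.ext (Subtype.ext ?_) rfl
        funext e
        simp only [Prod.fst_add, Submodule.coe_add, Pi.add_apply]
        split_ifs
        · ring
        · simp
      map_smul' := by
        intro c p
        refine Prod.ext (Subtype.ext ?_) rfl
        funext e
        simp only [Prod.smul_fst, Submodule.coe_smul, Pi.smul_apply,
          RingHom.id_apply, smul_eq_mul]
        split_ifs
        · ring
        · simp }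
  have hsub : LinearMap.ker Ψ ≤ LinearMap.range Θ := by
    rintro ⟨f, h⟩ hfh
    rw [LinearMap.mem_ker] at hfh
    have hfh' : ∀ e ∈ E, f.1 (eMap π e) + (h e.1 + h e.2.2) = 0 := by
      intro e he
      have h1 := congrFun (congrArg Subtype.val hfh) e
      have h2 : (if e ∈ E then f.1 (eMap π e) + (h e.1 + h e.2.2) else 0) = 0 := h1
      rw [if_pos he] at h2
      exact h2
    have hc := hconst f.1 h (fun e he => (zmod2_eq_of_add (hfh' e he)).symm)
    -- descend h
    obtain ⟨r, hr⟩ := hsurj.hasRightInverse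
    refine ⟨fun x => h (r x), ?_⟩
    have hh : ∀ v, h (r (π v)) = h v := fun v => hc _ _ (hr (π v))
    refine Prod.ext (Subtype.ext ?_) ?_
    · funext e
      change (if e ∈ img π E then h (r e.1) + h (r e.2.2) else 0) = f.1 e
      have hf := f.2
      rw [mem_Z] at hf
      by_cases he : e ∈ img π E
      · rw [if_pos he]
        rw [mem_img] at he
        obtain ⟨e', he', rfl⟩ := he
        have := hfh' e' he'
        simp only [eMap] at this ⊢
        rw [hh, hh]
        exact (zmod2_eq_of_add this).symm
      · rw [if_neg he, hf.1 e he]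
    · funext v
      exact hh v
  have h1 := LinearMap.finrank_range_add_finrank_ker Ψ
  have h2 : finrank (ZMod 2) (LinearMap.range Ψ) ≤ finrank (ZMod 2) (Z P E R0) :=
    Submodule.finrank_le _
  have h3 : finrank (ZMod 2) (LinearMap.ker Ψ) ≤ Fintype.card W := by
    refine (Submodule.finrank_mono hsub).trans ?_
    refine (LinearMap.finrank_range_le Θ).trans ?_
    rw [Module.finrank_fintype_fun_eq_card]
  rw [Module.finrank_prod, Module.finrank_fintype_fun_eq_card] at h1
  omega

/-! ### layer cake -/

open Classical in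
/-- number of edges over an edge -/
noncomputable def mE (π : V → W) (E : Finset (V × A × V)) (e : W × A × W) : ℕ :=
  (E.filter (fun e' => eMap π e' = e)).card

open Classical in
/-- number of chosen cells over a cell -/
noncomputable def mJ (π : V → W) (J : Finset ((V × A × V) × (V × A × V) × (V × A × V)))
    (t : (W × A × W) × (W × A × W) × (W × A × W)) : ℕ :=
  (J.filter (fun t' => (eMap π t'.1, eMap π t'.2.1, eMap π t'.2.2) = t)).card

lemma card_layers {α β : Type} [DecidableEq β] (s : Finset α) (t : Finset β) (f : α → β)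
    (hf : ∀ a ∈ s, f a ∈ t) (N : ℕ) (hN : s.card ≤ N) :
    s.card = ∑ i ∈ range N, (t.filter (fun b => i < (s.filter (fun a => f a = b)).card)).card := by
  classical
  rw [Finset.card_eq_sum_card_fiberwise hf]
  have h1 : ∀ i, (t.filter (fun b => i < (s.filter (fun a => f a = b)).card)).card =
      ∑ b ∈ t, if i < (s.filter (fun a => f a = b)).card then 1 else 0 := by
    intro i
    rw [Finset.card_filter]
  simp_rw [h1]
  rw [Finset.sum_comm]
  apply Finset.sum_congr rfl
  intro b _
  have h2 : (s.filter (fun a => f a = b)).card ≤ N :=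
    (Finset.card_le_card (Finset.filter_subset _ _)).trans hN
  rw [← Finset.card_filter]
  have h3 : (range N).filter (fun i => i < (s.filter (fun a => f a = b)).card) =
      range (s.filter (fun a => f a = b)).card := by
    ext i
    simp only [mem_filter, mem_range]
    omega
  rw [h3, Finset.card_range]

open Classical in
/-- Folding does not increase the functional. -/
lemma layer [Fintype V] [Fintype A] [Fintype W] {P : TriPres A} {E : Finset (V × A × V)}
    {R0 : Finset (A × A × A)} (hE : Symm P E) (π : V → W)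
    (hD : Det (img π E)) (B : ℕ)
    (J : Finset ((V × A × V) × (V × A × V) × (V × A × V))) (hJ : J ⊆ cells E R0)
    (hJrot : ∀ t ∈ J, rot3 t ∈ J)
    (hJdet : ∀ t ∈ J, ∀ t' ∈ J, t.1 = t'.1 → t.2.1.2.1 = t'.2.1.2.1 → t.2.2.2.1 = t'.2.2.2.1 →
      t = t')
    (hpos : ∀ E1 : Finset (W × A × W), Symm P E1 → Det E1 →
      (B + 1) * (cells E1 R0).card ≤ 3 * B * E1.card) :
    3 * B * (img π E).card + (B + 1) * J.card ≤
      3 * B * E.card + (B + 1) * (cells (img π E) R0).card := by
  let F : ((V × A × V) × (V × A × V) × (V × A × V)) → (W × A × W) × (W × A × W) × (W × A × W) :=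
    fun t' => (eMap π t'.1, eMap π t'.2.1, eMap π t'.2.2)
  have hF : ∀ t ∈ J, F t ∈ cells (img π E) R0 := fun t ht => cell_img (hJ ht)
  let N := E.card + J.card + 1
  let Ei : ℕ → Finset (W × A × W) := fun i =>
    (img π E).filter (fun b => i < (E.filter (fun a => eMap π a = b)).card)
  let Ji : ℕ → Finset ((W × A × W) × (W × A × W) × (W × A × W)) := fun i =>
    (cells (img π E) R0).filter (fun b => i < (J.filter (fun a => F a = b)).card)
  have hEc : E.card = ∑ i ∈ range N, (Ei i).card :=
    card_layers E (img π E) (eMap π) (fun a ha => mem_img_of ha) N (by omega)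
  have hJc : J.card = ∑ i ∈ range N, (Ji i).card :=
    card_layers J (cells (img π E) R0) F hF N (by omega)
  have hE0 : Ei 0 = img π E := by
    simp only [Ei]
    rw [Finset.filter_eq_self]
    intro e he
    rw [Finset.card_pos]
    rw [mem_img] at he
    obtain ⟨e', he', h⟩ := he
    exact ⟨e', Finset.mem_filter.mpr ⟨he', h⟩⟩
  have hJ0 : (Ji 0).card ≤ (cells (img π E) R0).card :=
    Finset.card_le_card (Finset.filter_subset _ _)
  -- multiplicities
  have hm1 : ∀ t : (W × A × W) × (W × A × W) × (W × A × W),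
      (J.filter (fun a => F a = t)).card ≤ (E.filter (fun a => eMap π a = t.1)).card := by
    intro t
    apply Finset.card_le_card_of_injOn (fun a => a.1)
    · intro a ha
      simp only [coe_filter, Set.mem_ofPred_eq] at ha ⊢
      have h1 := hJ ha.1
      rw [mem_cells] at h1
      refine ⟨h1.1.1, ?_⟩
      rw [← ha.2]
    · intro a ha b hb hab
      simp only [coe_filter, Set.mem_ofPred_eq] at ha hb
      have hFa := ha.2.trans hb.2.symm
      simp only [F, Prod.mk.injEq] at hFa
      apply hJdet a ha.1 b hb.1 hab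
      · have := hFa.2.1
        simp only [eMap, Prod.mk.injEq] at this
        exact this.2.1
      · have := hFa.2.2
        simp only [eMap, Prod.mk.injEq] at this
        exact this.2.1
  have hrotm : ∀ t : (W × A × W) × (W × A × W) × (W × A × W),
      (J.filter (fun a => F a = t)).card ≤ (J.filter (fun a => F a = rot3 t)).card := by
    intro t
    apply Finset.card_le_card_of_injOn rot3
    · intro a ha
      simp only [coe_filter, Set.mem_ofPred_eq] at ha ⊢
      refine ⟨hJrot a ha.1, ?_⟩
      rw [← ha.2]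
      rfl
    · intro a _ b _ hab
      have : rot3 (rot3 (rot3 a)) = rot3 (rot3 (rot3 b)) := by rw [hab]
      exact this
  have hm2 : ∀ t : (W × A × W) × (W × A × W) × (W × A × W),
      (J.filter (fun a => F a = t)).card ≤ (E.filter (fun a => eMap π a = t.2.1)).card :=
    fun t => (hrotm t).trans (hm1 (rot3 t))
  have hm3 : ∀ t : (W × A × W) × (W × A × W) × (W × A × W),
      (J.filter (fun a => F a = t)).card ≤ (E.filter (fun a => eMap π a = t.2.2)).card :=
    fun t => (hrotm t).trans ((hrotm _).trans (hm1 (rot3 (rot3 t))))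
  have hEisymm : ∀ i, Symm P (Ei i) := by
    intro i e he
    simp only [Ei, mem_filter] at he ⊢
    refine ⟨img_symm hE e he.1, lt_of_lt_of_le he.2 ?_⟩
    apply Finset.card_le_card_of_injOn (rev P)
    · intro a ha
      simp only [coe_filter, Set.mem_ofPred_eq] at ha ⊢
      refine ⟨hE a ha.1, ?_⟩
      rw [eMap_rev, ha.2]
    · intro a _ b _ hab
      rw [← rev_rev P a, hab, rev_rev]
  have hEidet : ∀ i, Det (Ei i) := by
    intro i e he e' he' h1 h2
    simp only [Ei, mem_filter] at he he'
    exact hD e he.1 e' he'.1 h1 h2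
  have hJi : ∀ i, Ji i ⊆ cells (Ei i) R0 := by
    intro i t ht
    simp only [Ji, mem_filter] at ht
    have h1 := ht.1
    rw [mem_cells] at h1 ⊢
    refine ⟨⟨?_, ?_, ?_⟩, h1.2⟩
    · simp only [Ei, mem_filter]; exact ⟨h1.1.1, lt_of_lt_of_le ht.2 (hm1 t)⟩
    · simp only [Ei, mem_filter]; exact ⟨h1.1.2.1, lt_of_lt_of_le ht.2 (hm2 t)⟩
    · simp only [Ei, mem_filter]; exact ⟨h1.1.2.2, lt_of_lt_of_le ht.2 (hm3 t)⟩
  have hlev : ∀ i, (B + 1) * (Ji i).card ≤ 3 * B * (Ei i).card := fun i =>
    (Nat.mul_le_mul_left _ (Finset.card_le_card (hJi i))).trans (hpos _ (hEisymm i) (hEidet i))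
  have hN : N = (E.card + J.card) + 1 := rfl
  rw [hEc, hJc, hN, Finset.sum_range_succ' , Finset.sum_range_succ', hE0, mul_add, mul_add,
    Finset.mul_sum, Finset.mul_sum]
  have h1 : ∑ i ∈ range (E.card + J.card), (B + 1) * (Ji (i + 1)).card ≤
      ∑ i ∈ range (E.card + J.card), 3 * B * (Ei (i + 1)).card :=
    Finset.sum_le_sum (fun i _ => hlev (i + 1))
  have h2 : (B + 1) * (Ji 0).card ≤ (B + 1) * (cells (img π E) R0).card :=
    Nat.mul_le_mul_left _ hJ0
  omega

end Pool.Agent.HTRank.Abs
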