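import Pool.Agent.HTRank.Abs3

/-! Abstract theorem, part 4: admissible graphs and the moves that add edges. -/

set_option autoImplicit false

open Finset Module

namespace Pool.Agent.HTRank.Abs

variable {A V W : Type}

/-- every morphism to an action is constant with fixed value -/
def Sj (P : TriPres A) (E : Finset (V × A × V)) : Prop :=
  ∀ (Ω : Type) (X : Act P Ω) (g : V → Ω), (∀ e ∈ E, X.σ e.2.1 (g e.1) = g e.2.2) →
    ∀ v, (∀ w, g w = g v) ∧ ∀ a, X.σ a (g v) = g v

/-- admissible graphs -/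
structure Adm (P : TriPres A) (k r0 : ℕ) (V : Type) [Fintype V] [Fintype A]
    (E : Finset (V × A × V)) (R0 : Finset (A × A × A)) : Prop where
  symm : Symm P E
  det : Det E
  rel : RelClosed P R0
  card : R0.card ≤ 6 * r0
  surj : Sj P E
  dim : finrank (ZMod 2) (Z P E R0) + 1 ≤ k + Fintype.card V
  ne : Nonempty V

/-- nonnegativity of the functional -/
def HPos (P : TriPres A) (r0 B : ℕ) : Prop :=
  ∀ (W : Type) [Fintype W] (E1 : Finset (W × A × W)) (R1 : Finset (A × A × A)),
    Symm P E1 → Det E1 → RelClosed P R1 → R1.card ≤ 6 * r0 →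
    (B + 1) * (cells E1 R1).card ≤ 3 * B * E1.card

/-- the functional -/
noncomputable def phi (B : ℕ) (E : Finset (V × A × V)) (R0 : Finset (A × A × A)) : ℤ :=
  3 * B * (E.card : ℤ) - (B + 1) * ((cells E R0).card : ℤ)

/-! ### adding relators -/

open Classical in
/-- orbit of a relator -/
noncomputable def orbR (P : TriPres A) (a b c : A) : Finset (A × A × A) :=
  {(a, b, c), (b, c, a), (c, a, b), (P.inv c, P.inv b, P.inv a), (P.inv b, P.inv a, P.inv c),
    (P.inv a, P.inv c, P.inv b)}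

open Classical in
/-- add a relator -/
noncomputable def addR (P : TriPres A) (R0 : Finset (A × A × A)) (a b c : A) :
    Finset (A × A × A) := R0 ∪ orbR P a b c

lemma sub_addR (P : TriPres A) (R0 : Finset (A × A × A)) (a b c : A) : R0 ⊆ addR P R0 a b c := by
  classical
  exact Finset.subset_union_left

lemma mem_addR (P : TriPres A) (R0 : Finset (A × A × A)) (a b c : A) :
    (a, b, c) ∈ addR P R0 a b c := by
  classical
  apply Finset.mem_union_right
  simp [orbR]

lemma card_addR (P : TriPres A) (R0 : Finset (A × A × A)) (a b c : A) :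
    (addR P R0 a b c).card ≤ R0.card + 6 := by
  classical
  refine (Finset.card_union_le _ _).trans ?_
  apply Nat.add_le_add_left
  unfold orbR
  exact Finset.card_le_six

lemma relClosed_addR {P : TriPres A} {R0 : Finset (A × A × A)} (hR : RelClosed P R0) {a b c : A}
    (habc : P.R a b c) : RelClosed P (addR P R0 a b c) := by
  classical
  have h1 := P.rot _ _ _ habc
  have h2 := P.rot _ _ _ h1
  have f0 := P.flip _ _ _ habc
  have f1 := P.rot _ _ _ f0
  have f2 := P.rot _ _ _ f1
  refine ⟨?_, ?_, ?_⟩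
  · intro x y z h
    unfold addR at h
    rw [Finset.mem_union] at h
    rcases h with h | h
    · exact hR.sub _ _ _ h
    · simp only [orbR, mem_insert, mem_singleton, Prod.mk.injEq] at h
      rcases h with ⟨rfl, rfl, rfl⟩ | ⟨rfl, rfl, rfl⟩ | ⟨rfl, rfl, rfl⟩ | ⟨rfl, rfl, rfl⟩ |
        ⟨rfl, rfl, rfl⟩ | ⟨rfl, rfl, rfl⟩
      · exact habc
      · exact h1
      · exact h2
      · exact f0
      · exact f1
      · exact f2
  · intro x y z h
    unfold addR at h ⊢
    rw [Finset.mem_union] at h ⊢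
    rcases h with h | h
    · exact Or.inl (hR.rot _ _ _ h)
    · right
      simp only [orbR, mem_insert, mem_singleton, Prod.mk.injEq] at h ⊢
      tauto
  · intro x y z h
    unfold addR at h ⊢
    rw [Finset.mem_union] at h ⊢
    rcases h with h | h
    · exact Or.inl (hR.flip _ _ _ h)
    · right
      simp only [orbR, mem_insert, mem_singleton, Prod.mk.injEq] at h ⊢
      rcases h with ⟨rfl, rfl, rfl⟩ | ⟨rfl, rfl, rfl⟩ | ⟨rfl, rfl, rfl⟩ | ⟨rfl, rfl, rfl⟩ |
        ⟨rfl, rfl, rfl⟩ | ⟨rfl, rfl, rfl⟩ <;> simp [P.inv_inv]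

lemma cells_mono {E E' : Finset (V × A × V)} {R0 R1 : Finset (A × A × A)} (hE : E ⊆ E')
    (hR : R0 ⊆ R1) : cells E R0 ⊆ cells E' R1 := by
  intro t ht
  rw [mem_cells] at ht ⊢
  exact ⟨⟨hE ht.1.1, hE ht.1.2.1, hE ht.1.2.2⟩, ht.2.1, ht.2.2.1, ht.2.2.2.1, hR ht.2.2.2.2⟩

/-! ### orbit of a cell -/

open Classical in
/-- the six rooted oriented versions of a cell -/
noncomputable def orb (P : TriPres A) (t : (V × A × V) × (V × A × V) × (V × A × V)) :
    Finset ((V × A × V) × (V × A × V) × (V × A × V)) :=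
  {t, rot3 t, rot3 (rot3 t), flip3 P t, rot3 (flip3 P t), rot3 (rot3 (flip3 P t))}

lemma mem_orb {P : TriPres A} {t x : (V × A × V) × (V × A × V) × (V × A × V)} :
    x ∈ orb P t ↔ x = t ∨ x = rot3 t ∨ x = rot3 (rot3 t) ∨ x = flip3 P t ∨
      x = rot3 (flip3 P t) ∨ x = rot3 (rot3 (flip3 P t)) := by
  classical
  simp only [orb, mem_insert, mem_singleton]

lemma orb_rot {P : TriPres A} {t x : (V × A × V) × (V × A × V) × (V × A × V)}
    (h : x ∈ orb P t) : rot3 x ∈ orb P t := by
  rw [mem_orb] at h ⊢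
  rcases h with rfl | rfl | rfl | rfl | rfl | rfl
  · right; left; rfl
  · right; right; left; rfl
  · left; rfl
  · right; right; right; right; left; rfl
  · right; right; right; right; right; rfl
  · right; right; right; left; rfl

lemma orb_sub {P : TriPres A} {E : Finset (V × A × V)} {R0 : Finset (A × A × A)}
    (hR : RelClosed P R0) (hE : Symm P E) {t : (V × A × V) × (V × A × V) × (V × A × V)}
    (ht : t ∈ cells E R0) : orb P t ⊆ cells E R0 := by
  intro x hx
  rw [mem_orb] at hx
  rcases hx with rfl | rfl | rfl | rfl | rfl | rfl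
  · exact ht
  · exact rot_mem hR ht
  · exact rot_mem hR (rot_mem hR ht)
  · exact flip_mem hR hE ht
  · exact rot_mem hR (flip_mem hR hE ht)
  · exact rot_mem hR (rot_mem hR (flip_mem hR hE ht))

open Classical in
lemma orb_lab {P : TriPres A} {E : Finset (V × A × V)} {R0 : Finset (A × A × A)}
    (hR : RelClosed P R0) {t : (V × A × V) × (V × A × V) × (V × A × V)}
    (ht : t ∈ cells E R0) : 6 ≤ ((orb P t).image (fun x => x.1.2.1)).card ∧
    (orb P t).card = 6 := by
  classical
  obtain ⟨h1, h2, h3, h4, h5, h6⟩ := cell_ne hR ht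
  have h4' := inv_ne_comm h4
  have h5' := inv_ne_comm h5
  have h6' := inv_ne_comm h6
  have hinj : ({t.1.2.1, t.2.1.2.1, t.2.2.2.1, P.inv t.2.2.2.1, P.inv t.2.1.2.1,
      P.inv t.1.2.1} : Finset A) ⊆ (orb P t).image (fun x => x.1.2.1) := by
    intro a ha
    simp only [mem_insert, mem_singleton] at ha
    rw [Finset.mem_image]
    rcases ha with rfl | rfl | rfl | rfl | rfl | rfl
    · exact ⟨t, by simp [mem_orb], rfl⟩
    · exact ⟨rot3 t, by simp [mem_orb], rfl⟩
    · exact ⟨rot3 (rot3 t), by simp [mem_orb], rfl⟩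
    · exact ⟨flip3 P t, by simp [mem_orb], rfl⟩
    · exact ⟨rot3 (flip3 P t), by simp [mem_orb], rfl⟩
    · exact ⟨rot3 (rot3 (flip3 P t)), by simp [mem_orb], rfl⟩
  have hii : ∀ a b, P.inv a = P.inv b → a = b := fun a b h => by
    rw [← P.inv_inv a, h, P.inv_inv]
  have i1 := P.inv_ne t.1.2.1
  have i2 := P.inv_ne t.2.1.2.1
  have i3 := P.inv_ne t.2.2.2.1
  have hsix : ({t.1.2.1, t.2.1.2.1, t.2.2.2.1, P.inv t.2.2.2.1, P.inv t.2.1.2.1,
      P.inv t.1.2.1} : Finset A).card = 6 := by
    rw [Finset.card_insert_of_notMem, Finset.card_insert_of_notMem,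
      Finset.card_insert_of_notMem, Finset.card_insert_of_notMem,
      Finset.card_insert_of_notMem, Finset.card_singleton]
    · simp only [mem_singleton]; intro h; exact h1 (hii _ _ h).symm
    · simp only [mem_insert, mem_singleton, not_or]
      exact ⟨fun h => h2 (hii _ _ h).symm, fun h => h3 (hii _ _ h)⟩
    · simp only [mem_insert, mem_singleton, not_or]
      exact ⟨i3.symm, h5', h6⟩
    · simp only [mem_insert, mem_singleton, not_or]
      exact ⟨h2, h5, i2.symm, h4'⟩
    · simp only [mem_insert, mem_singleton, not_or]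
      exact ⟨h1, h3.symm, h6', h4, i1.symm⟩
  have hle := Finset.card_le_card hinj
  rw [hsix] at hle
  refine ⟨hle, le_antisymm ?_ (hle.trans Finset.card_image_le)⟩
  unfold orb
  exact Finset.card_le_six

lemma orb_inj {P : TriPres A} {E : Finset (V × A × V)} {R0 : Finset (A × A × A)}
    (hR : RelClosed P R0) {t : (V × A × V) × (V × A × V) × (V × A × V)}
    (ht : t ∈ cells E R0) {x y : (V × A × V) × (V × A × V) × (V × A × V)}
    (hx : x ∈ orb P t) (hy : y ∈ orb P t) (h : x.1.2.1 = y.1.2.1) : x = y := by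
  classical
  have h1 := orb_lab hR ht
  have h2 : ((orb P t).image (fun x => x.1.2.1)).card = (orb P t).card :=
    le_antisymm Finset.card_image_le (by omega)
  exact Finset.card_image_iff.mp h2 hx hy h

/-! ### adding an edge that closes a cell -/

open Classical in
/-- add an edge and its inverse -/
noncomputable def addE (P : TriPres A) (E : Finset (V × A × V)) (e : V × A × V) :
    Finset (V × A × V) := insert e (insert (rev P e) E)

lemma mem_addE {P : TriPres A} {E : Finset (V × A × V)} {e x : V × A × V} :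
    x ∈ addE P E e ↔ x = e ∨ x = rev P e ∨ x ∈ E := by
  classical
  simp only [addE, mem_insert]

lemma symm_addE {P : TriPres A} {E : Finset (V × A × V)} (hE : Symm P E) (e : V × A × V) :
    Symm P (addE P E e) := by
  intro x hx
  rw [mem_addE] at hx ⊢
  rcases hx with rfl | rfl | hx
  · exact Or.inr (Or.inl rfl)
  · left; rw [rev_rev]
  · exact Or.inr (Or.inr (hE x hx))

lemma card_addE (P : TriPres A) (E : Finset (V × A × V)) (e : V × A × V) :
    (addE P E e).card ≤ E.card + 2 := by
  classical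
  unfold addE
  refine (Finset.card_insert_le _ _).trans ?_
  have := Finset.card_insert_le (rev P e) E
  omega

lemma notMem_rev {P : TriPres A} {E : Finset (V × A × V)} (hE : Symm P E) {e : V × A × V}
    (he : e ∉ E) : rev P e ∉ E := by
  intro h
  apply he
  rw [← rev_rev P e]
  exact hE _ h

/-- data of a two-of-three move -/
structure TM (P : TriPres A) (E : Finset (V × A × V)) (v w u : V) (a b c : A) : Prop where
  e1 : (v, a, w) ∈ E
  e2 : (w, b, u) ∈ E
  rel : P.R a b c
  e3 : (u, c, v) ∉ E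

lemma tm_cell {P : TriPres A} {E : Finset (V × A × V)} {R0 : Finset (A × A × A)}
    {v w u : V} {a b c : A} (h : TM P E v w u a b c) :
    ((v, a, w), (w, b, u), (u, c, v)) ∈ cells (addE P E (u, c, v)) (addR P R0 a b c) := by
  rw [mem_cells]
  refine ⟨⟨mem_addE.mpr (Or.inr (Or.inr h.e1)), mem_addE.mpr (Or.inr (Or.inr h.e2)),
    mem_addE.mpr (Or.inl rfl)⟩, rfl, rfl, rfl, mem_addR _ _ _ _ _⟩

/-- every member of the new orbit has an edge outside `E` -/
lemma orb_new {P : TriPres A} {E : Finset (V × A × V)} (hE : Symm P E)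
    {v w u : V} {a b c : A} (h : TM P E v w u a b c)
    {x : (V × A × V) × (V × A × V) × (V × A × V)}
    (hx : x ∈ orb P ((v, a, w), (w, b, u), (u, c, v))) :
    ¬ (x.1 ∈ E ∧ x.2.1 ∈ E ∧ x.2.2 ∈ E) := by
  have h1 := h.e3
  have h2 := notMem_rev hE h.e3
  rw [mem_orb] at hx
  rintro ⟨c1, c2, c3⟩
  rcases hx with rfl | rfl | rfl | rfl | rfl | rfl
  · exact h1 c3
  · exact h1 c2
  · exact h1 c1
  · exact h2 c1
  · exact h2 c3
  · exact h2 c2

/-- if the first edge is old, one of the others is old -/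
lemma orb_old {P : TriPres A} {E : Finset (V × A × V)} (hE : Symm P E)
    {v w u : V} {a b c : A} (h : TM P E v w u a b c)
    {x : (V × A × V) × (V × A × V) × (V × A × V)}
    (hx : x ∈ orb P ((v, a, w), (w, b, u), (u, c, v))) (h1 : x.1 ∈ E) :
    x.2.1 ∈ E ∨ x.2.2 ∈ E := by
  have h2 := notMem_rev hE h.e3
  rw [mem_orb] at hx
  rcases hx with rfl | rfl | rfl | rfl | rfl | rfl
  · exact Or.inl h.e2
  · exact Or.inr h.e1
  · exact absurd h1 h.e3
  · exact absurd h1 h2
  · exact Or.inl (hE _ h.e1)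
  · exact Or.inr (hE _ h.e2)

open Classical in
/-- chosen cells after a move -/
noncomputable def Jn (P : TriPres A) (E : Finset (V × A × V)) (R0 : Finset (A × A × A))
    (v w u : V) (a b c : A) : Finset ((V × A × V) × (V × A × V) × (V × A × V)) :=
  cells E (addR P R0 a b c) ∪ orb P ((v, a, w), (w, b, u), (u, c, v))

lemma Jn_sub {P : TriPres A} {E : Finset (V × A × V)} {R0 : Finset (A × A × A)}
    (hR : RelClosed P R0) (hE : Symm P E)
    {v w u : V} {a b c : A} (h : TM P E v w u a b c) :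
    Jn P E R0 v w u a b c ⊆ cells (addE P E (u, c, v)) (addR P R0 a b c) := by
  classical
  unfold Jn
  apply Finset.union_subset
  · exact cells_mono (fun x hx => mem_addE.mpr (Or.inr (Or.inr hx))) (Finset.Subset.refl _)
  · exact orb_sub (relClosed_addR hR h.rel) (symm_addE hE _) (tm_cell h)

lemma Jn_card {P : TriPres A} {E : Finset (V × A × V)} {R0 : Finset (A × A × A)}
    (hR : RelClosed P R0) (hE : Symm P E)
    {v w u : V} {a b c : A} (h : TM P E v w u a b c) :
    (cells E R0).card + 6 ≤ (Jn P E R0 v w u a b c).card := by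
  classical
  unfold Jn
  rw [Finset.card_union_of_disjoint]
  · have h1 := (orb_lab (relClosed_addR hR h.rel) (tm_cell (R0 := R0) h)).2
    have h2 := Finset.card_le_card
      (cells_mono (E := E) (Finset.Subset.refl _) (sub_addR P R0 a b c))
    omega
  · rw [Finset.disjoint_left]
    intro x hx hx'
    rw [mem_cells] at hx
    exact orb_new hE h hx' hx.1

lemma Jn_rot {P : TriPres A} {E : Finset (V × A × V)} {R0 : Finset (A × A × A)}
    (hR : RelClosed P R0)
    {v w u : V} {a b c : A} (h : TM P E v w u a b c) :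
    ∀ t ∈ Jn P E R0 v w u a b c, rot3 t ∈ Jn P E R0 v w u a b c := by
  classical
  intro t ht
  unfold Jn at ht ⊢
  rw [Finset.mem_union] at ht ⊢
  rcases ht with ht | ht
  · exact Or.inl (rot_mem (relClosed_addR hR h.rel) ht)
  · exact Or.inr (orb_rot ht)

lemma det_rev {P : TriPres A} {E : Finset (V × A × V)} (hE : Symm P E) (hD : Det E)
    {e e' : V × A × V} (he : e ∈ E) (he' : e' ∈ E) (h1 : e.2.2 = e'.2.2)
    (h2 : e.2.1 = e'.2.1) : e = e' := by
  have := hD _ (hE _ he) _ (hE _ he') h1 (by simp only [rev]; rw [h2])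
  rw [← rev_rev P e, this, rev_rev]

lemma Jn_det {P : TriPres A} {E : Finset (V × A × V)} {R0 : Finset (A × A × A)}
    (hR : RelClosed P R0) (hE : Symm P E) (hD : Det E)
    {v w u : V} {a b c : A} (h : TM P E v w u a b c) :
    ∀ t ∈ Jn P E R0 v w u a b c, ∀ t' ∈ Jn P E R0 v w u a b c, t.1 = t'.1 →
      t.2.1.2.1 = t'.2.1.2.1 → t.2.2.2.1 = t'.2.2.2.1 → t = t' := by
  classical
  have hmix : ∀ t ∈ cells E (addR P R0 a b c), ∀ t' ∈ orb P ((v, a, w), (w, b, u), (u, c, v)),
      t.1 = t'.1 → t.2.1.2.1 = t'.2.1.2.1 → t.2.2.2.1 = t'.2.2.2.1 → False := by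
    intro t ht t' ht' h1 h2 h3
    have hc' := orb_sub (relClosed_addR hR h.rel) (symm_addE hE _) (tm_cell (R0 := R0) h) ht'
    rw [mem_cells] at ht hc'
    obtain ⟨⟨a1, a2, a3⟩, a4, a5, a6, a7⟩ := ht
    obtain ⟨_, b4, b5, b6, b7⟩ := hc'
    have hn := orb_new hE h ht'
    rcases orb_old hE h ht' (h1 ▸ a1) with ho | ho
    · have e2 : t.2.1 = t'.2.1 := hD _ a2 _ ho (by rw [← a4, ← b4, h1]) h2
      have e3 : t.2.2 = t'.2.2 := by
        refine Prod.ext ?_ (Prod.ext h3 ?_)
        · rw [← a5, ← b5, e2]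
        · rw [a6, b6, h1]
      exact hn ⟨h1 ▸ a1, e2 ▸ a2, e3 ▸ a3⟩
    · have e3 : t.2.2 = t'.2.2 := det_rev hE hD a3 ho (by rw [a6, b6, h1]) h3
      have e2 : t.2.1 = t'.2.1 := by
        refine Prod.ext ?_ (Prod.ext h2 ?_)
        · rw [← a4, ← b4, h1]
        · rw [a5, b5, e3]
      exact hn ⟨h1 ▸ a1, e2 ▸ a2, e3 ▸ a3⟩
  intro t ht t' ht' h1 h2 h3
  unfold Jn at ht ht'
  rw [Finset.mem_union] at ht ht'
  rcases ht with ht | ht <;> rcases ht' with ht' | ht'
  · rw [mem_cells] at ht ht'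
    obtain ⟨⟨a1, a2, a3⟩, a4, a5, a6, a7⟩ := ht
    obtain ⟨⟨b1, b2, b3⟩, b4, b5, b6, b7⟩ := ht'
    have e2 : t.2.1 = t'.2.1 := hD _ a2 _ b2 (by rw [← a4, ← b4, h1]) h2
    have e3 : t.2.2 = t'.2.2 := hD _ a3 _ b3 (by rw [← a5, ← b5, e2]) h3
    exact Prod.ext h1 (Prod.ext e2 e3)
  · exact absurd (hmix t ht t' ht' h1 h2 h3) (fun h => h)
  · exact absurd (hmix t' ht' t ht h1.symm h2.symm h3.symm) (fun h => h)
  · exact orb_inj (relClosed_addR hR h.rel) (tm_cell (R0 := R0) h) ht ht' (by rw [h1])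

/-- restriction of cocycles -/
lemma res_dim [Fintype V] [Fintype A] {P : TriPres A} {E E' : Finset (V × A × V)}
    {R0 R1 : Finset (A × A × A)} (hE : Symm P E) (hsub : E ⊆ E') (hR : R0 ⊆ R1)
    (hinj : ∀ f ∈ Z P E' R1, (∀ e ∈ E, f e = 0) → f = 0) :
    finrank (ZMod 2) (Z P E' R1) ≤ finrank (ZMod 2) (Z P E R0) := by
  classical
  let T : Z P E' R1 →ₗ[ZMod 2] Z P E R0 :=
    { toFun := fun f => ⟨fun e => if e ∈ E then f.1 e else 0, by
        have hf := f.2
        rw [mem_Z] at hf ⊢
        refine ⟨fun e he => if_neg he, fun e he => ?_, fun t ht => ?_⟩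
        · rw [if_pos he, if_pos (hE e he), hf.2.1 e (hsub he)]
        · have ht' := ht
          rw [mem_cells] at ht'
          rw [if_pos ht'.1.1, if_pos ht'.1.2.1, if_pos ht'.1.2.2]
          exact hf.2.2 t (cells_mono hsub hR ht)⟩
      map_add' := by
        intro f g
        apply Subtype.ext
        funext e
        simp only [Submodule.coe_add, Pi.add_apply]
        split_ifs <;> simp
      map_smul' := by
        intro c f
        apply Subtype.ext
        funext e
        simp only [Submodule.coe_smul, Pi.smul_apply, RingHom.id_apply]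
        split_ifs <;> simp }
  apply LinearMap.finrank_le_finrank_of_injective (f := T)
  rw [← LinearMap.ker_eq_bot, LinearMap.ker_eq_bot']
  intro f hf
  apply Subtype.ext
  apply hinj f.1 f.2
  intro e he
  have h1 := congrFun (congrArg Subtype.val hf) e
  have h2 : (if e ∈ E then f.1 e else 0) = 0 := h1
  rw [if_pos he] at h2
  exact h2

lemma tm_dim [Fintype V] [Fintype A] {P : TriPres A} {E : Finset (V × A × V)}
    {R0 : Finset (A × A × A)} (hE : Symm P E)
    {v w u : V} {a b c : A} (h : TM P E v w u a b c) :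
    finrank (ZMod 2) (Z P (addE P E (u, c, v)) (addR P R0 a b c)) ≤
      finrank (ZMod 2) (Z P E R0) := by
  apply res_dim hE (fun x hx => mem_addE.mpr (Or.inr (Or.inr hx))) (sub_addR _ _ _ _ _)
  intro f hf h0
  rw [mem_Z] at hf
  have h1 := hf.2.2 _ (tm_cell (R0 := R0) h)
  simp only [h0 _ h.e1, h0 _ h.e2, zero_add] at h1
  funext e
  by_cases he : e ∈ addE P E (u, c, v)
  · rw [mem_addE] at he
    rcases he with rfl | rfl | he
    · exact h1
    · rw [hf.2.1 _ (mem_addE.mpr (Or.inl rfl))]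
      exact h1
    · exact h0 e he
  · exact hf.1 e he

/-- the two-of-three move -/
theorem move_c1 [Fintype V] [Fintype A] {P : TriPres A} {k r0 B : ℕ} {E : Finset (V × A × V)}
    {R0 : Finset (A × A × A)} (hA : Adm P k r0 V E R0)
    (hpos : HPos P r0 B) (hroom : R0.card + 6 ≤ 6 * r0)
    {v w u : V} {a b c : A} (h : TM P E v w u a b c) :
    ∃ (W : Type) (_ : Fintype W) (E1 : Finset (W × A × W)) (R1 : Finset (A × A × A)),
      Adm P k r0 W E1 R1 ∧ phi B E1 R1 < phi B E R0 := by
  classical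
  obtain ⟨W, iW, π, hπ, hs, hd, hconst⟩ := exists_fold P (addE P E (u, c, v)) (symm_addE hA.symm _)
  have hR1 := relClosed_addR hA.rel h.rel
  have hcard1 : (addR P R0 a b c).card ≤ 6 * r0 := (card_addR P R0 a b c).trans hroom
  refine ⟨W, iW, img π (addE P E (u, c, v)), addR P R0 a b c, ⟨hs, hd, hR1, hcard1, ?_, ?_,
    ⟨π v⟩⟩, ?_⟩
  · intro Ω X g hg x
    have h1 := hA.surj Ω X (g ∘ π) (by
      intro e he
      have := hg (eMap π e) (mem_img_of (mem_addE.mpr (Or.inr (Or.inr he))))
      exact this)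
    obtain ⟨y, rfl⟩ := hπ x
    refine ⟨?_, (h1 y).2⟩
    intro z
    obtain ⟨z', rfl⟩ := hπ z
    exact (h1 y).1 z'
  · have h1 := fold_dim (R0 := addR P R0 a b c) (symm_addE hA.symm (u, c, v)) π hconst hπ
    have h2 := tm_dim (R0 := R0) hA.symm h
    have h3 := hA.dim
    omega
  · have h1 := layer (symm_addE hA.symm (u, c, v)) π hd B (Jn P E R0 v w u a b c)
      (Jn_sub hA.rel hA.symm h) (Jn_rot hA.rel h) (Jn_det hA.rel hA.symm hA.det h)
      (fun E1 s1 d1 => hpos W E1 _ s1 d1 hR1 hcard1)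
    have h2 := Jn_card hA.rel hA.symm h
    have h3 := card_addE P E (u, c, v)
    unfold phi
    have h2' : ((cells E R0).card : ℤ) + 6 ≤ (Jn P E R0 v w u a b c).card := by exact_mod_cast h2
    have h3' : ((addE P E (u, c, v)).card : ℤ) ≤ E.card + 2 := by exact_mod_cast h3
    have h1' : 3 * (B : ℤ) * (img π (addE P E (u, c, v))).card +
        (B + 1) * (Jn P E R0 v w u a b c).card ≤
        3 * B * (addE P E (u, c, v)).card +
          (B + 1) * (cells (img π (addE P E (u, c, v))) (addR P R0 a b c)).card := by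
      exact_mod_cast h1
    have hB : (0 : ℤ) ≤ B := by positivity
    nlinarith

end Pool.Agent.HTRank.Abs
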