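import Pool.Agent.HTRank.AbsTargets

/-! Abstract theorem, part 5: positivity, and the fan move. -/

set_option autoImplicit false

open Finset Module

namespace Pool.Agent.HTRank.Abs

variable {A V : Type}

lemma lnk_at {P : TriPres A} {E : Finset (V × A × V)} {R0 : Finset (A × A × A)}
    (hR : RelClosed P R0) (hE : Symm P E) (v : V) : Lnk P R0 (Dl E v) (Kl P E R0 v) where
  mem := fun _ _ h => Kl_mem hE h
  symm := fun _ _ h => Kl_symm hR hE h
  ne := fun _ _ h => Kl_ne hR h
  cor := fun _ _ h => Kl_corner hR h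

lemma win_all {P : TriPres A} {R0 : Finset (A × A × A)} {D : Finset A} {K : Finset (A × A)}
    (hL : Lnk P R0 D K) (w : A → A → ℝ) : Win w K D = ∑ p ∈ K, w p.1 p.2 := by
  classical
  have hKin : Kin K D = K := by
    unfold Kin
    rw [Finset.filter_eq_self]
    rintro ⟨x, y⟩ hxy
    exact (hL.mem x y hxy).1
  unfold Win
  rw [hKin]

open Classical in
lemma wh_of {P : TriPres A} {m : ℕ} {μ : ℝ} {R0 : Finset (A × A × A)} {w : A → A → ℝ}
    (w0 : ∀ x y, 0 ≤ w x y) (wle : ∀ x y, corner P R0 x y → 2 * w x y ≤ 1 - μ)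
    (wbig : ∀ D : Finset A, m < D.card → LinkConn P R0 D →
        ∑ x ∈ D, ∑ y ∈ D.filter (fun y => corner P R0 x y), w x y ≤ (1 - μ / 2) * D.card) :
    WH P R0 w m μ := by
  refine ⟨w0, wle, ?_⟩
  intro D K hL hD hC
  refine le_trans ?_ (wbig D hD ?_)
  · have h1 : ∑ x ∈ D, ∑ y ∈ D.filter (fun y => corner P R0 x y), w x y =
        ∑ p ∈ (D ×ˢ D).filter (fun p => corner P R0 p.1 p.2), w p.1 p.2 := by
      rw [Finset.sum_filter, Finset.sum_product]
      apply Finset.sum_congr rfl
      intro x _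
      rw [Finset.sum_filter]
    rw [h1]
    apply Finset.sum_le_sum_of_subset_of_nonneg
    · rintro ⟨x, y⟩ hxy
      rw [Finset.mem_filter, Finset.mem_product]
      exact ⟨hL.mem x y hxy, hL.cor x y hxy⟩
    · intro p _ _
      exact w0 _ _
  · intro U hU hne hUD
    obtain ⟨x, hx, y, hy, hyU, hxy⟩ := hC U hU hne hUD
    exact ⟨x, hx, y, hy, hyU, hL.cor x y hxy⟩

theorem hpos_of {P : TriPres A} {m B g r0 : ℕ} {μ : ℝ} (hμ : 0 < μ) (hμ1 : μ ≤ 1 / 3)
    (hB : 4 / μ ≤ B) (hmg : m ≤ g) (hg : P.Girth g) (hW : WeightCond P m μ r0) :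
    HPos P r0 B := by
  classical
  intro W _ E1 R1 hs hd hR hc
  obtain ⟨w, w0, ws, wle, wsum, wbig⟩ := hW R1 hR hc
  have hwh : WH P R1 w m μ := wh_of w0 wle wbig
  have h1 := sum_weight hR hs hd w wsum
  have h2 : ∀ v, ∑ p ∈ Kl P E1 R1 v, w p.1 p.2 ≤ (1 - μ / 2) * (Dl E1 v).card := by
    intro v
    have hL := lnk_at hR hs v
    have h3 := win_le hR hL hwh hμ (by linarith) hg hmg (Dl E1 v).card (Dl E1 v) le_rfl
      (fun x y hxy _ => (hL.mem x y hxy).2)
    rw [win_all hL] at h3
    exact h3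
  have h4 := card_E hd
  have h5 : ∑ v : W, ∑ p ∈ Kl P E1 R1 v, w p.1 p.2 ≤ (1 - μ / 2) * E1.card := by
    rw [h4]
    push_cast
    rw [Finset.mul_sum]
    exact Finset.sum_le_sum (fun v _ => h2 v)
  have h6 : 4 ≤ μ * B := by
    rw [div_le_iff₀ hμ] at hB
    linarith
  have h7 : ((B : ℝ) + 1) * (cells E1 R1).card ≤ 3 * B * E1.card := by
    rw [← h1]
    have hE0 : (0 : ℝ) ≤ E1.card := by positivity
    have hB0 : (0 : ℝ) ≤ (B : ℝ) + 1 := by positivity
    have h8 := mul_le_mul_of_nonneg_left h5 hB0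
    nlinarith
  exact_mod_cast h7

/-- the labelled graph as a structure -/
def toPA {P : TriPres A} {E : Finset (V × A × V)} (hE : Symm P E) (hD : Det E) : PAct P V where
  E v a w := (v, a, w) ∈ E
  symm := fun _ _ _ h => hE _ h
  det := fun v a w w' h h' => by
    have := hD _ h _ h' rfl rfl
    exact congrArg (fun e => e.2.2) this

/-! ### the fan move -/

/-- data of a missing fan -/
structure Fan (P : TriPres A) (E : Finset (V × A × V)) (l : ℕ) (ω : ℕ → V) (a c : ℕ → A) :
    Prop where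
  miss : ∀ i, i ≤ l → ∀ w, (ω i, a i, w) ∉ E
  edge : ∀ i, i < l → (ω i, c i, ω (i + 1)) ∈ E
  rel : ∀ i, i < l → P.R (c i) (a (i + 1)) (P.inv (a i))
  nb : ∀ i, i + 2 ≤ l → ¬ (ω i = ω (i + 2) ∧ a i = a (i + 2))

lemma fan_inj {P : TriPres A} {E : Finset (V × A × V)} (hE : Symm P E) (hD : Det E) {l g : ℕ}
    {ω : ℕ → V} {a c : ℕ → A} (hF : Fan P E l ω a c) (hg : P.Girth g) (hlg : l ≤ g) :
    ∀ i j, i < j → j ≤ l → a i ≠ a j := by
  have hnb2 : ∀ i, i + 2 ≤ l → a i ≠ a (i + 2) := by
    intro i hi h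
    have r1 := P.rot _ _ _ (hF.rel i (by omega))
    have r2 := P.flip _ _ _ (hF.rel (i + 1) (by omega))
    rw [P.inv_inv] at r2
    have e2 : a (i + 1 + 1) = a i := h.symm
    rw [e2] at r2
    have hc := P.uniq _ _ _ _ r1 r2
    have e1 := hE _ (hF.edge i (by omega))
    simp only [rev] at e1
    rw [hc, P.inv_inv] at e1
    have e3 := hF.edge (i + 1) (by omega)
    have := hD _ e1 _ e3 rfl rfl
    simp only [Prod.mk.injEq] at this
    exact hF.nb i hi ⟨this.2.2, h⟩
  intro i j hij hjl h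
  have hcan : ∀ x y, P.inv x = P.inv y → x = y := fun x y h => by
    rw [← P.inv_inv x, h, P.inv_inv]
  have h1 := hg (j - i) (fun t => P.inv (a (i + t))) (by omega) (by omega) (by
    intro t ht
    refine ⟨P.inv (c (i + t)), ?_⟩
    have r2 := P.flip _ _ _ (hF.rel (i + t) (by omega))
    exact r2) (by
    intro t ht h'
    exact hnb2 (i + t) (by omega) (hcan _ _ h'))
  apply h1.1
  simp only [Nat.add_zero]
  rw [Nat.add_sub_cancel' hij.le, h]

/-- graphs of the fan move -/
noncomputable def fanE (P : TriPres A) (E : Finset (V × A × V)) (ω : ℕ → V) (a : ℕ → A) :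
    ℕ → Finset (Option V × A × Option V)
  | 0 => addE P (img some E) (some (ω 0), a 0, none)
  | j + 1 => addE P (fanE P E ω a j) (some (ω (j + 1)), a (j + 1), none)

/-- relators of the fan move -/
noncomputable def fanR (P : TriPres A) (R0 : Finset (A × A × A)) (a c : ℕ → A) :
    ℕ → Finset (A × A × A)
  | 0 => R0
  | j + 1 => addR P (fanR P R0 a c j) (P.inv (a j)) (c j) (a (j + 1))

lemma mem_fanE {P : TriPres A} {E : Finset (V × A × V)} {ω : ℕ → V} {a : ℕ → A} :
    ∀ (j : ℕ) {e : Option V × A × Option V}, e ∈ fanE P E ω a j ↔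
      (∃ e' ∈ E, eMap some e' = e) ∨
      (∃ i, i ≤ j ∧ e = (some (ω i), a i, none)) ∨
      (∃ i, i ≤ j ∧ e = (none, P.inv (a i), some (ω i))) := by
  intro j
  induction j with
  | zero =>
    intro e
    unfold fanE
    rw [mem_addE, mem_img]
    simp only [rev, Nat.le_zero, exists_eq_left]
    constructor
    · rintro (h | h | h)
      · exact Or.inr (Or.inl h)
      · exact Or.inr (Or.inr h)
      · exact Or.inl h
    · rintro (h | h | h)
      · exact Or.inr (Or.inr h)
      · exact Or.inl h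
      · exact Or.inr (Or.inl h)
  | succ j ih =>
    intro e
    unfold fanE
    rw [mem_addE, ih]
    simp only [rev]
    constructor
    · rintro (h | h | h | ⟨i, hi, h⟩ | ⟨i, hi, h⟩)
      · exact Or.inr (Or.inl ⟨j + 1, le_rfl, h⟩)
      · exact Or.inr (Or.inr ⟨j + 1, le_rfl, h⟩)
      · exact Or.inl h
      · exact Or.inr (Or.inl ⟨i, by omega, h⟩)
      · exact Or.inr (Or.inr ⟨i, by omega, h⟩)
    · rintro (h | ⟨i, hi, h⟩ | ⟨i, hi, h⟩)
      · exact Or.inr (Or.inr (Or.inl h))
      · rcases Nat.lt_or_ge j i with h1 | h1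
        · have : i = j + 1 := by omega
          subst this
          exact Or.inl h
        · exact Or.inr (Or.inr (Or.inr (Or.inl ⟨i, h1, h⟩)))
      · rcases Nat.lt_or_ge j i with h1 | h1
        · have : i = j + 1 := by omega
          subst this
          exact Or.inr (Or.inl h)
        · exact Or.inr (Or.inr (Or.inr (Or.inr ⟨i, h1, h⟩)))

lemma fan_symm {P : TriPres A} {E : Finset (V × A × V)} (hE : Symm P E) {ω : ℕ → V}
    {a : ℕ → A} : ∀ j, Symm P (fanE P E ω a j) := by
  intro j
  induction j with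
  | zero => exact symm_addE (img_symm hE) _
  | succ j ih => exact symm_addE ih _

lemma fan_tm {P : TriPres A} {E : Finset (V × A × V)} (hE : Symm P E) (hD : Det E) {l g : ℕ}
    {ω : ℕ → V} {a c : ℕ → A} (hF : Fan P E l ω a c) (hg : P.Girth g) (hlg : l ≤ g)
    {j : ℕ} (hj : j < l) :
    TM P (fanE P E ω a j) none (some (ω j)) (some (ω (j + 1))) (P.inv (a j)) (c j)
      (a (j + 1)) where
  e1 := (mem_fanE j).mpr (Or.inr (Or.inr ⟨j, le_rfl, rfl⟩))
  e2 := (mem_fanE j).mpr (Or.inl ⟨_, hF.edge j hj, rfl⟩)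
  rel := P.rot _ _ _ (P.rot _ _ _ (hF.rel j hj))
  e3 := by
    rw [mem_fanE]
    rintro (⟨e', _, h⟩ | ⟨i, hi, h⟩ | ⟨i, hi, h⟩)
    · simp only [eMap, Prod.mk.injEq] at h
      exact absurd h.2.2 (by simp)
    · simp only [Prod.mk.injEq] at h
      exact fan_inj hE hD hF hg hlg i (j + 1) (by omega) (by omega) h.2.1.symm
    · simp only [Prod.mk.injEq] at h
      exact absurd h.1 (by simp)

lemma eMap_some_inj : Function.Injective (eMap (A := A) (some : V → Option V)) := by
  rintro ⟨v, a, w⟩ ⟨v', a', w'⟩ h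
  simp only [eMap, Prod.mk.injEq, Option.some.injEq] at h
  obtain ⟨rfl, rfl, rfl⟩ := h
  rfl

lemma img_card {W : Type} (π : V → W) (E : Finset (V × A × V)) : (img π E).card ≤ E.card := by
  classical
  unfold img
  exact Finset.card_image_le

lemma fan0_sub {P : TriPres A} {E : Finset (V × A × V)} {ω : ℕ → V} {a : ℕ → A} :
    img some E ⊆ fanE P E ω a 0 := by
  intro x hx
  exact mem_addE.mpr (Or.inr (Or.inr hx))

lemma fan_base_cells {P : TriPres A} {E : Finset (V × A × V)} {R0 : Finset (A × A × A)}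
    {ω : ℕ → V} {a : ℕ → A} : (cells E R0).card ≤ (cells (fanE P E ω a 0) R0).card := by
  classical
  apply Finset.card_le_card_of_injOn (fun t => (eMap some t.1, eMap some t.2.1, eMap some t.2.2))
  · intro t ht
    have h1 := cell_img (π := (some : V → Option V)) (Finset.mem_coe.mp ht)
    exact cells_mono fan0_sub (Finset.Subset.refl _) h1
  · intro t _ t' _ h
    simp only [Prod.mk.injEq] at h
    exact Prod.ext (eMap_some_inj h.1) (Prod.ext (eMap_some_inj h.2.1) (eMap_some_inj h.2.2))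

lemma fan_base_card {P : TriPres A} {E : Finset (V × A × V)}
    {ω : ℕ → V} {a : ℕ → A} : (fanE P E ω a 0).card ≤ E.card + 2 := by
  classical
  refine (card_addE P _ _).trans ?_
  have := img_card (some : V → Option V) E
  omega

lemma fan_base_dim [Fintype V] [Fintype A] {P : TriPres A} {E : Finset (V × A × V)}
    (hE : Symm P E) {R0 : Finset (A × A × A)} {ω : ℕ → V} {a : ℕ → A} :
    finrank (ZMod 2) (Z P (fanE P E ω a 0) R0) ≤ finrank (ZMod 2) (Z P E R0) + 1 := by
  classical
  have hm : ∀ e ∈ E, eMap some e ∈ fanE P E ω a 0 := fun e he => fan0_sub (mem_img_of he)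
  let T : Z P (fanE P E ω a 0) R0 →ₗ[ZMod 2] Z P E R0 × ZMod 2 :=
    { toFun := fun f => (⟨fun e => if e ∈ E then f.1 (eMap some e) else 0, by
        have hf := f.2
        rw [mem_Z] at hf ⊢
        refine ⟨fun e he => if_neg he, fun e he => ?_, fun t ht => ?_⟩
        · rw [if_pos he, if_pos (hE e he), eMap_rev, hf.2.1 _ (hm e he)]
        · have ht' := ht
          rw [mem_cells] at ht'
          rw [if_pos ht'.1.1, if_pos ht'.1.2.1, if_pos ht'.1.2.2]
          exact hf.2.2 _ (cells_mono fan0_sub (Finset.Subset.refl _) (cell_img ht))⟩, f.1 (some (ω 0), a 0, none))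
      map_add' := by
        intro f g
        refine Prod.ext (Subtype.ext ?_) rfl
        funext e
        simp only [Submodule.coe_add, Pi.add_apply, Prod.mk_add_mk]
        split_ifs <;> simp
      map_smul' := by
        intro c f
        refine Prod.ext (Subtype.ext ?_) rfl
        funext e
        simp only [Submodule.coe_smul, Pi.smul_apply, RingHom.id_apply, Prod.smul_mk]
        split_ifs <;> simp }
  have h1 : finrank (ZMod 2) (Z P (fanE P E ω a 0) R0) ≤
      finrank (ZMod 2) (Z P E R0 × ZMod 2) := by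
    apply LinearMap.finrank_le_finrank_of_injective (f := T)
    rw [← LinearMap.ker_eq_bot, LinearMap.ker_eq_bot']
    intro f hf
    apply Subtype.ext
    have hf1 : ∀ e ∈ E, f.1 (eMap some e) = 0 := by
      intro e he
      have h1 := congrFun (congrArg Subtype.val (congrArg Prod.fst hf)) e
      have h2 : (if e ∈ E then f.1 (eMap some e) else 0) = 0 := h1
      rw [if_pos he] at h2
      exact h2
    have hf2 : f.1 (some (ω 0), a 0, none) = 0 := congrArg Prod.snd hf
    have hZ := f.2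
    rw [mem_Z] at hZ
    funext e
    by_cases he : e ∈ fanE P E ω a 0
    · have he' := he
      unfold fanE at he'
      rw [mem_addE, mem_img] at he'
      rcases he' with rfl | rfl | ⟨e', he', rfl⟩
      · exact hf2
      · rw [hZ.2.1 _ (mem_addE.mpr (Or.inl rfl))]
        exact hf2
      · exact hf1 _ he'
    · exact hZ.1 e he
  rw [Module.finrank_prod, Module.finrank_self] at h1
  exact h1

lemma fan_step [Fintype V] [Fintype A] {P : TriPres A} {E : Finset (V × A × V)}
    (hE : Symm P E) (hD : Det E) {R0 : Finset (A × A × A)} (hR : RelClosed P R0) {l g : ℕ}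
    {ω : ℕ → V} {a c : ℕ → A} (hF : Fan P E l ω a c) (hg : P.Girth g) (hlg : l ≤ g) :
    ∀ j, j ≤ l → RelClosed P (fanR P R0 a c j) ∧ (fanR P R0 a c j).card ≤ R0.card + 6 * j ∧
      (fanE P E ω a j).card ≤ E.card + 2 * (j + 1) ∧
      (cells E R0).card + 6 * j ≤ (cells (fanE P E ω a j) (fanR P R0 a c j)).card ∧
      finrank (ZMod 2) (Z P (fanE P E ω a j) (fanR P R0 a c j)) ≤
        finrank (ZMod 2) (Z P E R0) + 1 := by
  intro j
  induction j with
  | zero =>
    intro _
    refine ⟨hR, by unfold fanR; omega, ?_, ?_, ?_⟩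
    · have := fan_base_card (P := P) (E := E) (ω := ω) (a := a)
      omega
    · have := fan_base_cells (P := P) (E := E) (R0 := R0) (ω := ω) (a := a)
      unfold fanR
      omega
    · exact fan_base_dim hE
  | succ j ih =>
    intro hj
    obtain ⟨h1, h2, h3, h4, h5⟩ := ih (by omega)
    have htm := fan_tm hE hD hF hg hlg (j := j) (by omega)
    have hs := fan_symm hE (ω := ω) (a := a) j
    refine ⟨relClosed_addR h1 htm.rel, ?_, ?_, ?_, ?_⟩
    · have := card_addR P (fanR P R0 a c j) (P.inv (a j)) (c j) (a (j + 1))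
      unfold fanR
      omega
    · have := card_addE P (fanE P E ω a j) (some (ω (j + 1)), a (j + 1), none)
      unfold fanE
      omega
    · have e1 := Jn_card h1 hs htm
      have e2 := Finset.card_le_card (Jn_sub h1 hs htm)
      unfold fanE fanR
      omega
    · have e1 := tm_dim (R0 := fanR P R0 a c j) hs htm
      exact e1.trans h5

lemma fan_det {P : TriPres A} {E : Finset (V × A × V)} (hE : Symm P E) (hD : Det E) {l g : ℕ}
    {ω : ℕ → V} {a c : ℕ → A} (hF : Fan P E l ω a c) (hg : P.Girth g) (hlg : l ≤ g) :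
    Det (fanE P E ω a l) := by
  have hinj : ∀ i j, i ≤ l → j ≤ l → a i = a j → i = j := by
    intro i j hi hj h
    rcases Nat.lt_trichotomy i j with h1 | h1 | h1
    · exact absurd h (fan_inj hE hD hF hg hlg i j h1 hj)
    · exact h1
    · exact absurd h.symm (fan_inj hE hD hF hg hlg j i h1 hi)
  have hcan : ∀ x y, P.inv x = P.inv y → x = y := fun x y h => by
    rw [← P.inv_inv x, h, P.inv_inv]
  intro e he e' he' h1 h2
  rw [mem_fanE] at he he'
  rcases he with ⟨x, hx, rfl⟩ | ⟨i, hi, rfl⟩ | ⟨i, hi, rfl⟩ <;>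
  rcases he' with ⟨y, hy, rfl⟩ | ⟨j, hj, rfl⟩ | ⟨j, hj, rfl⟩
  · simp only [eMap, Option.some.injEq] at h1 h2
    rw [hD x hx y hy h1 h2]
  · simp only [eMap, Option.some.injEq] at h1 h2
    exact absurd (by rw [← h1, ← h2]; exact hx) (hF.miss j hj x.2.2)
  · simp only [eMap] at h1
    exact absurd h1 (by simp)
  · simp only [eMap, Option.some.injEq] at h1 h2
    exact absurd (by rw [h1, h2]; exact hy) (hF.miss i hi y.2.2)
  · rw [hinj i j hi hj h2]
  · exact absurd h1 (by simp)
  · simp only [eMap] at h1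
    exact absurd h1 (by simp)
  · exact absurd h1 (by simp)
  · rw [hinj i j hi hj (hcan _ _ h2)]

/-- the fan move -/
theorem move_c2 [Fintype V] [Fintype A] {P : TriPres A} {k r0 B g : ℕ} {E : Finset (V × A × V)}
    {R0 : Finset (A × A × A)} (hA : Adm P k r0 V E R0) (hg : P.Girth g) (hBg : B + 1 ≤ g)
    (hroom : R0.card + 6 * (B + 1) ≤ 6 * r0)
    {ω : ℕ → V} {a c : ℕ → A} (hF : Fan P E (B + 1) ω a c) :
    ∃ (W : Type) (_ : Fintype W) (E1 : Finset (W × A × W)) (R1 : Finset (A × A × A)),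
      Adm P k r0 W E1 R1 ∧ phi B E1 R1 < phi B E R0 := by
  classical
  obtain ⟨h1, h2, h3, h4, h5⟩ := fan_step hA.symm hA.det hA.rel hF hg hBg (B + 1) le_rfl
  refine ⟨Option V, inferInstance, fanE P E ω a (B + 1), fanR P R0 a c (B + 1),
    ⟨fan_symm hA.symm _, fan_det hA.symm hA.det hF hg hBg, h1, h2.trans hroom, ?_, ?_,
      ⟨none⟩⟩, ?_⟩
  · intro Ω X f hf
    have hs := hA.surj Ω X (fun v => f (some v)) (by
      intro e he
      exact hf (eMap some e) ((mem_fanE _).mpr (Or.inl ⟨e, he, rfl⟩)))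
    have hn : f none = f (some (ω 0)) := by
      have e1 := hf _ ((mem_fanE (B + 1)).mpr (Or.inr (Or.inl ⟨0, by omega, rfl⟩)))
      simp only at e1
      rw [← e1]
      exact (hs (ω 0)).2 (a 0)
    have hall : ∀ v, f v = f (some (ω 0)) := by
      intro v
      rcases v with _ | v
      · exact hn
      · exact (hs (ω 0)).1 v
    intro v
    rw [hall v]
    exact ⟨hall, (hs (ω 0)).2⟩
  · have h6 := hA.dim
    rw [Fintype.card_option]
    omega
  · unfold phi
    have h3' : ((fanE P E ω a (B + 1)).card : ℤ) ≤ E.card + 2 * (B + 1 + 1) := by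
      exact_mod_cast h3
    have h4' : ((cells E R0).card : ℤ) + 6 * (B + 1) ≤
        (cells (fanE P E ω a (B + 1)) (fanR P R0 a c (B + 1))).card := by
      exact_mod_cast h4
    have hB : (0 : ℤ) ≤ B := by positivity
    nlinarith

end Pool.Agent.HTRank.Abs
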