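import Pool.Agent.HTRank.Abs5

/-! Abstract theorem, part 6: the minimal graph and the contradiction. -/

set_option autoImplicit false

open Finset Module

namespace Pool.Agent.HTRank.Abs

variable {A V : Type}

/-- adding a relator that already has a cell -/
theorem move_rel [Fintype V] [Fintype A] {P : TriPres A} {k r0 B : ℕ} {E : Finset (V × A × V)}
    {R0 : Finset (A × A × A)} (hA : Adm P k r0 V E R0) (hroom : R0.card + 6 ≤ 6 * r0)
    {v w u : V} {a b c : A} (e1 : (v, a, w) ∈ E) (e2 : (w, b, u) ∈ E) (e3 : (u, c, v) ∈ E)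
    (hrel : P.R a b c) (hnot : (a, b, c) ∉ R0) :
    ∃ (W : Type) (_ : Fintype W) (E1 : Finset (W × A × W)) (R1 : Finset (A × A × A)),
      Adm P k r0 W E1 R1 ∧ phi B E1 R1 < phi B E R0 := by
  classical
  refine ⟨V, inferInstance, E, addR P R0 a b c, ⟨hA.symm, hA.det, relClosed_addR hA.rel hrel,
    (card_addR P R0 a b c).trans hroom, hA.surj, ?_, hA.ne⟩, ?_⟩
  · have h1 := res_dim (P := P) (R0 := R0) (R1 := addR P R0 a b c) hA.symm (Finset.Subset.refl E)
      (sub_addR P R0 a b c) (by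
        intro f hf h0
        rw [mem_Z] at hf
        funext e
        by_cases he : e ∈ E
        · exact h0 e he
        · exact hf.1 e he)
    have h2 := hA.dim
    omega
  · have h1 : (cells E R0).card < (cells E (addR P R0 a b c)).card := by
      apply Finset.card_lt_card
      rw [Finset.ssubset_iff_of_subset (cells_mono (Finset.Subset.refl E) (sub_addR P R0 a b c))]
      refine ⟨((v, a, w), (w, b, u), (u, c, v)), ?_, ?_⟩
      · rw [mem_cells]
        exact ⟨⟨e1, e2, e3⟩, rfl, rfl, rfl, mem_addR P R0 a b c⟩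
      · rw [mem_cells]
        rintro ⟨_, _, _, _, h⟩
        exact hnot h
    unfold phi
    have h1' : ((cells E R0).card : ℤ) < (cells E (addR P R0 a b c)).card := by exact_mod_cast h1
    have hB : (0 : ℤ) ≤ B := by positivity
    nlinarith

open Classical in
/-- active relators -/
noncomputable def actR (E : Finset (V × A × V)) (R0 : Finset (A × A × A)) :
    Finset (A × A × A) := (cells E R0).image (fun t => (t.1.2.1, t.2.1.2.1, t.2.2.2.1))

lemma actR_card (E : Finset (V × A × V)) (R0 : Finset (A × A × A)) :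
    (actR E R0).card ≤ (cells E R0).card := by
  classical
  unfold actR
  exact Finset.card_image_le

lemma mem_actR {E : Finset (V × A × V)} {R0 : Finset (A × A × A)} {r : A × A × A} :
    r ∈ actR E R0 ↔ ∃ t ∈ cells E R0, (t.1.2.1, t.2.1.2.1, t.2.2.2.1) = r := by
  classical
  unfold actR
  rw [Finset.mem_image]

lemma actR_sub {E : Finset (V × A × V)} {R0 : Finset (A × A × A)} : actR E R0 ⊆ R0 := by
  intro r hr
  rw [mem_actR] at hr
  obtain ⟨t, ht, rfl⟩ := hr
  rw [mem_cells] at ht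
  exact ht.2.2.2.2

lemma actR_closed {P : TriPres A} {E : Finset (V × A × V)} {R0 : Finset (A × A × A)}
    (hR : RelClosed P R0) (hE : Symm P E) : RelClosed P (actR E R0) := by
  refine ⟨?_, ?_, ?_⟩
  · intro a b c h
    exact hR.sub _ _ _ (actR_sub h)
  · intro a b c h
    rw [mem_actR] at h ⊢
    obtain ⟨t, ht, h⟩ := h
    refine ⟨rot3 t, rot_mem hR ht, ?_⟩
    simp only [Prod.mk.injEq] at h
    obtain ⟨rfl, rfl, rfl⟩ := h
    rfl
  · intro a b c h
    rw [mem_actR] at h ⊢
    obtain ⟨t, ht, h⟩ := h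
    refine ⟨flip3 P t, flip_mem hR hE ht, ?_⟩
    simp only [Prod.mk.injEq] at h
    obtain ⟨rfl, rfl, rfl⟩ := h
    rfl

lemma cells_actR {E : Finset (V × A × V)} {R0 : Finset (A × A × A)} :
    cells E (actR E R0) = cells E R0 := by
  apply Finset.Subset.antisymm (cells_mono (Finset.Subset.refl _) actR_sub)
  intro t ht
  have h1 : (t.1.2.1, t.2.1.2.1, t.2.2.2.1) ∈ actR E R0 := mem_actR.mpr ⟨t, ht, rfl⟩
  rw [mem_cells] at ht ⊢
  exact ⟨ht.1, ht.2.1, ht.2.2.1, ht.2.2.2.1, h1⟩

lemma Z_actR {P : TriPres A} {E : Finset (V × A × V)} {R0 : Finset (A × A × A)} :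
    Z P E (actR E R0) = Z P E R0 := by
  ext f
  rw [mem_Z, mem_Z, cells_actR]

lemma adm_actR [Fintype V] [Fintype A] {P : TriPres A} {k r0 : ℕ} {E : Finset (V × A × V)}
    {R0 : Finset (A × A × A)} (hA : Adm P k r0 V E R0) : Adm P k r0 V E (actR E R0) where
  symm := hA.symm
  det := hA.det
  rel := actR_closed hA.rel hA.symm
  card := (Finset.card_le_card actR_sub).trans hA.card
  surj := hA.surj
  dim := by rw [Z_actR]; exact hA.dim
  ne := hA.ne

/-- an isolated vertex is the only vertex -/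
lemma isolated {P : TriPres A} {E : Finset (V × A × V)} (hE : Symm P E) (hS : Sj P E) {v : V}
    (hv : Dl E v = ∅) : ∀ w, w = v := by
  classical
  intro w
  let X : Act P Bool :=
    { σ := fun _ b => b
      inv_left := fun _ _ => rfl
      rel := fun _ _ _ _ _ => rfl }
  have hno : ∀ a u, (v, a, u) ∉ E := by
    intro a u h
    have : a ∈ Dl E v := mem_Dl.mpr ⟨u, h⟩
    rw [hv] at this
    exact absurd this (Finset.notMem_empty a)
  have h1 := hS Bool X (fun u => decide (u = v)) (by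
    rintro ⟨x, a, y⟩ he
    have hx : x ≠ v := by
      rintro rfl
      exact hno _ _ he
    have hy : y ≠ v := by
      rintro rfl
      exact hno _ _ (hE _ he)
    change decide (x = v) = decide (y = v)
    simp [hx, hy])
  have h2 := (h1 v).1 w
  simpa using h2

open Classical in
/-- number of cells of a minimal graph -/
lemma cells_le [Fintype V] [Fintype A] {P : TriPres A} {m B g r0 k : ℕ} {μ : ℝ}
    (hμ : 0 < μ) (hμ1 : μ ≤ 1 / 3) (hB : 4 / μ ≤ B) (hm8 : 8 / μ ≤ m) (hmg : m ≤ g)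
    (hg : P.Girth g) (hW : WeightCond P m μ r0)
    {E : Finset (V × A × V)} {R0 : Finset (A × A × A)} (hA : Adm P k r0 V E R0)
    (hrem : ∀ v, ¬ Rem (Dl E v) (Kl P E R0 v) B) :
    μ * (cells E R0).card ≤ 24 * k := by
  have hk0 : (0 : ℝ) ≤ k := by positivity
  by_cases hiso : ∃ v, Dl E v = ∅
  · obtain ⟨v, hv⟩ := hiso
    have hall := isolated hA.symm hA.surj hv
    have hc : cells E R0 = ∅ := by
      rw [Finset.eq_empty_iff_forall_notMem]
      intro t ht
      rw [mem_cells] at ht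
      have h1 : t.1.2.1 ∈ Dl E v := by
        rw [mem_Dl]
        refine ⟨t.1.2.2, ?_⟩
        have := hall t.1.1
        rw [← this]
        exact ht.1.1
      rw [hv] at h1
      exact absurd h1 (Finset.notMem_empty _)
    rw [hc]
    simp only [Finset.card_empty, Nat.cast_zero, mul_zero]
    linarith
  · push Not at hiso
    obtain ⟨w, w0, ws, wle, wsum, wbig⟩ := hW R0 hA.rel hA.card
    have hwh : WH P R0 w m μ := wh_of w0 wle wbig
    have h1 := sum_weight hA.rel hA.symm hA.det w wsum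
    have h2 : ∀ v, μ / 4 * ∑ p ∈ Kl P E R0 v, w p.1 p.2 ≤
        (Dl E v).card - ∑ p ∈ Kl P E R0 v, w p.1 p.2 - 2 := by
      intro v
      have hL := lnk_at hA.rel hA.symm v
      rcases point hA.rel hL hwh hμ hμ1 hg hmg hm8 hB (hiso v) (hrem v) with
        ⟨h3, h4⟩ | ⟨h3, h4⟩
      · have h5 : (0 : ℝ) ≤ (Dl E v).card := by positivity
        have h6 : ∑ p ∈ Kl P E R0 v, w p.1 p.2 ≤ (Dl E v).card := by nlinarith
        nlinarith
      · rw [h4, Finset.sum_empty, h3]
        norm_num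
    have h3 : ∑ v : V, μ / 4 * ∑ p ∈ Kl P E R0 v, w p.1 p.2 ≤
        ∑ v : V, (((Dl E v).card : ℝ) - ∑ p ∈ Kl P E R0 v, w p.1 p.2 - 2) :=
      Finset.sum_le_sum (fun v _ => h2 v)
    rw [← Finset.mul_sum, Finset.sum_sub_distrib, Finset.sum_sub_distrib] at h3
    have h4 : ∑ v : V, ((Dl E v).card : ℝ) = E.card := by
      rw [card_E hA.det]
      push_cast
      rfl
    have h5 : ∑ _v : V, (2 : ℝ) = 2 * Fintype.card V := by
      rw [Finset.sum_const, Finset.card_univ, nsmul_eq_mul, mul_comm]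
    rw [h4, h5] at h3
    have h6 := dim_ge hA.rel hA.symm (P := P) (E := E) (R0 := R0)
    have h7 := hA.dim
    have h6' : 3 * (E.card : ℝ) ≤ 6 * finrank (ZMod 2) (Z P E R0) + (cells E R0).card := by
      exact_mod_cast h6
    have h7' : (finrank (ZMod 2) (Z P E R0) : ℝ) + 1 ≤ k + Fintype.card V := by
      exact_mod_cast h7
    nlinarith

theorem final_step [Fintype V] [Fintype A] (hC : TargetCompletion) (hT : TargetRem)
    {P : TriPres A} {m B g r0 k : ℕ} {μ : ℝ}
    (hμ : 0 < μ) (hμ1 : μ ≤ 1 / 3) (hB : 4 / μ ≤ B) (hm8 : 8 / μ ≤ m) (hmg : m ≤ g)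
    (hBg : B + 4 ≤ g) (hroom : 4 * (k : ℝ) / μ + B + 1 ≤ r0)
    (hg : P.Girth g) (hW : WeightCond P m μ r0)
    (hbig : ∀ R1 : Finset (A × A × A), (∀ a b c, P.R a b c → (a, b, c) ∈ R1) → 6 * r0 < R1.card)
    {E : Finset (V × A × V)} {R0 : Finset (A × A × A)} (hA : Adm P k r0 V E R0)
    (hmin : ∀ (W : Type) (_ : Fintype W) (E1 : Finset (W × A × W)) (R1 : Finset (A × A × A)),
      Adm P k r0 W E1 R1 → ¬ phi B E1 R1 < phi B E R0) : False := by
  classical
  have hpos : HPos P r0 B := hpos_of hμ hμ1 hB hmg hg hW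
  have hrem : ∀ v, ¬ Rem (Dl E v) (Kl P E R0 v) B := by
    intro v hv
    obtain ⟨W, iW, E1, h1, h2⟩ := hT A V P k r0 B g E R0 v hg hBg hA hv
    exact hmin W iW E1 R0 h1 h2
  have hcl := cells_le hμ hμ1 hB hm8 hmg hg hW hA hrem
  obtain ⟨R1, hR1⟩ : ∃ R1, R1 = actR E R0 := ⟨_, rfl⟩
  have hA1 : Adm P k r0 V E R1 := hR1 ▸ adm_actR hA
  have hphi : phi B E R1 = phi B E R0 := by
    rw [hR1]
    unfold phi
    rw [cells_actR]
  have hmin1 : ¬ ∃ (W : Type) (_ : Fintype W) (E1 : Finset (W × A × W))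
      (R2 : Finset (A × A × A)), Adm P k r0 W E1 R2 ∧ phi B E1 R2 < phi B E R1 := by
    rintro ⟨W, iW, E1, R2, h1, h2⟩
    rw [hphi] at h2
    exact hmin W iW E1 R2 h1 h2
  have hcard : R1.card + 6 * (B + 1) ≤ 6 * r0 := by
    have h1 : (R1.card : ℝ) ≤ (cells E R0).card := by
      rw [hR1]
      exact_mod_cast actR_card E R0
    have h2 : (R1.card : ℝ) ≤ 24 * k / μ := by
      rw [le_div_iff₀ hμ]
      nlinarith
    have h3 : 24 * (k : ℝ) / μ = 6 * (4 * k / μ) := by ring
    have h4 : (R1.card : ℝ) + 6 * (B + 1) ≤ 6 * r0 := by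
      rw [h3] at h2
      linarith
    exact_mod_cast h4
  have hroom1 : R1.card + 6 ≤ 6 * r0 := by omega
  let Y : PAct P V := toPA hA.symm hA.det
  have hc1 : Y.C1 := by
    intro v w u a b c e1 e2 hr
    by_contra e3
    exact hmin1 (move_c1 hA1 hpos hroom1 ⟨e1, e2, hr, e3⟩)
  have hc2 : Y.C2 (B + 1) := by
    intro q hq hnb
    have hc : ∀ i, ∃ c, i < B + 1 → Y.E (q i).1 c (q (i + 1)).1 ∧
        P.R c (q (i + 1)).2 (P.inv (q i).2) := by
      intro i
      by_cases hi : i < B + 1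
      · obtain ⟨_, _, c, hc⟩ := hq i hi
        exact ⟨c, fun _ => hc⟩
      · exact ⟨(q 0).2, fun h => absurd h hi⟩
    choose c hc using hc
    refine hmin1 (move_c2 hA1 hg (by omega) hcard (ω := fun i => (q i).1) (a := fun i => (q i).2)
      (c := c) ⟨?_, ?_, ?_, ?_⟩)
    · intro i hi w hw
      rcases Nat.lt_or_ge i (B + 1) with h | h
      · exact (hq i h).1 w hw
      · obtain rfl : i = B + 1 := by omega
        exact (hq B (by omega)).2.1 w hw
    · intro i hi
      exact (hc i hi).1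
    · intro i hi
      exact (hc i hi).2
    · rintro i hi ⟨h1, h2⟩
      exact hnb i hi (Prod.ext h1 h2)
  obtain ⟨v0⟩ := hA.ne
  have hgl : P.Girth (B + 1 + 3) := by
    intro p x hp1 hp2 hadj hnb
    exact hg p x hp1 (by omega) hadj hnb
  have hB12 : (12 : ℝ) ≤ B := by
    have h12 : (12 : ℝ) ≤ 4 / μ := by
      rw [le_div_iff₀ hμ]; linarith
    exact h12.trans hB
  have hB12' : 12 ≤ B := by exact_mod_cast hB12
  obtain ⟨Ω, X, ι, hι, hmor, hmiss⟩ := hC A P V Y (B + 1) (by omega) hgl hc1 hc2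
  have hSj := hA.surj Ω X ι (fun e he => hmor _ _ _ he)
  have hsub : ∀ w, w = v0 := fun w => hι ((hSj v0).1 w)
  have hall : ∀ a, (v0, a, v0) ∈ E := by
    intro a
    by_contra hcon
    have hm : Y.miss (v0, a) := by
      intro w hw
      rw [hsub w] at hw
      exact hcon hw
    apply hmiss v0 a hm
    exact ⟨v0, ((hSj v0).2 a).symm⟩
  have hin : ∀ a b c, P.R a b c → (a, b, c) ∈ R1 := by
    intro a b c hr
    by_contra hcon
    exact hmin1 (move_rel hA1 hroom1 (hall a) (hall b) (hall c) hr hcon)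
  have := hbig R1 hin
  omega

theorem no_adm [Fintype A] (hC : TargetCompletion) (hT : TargetRem)
    {P : TriPres A} {m B g r0 k : ℕ} {μ : ℝ}
    (hμ : 0 < μ) (hμ1 : μ ≤ 1 / 3) (hB : 4 / μ ≤ B) (hm8 : 8 / μ ≤ m) (hmg : m ≤ g)
    (hBg : B + 4 ≤ g) (hroom : 4 * (k : ℝ) / μ + B + 1 ≤ r0)
    (hg : P.Girth g) (hW : WeightCond P m μ r0)
    (hbig : ∀ R1 : Finset (A × A × A), (∀ a b c, P.R a b c → (a, b, c) ∈ R1) → 6 * r0 < R1.card) :
    ∀ (N : ℕ) (V : Type) (_ : Fintype V) (E : Finset (V × A × V)) (R0 : Finset (A × A × A)),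
      Adm P k r0 V E R0 → phi B E R0 < N → False := by
  have hpos : HPos P r0 B := hpos_of hμ hμ1 hB hmg hg hW
  intro N
  induction N with
  | zero =>
    intro V _ E R0 hA h
    have h1 := hpos V E R0 hA.symm hA.det hA.rel hA.card
    unfold phi at h
    have h1' : ((B : ℤ) + 1) * (cells E R0).card ≤ 3 * B * E.card := by exact_mod_cast h1
    push_cast at h
    linarith
  | succ N ih =>
    intro V _ E R0 hA h
    apply final_step hC hT hμ hμ1 hB hm8 hmg hBg hroom hg hW hbig hA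
    intro W _ E1 R1 hA1 h1
    apply ih W _ E1 R1 hA1
    push_cast at h
    omega

/-- the abstract theorem -/
theorem abstract_of (hC : TargetCompletion) (hT : TargetRem) (hI : TargetInit) :
    TargetAbstract := by
  classical
  intro A _ P m B g r0 k μ hμ hμ1 hB hm8 hmg hBg hroom hg hW hbig hgen
  obtain ⟨W, iW, E1, hA⟩ := hI A P k r0 hgen
  refine no_adm hC hT hμ hμ1 hB hm8 hmg hBg hroom hg hW ?_ (phi B E1 ∅).toNat.succ W iW E1 ∅ hA ?_
  · intro R1 hR1
    refine lt_of_lt_of_le hbig (Finset.card_le_card ?_)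
    rintro ⟨a, b, c⟩ h
    rw [Finset.mem_filter] at h
    exact hR1 a b c h.2
  · push_cast
    have := Int.self_le_toNat (phi B E1 ∅)
    omega

end Pool.Agent.HTRank.Abs
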