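import Pool.Agent.HTRank.Abs2
import Pool.Agent.HTRank.Abs4

/-! Abstract theorem: statements of two moves (jobs HT-REM and HT-INIT). -/

set_option autoImplicit false

open Finset Module

namespace Pool.Agent.HTRank.Abs

/-- Job HT-REM: a vertex with a small tree link can be removed. -/
def TargetRem : Prop :=
  ∀ (A V : Type) [Fintype A] [Fintype V] (P : TriPres A) (k r0 B g : ℕ) (E : Finset (V × A × V))
    (R0 : Finset (A × A × A)) (x : V), P.Girth g → B + 4 ≤ g → Adm P k r0 V E R0 →
    Rem (Dl E x) (Kl P E R0 x) B →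
    ∃ (W : Type) (_ : Fintype W) (E1 : Finset (W × A × W)),
      Adm P k r0 W E1 R0 ∧ phi B E1 R0 < phi B E R0

/-- Job HT-INIT: an admissible graph exists. -/
def TargetInit : Prop :=
  ∀ (A : Type) [Fintype A] (P : TriPres A) (k r0 : ℕ), PGen P k →
    ∃ (W : Type) (_ : Fintype W) (E1 : Finset (W × A × W)), Adm P k r0 W E1 ∅

end Pool.Agent.HTRank.Abs
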