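import Pool.Agent.HTRank.CombDefs

/-! Job 2a (HT-COMB-A): the killed set `Q` from local sparsity. -/

set_option autoImplicit false

open Finset

namespace Pool.Agent.HTRank.CombA

variable {n : ℕ}

/-- excess -/
def exc (v0 : Fin n) (A : Finset (Finset (Fin n))) : ℤ := (cov v0 A).card - A.card

/-- strongly connected -/
def SC (A : Finset (Finset (Fin n))) : Prop :=
  ∀ U ⊆ A, U.Nonempty → U ≠ A → ∃ t ∈ U, ∃ t' ∈ A, t' ∉ U ∧ 2 ≤ (t ∩ t').card

/-- bad sets of triangles -/
def Bad (v0 : Fin n) (T A : Finset (Finset (Fin n))) : Prop :=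
  A ⊆ T ∧ A.Nonempty ∧ SC A ∧
    ((A.card ≤ 10000 ∧ exc v0 A ≤ 1) ∨ (A.card ≤ 30000 ∧ exc v0 A ≤ 0))

lemma mem_cov {v0 : Fin n} {A : Finset (Finset (Fin n))} {x : Fin n} :
    x ∈ cov v0 A ↔ x ≠ v0 ∧ ∃ t ∈ A, x ∈ t := by
  simp [cov]

lemma cov_union (v0 : Fin n) (A B : Finset (Finset (Fin n))) :
    cov v0 (A ∪ B) = cov v0 A ∪ cov v0 B := by
  ext x
  simp only [mem_union, mem_cov]
  constructor
  · rintro ⟨h1, t, ht | ht, hx⟩
    · exact Or.inl ⟨h1, t, ht, hx⟩
    · exact Or.inr ⟨h1, t, ht, hx⟩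
  · rintro (⟨h1, t, ht, hx⟩ | ⟨h1, t, ht, hx⟩)
    · exact ⟨h1, t, Or.inl ht, hx⟩
    · exact ⟨h1, t, Or.inr ht, hx⟩

lemma cov_mono (v0 : Fin n) {A B : Finset (Finset (Fin n))} (h : A ⊆ B) :
    cov v0 A ⊆ cov v0 B := by
  intro x hx
  rw [mem_cov] at hx ⊢
  obtain ⟨h1, t, ht, h2⟩ := hx
  exact ⟨h1, t, h ht, h2⟩

lemma exc_union (v0 : Fin n) (A B : Finset (Finset (Fin n))) :
    exc v0 (A ∪ B) = exc v0 A + exc v0 B -
      (((cov v0 A ∩ cov v0 B).card : ℤ) - ((A ∩ B).card : ℤ)) := by
  have h1 := card_union_add_card_inter (cov v0 A) (cov v0 B)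
  have h2 := card_union_add_card_inter A B
  rw [exc, exc, exc, cov_union]
  omega

lemma exc_inter_le (v0 : Fin n) (A B : Finset (Finset (Fin n))) :
    exc v0 (A ∩ B) ≤ ((cov v0 A ∩ cov v0 B).card : ℤ) - ((A ∩ B).card : ℤ) := by
  have h : cov v0 (A ∩ B) ⊆ cov v0 A ∩ cov v0 B :=
    subset_inter (cov_mono v0 inter_subset_left) (cov_mono v0 inter_subset_right)
  have := card_le_card h
  rw [exc]
  omega

/-- adding a triangle with two vertices already covered -/
lemma cov_insert_le (v0 : Fin n) (A : Finset (Finset (Fin n))) {t e : Finset (Fin n)}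
    (ht : t.card = 3) (he : 2 ≤ e.card) (het : e ⊆ t) (heA : ∀ x ∈ e, ∃ s ∈ A, x ∈ s) :
    (cov v0 (insert t A)).card ≤ (cov v0 A).card + 1 := by
  have h1 : cov v0 (insert t A) ⊆ cov v0 A ∪ (t \ e) := by
    intro x hx
    rw [mem_cov] at hx
    obtain ⟨hx0, s, hs, hxs⟩ := hx
    rw [mem_union, mem_cov, mem_sdiff]
    rcases mem_insert.mp hs with rfl | hs
    · by_cases hxe : x ∈ e
      · exact Or.inl ⟨hx0, heA x hxe⟩
      · exact Or.inr ⟨hxs, hxe⟩
    · exact Or.inl ⟨hx0, s, hs, hxs⟩
  have h2 := card_le_card h1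
  have h3 := card_union_le (cov v0 A) (t \ e)
  have h4 := card_sdiff_add_card_eq_card het
  omega

/-- adding a triangle all of whose vertices are covered -/
lemma cov_insert_eq (v0 : Fin n) (A : Finset (Finset (Fin n))) {t : Finset (Fin n)}
    (htA : ∀ x ∈ t, ∃ s ∈ A, x ∈ s) :
    cov v0 (insert t A) = cov v0 A := by
  ext x
  rw [mem_cov, mem_cov]
  constructor
  · rintro ⟨hx0, s, hs, hxs⟩
    rcases mem_insert.mp hs with rfl | hs
    · exact ⟨hx0, htA x hxs⟩
    · exact ⟨hx0, s, hs, hxs⟩
  · rintro ⟨hx0, s, hs, hxs⟩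
    exact ⟨hx0, s, mem_insert_of_mem hs, hxs⟩

/-- (M) -/
lemma exc_mono (v0 : Fin n) {A : Finset (Finset (Fin n))} (hA : SC A)
    (h3 : ∀ t ∈ A, t.card = 3) : ∀ (k : ℕ) (I : Finset (Finset (Fin n))), (A \ I).card = k →
      I ⊆ A → I.Nonempty → exc v0 A ≤ exc v0 I := by
  intro k
  induction k with
  | zero =>
    intro I hk hI _
    rw [card_eq_zero, sdiff_eq_empty_iff_subset] at hk
    rw [subset_antisymm hI hk]
  | succ k ih =>
    intro I hk hI hne
    have hIA : I ≠ A := by
      rintro rfl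
      simp at hk
    obtain ⟨t, ht, t', ht', htI, hc⟩ := hA I hI hne hIA
    have h1 : (A \ insert t' I).card = k := by
      have h2 : A \ insert t' I = (A \ I).erase t' := by
        ext x
        simp only [mem_sdiff, mem_insert, mem_erase]
        tauto
      rw [h2, card_erase_of_mem (mem_sdiff.mpr ⟨ht', htI⟩), hk]
      rfl
    have h2 := ih (insert t' I) h1 (insert_subset ht' hI) (insert_nonempty _ _)
    have h4 := cov_insert_le v0 I (h3 t' ht') hc inter_subset_right
      (fun x hx => ⟨t, ht, (mem_inter.mp hx).1⟩)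
    have h5 := card_insert_of_notMem htI
    have h6 : exc v0 (insert t' I) ≤ exc v0 I := by
      rw [exc, exc]
      omega
    exact h2.trans h6

lemma SC_singleton (t : Finset (Fin n)) : SC {t} := by
  intro U hU hne hUA
  exfalso
  rcases subset_singleton_iff.mp hU with h | h
  · exact hne.ne_empty h
  · exact hUA h

lemma SC_union {A B : Finset (Finset (Fin n))} (hA : SC A) (hB : SC B)
    (h : (∃ a ∈ A, a ∈ B) ∨ ∃ a ∈ A, ∃ b ∈ B, 2 ≤ (a ∩ b).card) : SC (A ∪ B) := by
  intro U hU hne hUAB
  by_cases h1 : (U ∩ A).Nonempty ∧ U ∩ A ≠ A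
  · obtain ⟨t, ht, t', ht', htU, hc⟩ := hA (U ∩ A) inter_subset_right h1.1 h1.2
    exact ⟨t, (mem_inter.mp ht).1, t', mem_union_left _ ht',
      fun h' => htU (mem_inter.mpr ⟨h', ht'⟩), hc⟩
  by_cases h2 : (U ∩ B).Nonempty ∧ U ∩ B ≠ B
  · obtain ⟨t, ht, t', ht', htU, hc⟩ := hB (U ∩ B) inter_subset_right h2.1 h2.2
    exact ⟨t, (mem_inter.mp ht).1, t', mem_union_right _ ht',
      fun h' => htU (mem_inter.mpr ⟨h', ht'⟩), hc⟩
  have h1' : (∀ x ∈ A, x ∉ U) ∨ A ⊆ U := by
    by_cases hc : (U ∩ A).Nonempty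
    · right
      have : U ∩ A = A := by
        by_contra h'
        exact h1 ⟨hc, h'⟩
      rw [← this]; exact inter_subset_left
    · left
      intro x hx hxU
      exact hc ⟨x, mem_inter.mpr ⟨hxU, hx⟩⟩
  have h2' : (∀ x ∈ B, x ∉ U) ∨ B ⊆ U := by
    by_cases hc : (U ∩ B).Nonempty
    · right
      have : U ∩ B = B := by
        by_contra h'
        exact h2 ⟨hc, h'⟩
      rw [← this]; exact inter_subset_left
    · left
      intro x hx hxU
      exact hc ⟨x, mem_inter.mpr ⟨hxU, hx⟩⟩
  rcases h1' with h1' | h1' <;> rcases h2' with h2' | h2'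
  · exfalso
    obtain ⟨x, hx⟩ := hne
    rcases mem_union.mp (hU hx) with h3 | h3
    · exact h1' x h3 hx
    · exact h2' x h3 hx
  · rcases h with ⟨a, ha, hb⟩ | ⟨a, ha, b, hb, hc⟩
    · exact absurd (h2' hb) (h1' a ha)
    · exact ⟨b, h2' hb, a, mem_union_left _ ha, h1' a ha, by rwa [inter_comm]⟩
  · rcases h with ⟨a, ha, hb⟩ | ⟨a, ha, b, hb, hc⟩
    · exact absurd (h1' ha) (h2' a hb)
    · exact ⟨a, h1' ha, b, mem_union_right _ hb, h2' b hb, hc⟩
  · exact absurd (subset_antisymm hU (union_subset h1' h2')) hUAB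

/-- two distinct pairs in a triangle cover it -/
lemma union_pairs {t e f : Finset (Fin n)} (ht : t.card = 3) (he : e.card = 2) (hf : f.card = 2)
    (het : e ⊆ t) (hft : f ⊆ t) (hne : e ≠ f) : e ∪ f = t := by
  apply eq_of_subset_of_card_le (union_subset het hft)
  have h1 := card_union_add_card_inter e f
  have h2 : (e ∩ f).card < 2 := by
    by_contra hc
    have h3 : e ∩ f = e := eq_of_subset_of_card_le inter_subset_left (by omega)
    have h4 : e ∩ f = f := eq_of_subset_of_card_le inter_subset_right (by omega)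
    exact hne (h3.symm.trans h4)
  omega

/-- two distinct pairs in a triangle meet -/
lemma inter_pairs {t e f : Finset (Fin n)} (ht : t.card = 3) (he : e.card = 2) (hf : f.card = 2)
    (het : e ⊆ t) (hft : f ⊆ t) : ∃ y, y ∈ e ∧ y ∈ f := by
  have h1 := card_union_add_card_inter e f
  have h2 := card_le_card (union_subset het hft)
  have h3 : 0 < (e ∩ f).card := by omega
  obtain ⟨y, hy⟩ := card_pos.mp h3
  exact ⟨y, mem_inter.mp hy⟩

/-- path of triangles: strongly connected -/
lemma SC_path (t : ℕ → Finset (Fin n)) : ∀ k, (∀ i, i < k → 2 ≤ (t i ∩ t (i + 1)).card) →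
    SC ((range (k + 1)).image t) := by
  intro k
  induction k with
  | zero =>
    intro _
    have : (range (0 + 1)).image t = {t 0} := by simp
    rw [this]
    exact SC_singleton _
  | succ k ih =>
    intro h
    have h1 : (range (k + 1 + 1)).image t = (range (k + 1)).image t ∪ {t (k + 1)} := by
      rw [range_add_one (n := k + 1), image_insert, union_comm]
      rfl
    rw [h1]
    refine SC_union (ih fun i hi => h i (by omega)) (SC_singleton _) (Or.inr ?_)
    exact ⟨t k, mem_image_of_mem _ (mem_range.mpr (by omega)), t (k + 1), mem_singleton_self _,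
      h k (by omega)⟩

/-- path of triangles: number of vertices -/
lemma card_path (v0 : Fin n) (t : ℕ → Finset (Fin n)) : ∀ k, (∀ i, i ≤ k → (t i).card = 3) →
    (∀ i, i < k → 2 ≤ (t i ∩ t (i + 1)).card) →
    (cov v0 ((range (k + 1)).image t)).card ≤ k + 3 := by
  intro k
  induction k with
  | zero =>
    intro h3 _
    have : (range (0 + 1)).image t = {t 0} := by simp
    rw [this, cov, singleton_biUnion]
    have h1 := card_le_card (erase_subset v0 (id (t 0)))
    have h2 := h3 0 le_rfl
    simp only [id] at h1 ⊢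
    omega
  | succ k ih =>
    intro h3 h
    have h1 : (range (k + 1 + 1)).image t = insert (t (k + 1)) ((range (k + 1)).image t) := by
      rw [range_add_one (n := k + 1), image_insert]
    rw [h1]
    have h2 := ih (fun i hi => h3 i (by omega)) (fun i hi => h i (by omega))
    have h4 := cov_insert_le v0 ((range (k + 1)).image t) (h3 (k + 1) le_rfl) (h k (by omega))
      inter_subset_right
      (fun x hx => ⟨t k, mem_image_of_mem _ (mem_range.mpr (by omega)), (mem_inter.mp hx).1⟩)
    omega

/-- cycles of triangles are bad -/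
lemma bad_cycle (v0 : Fin n) {T : Finset (Finset (Fin n))} (h3 : ∀ s ∈ T, s.card = 3)
    (t : ℕ → Finset (Fin n)) (k : ℕ) (hk : k + 2 ≤ 10000) (hT : ∀ i, i ≤ k + 1 → t i ∈ T)
    (hadj : ∀ i, i < k + 1 → 2 ≤ (t i ∩ t (i + 1)).card)
    (hinj : ∀ i j, i < j → j ≤ k + 1 → t i ≠ t j)
    (hlast : ∀ x ∈ t (k + 1), ∃ i, i ≤ k ∧ x ∈ t i) :
    Bad v0 T ((range (k + 2)).image t) := by
  refine ⟨?_, ⟨t 0, mem_image_of_mem _ (mem_range.mpr (by omega))⟩, SC_path t (k + 1) hadj,
    Or.inl ⟨?_, ?_⟩⟩
  · intro s hs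
    obtain ⟨i, hi, rfl⟩ := mem_image.mp hs
    exact hT i (by have := mem_range.mp hi; omega)
  · refine card_image_le.trans ?_
    rw [card_range]; exact hk
  · have hcard : ((range (k + 2)).image t).card = k + 2 := by
      rw [card_image_of_injOn, card_range]
      intro i hi j hj hij
      rw [coe_range, Set.mem_Iio] at hi hj
      rcases lt_trichotomy i j with h | h | h
      · exact absurd hij (hinj i j h (by omega))
      · exact h
      · exact absurd hij.symm (hinj j i h (by omega))
    have h1 : (range (k + 2)).image t = insert (t (k + 1)) ((range (k + 1)).image t) := by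
      rw [range_add_one (n := k + 1), image_insert]
    have h2 : cov v0 ((range (k + 2)).image t) = cov v0 ((range (k + 1)).image t) := by
      rw [h1]
      apply cov_insert_eq
      intro x hx
      obtain ⟨i, hi, hxi⟩ := hlast x hx
      exact ⟨t i, mem_image_of_mem _ (mem_range.mpr (by omega)), hxi⟩
    have h4 := card_path v0 t k (fun i hi => h3 _ (hT i (by omega))) (fun i hi => hadj i (by omega))
    rw [exc, hcard, h2]
    omega

open Classical in
/-- the killed pairs -/
noncomputable def Qset (v0 : Fin n) (T : Finset (Finset (Fin n))) : Finset (Finset (Fin n)) :=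
  univ.filter fun e => e.card = 2 ∧ (v0 ∈ e ∨ ∃ A, Bad v0 T A ∧ ∃ t ∈ A, e ⊆ t)

lemma mem_Qset {v0 : Fin n} {T : Finset (Finset (Fin n))} {e : Finset (Fin n)} :
    e ∈ Qset v0 T ↔ e.card = 2 ∧ (v0 ∈ e ∨ ∃ A, Bad v0 T A ∧ ∃ t ∈ A, e ⊆ t) := by
  simp [Qset]

section main

variable {v0 : Fin n} {T : Finset (Finset (Fin n))} {κ ζ : ℝ}
  (G : Good n v0 T 100000 8000 (1 / 1000) κ ζ)

include G

lemma ls {A : Finset (Finset (Fin n))} (hA : A ⊆ T) (hc : A.card ≤ 100000) : 0 ≤ exc v0 A := by
  have := G.ls A hA hc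
  rw [exc]
  omega

lemma Bad.exc_le {A : Finset (Finset (Fin n))} (hA : Bad v0 T A) : exc v0 A ≤ 1 := by
  rcases hA.2.2.2 with h | h
  · exact h.2
  · exact h.2.trans (by norm_num)

lemma Bad.card_le {A : Finset (Finset (Fin n))} (hA : Bad v0 T A) : A.card ≤ 30000 := by
  rcases hA.2.2.2 with h | h
  · exact h.1.trans (by norm_num)
  · exact h.1

lemma bad_of_root {t : Finset (Fin n)} (ht : t ∈ T) (h0 : v0 ∈ t) : Bad v0 T {t} := by
  refine ⟨singleton_subset_iff.mpr ht, singleton_nonempty t, SC_singleton t, Or.inl ⟨?_, ?_⟩⟩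
  · rw [card_singleton]; norm_num
  · have h1 := card_erase_of_mem h0
    have h2 := G.tri t ht
    rw [exc, cov, singleton_biUnion, card_singleton]
    simp only [id]
    omega

/-- all the pairs of a bad triangle are killed -/
lemma mem_Q_of_bad {A : Finset (Finset (Fin n))} (hA : Bad v0 T A) {t e : Finset (Fin n)}
    (ht : t ∈ A) (he : e.card = 2) (het : e ⊆ t) : e ∈ Qset v0 T :=
  mem_Qset.mpr ⟨he, Or.inr ⟨A, hA, t, ht, het⟩⟩

/-- triangles with a pair outside `Q` do not contain the root -/
lemma root_notMem {t f : Finset (Fin n)} (ht : t ∈ T) (hf : f.card = 2) (hft : f ⊆ t)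
    (hfQ : f ∉ Qset v0 T) : v0 ∉ t := fun h0 =>
  hfQ (mem_Q_of_bad G (bad_of_root G ht h0) (mem_singleton_self t) hf hft)

lemma clos {t : Finset (Fin n)} (ht : t ∈ T) {e f g : Finset (Fin n)} (het : e ⊆ t) (hft : f ⊆ t)
    (hgt : g ⊆ t) (hg : g.card = 2) (hef : e ≠ f) (he : e ∈ Qset v0 T) (hf : f ∈ Qset v0 T) :
    g ∈ Qset v0 T := by
  have h3 := G.tri t ht
  by_contra hgQ
  have h0 : v0 ∉ t := root_notMem G ht hg hgt hgQ
  obtain ⟨he2, he'⟩ := mem_Qset.mp he
  obtain ⟨hf2, hf'⟩ := mem_Qset.mp hf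
  obtain ⟨A1, hA1, t1, ht1, het1⟩ := he'.resolve_left fun h => h0 (het h)
  obtain ⟨A2, hA2, t2, ht2, hft2⟩ := hf'.resolve_left fun h => h0 (hft h)
  have htA1 : t ∉ A1 := fun h => hgQ (mem_Q_of_bad G hA1 h hg hgt)
  have htA2 : t ∉ A2 := fun h => hgQ (mem_Q_of_bad G hA2 h hg hgt)
  have hc1 := Bad.card_le G hA1
  have hc2 := Bad.card_le G hA2
  have he1 := Bad.exc_le G hA1
  have he2' := Bad.exc_le G hA2
  have hU := exc_union v0 A1 A2
  have htn : t ∉ A1 ∪ A2 := by
    rw [mem_union]; tauto
  have hcard := card_insert_of_notMem htn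
  have hcU := card_union_le A1 A2
  have hcov : cov v0 (insert t (A1 ∪ A2)) = cov v0 (A1 ∪ A2) := by
    apply cov_insert_eq
    intro x hx
    rw [← union_pairs h3 he2 hf2 het hft hef] at hx
    rcases mem_union.mp hx with h | h
    · exact ⟨t1, mem_union_left _ ht1, het1 h⟩
    · exact ⟨t2, mem_union_right _ ht2, hft2 h⟩
  have hexc : exc v0 (insert t (A1 ∪ A2)) = exc v0 (A1 ∪ A2) - 1 := by
    rw [exc, exc, hcov, hcard]
    push_cast
    ring
  have hsub : insert t (A1 ∪ A2) ⊆ T :=
    insert_subset ht (union_subset hA1.1 hA2.1)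
  have hls := ls G hsub (by omega)
  have hls1 := ls G hA1.1 (by omega)
  have hls2 := ls G hA2.1 (by omega)
  by_cases hx : (1 : ℤ) ≤ ((cov v0 A1 ∩ cov v0 A2).card : ℤ) - ((A1 ∩ A2).card : ℤ)
  · have h11 : exc v0 A1 = 1 := by omega
    have h21 : exc v0 A2 = 1 := by omega
    have hs1 : A1.card ≤ 10000 := by
      rcases hA1.2.2.2 with h | h
      · exact h.1
      · omega
    have hs2 : A2.card ≤ 10000 := by
      rcases hA2.2.2.2 with h | h
      · exact h.1
      · omega
    have hadj1 : 2 ≤ (t ∩ t1).card := by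
      rw [← he2]; exact card_le_card (subset_inter het het1)
    have hadj2 : 2 ≤ (t ∩ t2).card := by
      rw [← hf2]; exact card_le_card (subset_inter hft hft2)
    have hSC : SC (insert t (A1 ∪ A2)) := by
      have e1 : insert t (A1 ∪ A2) = ({t} ∪ A1) ∪ A2 := by
        rw [insert_eq, union_assoc]
      rw [e1]
      refine SC_union (SC_union (SC_singleton t) hA1.2.2.1
        (Or.inr ⟨t, mem_singleton_self t, t1, ht1, hadj1⟩)) hA2.2.2.1
        (Or.inr ⟨t, mem_union_left _ (mem_singleton_self t), t2, ht2, hadj2⟩)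
    have hbad : Bad v0 T (insert t (A1 ∪ A2)) :=
      ⟨hsub, insert_nonempty _ _, hSC, Or.inr ⟨by omega, by omega⟩⟩
    exact hgQ (mem_Q_of_bad G hbad (mem_insert_self _ _) hg hgt)
  · obtain ⟨y, hye, hyf⟩ := inter_pairs h3 he2 hf2 het hft
    have hy0 : y ≠ v0 := fun h => h0 (h ▸ het hye)
    have hy : y ∈ cov v0 A1 ∩ cov v0 A2 := mem_inter.mpr
      ⟨mem_cov.mpr ⟨hy0, t1, ht1, het1 hye⟩, mem_cov.mpr ⟨hy0, t2, ht2, hft2 hyf⟩⟩
    have hypos := card_pos.mpr ⟨y, hy⟩
    have hI : 0 < (A1 ∩ A2).card := by omega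
    have hIne := card_pos.mp hI
    have hexcI := exc_inter_le v0 A1 A2
    have hm1 := exc_mono v0 hA1.2.2.1 (fun s hs => G.tri s (hA1.1 hs)) _ (A1 ∩ A2) rfl
      inter_subset_left hIne
    have hm2 := exc_mono v0 hA2.2.2.1 (fun s hs => G.tri s (hA2.1 hs)) _ (A1 ∩ A2) rfl
      inter_subset_right hIne
    have hcI := card_le_card (inter_subset_left (s₁ := A1) (s₂ := A2))
    have hlsI := ls G (inter_subset_left.trans hA1.1 : A1 ∩ A2 ⊆ T) (by omega)
    omega

lemma walk : ∀ (l : ℕ) (e t : ℕ → Finset (Fin n)), 1 ≤ l → l ≤ 10000 →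
    (∀ i, i ≤ l → (e i).card = 2 ∧ e i ∉ Qset v0 T) →
    (∀ i, i < l → t i ∈ T ∧ e i ⊆ t i ∧ e (i + 1) ⊆ t i ∧ e i ≠ e (i + 1)) →
    (∀ i, i + 1 < l → t i ≠ t (i + 1)) → e 0 ≠ e l := by
  intro l
  induction l using Nat.strong_induction_on with
  | _ l ih =>
  intro e t hl hlM he ht hnb hcon
  have hl2 : 2 ≤ l := by
    by_contra h
    have : l = 1 := by omega
    subst this
    exact (ht 0 (by omega)).2.2.2 hcon
  have hinj : ∀ i j, i < j → j < l → t i ≠ t j := by
    intro i j hij hj htij
    have hij2 : i + 1 < j := by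
      rcases Nat.lt_or_ge (i + 1) j with h | h
      · exact h
      · have : j = i + 1 := by omega
        subst this
        exact absurd htij (hnb i hj)
    by_cases hee : e (i + 1) = e j
    · have h1 := ih (j - (i + 1)) (by omega) (fun k => e (i + 1 + k)) (fun k => t (i + 1 + k))
        (by omega) (by omega) (fun k hk => he _ (by omega)) (fun k hk => ht _ (by omega))
        (fun k hk => hnb _ (by omega))
      apply h1
      simp only [add_zero]
      rw [hee]
      congr 1
      omega
    · -- close up with `t i`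
      have h1 := ih (j - i) (by omega)
        (fun k => if k = j - i then e (i + 1) else e (i + 1 + k)) (fun k => t (i + 1 + k))
        (by omega) (by omega) (fun k hk => by
          split_ifs
          · exact he _ (by omega)
          · exact he _ (by omega)) (fun k hk => by
          have h2 := ht (i + 1 + k) (by omega)
          rw [if_neg (by omega)]
          by_cases hk' : k + 1 = j - i
          · rw [if_pos hk']
            have e1 : i + 1 + k = j := by omega
            have h3 := ht i (by omega)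
            rw [e1, ← htij]
            rw [e1, ← htij] at h2
            exact ⟨h2.1, h2.2.1, h3.2.2.1, fun h => hee h.symm⟩
          · rw [if_neg hk']
            exact h2) (fun k hk => hnb _ (by omega))
      apply h1
      rw [if_neg (by omega), if_pos rfl, add_zero]
  obtain ⟨k, rfl⟩ : ∃ k, l = k + 2 := ⟨l - 2, by omega⟩
  have hbad := bad_cycle v0 G.tri t k (by omega) (fun i hi => (ht i (by omega)).1)
    (fun i hi => by
      have h1 := ht i (by omega)
      have h2 := ht (i + 1) (by omega)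
      rw [← (he (i + 1) (by omega)).1]
      exact card_le_card (subset_inter h1.2.2.1 h2.2.1))
    (fun i j hij hj => hinj i j hij (by omega))
    (fun x hx => by
      have h1 := ht (k + 1) (by omega)
      rw [← union_pairs (G.tri _ h1.1) (he _ (by omega)).1 (he _ (by omega)).1 h1.2.1 h1.2.2.1
        h1.2.2.2] at hx
      rcases mem_union.mp hx with h | h
      · exact ⟨k, le_rfl, (ht k (by omega)).2.2.1 h⟩
      · refine ⟨0, by omega, (ht 0 (by omega)).2.1 ?_⟩
        rw [hcon]; exact h)
  exact (he 0 (by omega)).2 (mem_Q_of_bad G hbad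
    (mem_image_of_mem _ (mem_range.mpr (by omega))) (he 0 (by omega)).1 (ht 0 (by omega)).2.1)

lemma dig : ∀ (l : ℕ) (t : ℕ → Finset (Fin n)), l ≤ 1002 → (∀ i, i ≤ l → t i ∈ T) →
    (∀ i, i < l → ∃ e : Finset (Fin n), e.card = 2 ∧ e ∉ Qset v0 T ∧ e ⊆ t i ∧ e ⊆ t (i + 1)) →
    isDig T (Qset v0 T) (t 0) → isDig T (Qset v0 T) (t l) → t 0 = t l := by
  intro l
  induction l using Nat.strong_induction_on with
  | _ l ih =>
  intro t hl hT hch h0 hl'
  by_contra hne
  have hl1 : 1 ≤ l := by
    by_contra h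
    have : l = 0 := by omega
    subst this
    exact hne rfl
  obtain ⟨_, ⟨q1, hq1t, hq1⟩, f1, hf1t, hf1, hf1Q⟩ := h0
  obtain ⟨_, ⟨q2, hq2t, hq2⟩, f2, hf2t, hf2, hf2Q⟩ := hl'
  have hr0 := root_notMem G (hT 0 (by omega)) hf1 hf1t hf1Q
  have hrl := root_notMem G (hT l le_rfl) hf2 hf2t hf2Q
  obtain ⟨hq1c, hq1'⟩ := mem_Qset.mp hq1
  obtain ⟨hq2c, hq2'⟩ := mem_Qset.mp hq2
  have hadj : ∀ i, i < l → 2 ≤ (t i ∩ t (i + 1)).card := by
    intro i hi
    obtain ⟨e, he, _, h1, h2⟩ := hch i hi
    rw [← he]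
    exact card_le_card (subset_inter h1 h2)
  have hnonQ : ∀ i, i ≤ l → ∃ f : Finset (Fin n), f.card = 2 ∧ f ∉ Qset v0 T ∧ f ⊆ t i := by
    intro i hi
    rcases Nat.lt_or_ge i l with h | h
    · obtain ⟨e, he, heQ, h1, _⟩ := hch i h
      exact ⟨e, he, heQ, h1⟩
    · have : i = l := by omega
      subst this
      exact ⟨f2, hf2, hf2Q, hf2t⟩
  by_cases hqq : q1 = q2
  · -- the chain closes up
    subst hqq
    have hinj : ∀ i j, i < j → j ≤ l → t i ≠ t j := by
      intro i j hij hj htij
      -- cut out the loop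
      have h1 := ih (l - (j - i)) (by omega)
        (fun k => if k ≤ i then t k else t (k + (j - i))) (by omega)
        (fun k hk => by
          split_ifs
          · exact hT _ (by omega)
          · exact hT _ (by omega))
        (fun k hk => by
          by_cases hk1 : k + 1 ≤ i
          · rw [if_pos (by omega), if_pos hk1]
            exact hch k (by omega)
          · rw [if_neg hk1]
            by_cases hk2 : k ≤ i
            · rw [if_pos hk2]
              have : k = i := by omega
              subst this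
              have e1 : k + 1 + (j - k) = j + 1 := by omega
              rw [e1, htij]
              exact hch j (by omega)
            · rw [if_neg hk2]
              have e1 : k + 1 + (j - i) = k + (j - i) + 1 := by omega
              rw [e1]
              exact hch _ (by omega))
        (by
          rw [if_pos (by omega)]
          exact ⟨hT 0 (by omega), ⟨q1, hq1t, hq1⟩, f1, hf1t, hf1, hf1Q⟩)
        (by
          have : (if l - (j - i) ≤ i then t (l - (j - i)) else t (l - (j - i) + (j - i))) = t l := by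
            split_ifs with h
            · have e1 : l = j := by omega
              have e2 : l - (j - i) = i := by omega
              rw [e2, htij, e1]
            · congr 1
              omega
          rw [this]
          exact ⟨hT l le_rfl, ⟨q1, hq2t, hq1⟩, f2, hf2t, hf2, hf2Q⟩)
      apply hne
      have h2 : (if l - (j - i) ≤ i then t (l - (j - i)) else t (l - (j - i) + (j - i))) = t l := by
        split_ifs with h
        · have e1 : l = j := by omega
          have e2 : l - (j - i) = i := by omega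
          rw [e2, htij, e1]
        · congr 1
          omega
      rw [if_pos (by omega), h2] at h1
      exact h1
    obtain ⟨k, rfl⟩ : ∃ k, l = k + 1 := ⟨l - 1, by omega⟩
    have hbad := bad_cycle v0 G.tri t k (by omega) hT hadj hinj
      (fun x hx => by
        obtain ⟨e, he, heQ, h1, h2⟩ := hch k (by omega)
        have hne' : e ≠ q1 := fun h => heQ (h ▸ hq1)
        rw [← union_pairs (G.tri _ (hT (k + 1) le_rfl)) he hq1c h2 hq2t hne'] at hx
        rcases mem_union.mp hx with h | h
        · exact ⟨k, le_rfl, h1 h⟩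
        · exact ⟨0, by omega, hq1t h⟩)
    exact hf1Q (mem_Q_of_bad G hbad (mem_image_of_mem _ (mem_range.mpr (by omega))) hf1 hf1t)
  · obtain ⟨A1, hA1, s1, hs1, hqs1⟩ := hq1'.resolve_left fun h => hr0 (hq1t h)
    obtain ⟨A2, hA2, s2, hs2, hqs2⟩ := hq2'.resolve_left fun h => hrl (hq2t h)
    set A := (range (l + 1)).image t with hA
    have hAT : A ⊆ T := by
      intro s hs
      obtain ⟨i, hi, rfl⟩ := mem_image.mp hs
      exact hT i (by have := mem_range.mp hi; omega)
    have hAc : A.card ≤ 1003 := by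
      refine card_image_le.trans ?_
      rw [card_range]; omega
    have h0A : t 0 ∈ A := mem_image_of_mem _ (mem_range.mpr (by omega))
    have hlA : t l ∈ A := mem_image_of_mem _ (mem_range.mpr (by omega))
    have hASC : SC A := SC_path t l hadj
    have hAexc : exc v0 A ≤ 2 := by
      have h1 := exc_mono v0 hASC (fun s hs => G.tri s (hAT hs)) _ {t 0} rfl
        (singleton_subset_iff.mpr h0A) (singleton_nonempty _)
      have h2 : exc v0 {t 0} ≤ 2 := by
        have h3 := card_le_card (erase_subset v0 (id (t 0)))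
        have h4 := G.tri _ (hT 0 (by omega))
        rw [exc, cov, singleton_biUnion, card_singleton]
        simp only [id] at h3 ⊢
        omega
      exact h1.trans h2
    have hdisj : ∀ B, Bad v0 T B → ∀ s ∈ A, s ∉ B := by
      intro B hB s hs hsB
      obtain ⟨i, hi, rfl⟩ := mem_image.mp hs
      obtain ⟨f, hf, hfQ, hft⟩ := hnonQ i (by have := mem_range.mp hi; omega)
      exact hfQ (mem_Q_of_bad G hB hsB hf hft)
    have hc1 := Bad.card_le G hA1
    have hc2 := Bad.card_le G hA2
    have he1 := Bad.exc_le G hA1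
    have he2 := Bad.exc_le G hA2
    have hU12 := exc_union v0 A1 A2
    have hUA := exc_union v0 A (A1 ∪ A2)
    have hAB : (A ∩ (A1 ∪ A2)).card = 0 := by
      rw [card_eq_zero, eq_empty_iff_forall_notMem]
      intro s hs
      rw [mem_inter, mem_union] at hs
      rcases hs.2 with h | h
      · exact hdisj A1 hA1 s hs.1 h
      · exact hdisj A2 hA2 s hs.1 h
    have hsub : A ∪ (A1 ∪ A2) ⊆ T := union_subset hAT (union_subset hA1.1 hA2.1)
    have hcU := card_union_le A (A1 ∪ A2)
    have hcU' := card_union_le A1 A2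
    have hls := ls G hsub (by omega)
    have hls1 := ls G hA1.1 (by omega)
    have hls2 := ls G hA2.1 (by omega)
    -- vertices of `q1`, `q2`
    have hq1A : q1 ⊆ cov v0 A := fun x hx => mem_cov.mpr
      ⟨fun h => hr0 (h ▸ hq1t hx), t 0, h0A, hq1t hx⟩
    have hq2A : q2 ⊆ cov v0 A := fun x hx => mem_cov.mpr
      ⟨fun h => hrl (h ▸ hq2t hx), t l, hlA, hq2t hx⟩
    have hq1A1 : q1 ⊆ cov v0 A1 := fun x hx => mem_cov.mpr
      ⟨fun h => hr0 (h ▸ hq1t hx), s1, hs1, hqs1 hx⟩
    have hq2A2 : q2 ⊆ cov v0 A2 := fun x hx => mem_cov.mpr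
      ⟨fun h => hrl (h ▸ hq2t hx), s2, hs2, hqs2 hx⟩
    -- the union has non-positive excess, and negative excess if one of the excesses is `0`
    have key : exc v0 (A ∪ (A1 ∪ A2)) ≤ 0 ∧ (exc v0 A1 ≤ 0 ∨ exc v0 A2 ≤ 0 →
        exc v0 (A ∪ (A1 ∪ A2)) < 0) := by
      have h3 : 3 ≤ (cov v0 A ∩ cov v0 (A1 ∪ A2)).card := by
        have h4 : q1 ∪ q2 ⊆ cov v0 A ∩ cov v0 (A1 ∪ A2) := by
          rw [cov_union]
          refine subset_inter (union_subset hq1A hq2A) (union_subset_union hq1A1 hq2A2)
        have h5 := card_le_card h4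
        have h6 : 3 ≤ (q1 ∪ q2).card := by
          by_contra hc
          have h7 := card_le_card (subset_union_left (s₁ := q1) (s₂ := q2))
          have h8 := card_le_card (subset_union_right (s₁ := q1) (s₂ := q2))
          have h9 : q1 = q1 ∪ q2 := eq_of_subset_of_card_le subset_union_left (by omega)
          have h10 : q2 = q1 ∪ q2 := eq_of_subset_of_card_le subset_union_right (by omega)
          exact hqq (h9.trans h10.symm)
        omega
      by_cases hI : (A1 ∩ A2).Nonempty
      · have hexcI := exc_inter_le v0 A1 A2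
        have hm1 := exc_mono v0 hA1.2.2.1 (fun s hs => G.tri s (hA1.1 hs)) _ (A1 ∩ A2) rfl
          inter_subset_left hI
        have hm2 := exc_mono v0 hA2.2.2.1 (fun s hs => G.tri s (hA2.1 hs)) _ (A1 ∩ A2) rfl
          inter_subset_right hI
        constructor
        · omega
        · rintro (h | h) <;> omega
      · rw [not_nonempty_iff_eq_empty] at hI
        have hU1 := exc_union v0 A A1
        have hU2 := exc_union v0 (A ∪ A1) A2
        have e1 : (A ∩ A1).card = 0 := by
          rw [card_eq_zero, eq_empty_iff_forall_notMem]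
          intro s hs
          exact hdisj A1 hA1 s (mem_inter.mp hs).1 (mem_inter.mp hs).2
        have e2 : ((A ∪ A1) ∩ A2).card = 0 := by
          rw [card_eq_zero, eq_empty_iff_forall_notMem]
          intro s hs
          rw [mem_inter, mem_union] at hs
          rcases hs.1 with h | h
          · exact hdisj A2 hA2 s h hs.2
          · have : s ∈ A1 ∩ A2 := mem_inter.mpr ⟨h, hs.2⟩
            rw [hI] at this
            exact absurd this (notMem_empty s)
        have e3 : 2 ≤ (cov v0 A ∩ cov v0 A1).card := by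
          rw [← hq1c]; exact card_le_card (subset_inter hq1A hq1A1)
        have e4 : 2 ≤ (cov v0 (A ∪ A1) ∩ cov v0 A2).card := by
          rw [← hq2c]
          refine card_le_card (subset_inter (hq2A.trans (cov_mono v0 subset_union_left)) hq2A2)
        rw [← union_assoc]
        constructor
        · omega
        · rintro (h | h) <;> omega
    have h11 : exc v0 A1 = 1 := by
      by_contra h
      have := key.2 (Or.inl (by omega))
      omega
    have h21 : exc v0 A2 = 1 := by
      by_contra h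
      have := key.2 (Or.inr (by omega))
      omega
    have hs1' : A1.card ≤ 10000 := by
      rcases hA1.2.2.2 with h | h
      · exact h.1
      · omega
    have hs2' : A2.card ≤ 10000 := by
      rcases hA2.2.2.2 with h | h
      · exact h.1
      · omega
    have hSC : SC (A ∪ (A1 ∪ A2)) := by
      rw [← union_assoc]
      refine SC_union (SC_union hASC hA1.2.2.1 (Or.inr ⟨t 0, h0A, s1, hs1, ?_⟩)) hA2.2.2.1
        (Or.inr ⟨t l, mem_union_left _ hlA, s2, hs2, ?_⟩)
      · rw [← hq1c]; exact card_le_card (subset_inter hq1t hqs1)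
      · rw [← hq2c]; exact card_le_card (subset_inter hq2t hqs2)
    have hbad : Bad v0 T (A ∪ (A1 ∪ A2)) :=
      ⟨hsub, ⟨t 0, mem_union_left _ h0A⟩, hSC, Or.inr ⟨by omega, key.1⟩⟩
    exact hf1Q (mem_Q_of_bad G hbad (mem_union_left _ h0A) hf1 hf1t)

lemma few_mem {t e : Finset (Fin n)} (ht : t ∈ T) (het : e ⊆ t) (he : e ∈ Qset v0 T) :
    ∃ B ⊆ T, t ∈ B ∧ B.card ≤ 100000 ∧ (cov v0 B).card ≤ B.card + 1 := by
  obtain ⟨hec, he'⟩ := mem_Qset.mp he
  rcases he' with h | ⟨A, hA, s, hs, hes⟩
  · have hb := bad_of_root G ht (het h)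
    have h1 := Bad.exc_le G hb
    refine ⟨{t}, singleton_subset_iff.mpr ht, mem_singleton_self t, ?_, ?_⟩
    · rw [card_singleton]; norm_num
    · rw [exc] at h1; omega
  · have h1 := Bad.exc_le G hA
    have h2 := Bad.card_le G hA
    rw [exc] at h1
    by_cases htA : t ∈ A
    · exact ⟨A, hA.1, htA, by omega, by omega⟩
    · have h3 := card_insert_of_notMem htA
      have h4 := cov_insert_le v0 A (G.tri t ht) hec.ge het (fun x hx => ⟨s, hs, hes hx⟩)
      exact ⟨insert t A, insert_subset ht hA.1, mem_insert_self _ _, by omega, by omega⟩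

end main

theorem targetQ : TargetQ := by
  intro n v0 T κ ζ G
  refine ⟨Qset v0 T, ?_⟩
  refine
    { tri := G.tri
      two := fun e he => (mem_Qset.mp he).1
      root := fun j hj => mem_Qset.mpr ⟨?_, Or.inl (mem_insert_self _ _)⟩
      clos := fun t ht e f g het hft hgt hg hef he hf => clos G ht het hft hgt hg hef he hf
      walk := walk G
      dig := dig G
      few := ?_ }
  · rw [card_pair]
    exact hj.symm
  · refine le_trans ?_ G.few
    rw [Nat.cast_le]
    refine card_le_card fun t ht => ?_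
    rw [mem_filter] at ht ⊢
    obtain ⟨htT, e, het, he⟩ := ht
    exact ⟨htT, few_mem G htT het he⟩

end Pool.Agent.HTRank.CombA
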