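import Pool.Agent.HTRank.CombB5

/-! Job 2b, last part: the weight condition and the target. -/

set_option autoImplicit false

open Finset

namespace Pool.Agent.HTRank.CombB

variable {n : ℕ} {T Q : Finset (Finset (Fin n))} {v0 : Fin n}
variable {hQ : QData n v0 T Q 10000 1002} {d : DP Q} {R0 : Finset (Lt hQ × Lt hQ × Lt hQ)}

/-- bound at a light vertex -/
theorem local_light {κ ζ : ℝ} (hG : Good n v0 T 100000 8000 (1 / 1000) κ ζ)
    (hR : RelClosed (Pr hQ d) R0) (D : Finset (Lt hQ)) (i : Fin n)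
    (hi : i ∉ HV hQ d R0 κ) :
    ∑ p ∈ Fc hQ d R0 D i, wt (HV hQ d R0 κ) i p.1 p.2 ≤
      99 / 100 * (1001 / 1000) * ((Dt hQ d D i).card : ℝ) := by
  classical
  set D' := (Dt hQ d D i).filter (fun k => k ∈ nb hQ d R0 i) with hD'
  have h1 : (D'.card : ℝ) ≤ κ * n := by
    have h2 : D'.card ≤ (nb hQ d R0 i).card := by
      apply Finset.card_le_card
      intro k hk
      exact (mem_filter.1 hk).2
    have h3 : ((nb hQ d R0 i).card : ℝ) < κ * n := by
      by_contra h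
      push Not at h
      exact hi (by simp only [HV, mem_filter, mem_univ, true_and]; exact h)
    have h4 : (D'.card : ℝ) ≤ ((nb hQ d R0 i).card : ℝ) := by exact_mod_cast h2
    linarith
  have h2 : Fc hQ d R0 D i ⊆ Nc T Q i D' := by
    intro p hp
    simp only [Fc, mem_filter, mem_univ, true_and] at hp
    obtain ⟨hO, h3, h4⟩ := hp
    rw [mem_Nc]
    refine ⟨?_, ?_, hO.1⟩
    · simp only [hD', Dt, nb, mem_filter, mem_univ, true_and]
      exact ⟨⟨hO.1.2.1, h3⟩, _, hO⟩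
    · simp only [hD', Dt, nb, mem_filter, mem_univ, true_and]
      exact ⟨⟨hO.1.2.2.2, h4⟩, _, hO.flip hR⟩
  have h3 := Nc_le hG hQ i D' h1
  have h4 : ((Fc hQ d R0 D i).card : ℝ) ≤ ((Nc T Q i D').card : ℝ) := by
    exact_mod_cast Finset.card_le_card h2
  have h5 : (D'.card : ℝ) ≤ ((Dt hQ d D i).card : ℝ) := by
    exact_mod_cast Finset.card_le_card (filter_subset _ _)
  have h6 : ∑ p ∈ Fc hQ d R0 D i, wt (HV hQ d R0 κ) i p.1 p.2 ≤
      (Fc hQ d R0 D i).card • (99 / 200 : ℝ) :=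
    Finset.sum_le_card_nsmul _ _ _ (fun p _ => wt_le _ _ _ _)
  rw [nsmul_eq_mul] at h6
  nlinarith

/-- bound at a heavy vertex -/
theorem local_heavy {κ ζ : ℝ} (hG : Good n v0 T 100000 8000 (1 / 1000) κ ζ)
    (D : Finset (Lt hQ)) (i : Fin n)
    (hi : i ∈ HV hQ d R0 κ) (hH : ((HV hQ d R0 κ).card : ℝ) ≤ ζ * n) :
    ∑ p ∈ Fc hQ d R0 D i, wt (HV hQ d R0 κ) i p.1 p.2 ≤
      99 / 100 * (1001 / 1000) * ((Dt hQ d D i).card : ℝ) := by
  classical
  set H := HV hQ d R0 κ with hHdef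
  rw [← Finset.sum_filter_add_sum_filter_not _ (fun p : Fin n × Fin n => p.1 ∉ H ∧ p.2 ∉ H)]
  have s1 : ∑ p ∈ (Fc hQ d R0 D i).filter (fun p => p.1 ∉ H ∧ p.2 ∉ H), wt H i p.1 p.2 ≤
      ((Fc hQ d R0 D i).filter (fun p => p.1 ∉ H ∧ p.2 ∉ H)).card • (1 / 100 : ℝ) := by
    apply Finset.sum_le_card_nsmul
    intro p hp
    have := (mem_filter.1 hp).2
    unfold wt
    rw [if_pos hi, if_pos this]
  have s2 : ∑ p ∈ (Fc hQ d R0 D i).filter (fun p => ¬ (p.1 ∉ H ∧ p.2 ∉ H)), wt H i p.1 p.2 ≤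
      ((Fc hQ d R0 D i).filter (fun p => ¬ (p.1 ∉ H ∧ p.2 ∉ H))).card • (1 / 3 : ℝ) := by
    apply Finset.sum_le_card_nsmul
    intro p hp
    have := (mem_filter.1 hp).2
    unfold wt
    rw [if_pos hi, if_neg this]
  rw [nsmul_eq_mul] at s1 s2
  have mD : ∀ p ∈ Fc hQ d R0 D i, p.1 ∈ Dt hQ d D i ∧ p.2 ∈ Dt hQ d D i ∧
      OO hQ d R0 i p.1 p.2 := by
    intro p hp
    simp only [Fc, mem_filter, mem_univ, true_and] at hp
    obtain ⟨hO, h3, h4⟩ := hp
    simp only [Dt, mem_filter, mem_univ, true_and]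
    exact ⟨⟨hO.1.2.1, h3⟩, ⟨hO.1.2.2.2, h4⟩, hO⟩
  have c1 : (((Fc hQ d R0 D i).filter (fun p => p.1 ∉ H ∧ p.2 ∉ H)).card : ℝ) ≤
      20 * ((Dt hQ d D i).card : ℝ) := by
    refine le_trans ?_ (Nc_le_ten (Q := Q) hG i (Dt hQ d D i))
    have : ((Fc hQ d R0 D i).filter (fun p => p.1 ∉ H ∧ p.2 ∉ H)) ⊆ Nc T Q i (Dt hQ d D i) := by
      intro p hp
      obtain ⟨m1, m2, m3⟩ := mD p (mem_filter.1 hp).1
      rw [mem_Nc]
      exact ⟨m1, m2, m3.1⟩
    exact_mod_cast Finset.card_le_card this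
  set D'' := (Dt hQ d D i).filter (fun k => ∃ j, T3 T Q i k j ∧ (k ∈ H ∨ j ∈ H)) with hD''
  have k1 : (D''.card : ℝ) ≤ κ * n := by
    have h1 : D'' ⊆ (T.filter (fun t => i ∈ t ∧ ¬ Disjoint (t.erase i) H)).biUnion
        (fun t => t.erase i) := by
      intro k hk
      obtain ⟨_, j, h3, h4⟩ := mem_filter.1 hk
      rw [mem_biUnion]
      refine ⟨{i, k, j}, mem_filter.2 ⟨h3.1, by simp, ?_⟩, ?_⟩
      · rw [Finset.not_disjoint_iff]
        rcases h4 with h4 | h4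
        · exact ⟨k, mem_erase.2 ⟨h3.2.1.1.symm, by simp⟩, h4⟩
        · exact ⟨j, mem_erase.2 ⟨h3.2.2.2.1.symm, by simp⟩, h4⟩
      · exact mem_erase.2 ⟨h3.2.1.1.symm, by simp⟩
    have h2 : D''.card ≤ (T.filter (fun t => i ∈ t ∧ ¬ Disjoint (t.erase i) H)).card * 2 := by
      refine (Finset.card_le_card h1).trans ?_
      apply Finset.card_biUnion_le_card_mul
      intro t ht
      obtain ⟨h3, h4, _⟩ := mem_filter.1 ht
      rw [Finset.card_erase_of_mem h4, hQ.tri t h3]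
    have h3 : ((T.filter (fun t => i ∈ t ∧ ¬ Disjoint (t.erase i) H)).card : ℝ) ≤ κ * n / 2 := by
      refine le_trans ?_ (hG.l3 i H hH)
      exact_mod_cast Finset.card_le_card (by
        intro t ht
        simp only [mem_filter] at ht ⊢
        exact ht)
    have h4 : (D''.card : ℝ) ≤
        ((T.filter (fun t => i ∈ t ∧ ¬ Disjoint (t.erase i) H)).card : ℝ) * 2 := by
      exact_mod_cast h2
    linarith
  have c2 : (((Fc hQ d R0 D i).filter (fun p => ¬ (p.1 ∉ H ∧ p.2 ∉ H))).card : ℝ) ≤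
      2 * (1 + 1 / 1000) * D''.card := by
    refine le_trans ?_ (Nc_le hG hQ i D'' k1)
    have : ((Fc hQ d R0 D i).filter (fun p => ¬ (p.1 ∉ H ∧ p.2 ∉ H))) ⊆ Nc T Q i D'' := by
      intro p hp
      obtain ⟨h1, h2⟩ := mem_filter.1 hp
      obtain ⟨m1, m2, m3⟩ := mD p h1
      have h3 : p.1 ∈ H ∨ p.2 ∈ H := by
        by_contra h
        push Not at h
        exact h2 h
      rw [mem_Nc]
      exact ⟨mem_filter.2 ⟨m1, _, m3.1, h3⟩, mem_filter.2 ⟨m2, _, m3.1.flip, h3.symm⟩, m3.1⟩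
    exact_mod_cast Finset.card_le_card this
  have h5 : (D''.card : ℝ) ≤ ((Dt hQ d D i).card : ℝ) := by
    exact_mod_cast Finset.card_le_card (filter_subset _ _)
  have h6 : (0 : ℝ) ≤ ((Dt hQ d D i).card : ℝ) := Nat.cast_nonneg _
  nlinarith

theorem weightCond (hQ : QData n v0 T Q 10000 1002) (d : DP Q) {κ ζ : ℝ} {r0 : ℕ}
    (hκ : 0 < κ) (hG : Good n v0 T 100000 8000 (1 / 1000) κ ζ)
    (hr : (6 * r0 : ℝ) ≤ κ * ζ * (n : ℝ) ^ 2) :
    WeightCond (Pr hQ d) 1000 (1 / 100) r0 := by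
  classical
  intro R0 hR hc
  set H := HV hQ d R0 κ with hHdef
  have hH : (H.card : ℝ) ≤ ζ * n := card_HV hκ hc hr
  refine ⟨wf hQ d R0 H, wf_nonneg H, wf_comm hR H, ?_, ?_, ?_⟩
  · intro x y hxy
    obtain ⟨i, j, k, hO, rfl, rfl⟩ := (corner_iff hR x y).1 hxy
    rw [wf_eq H hO]
    have := wt_le H i j k
    linarith
  · intro a b c habc
    obtain ⟨i, j, k, h3, rfl, rfl, rfl⟩ := hR.sub _ _ _ habc
    have hO : OO hQ d R0 i j k := ⟨h3, habc⟩
    have e1 : (Pr hQ d).inv (cls hQ d k i) = cls hQ d i k := linv_cls hQ d h3.2.2.2.symm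
    have e2 : (Pr hQ d).inv (cls hQ d j k) = cls hQ d k j := linv_cls hQ d h3.2.2.1
    have e3 : (Pr hQ d).inv (cls hQ d i j) = cls hQ d j i := linv_cls hQ d h3.2.1
    rw [e1, e2, e3, wf_eq H (hO.flip hR), wf_eq H (hO.perm hR),
      wf_eq H (((hO.rot hR).rot hR).flip hR)]
    exact wt_sum H i j k
  · intro D hD hL
    have b1 : ∑ x ∈ D, ∑ y ∈ D.filter (fun y => corner (Pr hQ d) R0 x y), wf hQ d R0 H x y ≤
        ∑ x ∈ D, ∑ y ∈ D, wf hQ d R0 H x y := by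
      apply Finset.sum_le_sum
      intro x _
      exact Finset.sum_le_sum_of_subset_of_nonneg (filter_subset _ _)
        (fun y _ _ => wf_nonneg H x y)
    rw [total_le] at b1
    have b2 : ∑ i, ∑ p ∈ Fc hQ d R0 D i, wt H i p.1 p.2 ≤
        ∑ i, 99 / 100 * (1001 / 1000) * ((Dt hQ d D i).card : ℝ) := by
      apply Finset.sum_le_sum
      intro i _
      by_cases hi : i ∈ H
      · exact local_heavy hG D i hi hH
      · exact local_light hG hR D i hi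
    rw [← Finset.mul_sum] at b2
    have b3 : (∑ i, ((Dt hQ d D i).card : ℝ)) ≤
        (D.card : ℝ) + ((D.filter (fun x => dbl hQ d x)).card : ℝ) := by
      have := sum_Dt (hQ := hQ) (d := d) D
      exact_mod_cast this
    have b4 : (251 : ℝ) * ((D.filter (fun x => dbl hQ d x)).card : ℝ) ≤ (D.card : ℝ) := by
      have := dbl_count hQ d hR D hD hL 250 le_rfl
      exact_mod_cast this
    have b5 : (0 : ℝ) ≤ (D.card : ℝ) := Nat.cast_nonneg _
    have b6 : ∑ x ∈ D, ∑ y ∈ D.filter (fun y => corner (Pr hQ d) R0 x y), wf hQ d R0 H x y ≤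
        (1 - 1 / 100 / 2) * (D.card : ℝ) := by
      nlinarith
    exact b6

theorem targetPres : TargetPres := by
  classical
  intro n v0 T Q κ ζ r0 hκ hζ hG hQ h6 hr
  have hne : ∃ t ∈ T, ¬ ∃ e ⊆ t, e ∈ Q := by
    by_contra h
    push Not at h
    have h1 : T.filter (fun t => ∃ e ⊆ t, e ∈ Q) = T := by
      rw [Finset.filter_eq_self]
      exact h
    have h2 : (T.card : ℝ) ≤ (n : ℝ) ^ 2 / 8 := by
      have := hQ.few
      have h3 : ((T.filter (fun t => ∃ e ⊆ t, e ∈ Q)).card : ℝ) ≤ (n : ℝ) ^ 2 / 8 := by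
        simpa using this
      rwa [h1] at h3
    have h3 : (0 : ℝ) ≤ r0 := Nat.cast_nonneg _
    linarith
  obtain ⟨t, ht, hnQ⟩ := hne
  obtain ⟨a, b, c, hab, hac, hbc, rfl⟩ := Finset.card_eq_three.1 (hQ.tri t ht)
  have hN : NQ Q a b := ⟨hab, fun h => hnQ ⟨{a, b}, by intro z; simp; tauto, h⟩⟩
  let d : DP Q := ⟨(a, b), hN⟩
  let _ : Fintype (Lt hQ) := Fintype.ofFinite _
  refine ⟨Lt hQ, inferInstance, Pr hQ d, girth hQ d, weightCond hQ d hκ hG h6, ?_,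
    fun k hk => pgen hQ d k hk⟩
  have := count hQ d r0 hr
  exact this

end Pool.Agent.HTRank.CombB
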