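import Pool.Agent.HTRank.CombDefs

/-! Job 2b, first part: letters, walks and the presentation. -/

set_option autoImplicit false

open Finset

namespace Pool.Agent.HTRank.CombB

variable {n : ℕ}

/-- directed pairs that are not killed -/
def NQ (Q : Finset (Finset (Fin n))) (i j : Fin n) : Prop :=
  i ≠ j ∧ ({i, j} : Finset (Fin n)) ∉ Q

/-- ordered triangles without killed pairs -/
def T3 (T Q : Finset (Finset (Fin n))) (i j k : Fin n) : Prop :=
  ({i, j, k} : Finset (Fin n)) ∈ T ∧ NQ Q i j ∧ NQ Q j k ∧ NQ Q i k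

/-- two directed pairs identified by a digon -/
def Mate (T Q : Finset (Finset (Fin n))) (p q : Fin n × Fin n) : Prop :=
  ∃ a b c : Fin n, ({a, b, c} : Finset (Fin n)) ∈ T ∧ a ≠ b ∧
    ({a, b} : Finset (Fin n)) ∈ Q ∧ NQ Q a c ∧ NQ Q b c ∧
    ((p = (a, c) ∧ q = (b, c)) ∨ (p = (c, a) ∧ q = (c, b)))

/-- the undirected pair -/
def pr (p : Fin n × Fin n) : Finset (Fin n) := {p.1, p.2}

section
variable {T Q : Finset (Finset (Fin n))}

theorem NQ.symm {i j : Fin n} (h : NQ Q i j) : NQ Q j i :=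
  ⟨h.1.symm, by rw [Finset.pair_comm]; exact h.2⟩

theorem pr_swap (p : Fin n × Fin n) : pr p.swap = pr p := by
  simp [pr, Finset.pair_comm]

theorem T3.rot {i j k : Fin n} (h : T3 T Q i j k) : T3 T Q j k i := by
  obtain ⟨h1, h2, h3, h4⟩ := h
  refine ⟨?_, h3, h4.symm, h2.symm⟩
  have : ({j, k, i} : Finset (Fin n)) = {i, j, k} := by ext x; simp; tauto
  rwa [this]

theorem T3.flip {i j k : Fin n} (h : T3 T Q i j k) : T3 T Q i k j := by
  obtain ⟨h1, h2, h3, h4⟩ := h
  refine ⟨?_, h4, h3.symm, h2⟩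
  have : ({i, k, j} : Finset (Fin n)) = {i, j, k} := by ext x; simp; tauto
  rwa [this]

theorem pair_sub {e : Finset (Fin n)} {i j k : Fin n} (he : e ⊆ {i, j, k}) (h2 : e.card = 2) :
    e = {i, j} ∨ e = {j, k} ∨ e = {i, k} := by
  obtain ⟨a, b, hab, rfl⟩ := Finset.card_eq_two.1 h2
  have ha := he (show a ∈ ({a, b} : Finset (Fin n)) by simp)
  have hb := he (show b ∈ ({a, b} : Finset (Fin n)) by simp)
  simp only [mem_insert, mem_singleton] at ha hb
  rcases ha with rfl | rfl | rfl <;> rcases hb with rfl | rfl | rfl <;>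
    simp [Finset.pair_comm] at *

theorem T3.not_dig {v0 : Fin n} (hQ : QData n v0 T Q 10000 1002) {i j k : Fin n}
    (h : T3 T Q i j k) : ¬ isDig T Q {i, j, k} := by
  rintro ⟨h1, ⟨e, he, heQ⟩, h3⟩
  rcases pair_sub he (hQ.two e heQ) with rfl | rfl | rfl
  · exact h.2.1.2 heQ
  · exact h.2.2.1.2 heQ
  · exact h.2.2.2.2 heQ

theorem NQ.card {i j : Fin n} (h : NQ Q i j) : (pr (i, j)).card = 2 := by
  simp only [pr]; exact Finset.card_pair h.1

/-! ### walks -/

/-- one step of a walk through pairs -/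
structure St (T Q : Finset (Finset (Fin n))) (e t e' : Finset (Fin n)) : Prop where
  mem : t ∈ T
  c1 : e.card = 2
  q1 : e ∉ Q
  c2 : e'.card = 2
  q2 : e' ∉ Q
  s1 : e ⊆ t
  s2 : e' ⊆ t
  ne : e ≠ e'

/-- walks from `e0` with last triangle `t` -/
inductive Wk (T Q : Finset (Finset (Fin n))) (e0 : Finset (Fin n)) :
    Finset (Fin n) → Finset (Fin n) → ℕ → Prop
  | one {e t : Finset (Fin n)} : St T Q e0 t e → Wk T Q e0 e t 1
  | step {e t : Finset (Fin n)} {l : ℕ} {t' e' : Finset (Fin n)} :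
      Wk T Q e0 e t l → St T Q e t' e' → t ≠ t' → Wk T Q e0 e' t' (l + 1)

theorem Wk.exists_fun {e0 e t : Finset (Fin n)} {l : ℕ} (h : Wk T Q e0 e t l) :
    1 ≤ l ∧ ∃ (E F : ℕ → Finset (Fin n)), E 0 = e0 ∧ E l = e ∧ F (l - 1) = t ∧
      (∀ i < l, St T Q (E i) (F i) (E (i + 1))) ∧ ∀ i, i + 1 < l → F i ≠ F (i + 1) := by
  induction h with
  | @one e t hs =>
    refine ⟨le_rfl, fun i => if i = 0 then e0 else e, fun _ => t, by simp, by simp, rfl, ?_, ?_⟩
    · intro i hi
      have : i = 0 := by omega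
      subst this
      simpa using hs
    · intro i hi; omega
  | @step e t l t' e' hw hs hne ih =>
    obtain ⟨hl, E, F, hE0, hEl, hFl, hst, hF⟩ := ih
    refine ⟨by omega, fun i => if i ≤ l then E i else e', fun i => if i < l then F i else t',
      by simp [hE0], by simp, by simp, ?_, ?_⟩
    · intro i hi
      rcases Nat.lt_or_ge i l with h | h
      · have h1 : i ≤ l := h.le
        have h2 : i + 1 ≤ l := h
        simpa [h, h1, h2] using hst i h
      · have : i = l := by omega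
        subst this
        simpa [hEl] using hs
    · intro i hi
      rcases Nat.lt_or_ge (i + 1) l with h | h
      · have h1 : i < l := by omega
        simpa [h, h1] using hF i h
      · have : i = l - 1 := by omega
        subst this
        have h3 : l - 1 < l := by omega
        have h4 : ¬ (l - 1 + 1 < l) := by omega
        simp only [h3, if_true, h4, if_false, hFl]
        exact hne

theorem Wk.ne {v0 : Fin n} (hQ : QData n v0 T Q 10000 1002) {e0 e t : Finset (Fin n)} {l : ℕ}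
    (h : Wk T Q e0 e t l) (hl : l ≤ 10000) : e0 ≠ e := by
  obtain ⟨h1, E, F, hE0, hEl, hFl, hst, hF⟩ := h.exists_fun
  have := hQ.walk l E F h1 hl ?_ ?_ hF
  · rwa [hE0, hEl] at this
  · intro i hi
    rcases Nat.lt_or_ge i l with h | h
    · exact ⟨(hst i h).c1, (hst i h).q1⟩
    · have : i = (l - 1) + 1 := by omega
      rw [this]
      exact ⟨(hst (l - 1) (by omega)).c2, (hst (l - 1) (by omega)).q2⟩
  · intro i hi
    exact ⟨(hst i hi).mem, (hst i hi).s1, (hst i hi).s2, (hst i hi).ne⟩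

theorem St.symm {e t e' : Finset (Fin n)} (h : St T Q e t e') : St T Q e' t e :=
  ⟨h.mem, h.c2, h.q2, h.c1, h.q1, h.s2, h.s1, h.ne.symm⟩

/-- a chain of triangles sharing pairs -/
inductive Ch (T Q : Finset (Finset (Fin n))) (t0 : Finset (Fin n)) : Finset (Fin n) → ℕ → Prop
  | nil : t0 ∈ T → Ch T Q t0 t0 0
  | step {t t' e : Finset (Fin n)} {l : ℕ} : Ch T Q t0 t l → t' ∈ T → e.card = 2 → e ∉ Q →
      e ⊆ t → e ⊆ t' → Ch T Q t0 t' (l + 1)

theorem Ch.exists_fun {t0 t : Finset (Fin n)} {l : ℕ} (h : Ch T Q t0 t l) :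
    ∃ (F : ℕ → Finset (Fin n)), F 0 = t0 ∧ F l = t ∧ (∀ i ≤ l, F i ∈ T) ∧
      ∀ i < l, ∃ e : Finset (Fin n), e.card = 2 ∧ e ∉ Q ∧ e ⊆ F i ∧ e ⊆ F (i + 1) := by
  induction h with
  | nil h => exact ⟨fun _ => t0, rfl, rfl, fun _ _ => h, fun i hi => by omega⟩
  | @step t t' e l hc ht' h2 hq h3 h4 ih =>
    obtain ⟨F, hF0, hFl, hT, hs⟩ := ih
    refine ⟨fun i => if i ≤ l then F i else t', by simp [hF0], by simp, ?_, ?_⟩
    · intro i hi
      by_cases h : i ≤ l
      · simpa [h] using hT i h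
      · simpa [h] using ht'
    · intro i hi
      rcases Nat.lt_or_ge i l with h | h
      · have h1 : i ≤ l := h.le
        have h2 : i + 1 ≤ l := h
        simpa [h1, h2] using hs i h
      · have : i = l := by omega
        subst this
        refine ⟨e, h2, hq, ?_, ?_⟩
        · simpa [hFl] using h3
        · simpa using h4

theorem Ch.dig {v0 : Fin n} (hQ : QData n v0 T Q 10000 1002) {t0 t : Finset (Fin n)} {l : ℕ}
    (h : Ch T Q t0 t l) (hl : l ≤ 1002) (h0 : isDig T Q t0) (h1 : isDig T Q t) : t0 = t := by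
  obtain ⟨F, hF0, hFl, hT, hs⟩ := h.exists_fun
  have := hQ.dig l F hl hT hs (by rwa [hF0]) (by rwa [hFl])
  rwa [hF0, hFl] at this

/-! ### mates -/

theorem Mate.symm {p q : Fin n × Fin n} (h : Mate T Q p q) : Mate T Q q p := by
  obtain ⟨a, b, c, h1, h2, h3, h4, h5, h6⟩ := h
  refine ⟨b, a, c, ?_, h2.symm, by rwa [Finset.pair_comm], h5, h4, ?_⟩
  · have : ({b, a, c} : Finset (Fin n)) = {a, b, c} := by ext x; simp; tauto
    rwa [this]
  · tauto

theorem Mate.swap {p q : Fin n × Fin n} (h : Mate T Q p q) : Mate T Q p.swap q.swap := by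
  obtain ⟨a, b, c, h1, h2, h3, h4, h5, h6⟩ := h
  refine ⟨a, b, c, h1, h2, h3, h4, h5, ?_⟩
  rcases h6 with ⟨rfl, rfl⟩ | ⟨rfl, rfl⟩
  · exact Or.inr ⟨rfl, rfl⟩
  · exact Or.inl ⟨rfl, rfl⟩

theorem Mate.step {p q : Fin n × Fin n} (h : Mate T Q p q) :
    ∃ t, isDig T Q t ∧ St T Q (pr p) t (pr q) := by
  obtain ⟨a, b, c, h1, h2, h3, h4, h5, h6⟩ := h
  refine ⟨{a, b, c}, ⟨h1, ⟨{a, b}, by intro x; simp; tauto, h3⟩, ⟨{a, c}, by intro x; simp; tauto,
    h4.card, h4.2⟩⟩, ?_⟩
  have hne : ({a, c} : Finset (Fin n)) ≠ {b, c} := by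
    intro h
    have : a ∈ ({b, c} : Finset (Fin n)) := by rw [← h]; simp
    simp only [mem_insert, mem_singleton] at this
    rcases this with h | h
    · exact h2 h
    · exact h4.1 h
  rcases h6 with ⟨rfl, rfl⟩ | ⟨rfl, rfl⟩
  · exact ⟨h1, h4.card, h4.2, h5.card, h5.2, by intro x; simp [pr]; tauto,
      by intro x; simp [pr]; tauto, hne⟩
  · refine ⟨h1, h4.symm.card, h4.symm.2, h5.symm.card, h5.symm.2, by intro x; simp [pr]; tauto,
      by intro x; simp [pr]; tauto, ?_⟩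
    simp only [pr]
    rw [Finset.pair_comm c a, Finset.pair_comm c b]
    exact hne

theorem dig_unique {v0 : Fin n} (hQ : QData n v0 T Q 10000 1002) {t t' e : Finset (Fin n)}
    (h : isDig T Q t) (h' : isDig T Q t') (he : e.card = 2) (hq : e ∉ Q) (h1 : e ⊆ t)
    (h2 : e ⊆ t') : t = t' :=
  (Ch.step (Ch.nil h.1) h'.1 he hq h1 h2).dig hQ (by norm_num) h h'

theorem third_eq {a b c b' : Fin n} (h : ({a, b, c} : Finset (Fin n)) = {a, b', c})
    (h1 : b ≠ a) (h2 : b ≠ c) : b = b' := by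
  have : b ∈ ({a, b', c} : Finset (Fin n)) := by rw [← h]; simp
  simp only [mem_insert, mem_singleton] at this
  tauto

theorem Mate.unique {v0 : Fin n} (hQ : QData n v0 T Q 10000 1002) {p q q' : Fin n × Fin n}
    (h : Mate T Q p q) (h' : Mate T Q p q') : q = q' := by
  obtain ⟨a, b, c, h1, h2, h3, h4, h5, h6⟩ := h
  obtain ⟨a', b', c', h1', h2', h3', h4', h5', h6'⟩ := h'
  have hd : isDig T Q {a, b, c} :=
    ⟨h1, ⟨{a, b}, by intro x; simp; tauto, h3⟩, ⟨{a, c}, by intro x; simp; tauto, h4.card, h4.2⟩⟩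
  have hd' : isDig T Q {a', b', c'} :=
    ⟨h1', ⟨{a', b'}, by intro x; simp; tauto, h3'⟩,
      ⟨{a', c'}, by intro x; simp; tauto, h4'.card, h4'.2⟩⟩
  have key : ({a, c} : Finset (Fin n)) = {a', c'} →
      ({a, b, c} : Finset (Fin n)) = {a', b', c'} := by
    intro h
    refine dig_unique hQ hd hd' (e := {a, c}) h4.card h4.2 (by intro x; simp; tauto) ?_
    rw [h]; intro x; simp; tauto
  rcases h6 with ⟨rfl, rfl⟩ | ⟨rfl, rfl⟩ <;> rcases h6' with ⟨h7, rfl⟩ | ⟨h7, rfl⟩ <;>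
    simp only [Prod.mk.injEq] at h7 <;> obtain ⟨rfl, rfl⟩ := h7
  · rw [third_eq (key rfl) h2.symm h5.1]
  · exfalso
    have h8 := key (Finset.pair_comm _ _)
    have h9 : ({a, b, c} : Finset (Fin n)) = {a, b', c} := by
      rw [h8]; ext x; simp; tauto
    have := third_eq h9 h2.symm h5.1
    subst this
    exact h5.2 (by rw [Finset.pair_comm]; exact h3')
  · exfalso
    have h8 := key (Finset.pair_comm _ _)
    have h9 : ({a, b, c} : Finset (Fin n)) = {a, b', c} := by
      rw [h8]; ext x; simp; tauto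
    have := third_eq h9 h2.symm h5.1
    subst this
    exact h5.2 (by rw [Finset.pair_comm]; exact h3')
  · rw [third_eq (key rfl) h2.symm h5.1]

theorem Mate.ne {p q : Fin n × Fin n} (h : Mate T Q p q) : p ≠ q := by
  obtain ⟨t, _, ht⟩ := h.step
  intro h
  exact ht.ne (by rw [h])

end

end Pool.Agent.HTRank.CombB
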