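import Pool.Agent.HTRank.CombB1

/-! Job 2b, second part: the presentation. -/

set_option autoImplicit false

open Finset

namespace Pool.Agent.HTRank.CombB

variable {n : ℕ} {T Q : Finset (Finset (Fin n))} {v0 : Fin n}

/-- non-killed directed pairs as a type -/
abbrev DP (Q : Finset (Finset (Fin n))) : Type := {p : Fin n × Fin n // NQ Q p.1 p.2}

/-- identification of directed pairs -/
def stp (hQ : QData n v0 T Q 10000 1002) : Setoid (DP Q) where
  r x y := x = y ∨ Mate T Q x.1 y.1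
  iseqv := by
    constructor
    · intro x; exact Or.inl rfl
    · rintro x y (h | h)
      · exact Or.inl h.symm
      · exact Or.inr h.symm
    · rintro x y z (rfl | h) (rfl | h')
      · exact Or.inl rfl
      · exact Or.inr h'
      · exact Or.inr h
      · exact Or.inl (Subtype.ext (Mate.unique hQ h.symm h'))

/-- letters -/
def Lt (hQ : QData n v0 T Q 10000 1002) : Type := Quotient (stp hQ)

instance (hQ : QData n v0 T Q 10000 1002) : Finite (Lt hQ) := by
  unfold Lt; infer_instance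

/-- class map -/
def mk (hQ : QData n v0 T Q 10000 1002) (p : DP Q) : Lt hQ := Quotient.mk (stp hQ) p

theorem mk_eq_iff (hQ : QData n v0 T Q 10000 1002) (p q : DP Q) :
    mk hQ p = mk hQ q ↔ p = q ∨ Mate T Q p.1 q.1 :=
  ⟨fun h => Quotient.exact h, fun h => Quotient.sound h⟩

theorem mk_surj (hQ : QData n v0 T Q 10000 1002) (x : Lt hQ) : ∃ p, x = mk hQ p := by
  obtain ⟨p, hp⟩ := Quotient.exists_rep (s := stp hQ) x
  exact ⟨p, hp.symm⟩

open Classical in
/-- the class of a directed pair (junk value if killed) -/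
noncomputable def cls (hQ : QData n v0 T Q 10000 1002) (d : DP Q) (i j : Fin n) : Lt hQ :=
  if h : NQ Q i j then mk hQ ⟨(i, j), h⟩ else mk hQ d

theorem cls_pos (hQ : QData n v0 T Q 10000 1002) (d : DP Q) {i j : Fin n} (h : NQ Q i j) :
    cls hQ d i j = mk hQ ⟨(i, j), h⟩ := dif_pos h

theorem cls_eq_iff (hQ : QData n v0 T Q 10000 1002) (d : DP Q) {i j i' j' : Fin n}
    (h : NQ Q i j) (h' : NQ Q i' j') :
    cls hQ d i j = cls hQ d i' j' ↔ (i, j) = (i', j') ∨ Mate T Q (i, j) (i', j') := by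
  rw [cls_pos hQ d h, cls_pos hQ d h', mk_eq_iff, Subtype.mk.injEq]

theorem cls_surj (hQ : QData n v0 T Q 10000 1002) (d : DP Q) (x : Lt hQ) :
    ∃ i j, NQ Q i j ∧ x = cls hQ d i j := by
  obtain ⟨p, rfl⟩ := mk_surj hQ x
  exact ⟨p.1.1, p.1.2, p.2, (cls_pos hQ d p.2).symm⟩

/-- inversion of letters -/
def linv (hQ : QData n v0 T Q 10000 1002) : Lt hQ → Lt hQ :=
  Quotient.map' (s₁ := stp hQ) (s₂ := stp hQ) (fun p => ⟨p.1.swap, p.2.symm⟩) (by
    rintro x y (rfl | h)
    · exact Or.inl rfl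
    · exact Or.inr h.swap)

theorem linv_cls (hQ : QData n v0 T Q 10000 1002) (d : DP Q) {i j : Fin n} (h : NQ Q i j) :
    linv hQ (cls hQ d i j) = cls hQ d j i := by
  rw [cls_pos hQ d h, cls_pos hQ d h.symm]
  rfl

/-- two directed pairs of a triangle without killed pairs are not mates -/
theorem T3.not_mate (hQ : QData n v0 T Q 10000 1002) {i j k : Fin n} (h : T3 T Q i j k)
    {p q : Fin n × Fin n} (hp : pr p ⊆ {i, j, k}) (hq : pr q ⊆ {i, j, k}) : ¬ Mate T Q p q := by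
  intro hm
  obtain ⟨t, ht, hs⟩ := hm.step
  have hcard : 2 < (pr p ∪ pr q).card := by
    rcases Nat.lt_or_ge 2 (pr p ∪ pr q).card with h1 | h1
    · exact h1
    · exfalso
      have h2 : pr p = pr p ∪ pr q :=
        Finset.eq_of_subset_of_card_le subset_union_left (by rw [hs.c1]; exact h1)
      have h3 : pr q = pr p ∪ pr q :=
        Finset.eq_of_subset_of_card_le subset_union_right (by rw [hs.c2]; exact h1)
      exact hs.ne (h2.trans h3.symm)
  have e1 : pr p ∪ pr q = t :=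
    Finset.eq_of_subset_of_card_le (union_subset hs.s1 hs.s2) (by rw [hQ.tri t hs.mem]; exact hcard)
  have e2 : pr p ∪ pr q = {i, j, k} :=
    Finset.eq_of_subset_of_card_le (union_subset hp hq) (by rw [hQ.tri _ h.1]; exact hcard)
  rw [← e1, e2] at ht
  exact h.not_dig hQ ht

theorem T3.st {i j k : Fin n} (h : T3 T Q i j k) :
    St T Q (pr (i, j)) {i, j, k} (pr (i, k)) := by
  refine ⟨h.1, h.2.1.card, h.2.1.2, h.2.2.2.card, h.2.2.2.2, by intro x; simp [pr]; tauto,
    by intro x; simp [pr]; tauto, ?_⟩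
  intro h1
  have : j ∈ pr (i, k) := by rw [← h1]; simp [pr]
  simp only [pr, mem_insert, mem_singleton] at this
  rcases this with h2 | h2
  · exact h.2.1.1 h2.symm
  · exact h.2.2.1.1 h2

/-- moving to another representative of a letter -/
theorem Wk.move (hQ : QData n v0 T Q 10000 1002) (d : DP Q) {e0 t : Finset (Fin n)} {l : ℕ}
    {i j i' j' : Fin n} (hw : Wk T Q e0 (pr (i, j)) t l) (ht : ¬ isDig T Q t)
    (h : NQ Q i j) (h' : NQ Q i' j') (he : cls hQ d i j = cls hQ d i' j') :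
    ∃ t' l', l' ≤ l + 1 ∧ Wk T Q e0 (pr (i', j')) t' l' ∧
      ((t' = t ∧ (i, j) = (i', j')) ∨ isDig T Q t') := by
  rcases (cls_eq_iff hQ d h h').1 he with h1 | h1
  · refine ⟨t, l, by omega, ?_, Or.inl ⟨rfl, h1⟩⟩
    rwa [← h1]
  · obtain ⟨t', ht', hs⟩ := h1.step
    refine ⟨t', l + 1, le_rfl, hw.step hs ?_, Or.inr ht'⟩
    rintro rfl
    exact ht ht'

theorem Wk.move' (hQ : QData n v0 T Q 10000 1002) (d : DP Q) {e0 t : Finset (Fin n)} {l : ℕ}
    {i j i' j' : Fin n} (hw : Wk T Q e0 (pr (i, j)) t l) (ht : ¬ isDig T Q t) (hl : l ≤ 9999)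
    (h : NQ Q i j) (h' : NQ Q i' j') (he : cls hQ d i j = cls hQ d i' j') :
    e0 ≠ pr (i', j') := by
  obtain ⟨t', l', hl', hw', _⟩ := hw.move hQ d ht h h' he
  exact hw'.ne hQ (by omega)

/-- a corner is determined by its letters -/
theorem corner_unique (hQ : QData n v0 T Q 10000 1002) (d : DP Q) {i j k i' j' k' : Fin n}
    (h : T3 T Q i j k) (h' : T3 T Q i' j' k') (h1 : cls hQ d i j = cls hQ d i' j')
    (h2 : cls hQ d i k = cls hQ d i' k') : i = i' ∧ j = j' ∧ k = k' := by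
  by_cases ht : ({i, j, k} : Finset (Fin n)) = {i', j', k'}
  · have e1 := (cls_eq_iff hQ d h.2.1 h'.2.1).1 h1
    have e2 := (cls_eq_iff hQ d h.2.2.2 h'.2.2.2).1 h2
    have n1 : ¬ Mate T Q (i, j) (i', j') :=
      h.not_mate hQ (by intro x; simp [pr]; tauto) (by rw [ht]; intro x; simp [pr]; tauto)
    have n2 : ¬ Mate T Q (i, k) (i', k') :=
      h.not_mate hQ (by intro x; simp [pr]; tauto) (by rw [ht]; intro x; simp [pr]; tauto)
    have e1 := e1.resolve_right n1
    have e2 := e2.resolve_right n2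
    simp only [Prod.mk.injEq] at e1 e2
    exact ⟨e1.1, e1.2, e2.2⟩
  · exfalso
    have w1 : Wk T Q (pr (i, j)) (pr (i, k)) {i, j, k} 1 := Wk.one h.st
    obtain ⟨t', l', hl', hw', h3⟩ := w1.move hQ d (h.not_dig hQ) h.2.2.2 h'.2.2.2 h2
    have hne : t' ≠ {i', j', k'} := by
      rcases h3 with ⟨rfl, _⟩ | h3
      · exact ht
      · rintro rfl; exact h'.not_dig hQ h3
    have w2 := hw'.step h'.st.symm hne
    exact w2.move' hQ d (h'.not_dig hQ) (by omega) h'.2.1 h.2.1 h1.symm rfl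

/-- the triangular presentation -/
noncomputable def Pr (hQ : QData n v0 T Q 10000 1002) (d : DP Q) : TriPres (Lt hQ) where
  inv := linv hQ
  inv_inv a := by
    obtain ⟨i, j, h, rfl⟩ := cls_surj hQ d a
    rw [linv_cls hQ d h, linv_cls hQ d h.symm]
  inv_ne a := by
    obtain ⟨i, j, h, rfl⟩ := cls_surj hQ d a
    rw [linv_cls hQ d h]
    intro h1
    rcases (cls_eq_iff hQ d h.symm h).1 h1 with h2 | h2
    · exact h.1 (congrArg Prod.snd h2)
    · obtain ⟨t, _, hs⟩ := h2.step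
      exact hs.ne (pr_swap (i, j))
  R a b c := ∃ i j k, T3 T Q i j k ∧ a = cls hQ d i j ∧ b = cls hQ d j k ∧ c = cls hQ d k i
  rot := by
    rintro a b c ⟨i, j, k, h, rfl, rfl, rfl⟩
    exact ⟨j, k, i, h.rot, rfl, rfl, rfl⟩
  flip := by
    rintro a b c ⟨i, j, k, h, rfl, rfl, rfl⟩
    exact ⟨i, k, j, h.flip, linv_cls hQ d h.2.2.2.symm, linv_cls hQ d h.2.2.1,
      linv_cls hQ d h.2.1⟩
  ne1 := by
    rintro a b c ⟨i, j, k, h, rfl, rfl, rfl⟩ h1
    rcases (cls_eq_iff hQ d h.2.1 h.2.2.1).1 h1 with h2 | h2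
    · exact h.2.1.1 (congrArg Prod.fst h2)
    · exact h.not_mate hQ (by intro x; simp [pr]; tauto) (by intro x; simp [pr]; tauto) h2
  ne2 := by
    rintro a b c ⟨i, j, k, h, rfl, rfl, rfl⟩ h1
    rw [linv_cls hQ d h.2.2.1] at h1
    rcases (cls_eq_iff hQ d h.2.1 h.2.2.1.symm).1 h1 with h2 | h2
    · exact h.2.2.2.1 (congrArg Prod.fst h2)
    · exact h.not_mate hQ (by intro x; simp [pr]; tauto) (by intro x; simp [pr]; tauto) h2
  uniq := by
    rintro a b c c' ⟨i, j, k, h, rfl, rfl, rfl⟩ ⟨i', j', k', h', h1, h2, rfl⟩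
    have e1 : cls hQ d j i = cls hQ d j' i' := by
      rw [← linv_cls hQ d h.2.1, ← linv_cls hQ d h'.2.1, h1]
    obtain ⟨rfl, rfl, rfl⟩ := corner_unique hQ d h.rot.flip h'.rot.flip
      (by exact e1) (by exact h2)
    rfl

end Pool.Agent.HTRank.CombB
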