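import Pool.Agent.HTRank.CombB2

/-! Job 2b, third part: girth, number of relators, generation. -/

set_option autoImplicit false

open Finset

namespace Pool.Agent.HTRank.CombB

variable {n : ℕ} {T Q : Finset (Finset (Fin n))} {v0 : Fin n}

theorem T3.perm {i j k : Fin n} (h : T3 T Q i j k) : T3 T Q j i k := h.rot.flip

theorem adj_iff (hQ : QData n v0 T Q 10000 1002) (d : DP Q) (x y : Lt hQ) :
    (Pr hQ d).adj x y ↔ ∃ i j k, T3 T Q i j k ∧ x = cls hQ d i j ∧ y = cls hQ d i k := by
  constructor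
  · rintro ⟨c, i, j, k, h, h1, rfl, rfl⟩
    refine ⟨j, i, k, h.perm, ?_, rfl⟩
    rw [← (Pr hQ d).inv_inv x, h1]
    exact linv_cls hQ d h.2.1
  · rintro ⟨i, j, k, h, rfl, rfl⟩
    exact ⟨_, j, i, k, h.perm, linv_cls hQ d h.2.1, rfl, rfl⟩

theorem girth (hQ : QData n v0 T Q 10000 1002) (d : DP Q) : (Pr hQ d).Girth 1000 := by
  intro p x hp1 hp hadj hnb
  have hadj' : ∀ m, m < p → ∃ i j k, T3 T Q i j k ∧ x m = cls hQ d i j ∧
      x (m + 1) = cls hQ d i k := fun m hm => (adj_iff hQ d _ _).1 (hadj m hm)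
  obtain ⟨d1, d2⟩ := d
  have : Nonempty (Fin n) := ⟨d1.1⟩
  choose! I J K h3 hx hy using hadj'
  have key : ∀ m, m < p → ∃ l, l ≤ 2 * m + 1 ∧
      Wk T Q (pr (I 0, J 0)) (pr (I m, K m)) {I m, J m, K m} l := by
    intro m
    induction m with
    | zero => intro hm; exact ⟨1, by norm_num, Wk.one (h3 0 hm).st⟩
    | succ m ih =>
      intro hm
      have hm' : m < p := by omega
      obtain ⟨l, hl, hw⟩ := ih hm'
      have T1 := h3 m hm'
      have T2 := h3 (m + 1) hm
      obtain ⟨t', l', hl', hw', h4⟩ := hw.move hQ ⟨d1, d2⟩ (T1.not_dig hQ) T1.2.2.2 T2.2.1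
        (by rw [← hy m hm', ← hx (m + 1) hm])
      refine ⟨l' + 1, by omega, hw'.step T2.st ?_⟩
      rcases h4 with ⟨rfl, h5⟩ | h4
      · intro h6
        simp only [Prod.mk.injEq] at h5
        obtain ⟨h7, h8⟩ := h5
        rw [← h7, ← h8] at h6
        have h9 : ({I m, J m, K m} : Finset (Fin n)) = {I m, K (m + 1), K m} := by
          rw [h6]; ext z; simp; tauto
        have h10 := third_eq h9 T1.2.1.1.symm T1.2.2.1.1
        apply hnb m (by omega)
        rw [hx m hm', hy (m + 1) hm, ← h7, ← h10]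
      · rintro rfl
        exact T2.not_dig hQ h4
  obtain ⟨l, hl, hw⟩ := key (p - 1) (by omega)
  have hp' : p - 1 < p := by omega
  have h0 : 0 < p := by omega
  have T0 := h3 0 h0
  have T1 := h3 (p - 1) hp'
  have hxp : x p = cls hQ ⟨d1, d2⟩ (I (p - 1)) (K (p - 1)) := by
    have := hy (p - 1) hp'
    rwa [show p - 1 + 1 = p by omega] at this
  constructor
  · intro h
    exact hw.move' hQ ⟨d1, d2⟩ (T1.not_dig hQ) (by omega) T1.2.2.2 T0.2.1
      (by rw [← hxp, h, hx 0 h0]) rfl
  · intro h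
    refine hw.move' hQ ⟨d1, d2⟩ (T1.not_dig hQ) (by omega) T1.2.2.2 T0.2.1.symm
      (by rw [← hxp, h, hx 0 h0]; exact linv_cls hQ _ T0.2.1) (pr_swap (I 0, J 0)).symm

/-- relator of an ordered triangle -/
noncomputable def rl (hQ : QData n v0 T Q 10000 1002) (d : DP Q) (q : Fin n × Fin n × Fin n) :
    Lt hQ × Lt hQ × Lt hQ :=
  (cls hQ d q.1 q.2.1, cls hQ d q.2.1 q.2.2, cls hQ d q.2.2 q.1)

theorem rl_inj (hQ : QData n v0 T Q 10000 1002) (d : DP Q) {q q' : Fin n × Fin n × Fin n}
    (h : T3 T Q q.1 q.2.1 q.2.2) (h' : T3 T Q q'.1 q'.2.1 q'.2.2) (he : rl hQ d q = rl hQ d q') :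
    q = q' := by
  obtain ⟨i, j, k⟩ := q
  obtain ⟨i', j', k'⟩ := q'
  simp only [rl, Prod.mk.injEq] at he
  obtain ⟨h1, h2, h3⟩ := he
  have e1 : cls hQ d j i = cls hQ d j' i' := by
    rw [← linv_cls hQ d h.2.1, ← linv_cls hQ d h'.2.1, h1]
  obtain ⟨h4, h5, h6⟩ := corner_unique hQ d h.perm h'.perm (by exact e1) (by exact h2)
  simp only at h4 h5 h6
  rw [h4, h5, h6]

open Classical in
/-- ordered triangles without killed pairs, as a finset -/
noncomputable def O3 (T Q : Finset (Finset (Fin n))) : Finset (Fin n × Fin n × Fin n) :=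
  univ.filter (fun q => T3 T Q q.1 q.2.1 q.2.2)

open Classical in
theorem card_O3 (hQ : QData n v0 T Q 10000 1002) :
    6 * (T.filter (fun t => ¬ ∃ e ⊆ t, e ∈ Q)).card ≤ (O3 T Q).card := by
  have h1 : ∀ q ∈ O3 T Q, ({q.1, q.2.1, q.2.2} : Finset (Fin n)) ∈
      T.filter (fun t => ¬ ∃ e ⊆ t, e ∈ Q) := by
    intro q hq
    simp only [O3, mem_filter, mem_univ, true_and] at hq
    rw [mem_filter]
    refine ⟨hq.1, ?_⟩
    rintro ⟨e, he, heQ⟩
    exact hq.not_dig hQ ⟨hq.1, ⟨e, he, heQ⟩, pr (q.1, q.2.1), by intro x; simp [pr]; tauto,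
      hq.2.1.card, hq.2.1.2⟩
  rw [Finset.card_eq_sum_card_fiberwise h1, mul_comm, ← smul_eq_mul]
  refine Finset.card_nsmul_le_sum _ _ _ ?_
  intro t ht
  rw [mem_filter] at ht
  obtain ⟨htT, hnQ⟩ := ht
  obtain ⟨a, b, c, hab, hac, hbc, rfl⟩ := Finset.card_eq_three.1 (hQ.tri t htT)
  have hN : ∀ x y : Fin n, x ∈ ({a, b, c} : Finset (Fin n)) → y ∈ ({a, b, c} : Finset (Fin n)) →
      x ≠ y → NQ Q x y := by
    intro x y hx hy hxy
    refine ⟨hxy, fun h => hnQ ⟨{x, y}, ?_, h⟩⟩
    intro z hz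
    simp only [mem_insert, mem_singleton] at hz
    rcases hz with rfl | rfl
    · exact hx
    · exact hy
  have ma : a ∈ ({a, b, c} : Finset (Fin n)) := by simp
  have mb : b ∈ ({a, b, c} : Finset (Fin n)) := by simp
  have mc : c ∈ ({a, b, c} : Finset (Fin n)) := by simp
  have T1 : T3 T Q a b c := ⟨htT, hN a b ma mb hab, hN b c mb mc hbc, hN a c ma mc hac⟩
  have hsub : ({(a, b, c), (b, c, a), (c, a, b), (a, c, b), (c, b, a), (b, a, c)} :
      Finset (Fin n × Fin n × Fin n)) ⊆
      (O3 T Q).filter (fun q => ({q.1, q.2.1, q.2.2} : Finset (Fin n)) = {a, b, c}) := by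
    intro q hq
    simp only [mem_insert, mem_singleton] at hq
    rw [mem_filter]
    rcases hq with rfl | rfl | rfl | rfl | rfl | rfl
    · exact ⟨by simp only [O3, mem_filter, mem_univ, true_and]; exact T1, rfl⟩
    · exact ⟨by simp only [O3, mem_filter, mem_univ, true_and]; exact T1.rot,
        by ext z; simp; tauto⟩
    · exact ⟨by simp only [O3, mem_filter, mem_univ, true_and]; exact T1.rot.rot,
        by ext z; simp; tauto⟩
    · exact ⟨by simp only [O3, mem_filter, mem_univ, true_and]; exact T1.flip,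
        by ext z; simp; tauto⟩
    · exact ⟨by simp only [O3, mem_filter, mem_univ, true_and]; exact T1.flip.rot,
        by ext z; simp; tauto⟩
    · exact ⟨by simp only [O3, mem_filter, mem_univ, true_and]; exact T1.flip.rot.rot,
        by ext z; simp; tauto⟩
  refine le_trans ?_ (Finset.card_le_card hsub)
  have hba := hab.symm
  have hca := hac.symm
  have hcb := hbc.symm
  rw [Finset.card_insert_of_notMem, Finset.card_insert_of_notMem, Finset.card_insert_of_notMem,
    Finset.card_insert_of_notMem, Finset.card_insert_of_notMem, Finset.card_singleton]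
  all_goals simp [*]

open Classical in
theorem count (hQ : QData n v0 T Q 10000 1002) (d : DP Q) [Fintype (Lt hQ)] (r0 : ℕ)
    (hr : (r0 : ℝ) + (n : ℝ) ^ 2 / 8 < T.card) :
    6 * r0 < (univ.filter (fun q : Lt hQ × Lt hQ × Lt hQ => (Pr hQ d).R q.1 q.2.1 q.2.2)).card := by
  have h1 : r0 < (T.filter (fun t => ¬ ∃ e ⊆ t, e ∈ Q)).card := by
    have h2 := hQ.few
    have h3 := Finset.card_filter_add_card_filter_not (s := T) (fun t => ∃ e ⊆ t, e ∈ Q)
    have h4 : (T.card : ℝ) = ((T.filter (fun t => ∃ e ⊆ t, e ∈ Q)).card : ℝ) +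
        ((T.filter (fun t => ¬ ∃ e ⊆ t, e ∈ Q)).card : ℝ) := by
      rw [← h3]; push_cast; rfl
    have h5 : (r0 : ℝ) < ((T.filter (fun t => ¬ ∃ e ⊆ t, e ∈ Q)).card : ℝ) := by
      have h6 : ((T.filter (fun t => ∃ e ⊆ t, e ∈ Q)).card : ℝ) ≤ (n : ℝ) ^ 2 / 8 := by
        simpa using h2
      linarith
    exact_mod_cast h5
  have h2 : (O3 T Q).card ≤
      (univ.filter (fun q : Lt hQ × Lt hQ × Lt hQ => (Pr hQ d).R q.1 q.2.1 q.2.2)).card := by
    refine Finset.card_le_card_of_injOn (rl hQ d) ?_ ?_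
    · intro q hq
      simp only [O3, coe_filter, mem_univ, true_and, Set.mem_ofPred_eq] at hq ⊢
      exact ⟨q.1, q.2.1, q.2.2, hq, rfl, rfl, rfl⟩
    · intro q hq q' hq' he
      simp only [O3, coe_filter, mem_univ, true_and, Set.mem_ofPred_eq] at hq hq'
      exact rl_inj hQ d hq hq' he
  have h3 := card_O3 hQ
  omega

theorem NQ_comm {i j : Fin n} : NQ Q i j ↔ NQ Q j i := ⟨NQ.symm, NQ.symm⟩

/-- killed side opposite to `k`: the two other directed pairs have the same class -/
theorem cls_dig (hQ : QData n v0 T Q 10000 1002) (d : DP Q) {i j k : Fin n}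
    (ht : ({i, j, k} : Finset (Fin n)) ∈ T) (hij : i ≠ j) (h : ({i, j} : Finset (Fin n)) ∈ Q)
    (h1 : NQ Q i k) (h2 : NQ Q j k) : cls hQ d i k = cls hQ d j k :=
  (cls_eq_iff hQ d h1 h2).2 (Or.inr ⟨i, j, k, ht, hij, h, h1, h2, Or.inl ⟨rfl, rfl⟩⟩)

theorem cls_dig' (hQ : QData n v0 T Q 10000 1002) (d : DP Q) {i j k : Fin n}
    (ht : ({i, j, k} : Finset (Fin n)) ∈ T) (hij : i ≠ j) (h : ({i, j} : Finset (Fin n)) ∈ Q)
    (h1 : NQ Q i k) (h2 : NQ Q j k) : cls hQ d k i = cls hQ d k j :=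
  (cls_eq_iff hQ d h1.symm h2.symm).2
    (Or.inr ⟨i, j, k, ht, hij, h, h1, h2, Or.inr ⟨rfl, rfl⟩⟩)

open Classical in
/-- the action of the edge path group -/
noncomputable def toT (hQ : QData n v0 T Q 10000 1002) (d : DP Q) {Ω : Type}
    (X : Act (Pr hQ d) Ω) : TAct n T v0 Ω where
  τ i j ω := if NQ Q i j then X.σ (cls hQ d i j) ω else ω
  refl i ω := by
    rw [if_neg]; exact fun h => h.1 rfl
  inv i j ω := by
    by_cases h : NQ Q i j
    · rw [if_pos h, if_pos h.symm, ← linv_cls hQ d h]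
      exact X.inv_left _ _
    · rw [if_neg h, if_neg (fun h' => h (NQ.symm h'))]
  root j ω := by
    rw [if_neg]
    intro h
    exact h.2 (hQ.root j h.1.symm)
  tri i j k ht ω := by
    have hc : ({i, j, k} : Finset (Fin n)).card = 3 := hQ.tri _ ht
    have hij : i ≠ j := by
      rintro rfl
      have : ({i, i, k} : Finset (Fin n)).card ≤ 2 := by
        rw [Finset.insert_eq_of_mem (by simp)]; exact Finset.card_le_two
      omega
    have hjk : j ≠ k := by
      rintro rfl
      have : ({i, j, j} : Finset (Fin n)).card ≤ 2 := by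
        rw [show ({i, j, j} : Finset (Fin n)) = {i, j} by ext; simp]; exact Finset.card_le_two
      omega
    have hik : i ≠ k := by
      rintro rfl
      have : ({i, j, i} : Finset (Fin n)).card ≤ 2 := by
        rw [show ({i, j, i} : Finset (Fin n)) = {i, j} by ext z; simp; tauto]
        exact Finset.card_le_two
      omega
    have q1 : ∀ {x y : Fin n}, x ≠ y → ¬ NQ Q x y → ({x, y} : Finset (Fin n)) ∈ Q := by
      intro x y hxy h
      by_contra h'
      exact h ⟨hxy, h'⟩
    have s1 : ({i, j} : Finset (Fin n)) ⊆ {i, j, k} := by intro x; simp; tauto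
    have s2 : ({j, k} : Finset (Fin n)) ⊆ {i, j, k} := by intro x; simp; tauto
    have s3 : ({i, k} : Finset (Fin n)) ⊆ {i, j, k} := by intro x; simp; tauto
    have n1 : ({i, j} : Finset (Fin n)) ≠ {j, k} := by
      intro h
      have : i ∈ ({j, k} : Finset (Fin n)) := by rw [← h]; simp
      simp at this; tauto
    have n2 : ({i, j} : Finset (Fin n)) ≠ {i, k} := by
      intro h
      have : j ∈ ({i, k} : Finset (Fin n)) := by rw [← h]; simp
      simp at this; tauto
    have n3 : ({j, k} : Finset (Fin n)) ≠ {i, k} := by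
      intro h
      have : j ∈ ({i, k} : Finset (Fin n)) := by rw [← h]; simp
      simp at this; tauto
    by_cases h1 : NQ Q i j
    · by_cases h2 : NQ Q j k
      · by_cases h3 : NQ Q i k
        · -- T3
          rw [if_pos h1, if_pos h2, if_pos h3]
          have hrel := X.rel _ _ _ ω (show (Pr hQ d).R (cls hQ d i j) (cls hQ d j k) (cls hQ d k i)
            from ⟨i, j, k, ⟨ht, h1, h2, h3⟩, rfl, rfl, rfl⟩)
          have h4 := X.inv_left (cls hQ d k i) (X.σ (cls hQ d j k) (X.σ (cls hQ d i j) ω))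
          rw [hrel] at h4
          rw [← h4]
          congr 1
          exact (linv_cls hQ d h3.symm : linv hQ (cls hQ d k i) = cls hQ d i k) ▸ rfl
        · rw [if_pos h1, if_pos h2, if_neg h3]
          -- {i,k} killed: cls j k = cls j i
          have h4 : cls hQ d j i = cls hQ d j k := by
            refine cls_dig' hQ d (i := i) (j := k) (k := j) ?_ hik (q1 hik h3) h1 h2.symm
            rwa [show ({i, k, j} : Finset (Fin n)) = {i, j, k} by ext z; simp; tauto]
          rw [← h4, ← linv_cls hQ d h1]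
          exact X.inv_left _ _
      · by_cases h3 : NQ Q i k
        · rw [if_pos h1, if_neg h2, if_pos h3]
          have h4 : cls hQ d i j = cls hQ d i k := by
            refine cls_dig' hQ d (i := j) (j := k) (k := i) ?_ hjk (q1 hjk h2) h1.symm h3.symm
            rwa [show ({j, k, i} : Finset (Fin n)) = {i, j, k} by ext z; simp; tauto]
          rw [h4]
        · exfalso
          exact h1.2 (hQ.clos _ ht {j, k} {i, k} {i, j} s2 s3 s1 (Finset.card_pair hij) n3
            (q1 hjk h2) (q1 hik h3))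
    · by_cases h2 : NQ Q j k
      · by_cases h3 : NQ Q i k
        · rw [if_neg h1, if_pos h2, if_pos h3]
          have h4 : cls hQ d i k = cls hQ d j k := cls_dig hQ d ht hij (q1 hij h1) h3 h2
          rw [h4]
        · exfalso
          exact h2.2 (hQ.clos _ ht {i, j} {i, k} {j, k} s1 s3 s2 (Finset.card_pair hjk) n2
            (q1 hij h1) (q1 hik h3))
      · rw [if_neg h1, if_neg h2, if_neg]
        intro h3
        exact h3.2 (hQ.clos _ ht {i, j} {j, k} {i, k} s1 s2 s3 (Finset.card_pair hik) n1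
          (q1 hij h1) (q1 hjk h2))

open Classical in
/-- translation of words -/
noncomputable def tw (hQ : QData n v0 T Q 10000 1002) (d : DP Q) :
    List (Fin n × Fin n) → List (Lt hQ)
  | [] => []
  | p :: l => if NQ Q p.1 p.2 then cls hQ d p.1 p.2 :: tw hQ d l else tw hQ d l

theorem tw_word (hQ : QData n v0 T Q 10000 1002) (d : DP Q) {Ω : Type}
    (X : Act (Pr hQ d) Ω) (l : List (Fin n × Fin n)) (ω : Ω) :
    X.word (tw hQ d l) ω = (toT hQ d X).word l ω := by
  induction l generalizing ω with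
  | nil => rfl
  | cons p l ih =>
    by_cases h : NQ Q p.1 p.2
    · have e1 : tw hQ d (p :: l) = cls hQ d p.1 p.2 :: tw hQ d l := by
        rw [tw, if_pos h]
      have e2 : (toT hQ d X).τ p.1 p.2 ω = X.σ (cls hQ d p.1 p.2) ω := if_pos h
      rw [e1]
      change X.word (tw hQ d l) (X.σ (cls hQ d p.1 p.2) ω) =
        (toT hQ d X).word l ((toT hQ d X).τ p.1 p.2 ω)
      rw [ih, e2]
    · have e1 : tw hQ d (p :: l) = tw hQ d l := by
        rw [tw, if_neg h]
      have e2 : (toT hQ d X).τ p.1 p.2 ω = ω := if_neg h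
      rw [e1]
      change X.word (tw hQ d l) ω = (toT hQ d X).word l ((toT hQ d X).τ p.1 p.2 ω)
      rw [ih, e2]

theorem pgen (hQ : QData n v0 T Q 10000 1002) (d : DP Q) (k : ℕ) (h : TGen n T v0 k) :
    PGen (Pr hQ d) k := by
  obtain ⟨W, hW⟩ := h
  refine ⟨fun i => tw hQ d (W i), ?_⟩
  intro Ω X ω hω a
  obtain ⟨i, j, hij, rfl⟩ := cls_surj hQ d a
  have h1 := hW Ω (toT hQ d X) ω (fun i => by rw [← tw_word]; exact hω i) i j
  have e2 : (toT hQ d X).τ i j ω = X.σ (cls hQ d i j) ω := if_pos hij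
  rwa [e2] at h1

end Pool.Agent.HTRank.CombB
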