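import Pool.Agent.HTRank.CombB3

/-! Job 2b, fourth part: counting corners and double classes. -/

set_option autoImplicit false

open Finset

namespace Pool.Agent.HTRank.CombB

variable {n : ℕ} {T Q : Finset (Finset (Fin n))} {v0 : Fin n}

/-! ### corners at a vertex -/

open Classical in
/-- ordered corners at `i` inside `D` -/
noncomputable def Nc (T Q : Finset (Finset (Fin n))) (i : Fin n) (D : Finset (Fin n)) :
    Finset (Fin n × Fin n) :=
  (D ×ˢ D).filter (fun q => T3 T Q i q.1 q.2)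

theorem mem_Nc {i : Fin n} {D : Finset (Fin n)} {q : Fin n × Fin n} :
    q ∈ Nc T Q i D ↔ q.1 ∈ D ∧ q.2 ∈ D ∧ T3 T Q i q.1 q.2 := by
  simp only [Nc, mem_filter, mem_product]; tauto

/-- walk around a vertex -/
theorem wk_around (i : Fin n) (x : ℕ → Fin n) (h3 : ∀ m, T3 T Q i (x m) (x (m + 1)))
    (hnb : ∀ m, x (m + 2) ≠ x m) (a : ℕ) (m : ℕ) :
    Wk T Q (pr (i, x a)) (pr (i, x (a + m + 1))) {i, x (a + m), x (a + m + 1)} (m + 1) := by
  induction m with
  | zero => exact Wk.one (h3 a).st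
  | succ m ih =>
    refine ih.step (h3 (a + m + 1)).st ?_
    intro h
    replace h : ({i, x (a + m), x (a + m + 1)} : Finset (Fin n)) =
      {i, x (a + m + 1), x (a + m + 1 + 1)} := h
    have h1 : x (a + m) ∈ ({i, x (a + m + 1), x (a + m + 1 + 1)} : Finset (Fin n)) := by
      rw [← h]; simp
    simp only [mem_insert, mem_singleton] at h1
    rcases h1 with h1 | h1 | h1
    · exact (h3 (a + m)).2.1.1 h1.symm
    · exact (h3 (a + m)).2.2.1.1 h1
    · exact hnb (a + m) h1.symm

theorem forest (hQ : QData n v0 T Q 10000 1002) (i : Fin n) :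
    ∀ (s : ℕ) (D : Finset (Fin n)), D.card = s → s ≤ 8000 → (Nc T Q i D).card ≤ 2 * D.card := by
  classical
  intro s
  induction s with
  | zero =>
    intro D hD _
    have : D = ∅ := Finset.card_eq_zero.1 hD
    subst this
    simp [Nc]
  | succ s ih =>
    intro D hD hs
    by_cases hdeg : ∃ j ∈ D, (D.filter (fun k => T3 T Q i j k)).card ≤ 1
    · obtain ⟨j, hj, hj1⟩ := hdeg
      have h1 := ih (D.erase j) (by rw [Finset.card_erase_of_mem hj]; omega) (by omega)
      have hsub : Nc T Q i D ⊆ Nc T Q i (D.erase j) ∪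
          ((D.filter (fun k => T3 T Q i j k)).image (fun k => (j, k)) ∪
           (D.filter (fun k => T3 T Q i j k)).image (fun k => (k, j))) := by
        intro q hq
        rw [mem_Nc] at hq
        obtain ⟨h2, h3, h4⟩ := hq
        simp only [mem_union, mem_image, mem_filter]
        by_cases e1 : q.1 = j
        · right; left
          exact ⟨q.2, ⟨h3, e1 ▸ h4⟩, by rw [← e1]⟩
        · by_cases e2 : q.2 = j
          · right; right
            exact ⟨q.1, ⟨h2, e2 ▸ h4.flip⟩, by rw [← e2]⟩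
          · left
            rw [mem_Nc]
            exact ⟨mem_erase.2 ⟨e1, h2⟩, mem_erase.2 ⟨e2, h3⟩, h4⟩
      have h5 := Finset.card_le_card hsub
      have h6 := Finset.card_union_le (Nc T Q i (D.erase j))
          ((D.filter (fun k => T3 T Q i j k)).image (fun k => (j, k)) ∪
           (D.filter (fun k => T3 T Q i j k)).image (fun k => (k, j)))
      have h7 := Finset.card_union_le ((D.filter (fun k => T3 T Q i j k)).image (fun k => (j, k)))
           ((D.filter (fun k => T3 T Q i j k)).image (fun k => (k, j)))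
      have h8 : ((D.filter (fun k => T3 T Q i j k)).image (fun k => (j, k))).card ≤ 1 :=
        card_image_le.trans hj1
      have h9 : ((D.filter (fun k => T3 T Q i j k)).image (fun k => (k, j))).card ≤ 1 :=
        card_image_le.trans hj1
      rw [Finset.card_erase_of_mem hj] at h1
      omega
    · exfalso
      push Not at hdeg
      have hnext : ∀ a b : Fin n, ∃ c, b ∈ D → c ∈ D ∧ T3 T Q i b c ∧ c ≠ a := by
        intro a b
        by_cases hb : b ∈ D
        · have h1 := hdeg b hb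
          obtain ⟨c, hc, hca⟩ := Finset.exists_mem_ne h1 a
          rw [mem_filter] at hc
          exact ⟨c, fun _ => ⟨hc.1, hc.2, hca⟩⟩
        · exact ⟨a, fun h => absurd h hb⟩
      choose nx hnx using hnext
      have hne : D.Nonempty := by
        rw [← Finset.card_pos]; omega
      obtain ⟨b0, hb0⟩ := hne
      obtain ⟨s, hs0, hss⟩ : ∃ s : ℕ → Fin n × Fin n, s 0 = (b0, nx b0 b0) ∧
          ∀ m, s (m + 1) = ((s m).2, nx (s m).1 (s m).2) :=
        ⟨fun m => Nat.rec (b0, nx b0 b0) (fun _ q => (q.2, nx q.1 q.2)) m, rfl, fun _ => rfl⟩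
      have hinv : ∀ m, (s m).1 ∈ D ∧ (s m).2 ∈ D ∧ T3 T Q i (s m).1 (s m).2 := by
        intro m
        induction m with
        | zero =>
          rw [hs0]
          exact ⟨hb0, (hnx b0 b0 hb0).1, (hnx b0 b0 hb0).2.1⟩
        | succ m ihm =>
          rw [hss]
          exact ⟨ihm.2.1, (hnx _ _ ihm.2.1).1, (hnx _ _ ihm.2.1).2.1⟩
      have h3 : ∀ m, T3 T Q i (s m).1 (s (m + 1)).1 := by
        intro m; rw [hss]; exact (hinv m).2.2
      have hnb : ∀ m, (s (m + 2)).1 ≠ (s m).1 := by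
        intro m
        rw [hss (m + 1), hss m]
        exact (hnx _ _ (hinv m).2.1).2.2
      obtain ⟨a, ha, b, hb, hab, hxe⟩ : ∃ a ∈ Finset.range (D.card + 1),
          ∃ b ∈ Finset.range (D.card + 1), a ≠ b ∧ (s a).1 = (s b).1 := by
        apply Finset.exists_ne_map_eq_of_card_lt_of_maps_to (t := D)
        · rw [Finset.card_range]; omega
        · intro m _; exact (hinv m).1
      rw [Finset.mem_range] at ha hb
      wlog hlt : a < b generalizing a b with H
      · exact H b hb a ha hab.symm hxe.symm (by omega)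
      have hw := wk_around (T := T) (Q := Q) i (fun m => (s m).1) h3 hnb a (b - a - 1)
      have e1 : a + (b - a - 1) + 1 = b := by omega
      have := hw.ne hQ (by omega)
      rw [e1] at this
      apply this
      simp only [hxe]

open Classical in
theorem Nc_le_two (i : Fin n) (D : Finset (Fin n)) :
    (Nc T Q i D).card ≤ 2 * (T.filter (fun t => i ∈ t ∧ t.erase i ⊆ D)).card := by
  have hmap : ∀ q ∈ Nc T Q i D, ({i, q.1, q.2} : Finset (Fin n)) ∈
      T.filter (fun t => i ∈ t ∧ t.erase i ⊆ D) := by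
    intro q hq
    rw [mem_Nc] at hq
    rw [mem_filter]
    refine ⟨hq.2.2.1, by simp, ?_⟩
    intro z hz
    simp only [mem_erase, mem_insert, mem_singleton] at hz
    rcases hz with ⟨hz, rfl | rfl | rfl⟩
    · exact absurd rfl hz
    · exact hq.1
    · exact hq.2.1
  rw [Finset.card_eq_sum_card_fiberwise hmap, mul_comm, ← smul_eq_mul]
  refine Finset.sum_le_card_nsmul _ _ _ ?_
  intro t _
  by_cases hne : ((Nc T Q i D).filter (fun q => ({i, q.1, q.2} : Finset (Fin n)) = t)).Nonempty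
  · obtain ⟨q0, hq0⟩ := hne
    rw [mem_filter, mem_Nc] at hq0
    obtain ⟨⟨_, _, h3⟩, rfl⟩ := hq0
    have hsub : (Nc T Q i D).filter (fun q => ({i, q.1, q.2} : Finset (Fin n)) = {i, q0.1, q0.2}) ⊆
        {(q0.1, q0.2), (q0.2, q0.1)} := by
      intro q hq
      rw [mem_filter, mem_Nc] at hq
      obtain ⟨⟨_, _, h4⟩, h5⟩ := hq
      have h6 : q.1 ∈ ({i, q0.1, q0.2} : Finset (Fin n)) := by rw [← h5]; simp
      have h7 : q.2 ∈ ({i, q0.1, q0.2} : Finset (Fin n)) := by rw [← h5]; simp
      simp only [mem_insert, mem_singleton] at h6 h7 ⊢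
      have n1 := h4.2.1.1
      have n2 := h4.2.2.1.1
      have n3 := h4.2.2.2.1
      rcases h6 with h6 | h6 | h6
      · exact absurd h6.symm n1
      · rcases h7 with h7 | h7 | h7
        · exact absurd h7.symm n3
        · exact absurd (h6.trans h7.symm) n2
        · left; rw [← h6, ← h7]
      · rcases h7 with h7 | h7 | h7
        · exact absurd h7.symm n3
        · right; rw [← h6, ← h7]
        · exact absurd (h6.trans h7.symm) n2
    exact (Finset.card_le_card hsub).trans Finset.card_le_two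
  · rw [Finset.not_nonempty_iff_eq_empty] at hne
    rw [hne]; simp

theorem Nc_le_ten {κ ζ : ℝ} (hG : Good n v0 T 100000 8000 (1 / 1000) κ ζ) (i : Fin n)
    (D : Finset (Fin n)) : ((Nc T Q i D).card : ℝ) ≤ 20 * D.card := by
  classical
  have h1 := Nc_le_two (T := T) (Q := Q) i D
  have h2 := hG.l1 i D
  have h3 : (Nc T Q i D).card ≤ 20 * D.card := by
    refine h1.trans ?_
    have h4 : (T.filter (fun t => i ∈ t ∧ t.erase i ⊆ D)).card ≤ 10 * D.card := by
      refine le_trans (Finset.card_le_card ?_) h2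
      intro t ht
      simp only [mem_filter] at ht ⊢
      exact ht
    omega
  exact_mod_cast h3

theorem Nc_le {κ ζ : ℝ} (hG : Good n v0 T 100000 8000 (1 / 1000) κ ζ)
    (hQ : QData n v0 T Q 10000 1002) (i : Fin n) (D : Finset (Fin n))
    (hD : (D.card : ℝ) ≤ κ * n) :
    ((Nc T Q i D).card : ℝ) ≤ 2 * (1 + 1 / 1000) * D.card := by
  classical
  rcases Nat.lt_or_ge D.card 8000 with h | h
  · have h1 := forest hQ i D.card D rfl h.le
    have h2 : ((Nc T Q i D).card : ℝ) ≤ 2 * D.card := by exact_mod_cast h1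
    have h3 : (0 : ℝ) ≤ D.card := Nat.cast_nonneg _
    nlinarith
  · have h1 := Nc_le_two (T := T) (Q := Q) i D
    have h2 := hG.l2 i D h hD
    have h3 : ((T.filter (fun t => i ∈ t ∧ t.erase i ⊆ D)).card : ℝ) ≤ (1 + 1 / 1000) * D.card := by
      refine le_trans ?_ h2
      have h5 : (T.filter (fun t => i ∈ t ∧ t.erase i ⊆ D)).card ≤
          (T.filter (fun t => i ∈ t ∧ t.erase i ⊆ D)).card := le_rfl
      exact_mod_cast Finset.card_le_card (by
        intro t ht
        simp only [mem_filter] at ht ⊢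
        exact ht)
    have h4 : ((Nc T Q i D).card : ℝ) ≤
        2 * ((T.filter (fun t => i ∈ t ∧ t.erase i ⊆ D)).card : ℝ) := by exact_mod_cast h1
    linarith

/-! ### double classes -/

/-- double class -/
def dbl (hQ : QData n v0 T Q 10000 1002) (d : DP Q) (x : Lt hQ) : Prop :=
  ∃ p q : Fin n × Fin n, Mate T Q p q ∧ x = cls hQ d p.1 p.2

/-- link graph -/
def LG (hQ : QData n v0 T Q 10000 1002) (d : DP Q) : SimpleGraph (Lt hQ) where
  Adj := (Pr hQ d).adj
  symm := ⟨by
    intro x y h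
    rw [adj_iff] at h ⊢
    obtain ⟨i, j, k, h, rfl, rfl⟩ := h
    exact ⟨i, k, j, h.flip, rfl, rfl⟩⟩
  loopless := ⟨by
    intro x h
    rw [adj_iff] at h
    obtain ⟨i, j, k, h, h1, h2⟩ := h
    rw [h1] at h2
    rcases (cls_eq_iff hQ d h.2.1 h.2.2.2).1 h2 with h3 | h3
    · exact h.2.2.1.1 (congrArg Prod.snd h3)
    · exact h.not_mate hQ (by intro x; simp [pr]; tauto) (by intro x; simp [pr]; tauto) h3⟩

theorem no_inv_walk (hQ : QData n v0 T Q 10000 1002) (d : DP Q) {x : Lt hQ}
    (w : (LG hQ d).Walk x (linv hQ x)) : 1000 < w.length := by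
  classical
  by_contra hlt
  push Not at hlt
  have hlen : w.bypass.length ≤ 1000 := w.length_bypass_le_length.trans hlt
  have hpath : w.bypass.IsPath := w.bypass_isPath
  have hinj := hpath.getVert_injOn
  have hne : x ≠ linv hQ x := fun h => (Pr hQ d).inv_ne x h.symm
  have hpos : 1 ≤ w.bypass.length := by
    rcases Nat.eq_zero_or_pos w.bypass.length with h | h
    · exact absurd (SimpleGraph.Walk.eq_of_length_eq_zero h) hne
    · exact h
  have hg := girth hQ d w.bypass.length (fun i => w.bypass.getVert i) hpos hlen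
    (fun i hi => w.bypass.adj_getVert_succ hi) (by
      intro i hi h
      have := hinj (show i ∈ {i | i ≤ w.bypass.length} from by simp; omega)
        (show i + 2 ∈ {i | i ≤ w.bypass.length} from hi) h
      omega)
  apply hg.2
  simp only [SimpleGraph.Walk.getVert_length, SimpleGraph.Walk.getVert_zero]
  rfl

/-- every representative of `x` lies in a triangle close to `t0` -/
def near (hQ : QData n v0 T Q 10000 1002) (d : DP Q) (t0 : Finset (Fin n)) (m : ℕ)
    (x : Lt hQ) : Prop :=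
  ∀ i k, NQ Q i k → cls hQ d i k = x → ∃ t l, l ≤ m ∧ pr (i, k) ⊆ t ∧ Ch T Q t0 t l

theorem near_step (hQ : QData n v0 T Q 10000 1002) (d : DP Q) {t0 : Finset (Fin n)} {m : ℕ}
    {x x' : Lt hQ} (h : near hQ d t0 m x) (hadj : (LG hQ d).Adj x x') :
    near hQ d t0 (m + 2) x' := by
  obtain ⟨i, j, k, h3, rfl, rfl⟩ := (adj_iff hQ d _ _).1 hadj
  obtain ⟨t, l, hl, hs, hc⟩ := h i j h3.2.1 rfl
  have c1 : Ch T Q t0 {i, j, k} (l + 1) :=
    hc.step h3.1 h3.2.1.card h3.2.1.2 hs (by intro z; simp [pr]; tauto)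
  intro i' k' h' he
  rcases (cls_eq_iff hQ d h3.2.2.2 h').1 he.symm with h4 | h4
  · refine ⟨_, l + 1, by omega, ?_, c1⟩
    rw [← h4]
    intro z; simp [pr]; tauto
  · obtain ⟨t', ht', hs'⟩ := h4.step
    exact ⟨t', l + 2, by omega, hs'.s2, c1.step hs'.mem hs'.c1 hs'.q1
      (by intro z; simp [pr]; tauto) hs'.s1⟩

theorem near_walk (hQ : QData n v0 T Q 10000 1002) (d : DP Q) {t0 : Finset (Fin n)}
    {x y : Lt hQ} (w : (LG hQ d).Walk x y) : ∀ (m : ℕ), near hQ d t0 m x →
    near hQ d t0 (m + 2 * w.length) y := by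
  induction w with
  | nil => intro m h; exact h
  | cons hadj w ih =>
    intro m h
    have := ih (m + 2) (near_step hQ d h hadj)
    rw [SimpleGraph.Walk.length_cons]
    rwa [show m + 2 * (w.length + 1) = m + 2 + 2 * w.length by ring]

theorem dbl_digon (hQ : QData n v0 T Q 10000 1002) (d : DP Q) {x : Lt hQ} (h : dbl hQ d x) :
    ∃ a b c : Fin n, ({a, b, c} : Finset (Fin n)) ∈ T ∧ a ≠ b ∧ ({a, b} : Finset (Fin n)) ∈ Q ∧
      NQ Q a c ∧ NQ Q b c ∧ (x = cls hQ d a c ∨ x = cls hQ d c a) := by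
  obtain ⟨p, q, ⟨a, b, c, h1, h2, h3, h4, h5, h6⟩, rfl⟩ := h
  refine ⟨a, b, c, h1, h2, h3, h4, h5, ?_⟩
  rcases h6 with ⟨rfl, rfl⟩ | ⟨rfl, rfl⟩
  · exact Or.inl rfl
  · exact Or.inr rfl

theorem isDig_of {a b c : Fin n} (h1 : ({a, b, c} : Finset (Fin n)) ∈ T)
    (h3 : ({a, b} : Finset (Fin n)) ∈ Q) (h4 : NQ Q a c) : isDig T Q {a, b, c} :=
  ⟨h1, ⟨{a, b}, by intro x; simp; tauto, h3⟩, ⟨{a, c}, by intro x; simp; tauto, h4.card, h4.2⟩⟩

theorem same_digon (hQ : QData n v0 T Q 10000 1002) (d : DP Q) {a b c a' b' c' : Fin n}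
    (h1 : ({a, b, c} : Finset (Fin n)) ∈ T) (h2 : a ≠ b) (h3 : ({a, b} : Finset (Fin n)) ∈ Q)
    (h4 : NQ Q a c) (h5 : NQ Q b c)
    (h2' : a' ≠ b') (h3' : ({a', b'} : Finset (Fin n)) ∈ Q)
    (h4' : NQ Q a' c') (h5' : NQ Q b' c')
    (he : ({a, b, c} : Finset (Fin n)) = {a', b', c'}) :
    cls hQ d a' c' = cls hQ d a c ∧ cls hQ d c' a' = cls hQ d c a := by
  have e1 : ({a', b'} : Finset (Fin n)) = {a, b} := by
    have hs : ({a', b'} : Finset (Fin n)) ⊆ {a, b, c} := by
      rw [he]; intro z; simp; tauto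
    rcases pair_sub hs (Finset.card_pair h2') with h | h | h
    · exact h
    · rw [h] at h3'; exact absurd h3' h5.2
    · rw [h] at h3'; exact absurd h3' h4.2
  have e2 : c' = c := by
    have h6 : c' ∈ ({a, b, c} : Finset (Fin n)) := by rw [he]; simp
    have h7 : c' ∉ ({a, b} : Finset (Fin n)) := by
      rw [← e1]
      simp only [mem_insert, mem_singleton, not_or]
      exact ⟨h4'.1.symm, h5'.1.symm⟩
    simp only [mem_insert, mem_singleton, not_or] at h6 h7
    tauto
  subst e2
  have e3 : a' = a ∨ a' = b := by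
    have : a' ∈ ({a, b} : Finset (Fin n)) := by rw [← e1]; simp
    simpa using this
  rcases e3 with rfl | rfl
  · exact ⟨rfl, rfl⟩
  · exact ⟨(cls_dig hQ d h1 h2 h3 h4 h5).symm, (cls_dig' hQ d h1 h2 h3 h4 h5).symm⟩

theorem dbl_far (hQ : QData n v0 T Q 10000 1002) (d : DP Q) {x y : Lt hQ} (hx : dbl hQ d x)
    (hy : dbl hQ d y) (w : (LG hQ d).Walk x y) (hw : w.length ≤ 500) : x = y := by
  have hw0 := hw
  obtain ⟨a, b, c, h1, h2, h3, h4, h5, h6⟩ := dbl_digon hQ d hx
  obtain ⟨a', b', c', h1', h2', h3', h4', h5', h6'⟩ := dbl_digon hQ d hy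
  have hd := isDig_of h1 h3 h4
  have hd' := isDig_of h1' h3' h4'
  -- representatives of x lie in the digon
  have n0 : near hQ d {a, b, c} 0 x := by
    intro i k hik he
    refine ⟨{a, b, c}, 0, le_rfl, ?_, Ch.nil h1⟩
    rcases h6 with rfl | rfl
    · rcases (cls_eq_iff hQ d h4 hik).1 he.symm with h | h
      · rw [← h]; intro z; simp [pr]; tauto
      · have hm : Mate T Q (a, c) (b, c) := ⟨a, b, c, h1, h2, h3, h4, h5, Or.inl ⟨rfl, rfl⟩⟩
        rw [← Mate.unique hQ hm h]; intro z; simp [pr]; tauto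
    · rcases (cls_eq_iff hQ d h4.symm hik).1 he.symm with h | h
      · rw [← h]; intro z; simp [pr]; tauto
      · have hm : Mate T Q (c, a) (c, b) := ⟨a, b, c, h1, h2, h3, h4, h5, Or.inr ⟨rfl, rfl⟩⟩
        rw [← Mate.unique hQ hm h]; intro z; simp [pr]; tauto
  have n1 := near_walk hQ d w 0 n0
  obtain ⟨t, l, hl, hs, hc⟩ : ∃ t l, l ≤ 0 + 2 * w.length ∧ pr (a', c') ⊆ t ∧
      Ch T Q {a, b, c} t l := by
    rcases h6' with h | h
    · exact n1 a' c' h4' h.symm
    · obtain ⟨t, l, hl, hs, hc⟩ := n1 c' a' h4'.symm h.symm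
      refine ⟨t, l, hl, ?_, hc⟩
      have : pr (a', c') = pr (c', a') := pr_swap (c', a')
      rwa [this]
  have c1 : Ch T Q {a, b, c} {a', b', c'} (l + 1) :=
    hc.step h1' h4'.card h4'.2 hs (by intro z; simp [pr]; tauto)
  have he := c1.dig hQ (by omega) hd hd'
  obtain ⟨e1, e2⟩ := same_digon hQ d h1 h2 h3 h4 h5 h2' h3' h4' h5' he
  have key : x = y ∨ y = linv hQ x := by
    rcases h6 with rfl | rfl <;> rcases h6' with rfl | rfl
    · exact Or.inl e1.symm
    · right; rw [linv_cls hQ d h4, e2]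
    · right; rw [linv_cls hQ d h4.symm, e1]
    · exact Or.inl e2.symm
  rcases key with h | h
  · exact h
  · subst h
    exact absurd (no_inv_walk hQ d w) (by omega)

/-! ### balls -/

open Classical in
/-- balls in `D` -/
noncomputable def ball (hQ : QData n v0 T Q 10000 1002) (d : DP Q)
    (R0 : Finset (Lt hQ × Lt hQ × Lt hQ)) (D : Finset (Lt hQ)) (x : Lt hQ) : ℕ → Finset (Lt hQ)
  | 0 => {x}
  | r + 1 => ball hQ d R0 D x r ∪
      D.filter (fun y => ∃ z ∈ ball hQ d R0 D x r, corner (Pr hQ d) R0 z y)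

theorem ball_sub (hQ : QData n v0 T Q 10000 1002) (d : DP Q)
    (R0 : Finset (Lt hQ × Lt hQ × Lt hQ)) (D : Finset (Lt hQ)) {x : Lt hQ} (hx : x ∈ D) (r : ℕ) :
    ball hQ d R0 D x r ⊆ D := by
  classical
  induction r with
  | zero => simpa [ball] using hx
  | succ r ih => exact union_subset ih (filter_subset _ _)

theorem ball_card (hQ : QData n v0 T Q 10000 1002) (d : DP Q)
    (R0 : Finset (Lt hQ × Lt hQ × Lt hQ)) (D : Finset (Lt hQ)) {x : Lt hQ} (hx : x ∈ D)
    (hD : 1000 < D.card) (hL : LinkConn (Pr hQ d) R0 D) (r : ℕ) (hr : r ≤ 999) :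
    r + 1 ≤ (ball hQ d R0 D x r).card := by
  classical
  induction r with
  | zero => simp [ball]
  | succ r ih =>
    have h1 := ih (by omega)
    rcases Nat.lt_or_ge (r + 1) (ball hQ d R0 D x r).card with h | h
    · exact h.trans_le (Finset.card_le_card subset_union_left)
    · have hne : ball hQ d R0 D x r ≠ D := by
        intro h'; rw [h'] at h; omega
      have hnem : (ball hQ d R0 D x r).Nonempty := by
        rw [← Finset.card_pos]; omega
      obtain ⟨z, hz, y, hy, hyn, hc⟩ := hL _ (ball_sub hQ d R0 D hx r) hnem hne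
      have hss : insert y (ball hQ d R0 D x r) ⊆ ball hQ d R0 D x (r + 1) := by
        intro u hu
        rw [mem_insert] at hu
        rcases hu with rfl | hu
        · exact mem_union_right _ (mem_filter.2 ⟨hy, z, hz, hc⟩)
        · exact mem_union_left _ hu
      have h2 := Finset.card_le_card hss
      rw [Finset.card_insert_of_notMem hyn] at h2
      omega

theorem ball_walk (hQ : QData n v0 T Q 10000 1002) (d : DP Q)
    {R0 : Finset (Lt hQ × Lt hQ × Lt hQ)} (hR : RelClosed (Pr hQ d) R0) (D : Finset (Lt hQ))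
    {x : Lt hQ} (r : ℕ) : ∀ z ∈ ball hQ d R0 D x r,
    ∃ w : (LG hQ d).Walk x z, w.length ≤ r := by
  classical
  induction r with
  | zero =>
    intro z hz
    simp only [ball, mem_singleton] at hz
    subst hz
    exact ⟨SimpleGraph.Walk.nil, le_rfl⟩
  | succ r ih =>
    intro z hz
    rcases mem_union.1 hz with hz | hz
    · obtain ⟨w, hw⟩ := ih z hz
      exact ⟨w, by omega⟩
    · obtain ⟨_, u, hu, c, hc⟩ := mem_filter.1 hz
      obtain ⟨w, hw⟩ := ih u hu
      have hadj : (LG hQ d).Adj u z := ⟨c, hR.sub _ _ _ hc⟩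
      refine ⟨w.concat hadj, ?_⟩
      rw [SimpleGraph.Walk.length_concat]
      omega

open Classical in
theorem dbl_count (hQ : QData n v0 T Q 10000 1002) (d : DP Q)
    {R0 : Finset (Lt hQ × Lt hQ × Lt hQ)} (hR : RelClosed (Pr hQ d) R0) (D : Finset (Lt hQ))
    (hD : 1000 < D.card) (hL : LinkConn (Pr hQ d) R0 D) (ρ : ℕ) (hρ : ρ ≤ 250) :
    (ρ + 1) * (D.filter (fun x => dbl hQ d x)).card ≤ D.card := by
  have h1 : ((D.filter (fun x => dbl hQ d x)).biUnion (fun x => ball hQ d R0 D x ρ)).card =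
      ∑ x ∈ D.filter (fun x => dbl hQ d x), (ball hQ d R0 D x ρ).card := by
    apply Finset.card_biUnion
    intro x hx y hy hxy
    rw [Function.onFun, Finset.disjoint_left]
    intro z hz hz'
    simp only [coe_filter, Set.mem_ofPred_eq] at hx hy
    obtain ⟨w1, hw1⟩ := ball_walk hQ d hR D ρ z hz
    obtain ⟨w2, hw2⟩ := ball_walk hQ d hR D ρ z hz'
    apply hxy
    refine dbl_far hQ d hx.2 hy.2 (w1.append w2.reverse) ?_
    rw [SimpleGraph.Walk.length_append, SimpleGraph.Walk.length_reverse]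
    omega
  have h2 : (D.filter (fun x => dbl hQ d x)).card • (ρ + 1) ≤
      ∑ x ∈ D.filter (fun x => dbl hQ d x), (ball hQ d R0 D x ρ).card := by
    apply Finset.card_nsmul_le_sum
    intro x hx
    exact ball_card hQ d R0 D (mem_filter.1 hx).1 hD hL ρ (by omega)
  have h3 : ((D.filter (fun x => dbl hQ d x)).biUnion (fun x => ball hQ d R0 D x ρ)).card ≤
      D.card := by
    apply Finset.card_le_card
    intro z hz
    rw [mem_biUnion] at hz
    obtain ⟨x, hx, hz⟩ := hz
    exact ball_sub hQ d R0 D (mem_filter.1 hx).1 ρ hz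
  rw [smul_eq_mul, mul_comm] at h2
  exact h2.trans (h1 ▸ h3)

end Pool.Agent.HTRank.CombB
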