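import Pool.Agent.HTRank.CombB4

/-! Job 2b, fifth part: weights. -/

set_option autoImplicit false

open Finset

namespace Pool.Agent.HTRank.CombB

variable {n : ℕ} {T Q : Finset (Finset (Fin n))} {v0 : Fin n}

/-- ordered triangles whose relator is in `R0` -/
def OO (hQ : QData n v0 T Q 10000 1002) (d : DP Q) (R0 : Finset (Lt hQ × Lt hQ × Lt hQ))
    (i j k : Fin n) : Prop :=
  T3 T Q i j k ∧ (cls hQ d i j, cls hQ d j k, cls hQ d k i) ∈ R0

variable {hQ : QData n v0 T Q 10000 1002} {d : DP Q} {R0 : Finset (Lt hQ × Lt hQ × Lt hQ)}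

theorem OO.rot (hR : RelClosed (Pr hQ d) R0) {i j k : Fin n} (h : OO hQ d R0 i j k) :
    OO hQ d R0 j k i := ⟨h.1.rot, hR.rot _ _ _ h.2⟩

theorem OO.flip (hR : RelClosed (Pr hQ d) R0) {i j k : Fin n} (h : OO hQ d R0 i j k) :
    OO hQ d R0 i k j := by
  refine ⟨h.1.flip, ?_⟩
  have h1 := hR.flip _ _ _ h.2
  have e1 : (Pr hQ d).inv (cls hQ d k i) = cls hQ d i k := linv_cls hQ d h.1.2.2.2.symm
  have e2 : (Pr hQ d).inv (cls hQ d j k) = cls hQ d k j := linv_cls hQ d h.1.2.2.1
  have e3 : (Pr hQ d).inv (cls hQ d i j) = cls hQ d j i := linv_cls hQ d h.1.2.1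
  rwa [e1, e2, e3] at h1

theorem OO.perm (hR : RelClosed (Pr hQ d) R0) {i j k : Fin n} (h : OO hQ d R0 i j k) :
    OO hQ d R0 j i k := (h.rot hR).flip hR

theorem corner_iff (hR : RelClosed (Pr hQ d) R0) (x y : Lt hQ) :
    corner (Pr hQ d) R0 x y ↔ ∃ i j k, OO hQ d R0 i j k ∧ x = cls hQ d i j ∧ y = cls hQ d i k := by
  constructor
  · rintro ⟨c, hc⟩
    obtain ⟨i, j, k, h3, h1, h2, h4⟩ := hR.sub _ _ _ hc
    have hO : OO hQ d R0 i j k := ⟨h3, by rw [← h1, ← h2, ← h4]; exact hc⟩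
    refine ⟨j, i, k, hO.perm hR, ?_, h2⟩
    rw [← (Pr hQ d).inv_inv x, h1]
    exact linv_cls hQ d h3.2.1
  · rintro ⟨i, j, k, h, rfl, rfl⟩
    refine ⟨cls hQ d k j, ?_⟩
    have e3 : (Pr hQ d).inv (cls hQ d i j) = cls hQ d j i := linv_cls hQ d h.1.2.1
    rw [e3]
    exact (h.perm hR).2

open Classical in
/-- ordered triangles of `R0`, as a finset -/
noncomputable def OF (hQ : QData n v0 T Q 10000 1002) (d : DP Q)
    (R0 : Finset (Lt hQ × Lt hQ × Lt hQ)) : Finset (Fin n × Fin n × Fin n) :=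
  univ.filter (fun q => OO hQ d R0 q.1 q.2.1 q.2.2)

theorem mem_OF {q : Fin n × Fin n × Fin n} : q ∈ OF hQ d R0 ↔ OO hQ d R0 q.1 q.2.1 q.2.2 := by
  simp [OF]

theorem card_OF : (OF hQ d R0).card ≤ R0.card := by
  refine Finset.card_le_card_of_injOn (rl hQ d) ?_ ?_
  · intro q hq
    exact (mem_OF.1 hq).2
  · intro q hq q' hq' he
    exact rl_inj hQ d (mem_OF.1 hq).1 (mem_OF.1 hq').1 he

open Classical in
/-- neighbours of `i` in the triangles of `R0` -/
noncomputable def nb (hQ : QData n v0 T Q 10000 1002) (d : DP Q)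
    (R0 : Finset (Lt hQ × Lt hQ × Lt hQ)) (i : Fin n) : Finset (Fin n) :=
  univ.filter (fun k => ∃ j, OO hQ d R0 i k j)

open Classical in
/-- heavy vertices -/
noncomputable def HV (hQ : QData n v0 T Q 10000 1002) (d : DP Q)
    (R0 : Finset (Lt hQ × Lt hQ × Lt hQ)) (κ : ℝ) : Finset (Fin n) :=
  univ.filter (fun i => κ * n ≤ ((nb hQ d R0 i).card : ℝ))

theorem card_HV {κ ζ : ℝ} {r0 : ℕ} (hκ : 0 < κ) (hc : R0.card ≤ 6 * r0)
    (hr : (6 * r0 : ℝ) ≤ κ * ζ * (n : ℝ) ^ 2) : ((HV hQ d R0 κ).card : ℝ) ≤ ζ * n := by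
  classical
  rcases Nat.eq_zero_or_pos n with hn | hn
  · subst hn
    have : HV hQ d R0 κ = ∅ := by
      ext i; exact i.elim0
    rw [this]; simp
  have hn' : (0 : ℝ) < n := by exact_mod_cast hn
  have h1 : ∑ i ∈ HV hQ d R0 κ, (nb hQ d R0 i).card ≤ (OF hQ d R0).card := by
    rw [Finset.card_eq_sum_card_fiberwise (f := fun q => q.1) (t := univ) (fun q _ => by simp)]
    refine (Finset.sum_le_sum_of_subset (subset_univ _)).trans (Finset.sum_le_sum ?_)
    intro i _
    refine le_trans (Finset.card_le_card ?_)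
      (Finset.card_image_le (f := fun q : Fin n × Fin n × Fin n => q.2.1))
    intro k hk
    simp only [nb, mem_filter, mem_univ, true_and] at hk
    obtain ⟨j, hj⟩ := hk
    rw [mem_image]
    exact ⟨(i, k, j), mem_filter.2 ⟨mem_OF.2 hj, rfl⟩, rfl⟩
  have h2 : ((HV hQ d R0 κ).card : ℝ) * (κ * n) ≤
      ((∑ i ∈ HV hQ d R0 κ, (nb hQ d R0 i).card : ℕ) : ℝ) := by
    push_cast
    rw [← nsmul_eq_mul]
    apply Finset.card_nsmul_le_sum
    intro i hi
    simp only [HV, mem_filter, mem_univ, true_and] at hi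
    exact hi
  have h3 : ((∑ i ∈ HV hQ d R0 κ, (nb hQ d R0 i).card : ℕ) : ℝ) ≤ (6 * r0 : ℝ) := by
    exact_mod_cast h1.trans (card_OF.trans hc)
  have h4 : ((HV hQ d R0 κ).card : ℝ) * (κ * n) ≤ (ζ * n) * (κ * n) := by
    nlinarith
  exact le_of_mul_le_mul_right h4 (by positivity)

open Classical in
/-- corner weights -/
noncomputable def wt (H : Finset (Fin n)) (i j k : Fin n) : ℝ :=
  if i ∈ H then (if j ∉ H ∧ k ∉ H then 1 / 100 else 1 / 3)
  else (if (j ∈ H ∧ k ∉ H) ∨ (j ∉ H ∧ k ∈ H) then 99 / 200 else 1 / 3)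

theorem wt_nonneg (H : Finset (Fin n)) (i j k : Fin n) : 0 ≤ wt H i j k := by
  unfold wt; split_ifs <;> norm_num

theorem wt_le (H : Finset (Fin n)) (i j k : Fin n) : wt H i j k ≤ 99 / 200 := by
  unfold wt; split_ifs <;> norm_num

theorem wt_comm (H : Finset (Fin n)) (i j k : Fin n) : wt H i j k = wt H i k j := by
  unfold wt
  by_cases h1 : i ∈ H <;> by_cases h2 : j ∈ H <;> by_cases h3 : k ∈ H <;> simp [h1, h2, h3]

theorem wt_sum (H : Finset (Fin n)) (i j k : Fin n) :
    wt H i k j + wt H j i k + wt H k j i = 1 := by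
  unfold wt
  by_cases h1 : i ∈ H <;> by_cases h2 : j ∈ H <;> by_cases h3 : k ∈ H <;>
    simp [h1, h2, h3] <;> norm_num

open Classical in
/-- weights on pairs of letters -/
noncomputable def wf (hQ : QData n v0 T Q 10000 1002) (d : DP Q)
    (R0 : Finset (Lt hQ × Lt hQ × Lt hQ)) (H : Finset (Fin n)) (x y : Lt hQ) : ℝ :=
  ∑ q ∈ OF hQ d R0, if cls hQ d q.1 q.2.1 = x ∧ cls hQ d q.1 q.2.2 = y then
    wt H q.1 q.2.1 q.2.2 else 0

theorem wf_eq (H : Finset (Fin n)) {i j k : Fin n}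
    (h : OO hQ d R0 i j k) : wf hQ d R0 H (cls hQ d i j) (cls hQ d i k) = wt H i j k := by
  classical
  unfold wf
  rw [Finset.sum_eq_single (i, j, k)]
  · simp
  · rintro ⟨i', j', k'⟩ hq hne
    rw [if_neg]
    rintro ⟨h1, h2⟩
    apply hne
    obtain ⟨e1, e2, e3⟩ := corner_unique hQ d (mem_OF.1 hq).1 h.1 (by exact h1) (by exact h2)
    simp only at e1 e2 e3
    rw [e1, e2, e3]
  · intro h'
    exact absurd (mem_OF.2 h) h'

theorem wf_nonneg (H : Finset (Fin n)) (x y : Lt hQ) : 0 ≤ wf hQ d R0 H x y := by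
  unfold wf
  apply Finset.sum_nonneg
  intro q _
  split_ifs
  · exact wt_nonneg _ _ _ _
  · exact le_rfl

theorem wf_comm (hR : RelClosed (Pr hQ d) R0) (H : Finset (Fin n)) (x y : Lt hQ) :
    wf hQ d R0 H x y = wf hQ d R0 H y x := by
  classical
  unfold wf
  apply Finset.sum_nbij' (fun q => (q.1, q.2.2, q.2.1)) (fun q => (q.1, q.2.2, q.2.1))
  · intro q hq
    exact mem_OF.2 ((mem_OF.1 hq).flip hR)
  · intro q hq
    exact mem_OF.2 ((mem_OF.1 hq).flip hR)
  · intro q _; rfl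
  · intro q _; rfl
  · intro q _
    rw [wt_comm]
    simp only [and_comm]

open Classical in
/-- representatives at `i` of the letters of `D` -/
noncomputable def Dt (hQ : QData n v0 T Q 10000 1002) (d : DP Q) (D : Finset (Lt hQ))
    (i : Fin n) : Finset (Fin n) :=
  univ.filter (fun k => NQ Q i k ∧ cls hQ d i k ∈ D)

theorem sum_Dt (D : Finset (Lt hQ)) : (∑ i, (Dt hQ d D i).card) ≤
    D.card + (open Classical in D.filter (fun x => dbl hQ d x)).card := by
  classical
  have h1 : (∑ i, (Dt hQ d D i).card) =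
      ((univ : Finset (Fin n × Fin n)).filter (fun p => NQ Q p.1 p.2 ∧
        cls hQ d p.1 p.2 ∈ D)).card := by
    rw [Finset.card_filter, Fintype.sum_prod_type]
    apply Finset.sum_congr rfl
    intro i _
    rw [Dt, Finset.card_filter]
  rw [h1, Finset.card_eq_sum_card_fiberwise (f := fun p : Fin n × Fin n => cls hQ d p.1 p.2)
    (t := D) (fun p hp => by simp only [coe_filter, Set.mem_ofPred_eq] at hp; exact hp.2.2)]
  have h2 : D.card + (D.filter (fun x => dbl hQ d x)).card =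
      ∑ x ∈ D, (1 + if dbl hQ d x then 1 else 0) := by
    rw [Finset.sum_add_distrib, Finset.card_filter]; simp
  have h3 : D.card + (open Classical in D.filter (fun x => dbl hQ d x)).card =
      ∑ x ∈ D, (1 + if dbl hQ d x then 1 else 0) := by
    rw [← h2]
  rw [h3]
  apply Finset.sum_le_sum
  intro x _
  obtain ⟨i, j, hij, rfl⟩ := cls_surj hQ d x
  by_cases hd : dbl hQ d (cls hQ d i j)
  · rw [if_pos hd]
    by_cases hm : ∃ q, Mate T Q (i, j) q
    · obtain ⟨q, hq⟩ := hm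
      refine le_trans (Finset.card_le_card (t := {(i, j), q}) ?_) Finset.card_le_two
      intro p hp
      simp only [mem_filter, mem_univ, true_and] at hp
      rw [mem_insert, mem_singleton]
      rcases (cls_eq_iff hQ d hij hp.1.1).1 hp.2.symm with h | h
      · left; rw [h]
      · right; exact Mate.unique hQ h hq
    · refine le_trans (Finset.card_le_card (t := {(i, j)}) ?_) (by simp)
      intro p hp
      simp only [mem_filter, mem_univ, true_and] at hp
      rw [mem_singleton]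
      rcases (cls_eq_iff hQ d hij hp.1.1).1 hp.2.symm with h | h
      · rw [h]
      · exact absurd ⟨_, h⟩ hm
  · rw [if_neg hd]
    refine le_trans (Finset.card_le_card (t := {(i, j)}) ?_) (by simp)
    intro p hp
    simp only [mem_filter, mem_univ, true_and] at hp
    rw [mem_singleton]
    rcases (cls_eq_iff hQ d hij hp.1.1).1 hp.2.symm with h | h
    · rw [h]
    · exact absurd ⟨_, _, h, rfl⟩ hd

open Classical in
/-- corners at `i` -/
noncomputable def Fc (hQ : QData n v0 T Q 10000 1002) (d : DP Q)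
    (R0 : Finset (Lt hQ × Lt hQ × Lt hQ)) (D : Finset (Lt hQ)) (i : Fin n) :
    Finset (Fin n × Fin n) :=
  univ.filter (fun p => OO hQ d R0 i p.1 p.2 ∧ cls hQ d i p.1 ∈ D ∧ cls hQ d i p.2 ∈ D)

theorem total_le (D : Finset (Lt hQ)) (H : Finset (Fin n)) :
    ∑ x ∈ D, ∑ y ∈ D, wf hQ d R0 H x y =
      ∑ i, ∑ p ∈ Fc hQ d R0 D i, wt H i p.1 p.2 := by
  classical
  have h1 : ∑ x ∈ D, ∑ y ∈ D, wf hQ d R0 H x y = ∑ q ∈ OF hQ d R0,
      if cls hQ d q.1 q.2.1 ∈ D ∧ cls hQ d q.1 q.2.2 ∈ D then wt H q.1 q.2.1 q.2.2 else 0 := by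
    unfold wf
    rw [Finset.sum_congr rfl (fun x _ => Finset.sum_comm), Finset.sum_comm]
    apply Finset.sum_congr rfl
    intro q _
    by_cases hx : cls hQ d q.1 q.2.1 ∈ D
    · by_cases hy : cls hQ d q.1 q.2.2 ∈ D
      · rw [if_pos ⟨hx, hy⟩, Finset.sum_eq_single (cls hQ d q.1 q.2.1),
          Finset.sum_eq_single (cls hQ d q.1 q.2.2)]
        · simp
        · intro y _ hne
          rw [if_neg]; rintro ⟨_, h⟩; exact hne h.symm
        · intro h; exact absurd hy h
        · intro x _ hne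
          apply Finset.sum_eq_zero
          intro y _
          rw [if_neg]; rintro ⟨h, _⟩; exact hne h.symm
        · intro h; exact absurd hx h
      · rw [if_neg (fun h => hy h.2)]
        apply Finset.sum_eq_zero
        intro x _
        apply Finset.sum_eq_zero
        intro y hyD
        rw [if_neg]; rintro ⟨_, h⟩; exact hy (h ▸ hyD)
    · rw [if_neg (fun h => hx h.1)]
      apply Finset.sum_eq_zero
      intro x hxD
      apply Finset.sum_eq_zero
      intro y _
      rw [if_neg]; rintro ⟨h, _⟩; exact hx (h ▸ hxD)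
  rw [h1, OF, Finset.sum_filter, Fintype.sum_prod_type]
  apply Finset.sum_congr rfl
  intro i _
  rw [Fc, Finset.sum_filter]
  apply Finset.sum_congr rfl
  intro p _
  by_cases ha : OO hQ d R0 i p.1 p.2
  · simp only [ha, if_true, true_and]
  · simp only [ha, if_false, false_and]

end Pool.Agent.HTRank.CombB
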