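import Pool.Agent.HTRank.Defs

/-! Interface splitting Job 2 (TargetComb) into two parts 2a (TargetQ) and 2b (TargetPres). -/

set_option autoImplicit false

open Finset

namespace Pool.Agent.HTRank

/-- A digon: a triangle of `T` with a pair in `Q` and a pair outside `Q`. -/
def isDig {n : ℕ} (T Q : Finset (Finset (Fin n))) (t : Finset (Fin n)) : Prop :=
  t ∈ T ∧ (∃ e ⊆ t, e ∈ Q) ∧ ∃ f ⊆ t, f.card = 2 ∧ f ∉ Q

open Classical in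
/-- Properties of the set `Q` of killed pairs. -/
structure QData (n : ℕ) (v0 : Fin n) (T Q : Finset (Finset (Fin n))) (M m1 : ℕ) : Prop where
  tri : ∀ t ∈ T, t.card = 3
  two : ∀ e ∈ Q, e.card = 2
  root : ∀ j, j ≠ v0 → ({v0, j} : Finset (Fin n)) ∈ Q
  /-- no triangle has exactly two pairs in `Q` -/
  clos : ∀ t ∈ T, ∀ e f g : Finset (Fin n), e ⊆ t → f ⊆ t → g ⊆ t → g.card = 2 → e ≠ f →
    e ∈ Q → f ∈ Q → g ∈ Q
  /-- no short non-backtracking closed walks through pairs outside `Q` -/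
  walk : ∀ (l : ℕ) (e t : ℕ → Finset (Fin n)), 1 ≤ l → l ≤ M →
    (∀ i, i ≤ l → (e i).card = 2 ∧ e i ∉ Q) →
    (∀ i, i < l → t i ∈ T ∧ e i ⊆ t i ∧ e (i + 1) ⊆ t i ∧ e i ≠ e (i + 1)) →
    (∀ i, i + 1 < l → t i ≠ t (i + 1)) → e 0 ≠ e l
  /-- different digons are far apart -/
  dig : ∀ (l : ℕ) (t : ℕ → Finset (Fin n)), l ≤ m1 → (∀ i, i ≤ l → t i ∈ T) →
    (∀ i, i < l → ∃ e : Finset (Fin n), e.card = 2 ∧ e ∉ Q ∧ e ⊆ t i ∧ e ⊆ t (i + 1)) →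
    isDig T Q (t 0) → isDig T Q (t l) → t 0 = t l
  /-- few triangles meet `Q` -/
  few : ((T.filter (fun t => ∃ e ⊆ t, e ∈ Q)).card : ℝ) ≤ (n : ℝ) ^ 2 / 8

/-- Job 2a target. -/
def TargetQ : Prop :=
  ∀ (n : ℕ) (v0 : Fin n) (T : Finset (Finset (Fin n))) (κ ζ : ℝ),
    Good n v0 T 100000 8000 (1 / 1000) κ ζ → ∃ Q, QData n v0 T Q 10000 1002

open Classical in
/-- Job 2b target. -/
def TargetPres : Prop :=
  ∀ (n : ℕ) (v0 : Fin n) (T Q : Finset (Finset (Fin n))) (κ ζ : ℝ) (r0 : ℕ),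
    0 < κ → 0 < ζ → Good n v0 T 100000 8000 (1 / 1000) κ ζ → QData n v0 T Q 10000 1002 →
    (6 * r0 : ℝ) ≤ κ * ζ * (n : ℝ) ^ 2 → (r0 : ℝ) + (n : ℝ) ^ 2 / 8 < T.card →
    ∃ (A : Type) (_ : Fintype A) (P : TriPres A), P.Girth 1000 ∧
      WeightCond P 1000 (1 / 100) r0 ∧
      6 * r0 < (univ.filter (fun q : A × A × A => P.R q.1 q.2.1 q.2.2)).card ∧
      ∀ k, TGen n T v0 k → PGen P k

theorem targetComb_of (h1 : TargetQ) (h2 : TargetPres) : TargetComb := by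
  intro n v0 T κ ζ r0 hκ hζ hG h6 hr
  obtain ⟨Q, hQ⟩ := h1 n v0 T κ ζ hG
  exact h2 n v0 T Q κ ζ r0 hκ hζ hG hQ h6 hr

end Pool.Agent.HTRank
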