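import Pool.Agent.HTRank.Defs

/-!
# Job 1: completion of a closed partial action to an action
-/

set_option autoImplicit false

namespace Pool.Agent.HTRank.Compl

open Pool.Agent.HTRank Relation

variable {A : Type} {P : TriPres A} {V : Type}

/-! ### Relators and the link graph -/

theorem rot2 {a b c : A} (h : P.R a b c) : P.R c a b := P.rot _ _ _ (P.rot _ _ _ h)

theorem uniq_left {a a' b c : A} (h : P.R a b c) (h' : P.R a' b c) : a = a' :=
  P.uniq _ _ _ _ (P.rot _ _ _ h) (P.rot _ _ _ h')

theorem uniq_mid {a b b' c : A} (h : P.R a b c) (h' : P.R a b' c) : b = b' :=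
  P.uniq _ _ _ _ (rot2 h) (rot2 h')

theorem inv_injective {a b : A} (h : P.inv a = P.inv b) : a = b := by
  rw [← P.inv_inv a, h, P.inv_inv]

theorem adj_symm {x y : A} (h : P.adj x y) : P.adj y x := by
  obtain ⟨c, hc⟩ := h
  have h1 := P.flip _ _ _ hc
  rw [P.inv_inv] at h1
  exact ⟨P.inv c, P.rot _ _ _ h1⟩

theorem adj_irrefl {x : A} (h : P.adj x x) : False := by
  obtain ⟨c, hc⟩ := h
  exact P.ne2 _ _ _ hc rfl

/-- corner at the first edge: `a b c = 1` gives the corner `inv a`, `b`. -/
theorem adj_of_R {a b c : A} (h : P.R a b c) : P.adj (P.inv a) b :=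
  ⟨c, by rw [P.inv_inv]; exact h⟩

/-! ### Missing pairs -/

variable (Y : PAct P V)

theorem madj_symm {q r : V × A} (h : Y.madj q r) : Y.madj r q := by
  obtain ⟨h1, h2, c, h3, h4⟩ := h
  refine ⟨h2, h1, P.inv c, Y.symm _ _ _ h3, ?_⟩
  have h5 := P.flip _ _ _ h4
  rw [P.inv_inv] at h5
  exact rot2 h5

theorem madj_adj {q r : V × A} (h : Y.madj q r) : P.adj (P.inv q.2) (P.inv r.2) := by
  obtain ⟨_, _, c, _, h4⟩ := h
  have h5 := P.flip _ _ _ h4
  rw [P.inv_inv] at h5
  exact ⟨_, by rw [P.inv_inv]; exact h5⟩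

theorem madj_inj {q r r' : V × A} (h : Y.madj q r) (h' : Y.madj q r')
    (he : P.inv r.2 = P.inv r'.2) : r = r' := by
  obtain ⟨_, _, c, h3, h4⟩ := h
  obtain ⟨_, _, c', h3', h4'⟩ := h'
  have h5 : r.2 = r'.2 := inv_injective he
  rw [← h5] at h4'
  have h6 : c = c' := uniq_left h4 h4'
  rw [← h6] at h3'
  exact Prod.ext (Y.det _ _ _ _ h3 h3') h5

/-- reduced walks of missing pairs -/
def Walk (p : ℕ) (x : ℕ → V × A) (q r : V × A) : Prop :=
  x 0 = q ∧ x p = r ∧ (∀ i, i < p → Y.madj (x i) (x (i + 1))) ∧ ∀ i, i + 2 ≤ p → x i ≠ x (i + 2)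

theorem exists_walk {q r : V × A} (h : ReflTransGen Y.madj q r) :
    ∃ p x, Walk Y p x q r := by
  induction h with
  | refl => exact ⟨0, fun _ => q, rfl, rfl, fun i hi => absurd hi (Nat.not_lt_zero i),
      fun i hi => absurd hi (by omega)⟩
  | @tail b c _ hbc ih =>
    obtain ⟨p, x, h0, hp, ha, hn⟩ := ih
    by_cases hback : 1 ≤ p ∧ x (p - 1) = c
    · refine ⟨p - 1, x, h0, hback.2, fun i hi => ha i (by omega), fun i hi => hn i (by omega)⟩
    · refine ⟨p + 1, fun i => if i ≤ p then x i else c, by simp [h0], by simp, ?_, ?_⟩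
      · intro i hi
        by_cases h1 : i < p
        · have h2 : i + 1 ≤ p := h1
          simp only [h1.le, h2, if_true]
          exact ha i h1
        · have h2 : i = p := by omega
          subst h2
          simp only [le_refl, if_true, Nat.not_succ_le_self, if_false]
          rw [hp]
          exact hbc
      · intro i hi
        by_cases h1 : i + 2 ≤ p
        · have h2 : i ≤ p := by omega
          simp only [h1, h2, if_true]
          exact hn i h1
        · have h2 : p = i + 1 := by omega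
          subst h2
          have h3 : i ≤ i + 1 := by omega
          have h4 : ¬ i + 2 ≤ i + 1 := by omega
          simp only [h3, h4, if_true, if_false]
          intro h5
          exact hback ⟨by omega, by simpa using h5⟩

theorem walk_lt {l : ℕ} (hC2 : Y.C2 l) {p : ℕ} {x : ℕ → V × A} {q r : V × A}
    (h : Walk Y p x q r) : p < l := by
  by_contra hl
  exact hC2 x (fun i hi => h.2.2.1 i (by omega)) (fun i hi => h.2.2.2 i (by omega))

theorem walk_conn {p : ℕ} {x : ℕ → V × A} {q r : V × A} (h : Walk Y p x q r) :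
    ∀ i ≤ p, ReflTransGen Y.madj q (x i) := by
  intro i
  induction i with
  | zero => intro _; rw [h.1]
  | succ i ih => intro hi; exact (ih (by omega)).tail (h.2.2.1 i (by omega))

theorem conn_symm {q r : V × A} (h : ReflTransGen Y.madj q r) : ReflTransGen Y.madj r q := by
  induction h with
  | refl => exact ReflTransGen.refl
  | tail _ hbc ih => exact ReflTransGen.head (madj_symm Y hbc) ih

theorem link_nb {p : ℕ} {x : ℕ → V × A} {q r : V × A} (h : Walk Y p x q r) (i : ℕ)
    (hi : i + 2 ≤ p) : P.inv (x i).2 ≠ P.inv (x (i + 2)).2 := by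
  intro he
  exact h.2.2.2 i hi (madj_inj Y (madj_symm Y (h.2.2.1 i (by omega))) (h.2.2.1 (i + 1) (by omega)) he)

variable {l : ℕ} (hG : P.Girth (l + 3)) (hC2 : Y.C2 l)

include hG hC2 in
theorem inj_of_conn {q r : V × A} (h : ReflTransGen Y.madj q r) (he : P.inv q.2 = P.inv r.2) :
    q = r := by
  obtain ⟨p, x, hw⟩ := exists_walk Y h
  have hp := walk_lt Y hC2 hw
  by_cases h0 : p = 0
  · subst h0
    rw [← hw.1, ← hw.2.1]
  · exfalso
    have := (hG p (fun i => P.inv (x i).2) (by omega) (by omega)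
      (fun i hi => madj_adj Y (hw.2.2.1 i hi)) (fun i hi => link_nb Y hw i hi)).1
    apply this
    show P.inv (x p).2 = P.inv (x 0).2
    rw [hw.1, hw.2.1, he]

include hG hC2 in
theorem madj_of_conn {q r : V × A} (h : ReflTransGen Y.madj q r)
    (ha : P.adj (P.inv q.2) (P.inv r.2)) : Y.madj q r := by
  obtain ⟨p, x, hw⟩ := exists_walk Y h
  have hp := walk_lt Y hC2 hw
  rcases Nat.lt_or_ge p 2 with h2 | h2
  · interval_cases p
    · exfalso
      have : q = r := by rw [← hw.1, ← hw.2.1]
      rw [this] at ha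
      exact adj_irrefl ha
    · have := hw.2.2.1 0 (by omega)
      rw [hw.1, zero_add, hw.2.1] at this
      exact this
  · exfalso
    by_cases hb : P.inv (x (p - 1)).2 = P.inv q.2
    · have := (hG (p - 1) (fun i => P.inv (x i).2) (by omega) (by omega)
        (fun i hi => madj_adj Y (hw.2.2.1 i (by omega))) (fun i hi => link_nb Y hw i (by omega))).1
      apply this
      show P.inv (x (p - 1)).2 = P.inv (x 0).2
      rw [hw.1, hb]
    · have := (hG (p + 1) (fun i => if i ≤ p then P.inv (x i).2 else P.inv q.2) (by omega)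
        (by omega) ?_ ?_).1
      · apply this
        simp [hw.1]
      · intro i hi
        by_cases h1 : i < p
        · have h3 : i + 1 ≤ p := h1
          simp only [h1.le, h3, if_true]
          exact madj_adj Y (hw.2.2.1 i h1)
        · have h3 : i = p := by omega
          subst h3
          simp only [le_refl, if_true, Nat.not_succ_le_self, if_false]
          rw [hw.2.1]
          exact adj_symm ha
      · intro i hi
        by_cases h1 : i + 2 ≤ p
        · have h3 : i ≤ p := by omega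
          simp only [h1, h3, if_true]
          exact link_nb Y hw i h1
        · have h3 : i = p - 1 := by omega
          have h4 : i ≤ p := by omega
          simp only [h4, h1, if_true, if_false]
          rw [h3]
          exact hb

/-- A path in a component cannot be closed up by at most three letters outside. -/
theorem close {l : ℕ} (hG : P.Girth (l + 3)) (hC2 : Y.C2 l) {q r : V × A}
    (h : ReflTransGen Y.madj q r) (k : ℕ) (hk : 1 ≤ k) (hk3 : k ≤ 3) (z : ℕ → A)
    (hz0 : z 0 = P.inv r.2) (hzk : z (k + 1) = P.inv q.2)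
    (hadj : ∀ i, i ≤ k → P.adj (z i) (z (i + 1)))
    (hnb : ∀ i, i + 2 ≤ k + 1 → z i ≠ z (i + 2))
    (hout : ∀ s, ReflTransGen Y.madj q s → P.inv s.2 ≠ z 1) : False := by
  obtain ⟨p, x, hw⟩ := exists_walk Y h
  have hp := walk_lt Y hC2 hw
  have key := (hG (p + (k + 1)) (fun i => if i ≤ p then P.inv (x i).2 else z (i - p)) (by omega)
    (by omega) ?_ ?_).1
  · apply key
    have h1 : ¬ p + (k + 1) ≤ p := by omega
    have h2 : p + (k + 1) - p = k + 1 := by omega
    simp only [h1, h2, if_false, Nat.zero_le, if_true]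
    rw [hzk, hw.1]
  · intro i hi
    by_cases h1 : i < p
    · have h3 : i + 1 ≤ p := h1
      simp only [h1.le, h3, if_true]
      exact madj_adj Y (hw.2.2.1 i h1)
    · by_cases h2 : i = p
      · subst h2
        have h3 : i + 1 - i = 1 := by omega
        simp only [le_refl, if_true, Nat.not_succ_le_self, if_false, h3]
        rw [hw.2.1, ← hz0]
        exact hadj 0 (by omega)
      · have h3 : ¬ i ≤ p := by omega
        have h4 : ¬ i + 1 ≤ p := by omega
        have h5 : i + 1 - p = (i - p) + 1 := by omega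
        simp only [h3, h4, if_false, h5]
        exact hadj (i - p) (by omega)
  · intro i hi
    by_cases h1 : i + 2 ≤ p
    · have h3 : i ≤ p := by omega
      simp only [h1, h3, if_true]
      exact link_nb Y hw i h1
    · by_cases h2 : i + 1 = p
      · have h3 : i ≤ p := by omega
        have h4 : i + 2 - p = 1 := by omega
        simp only [h3, h1, if_true, if_false, h4]
        exact hout _ (walk_conn Y hw i h3)
      · by_cases h3 : i = p
        · subst h3
          have h4 : i + 2 - i = 2 := by omega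
          simp only [le_refl, if_true, h1, if_false, h4]
          rw [hw.2.1, ← hz0]
          exact hnb 0 (by omega)
        · have h4 : ¬ i ≤ p := by omega
          have h5 : i + 2 - p = (i - p) + 2 := by omega
          simp only [h4, h1, if_false, h5]
          exact hnb (i - p) (by omega)

section closeN

variable {l : ℕ} (hG : P.Girth (l + 3)) (hC2 : Y.C2 l)

include hG hC2 in
theorem close1 {q r : V × A} (h : ReflTransGen Y.madj q r) {x : A}
    (h1 : P.adj (P.inv r.2) x) (h2 : P.adj x (P.inv q.2)) (hne : P.inv r.2 ≠ P.inv q.2)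
    (hout : ∀ s, ReflTransGen Y.madj q s → P.inv s.2 ≠ x) : False := by
  refine close Y hG hC2 h 1 (by omega) (by omega)
    (fun i => if i = 0 then P.inv r.2 else if i = 1 then x else P.inv q.2) (by simp) (by simp)
    ?_ ?_ ?_
  · intro i hi
    interval_cases i
    · simpa using h1
    · simpa using h2
  · intro i hi
    have : i = 0 := by omega
    subst this
    simpa using hne
  · intro s hs
    simpa using hout s hs

include hG hC2 in
theorem close2 {q r : V × A} (h : ReflTransGen Y.madj q r) {x y : A}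
    (h1 : P.adj (P.inv r.2) x) (h2 : P.adj x y) (h3 : P.adj y (P.inv q.2))
    (hne : P.inv r.2 ≠ y) (hne2 : x ≠ P.inv q.2)
    (hout : ∀ s, ReflTransGen Y.madj q s → P.inv s.2 ≠ x) : False := by
  refine close Y hG hC2 h 2 (by omega) (by omega)
    (fun i => if i = 0 then P.inv r.2 else if i = 1 then x else if i = 2 then y else P.inv q.2)
    (by simp) (by simp) ?_ ?_ ?_
  · intro i hi
    interval_cases i
    · simpa using h1
    · simpa using h2
    · simpa using h3
  · intro i hi
    have : i = 0 ∨ i = 1 := by omega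
    rcases this with rfl | rfl
    · simpa using hne
    · simpa using hne2
  · intro s hs
    simpa using hout s hs

include hG hC2 in
theorem close3 {q r : V × A} (h : ReflTransGen Y.madj q r) {x y z : A}
    (h1 : P.adj (P.inv r.2) x) (h2 : P.adj x y) (h3 : P.adj y z) (h4 : P.adj z (P.inv q.2))
    (hne : P.inv r.2 ≠ y) (hne2 : x ≠ z) (hne3 : y ≠ P.inv q.2)
    (hout : ∀ s, ReflTransGen Y.madj q s → P.inv s.2 ≠ x) : False := by
  refine close Y hG hC2 h 3 (by omega) (by omega)
    (fun i => if i = 0 then P.inv r.2 else if i = 1 then x else if i = 2 then y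
      else if i = 3 then z else P.inv q.2)
    (by simp) (by simp) ?_ ?_ ?_
  · intro i hi
    interval_cases i
    · simpa using h1
    · simpa using h2
    · simpa using h3
    · simpa using h4
  · intro i hi
    have : i = 0 ∨ i = 1 ∨ i = 2 := by omega
    rcases this with rfl | rfl | rfl
    · simpa using hne
    · simpa using hne2
    · simpa using hne3
  · intro s hs
    simpa using hout s hs

include hG hC2 in
/-- If `(w, a)` is missing and `a = b c`, then `c` is not the letter of an element of the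
component of `(w, b)`. -/
theorem star {w : V} {a b c : A} (hm : Y.miss (w, a)) (hR : P.R (P.inv a) b c) {s : V × A}
    (hs : ReflTransGen Y.madj (w, b) s) : P.inv s.2 ≠ c := by
  intro he
  have h1 : P.adj (P.inv b) c := adj_of_R (P.rot _ _ _ hR)
  rw [← he] at h1
  obtain ⟨_, _, d, hd, hRd⟩ := madj_of_conn Y hG hC2 hs h1
  have h2 := P.flip _ _ _ hR
  rw [P.inv_inv] at h2
  have h3 : P.R a (P.inv c) (P.inv b) := rot2 h2
  have h4 : s.2 = P.inv c := by rw [← he, P.inv_inv]
  simp only at hRd
  rw [h4] at hRd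
  have h5 : d = a := uniq_left hRd h3
  rw [h5] at hd
  exact hm s.1 hd

end closeN

/-! ### One step of the completion -/

/-- two missing pairs are equivalent if they are joined by a walk -/
def misSetoid : Setoid {q : V × A // Y.miss q} where
  r q r := ReflTransGen Y.madj q.1 r.1
  iseqv := ⟨fun _ => ReflTransGen.refl, fun h => conn_symm Y h, fun h h' => h.trans h'⟩

/-- components of missing pairs -/
def Comp : Type := Quotient (misSetoid Y)

/-- membership in a component -/
def InC (C : Comp Y) (q : V × A) : Prop :=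
  ∃ h : Y.miss q, (Quotient.mk (misSetoid Y) ⟨q, h⟩ : Comp Y) = C

theorem InC.conn {C : Comp Y} {q r : V × A} (h : InC Y C q) (h' : InC Y C r) :
    ReflTransGen Y.madj q r := by
  obtain ⟨h1, h2⟩ := h
  obtain ⟨h3, h4⟩ := h'
  rw [← h4] at h2
  exact Quotient.exact h2

theorem InC.of_madj {C : Comp Y} {q r : V × A} (h : InC Y C q) (h' : Y.madj q r) : InC Y C r := by
  obtain ⟨h1, h2⟩ := h
  refine ⟨h'.2.1, ?_⟩
  rw [← h2]
  exact Quotient.sound (s := misSetoid Y) (conn_symm Y (ReflTransGen.single h'))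

theorem InC.of_conn {C : Comp Y} {q r : V × A} (h : InC Y C q) (h' : ReflTransGen Y.madj q r) :
    InC Y C r := by
  induction h' with
  | refl => exact h
  | tail _ hbc ih => exact ih.of_madj Y hbc

theorem InC.uniq {C C' : Comp Y} {q : V × A} (h : InC Y C q) (h' : InC Y C' q) : C = C' := by
  obtain ⟨h1, h2⟩ := h
  obtain ⟨h3, h4⟩ := h'
  rw [← h2, ← h4]

theorem exists_InC {q : V × A} (h : Y.miss q) : ∃ C, InC Y C q := ⟨_, h, rfl⟩

/-- edges of the next partial action -/
def nextE : V ⊕ Comp Y → A → V ⊕ Comp Y → Prop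
  | Sum.inl v, a, Sum.inl w => Y.E v a w
  | Sum.inl v, a, Sum.inr C => InC Y C (v, a)
  | Sum.inr C, a, Sum.inl w => InC Y C (w, P.inv a)
  | Sum.inr C', c, Sum.inr C => ∃ w a b, InC Y C (w, a) ∧ InC Y C' (w, b) ∧ P.R (P.inv a) b c

/-- the next partial action -/
def next {l : ℕ} (hG : P.Girth (l + 3)) (hC2 : Y.C2 l) : PAct P (V ⊕ Comp Y) where
  E := nextE Y
  symm := by
    rintro (v | C) a (w | D) h
    · exact Y.symm _ _ _ h
    · show InC Y D (v, P.inv (P.inv a))
      rw [P.inv_inv]
      exact h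
    · exact h
    · obtain ⟨w, p, q, h1, h2, h3⟩ := h
      refine ⟨w, q, p, h2, h1, ?_⟩
      have h4 := P.flip _ _ _ h3
      rw [P.inv_inv] at h4
      exact P.rot _ _ _ h4
  det := by
    rintro (v | C) a (w | D) (w' | D') h h'
    · rw [Y.det _ _ _ _ h h']
    · exact absurd h (h'.1 w)
    · exact absurd h' (h.1 w')
    · rw [InC.uniq Y h h']
    · have := inj_of_conn Y hG hC2 (InC.conn Y h h') rfl
      have h9 : w = w' := congrArg Prod.fst this
      rw [h9]
    · exfalso
      obtain ⟨w0, p, q, h1, h2, h3⟩ := h'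
      refine star Y hG hC2 h1.1 h3 (InC.conn Y h2 h) ?_
      rw [P.inv_inv]
    · exfalso
      obtain ⟨w0, p, q, h1, h2, h3⟩ := h
      refine star Y hG hC2 h1.1 h3 (InC.conn Y h2 h') ?_
      rw [P.inv_inv]
    · obtain ⟨w0, p, q, h1, h2, h3⟩ := h
      obtain ⟨w1, p1, q1, h1', h2', h3'⟩ := h'
      have e1 : P.adj (P.inv q) a := adj_of_R (P.rot _ _ _ h3)
      have e2 : P.adj (P.inv q1) a := adj_of_R (P.rot _ _ _ h3')
      by_cases hq : P.inv q1 = P.inv q
      · have h4 := inj_of_conn Y hG hC2 (InC.conn Y h2' h2) hq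
        have h5 := (Prod.ext_iff.1 h4).1
        have h6 := (Prod.ext_iff.1 h4).2
        simp only at h5 h6
        subst h5
        subst h6
        have h7 : p = p1 := inv_injective (uniq_left h3 h3')
        subst h7
        rw [InC.uniq Y h1 h1']
      · exfalso
        exact close1 Y hG hC2 (InC.conn Y h2 h2') (x := a) e2 (adj_symm e1) hq
          (fun s hs => star Y hG hC2 h1.1 h3 hs)

theorem next_C1 {l : ℕ} (hG : P.Girth (l + 3)) (hC1 : Y.C1) (hC2 : Y.C2 l) :
    (next Y hG hC2).C1 := by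
  rintro (v | D) (w | W) (u | U) a b c h h' hR
  · exact hC1 _ _ _ _ _ _ h h' hR
  · -- v old, w old, u new
    show InC Y U (v, P.inv c)
    have h1 : Y.E v a w := h
    have h2 : InC Y U (w, b) := h'
    refine h2.of_madj Y ⟨h2.1, ?_, P.inv a, Y.symm _ _ _ h1, rot2 (P.flip _ _ _ hR)⟩
    intro z hz
    have h3 := Y.symm _ _ _ hz
    rw [P.inv_inv] at h3
    exact h2.1 z (hC1 _ _ _ _ _ _ h3 h1 (rot2 hR))
  · -- v old, w new, u old
    show Y.E u c v
    have h1 : InC Y W (v, a) := h
    have h2 : InC Y W (u, P.inv b) := h'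
    have h3 : P.adj (P.inv a) (P.inv (P.inv b)) := by
      rw [P.inv_inv]; exact adj_of_R hR
    obtain ⟨_, _, d, hd, hRd⟩ := madj_of_conn Y hG hC2 (InC.conn Y h1 h2) h3
    simp only at hd hRd
    have h4 := P.flip _ _ _ hR
    have h5 : d = P.inv c := uniq_left hRd h4
    rw [h5] at hd
    have h6 := Y.symm _ _ _ hd
    rwa [P.inv_inv] at h6
  · -- v old, w new, u new
    show InC Y U (v, P.inv c)
    have h1 : InC Y W (v, a) := h
    obtain ⟨w0, p, q, h2, h3, h4⟩ := h'
    have e1 : P.adj (P.inv q) b := adj_of_R (P.rot _ _ _ h4)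
    have e2 : P.adj (P.inv a) b := adj_of_R hR
    by_cases hq : P.inv a = P.inv q
    · have h5 := inj_of_conn Y hG hC2 (InC.conn Y h1 h3) hq
      have h6 := (Prod.ext_iff.1 h5).1
      have h7 := (Prod.ext_iff.1 h5).2
      simp only at h6 h7
      subst h6
      subst h7
      have h8 : c = P.inv p := P.uniq _ _ _ _ hR (P.rot _ _ _ h4)
      rw [h8, P.inv_inv]
      exact h2
    · exfalso
      exact close1 Y hG hC2 (InC.conn Y h3 h1) (x := b) e2 (adj_symm e1) hq
        (fun s hs => star Y hG hC2 h2.1 h4 hs)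
  · -- v new, w old, u old
    show InC Y D (u, c)
    have h1 : InC Y D (w, P.inv a) := h
    have h2 : Y.E w b u := h'
    refine h1.of_madj Y ⟨h1.1, ?_, b, h2, ?_⟩
    · intro z hz
      have h3 := hC1 _ _ _ _ _ _ h2 hz (P.rot _ _ _ hR)
      exact h1.1 z (Y.symm _ _ _ h3)
    · show P.R b c (P.inv (P.inv a))
      rw [P.inv_inv]
      exact P.rot _ _ _ hR
  · -- v new, w old, u new
    refine ⟨w, P.inv a, b, h, h', ?_⟩
    rw [P.inv_inv]
    exact hR
  · -- v new, w new, u old
    show InC Y D (u, c)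
    obtain ⟨w1, p, q, h1, h2, h3⟩ := h
    have h4 : InC Y W (u, P.inv b) := h'
    have h5 : P.R (P.inv q) p (P.inv a) := by
      have := P.flip _ _ _ h3
      rw [P.inv_inv] at this
      exact P.rot _ _ _ this
    have e1 : P.adj (P.inv p) (P.inv a) := adj_of_R (P.rot _ _ _ h5)
    have e2 : P.adj (P.inv a) b := adj_of_R hR
    by_cases hq : b = P.inv p
    · have h6 := inj_of_conn Y hG hC2 (InC.conn Y h4 h1) (by
        show P.inv (P.inv b) = P.inv p
        rw [P.inv_inv]; exact hq)
      have h7 := (Prod.ext_iff.1 h6).1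
      have h8 := (Prod.ext_iff.1 h6).2
      simp only at h7 h8
      subst h7
      rw [← h8] at h5
      have h9 : P.inv c = P.inv q := uniq_left (P.flip _ _ _ hR) h5
      rw [inv_injective h9]
      exact h2
    · exfalso
      refine close1 Y hG hC2 (InC.conn Y h1 h4) (x := P.inv a) ?_ (adj_symm e1) ?_
        (fun s hs => star Y hG hC2 h2.1 h5 hs)
      · show P.adj (P.inv (P.inv b)) (P.inv a)
        rw [P.inv_inv]
        exact adj_symm e2
      · show P.inv (P.inv b) ≠ P.inv p
        rw [P.inv_inv]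
        exact hq
  · -- all new
    exfalso
    obtain ⟨w1, p, q, h1, h2, h3⟩ := h
    obtain ⟨w2, p', q', h1', h2', h3'⟩ := h'
    have h5 : P.R (P.inv q) p (P.inv a) := by
      have := P.flip _ _ _ h3
      rw [P.inv_inv] at this
      exact P.rot _ _ _ this
    have e1 : P.adj (P.inv p) (P.inv a) := adj_of_R (P.rot _ _ _ h5)
    have e2 : P.adj (P.inv a) b := adj_of_R hR
    have e3 : P.adj (P.inv q') b := adj_of_R (P.rot _ _ _ h3')
    have hc := InC.conn Y h1 h2'
    refine close2 Y hG hC2 hc (x := b) (y := P.inv a) e3 (adj_symm e2) (adj_symm e1) ?_ ?_ ?_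
    · exact star Y hG hC2 h2.1 h5 hc
    · exact (star Y hG hC2 h1'.1 h3' (conn_symm Y hc)).symm
    · intro s hs
      exact star Y hG hC2 h1'.1 h3' ((conn_symm Y hc).trans hs)

/-- every letter is defined at an old vertex -/
theorem next_old {l : ℕ} (hG : P.Girth (l + 3)) (hC2 : Y.C2 l) (v : V) (a : A) :
    ∃ w, (next Y hG hC2).E (Sum.inl v) a w := by
  by_cases h : Y.miss (v, a)
  · obtain ⟨C, hC⟩ := exists_InC Y h
    exact ⟨Sum.inr C, hC⟩
  · have : ∃ w, Y.E v a w := by
      by_contra hn
      exact h (fun w hw => hn ⟨w, hw⟩)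
    obtain ⟨w, hw⟩ := this
    exact ⟨Sum.inl w, hw⟩

theorem next_C2 {l : ℕ} (hl : 2 ≤ l) (hG : P.Girth (l + 3)) (hC2 : Y.C2 l) :
    (next Y hG hC2).C2 l := by
  intro f hf hf2
  have m0 := madj_symm _ (hf 0 (by omega))
  have m1 := hf 1 (by omega)
  have hne := hf2 0 (by omega)
  simp only [zero_add] at m0 m1 hne
  generalize f 0 = q0 at m0 hne
  generalize f 1 = q1 at m0 m1
  have e12 : (1 + 1 : ℕ) = 2 := rfl
  rw [e12] at m1
  generalize f 2 = q2 at m1 hne
  obtain ⟨x0, a0⟩ := q0
  obtain ⟨x1, a1⟩ := q1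
  obtain ⟨x2, a2⟩ := q2
  obtain ⟨hm1, hm0, x, hx, hRx⟩ := m0
  obtain ⟨_, hm2, y, hy, hRy⟩ := m1
  simp only at hx hRx hy hRy
  rcases x1 with v1 | W
  · obtain ⟨w, hw⟩ := next_old Y hG hC2 v1 a1
    exact hm1 w hw
  rcases x0 with v0 | D0
  · obtain ⟨w, hw⟩ := next_old Y hG hC2 v0 a0
    exact hm0 w hw
  rcases x2 with v2 | D2
  · obtain ⟨w, hw⟩ := next_old Y hG hC2 v2 a2
    exact hm2 w hw
  have hxy : x ≠ y := by
    intro he
    subst he
    have h1 := (next Y hG hC2).det _ _ _ _ hx hy
    have h2 : a0 = a2 := uniq_mid hRx hRy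
    exact hne (by rw [h1, h2])
  have hout : ∀ s, InC Y W s → P.inv s.2 ≠ a1 := by
    intro s hs he
    refine hm1 (Sum.inl s.1) ?_
    show InC Y W (s.1, P.inv a1)
    rw [← he, P.inv_inv]
    exact hs
  obtain ⟨w0, p, q, h1, h2, h3⟩ := hx
  obtain ⟨w2, p', q', h1', h2', h3'⟩ := hy
  have e1 : P.adj (P.inv q) x := adj_of_R (P.rot _ _ _ h3)
  have e2 : P.adj (P.inv q') y := adj_of_R (P.rot _ _ _ h3')
  have e3 : P.adj a1 x := by
    have := adj_of_R (rot2 hRx)
    rwa [P.inv_inv] at this
  have e4 : P.adj a1 y := by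
    have := adj_of_R (rot2 hRy)
    rwa [P.inv_inv] at this
  have hc := InC.conn Y h2' h2
  exact close3 Y hG hC2 hc (x := x) (y := a1) (z := y) e1 (adj_symm e3) e4 (adj_symm e2)
    (hout _ h2) hxy (hout _ h2').symm
    (fun s hs => star Y hG hC2 h1.1 h3 ((conn_symm Y hc).trans hs))

/-! ### The direct limit -/

/-- a stage of the construction -/
structure Stage (P : TriPres A) (l : ℕ) where
  V : Type
  Y : PAct P V
  C1 : Y.C1
  C2 : Y.C2 l

/-- the next stage -/
def Stage.next {l : ℕ} (hl : 2 ≤ l) (hG : P.Girth (l + 3)) (S : Stage P l) : Stage P l where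
  V := S.V ⊕ Comp S.Y
  Y := Compl.next S.Y hG S.C2
  C1 := next_C1 S.Y hG S.C1 S.C2
  C2 := next_C2 S.Y hl hG S.C2

section limit

variable {l : ℕ} (hl : 2 ≤ l) (hG : P.Girth (l + 3)) (S : Stage P l)

/-- the sequence of stages -/
def stage : ℕ → Stage P l
  | 0 => S
  | n + 1 => (stage n).next hl hG

/-- the union of the stages -/
def Om : Type := S.V ⊕ Σ n, Comp (stage hl hG S n).Y

/-- the inclusion of a stage -/
def inc : (n : ℕ) → (stage hl hG S n).V → Om hl hG S
  | 0, v => Sum.inl v
  | n + 1, Sum.inl v => inc n v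
  | n + 1, Sum.inr C => Sum.inr ⟨n, C⟩

/-- the stage at which a point appears -/
def rk : Om hl hG S → ℕ
  | Sum.inl _ => 0
  | Sum.inr x => x.1 + 1

theorem rk_inc : ∀ (n : ℕ) (v : (stage hl hG S n).V), rk hl hG S (inc hl hG S n v) ≤ n
  | 0, _ => le_refl 0
  | n + 1, Sum.inl v => le_trans (rk_inc n v) (Nat.le_succ n)
  | n + 1, Sum.inr _ => le_refl (n + 1)

theorem inc_injective : ∀ n, Function.Injective (inc hl hG S n)
  | 0 => fun _ _ h => Sum.inl_injective h
  | n + 1 => by
    rintro (v | C) (w | D) h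
    · have h1 : inc hl hG S n v = inc hl hG S n w := h
      rw [inc_injective n h1]
    · exfalso
      have h1 : inc hl hG S n v = Sum.inr ⟨n, D⟩ := h
      have h2 := rk_inc hl hG S n v
      rw [h1] at h2
      exact absurd h2 (Nat.not_succ_le_self n)
    · exfalso
      have h1 : Sum.inr ⟨n, C⟩ = inc hl hG S n w := h
      have h2 := rk_inc hl hG S n w
      rw [← h1] at h2
      exact absurd h2 (Nat.not_succ_le_self n)
    · have h1 : (Sum.inr ⟨n, C⟩ : Om hl hG S) = Sum.inr ⟨n, D⟩ := h
      have h2 := Sum.inr_injective h1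
      have h3 : C = D := eq_of_heq (Sigma.mk.inj h2).2
      rw [h3]

/-- edges in the union -/
def OE (x : Om hl hG S) (a : A) (y : Om hl hG S) : Prop :=
  ∃ n v w, (stage hl hG S n).Y.E v a w ∧ inc hl hG S n v = x ∧ inc hl hG S n w = y

theorem lift_vertex {n m : ℕ} (h : n ≤ m) (v : (stage hl hG S n).V) :
    ∃ v' : (stage hl hG S m).V, inc hl hG S m v' = inc hl hG S n v := by
  induction m, h using Nat.le_induction with
  | base => exact ⟨v, rfl⟩
  | succ m _ ih =>
    obtain ⟨v', h'⟩ := ih
    exact ⟨Sum.inl v', h'⟩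

theorem lift_edge {n m : ℕ} (h : n ≤ m) {v w : (stage hl hG S n).V} {a : A}
    (he : (stage hl hG S n).Y.E v a w) :
    ∃ v' w' : (stage hl hG S m).V, (stage hl hG S m).Y.E v' a w' ∧
      inc hl hG S m v' = inc hl hG S n v ∧ inc hl hG S m w' = inc hl hG S n w := by
  induction m, h using Nat.le_induction with
  | base => exact ⟨v, w, he, rfl, rfl⟩
  | succ m _ ih =>
    obtain ⟨v', w', h1, h2, h3⟩ := ih
    exact ⟨Sum.inl v', Sum.inl w', h1, h2, h3⟩

theorem OE_symm {x y : Om hl hG S} {a : A} (h : OE hl hG S x a y) :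
    OE hl hG S y (P.inv a) x := by
  obtain ⟨n, v, w, h1, h2, h3⟩ := h
  exact ⟨n, w, v, (stage hl hG S n).Y.symm _ _ _ h1, h3, h2⟩

theorem OE_det {x y y' : Om hl hG S} {a : A} (h : OE hl hG S x a y) (h' : OE hl hG S x a y') :
    y = y' := by
  obtain ⟨n, v, w, h1, h2, h3⟩ := h
  obtain ⟨m, v', w', h1', h2', h3'⟩ := h'
  obtain ⟨u, z, k1, k2, k3⟩ := lift_edge hl hG S (le_max_left n m) h1
  obtain ⟨u', z', k1', k2', k3'⟩ := lift_edge hl hG S (le_max_right n m) h1'
  have e1 : u = u' := inc_injective hl hG S _ (by rw [k2, k2', h2, h2'])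
  subst e1
  have e2 := (stage hl hG S (max n m)).Y.det _ _ _ _ k1 k1'
  rw [← h3, ← h3', ← k3, ← k3', e2]

theorem exists_inc (x : Om hl hG S) : ∃ n v, inc hl hG S n v = x := by
  rcases x with v | ⟨n, C⟩
  · exact ⟨0, v, rfl⟩
  · exact ⟨n + 1, Sum.inr C, rfl⟩

theorem OE_total (x : Om hl hG S) (a : A) : ∃ y, OE hl hG S x a y := by
  obtain ⟨n, v, hv⟩ := exists_inc hl hG S x
  obtain ⟨w, hw⟩ := next_old (stage hl hG S n).Y hG (stage hl hG S n).C2 v a
  exact ⟨inc hl hG S (n + 1) w, n + 1, Sum.inl v, w, hw, hv, rfl⟩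

theorem OE_rel {x y z : Om hl hG S} {a b c : A} (h1 : OE hl hG S x a y) (h2 : OE hl hG S y b z)
    (hR : P.R a b c) : OE hl hG S z c x := by
  obtain ⟨n, v, w, e1, e2, e3⟩ := h1
  obtain ⟨m, v', w', e1', e2', e3'⟩ := h2
  obtain ⟨u, t, k1, k2, k3⟩ := lift_edge hl hG S (le_max_left n m) e1
  obtain ⟨u', t', k1', k2', k3'⟩ := lift_edge hl hG S (le_max_right n m) e1'
  have e : t = u' := inc_injective hl hG S _ (by rw [k3, k2', e3, e2'])
  subst e
  exact ⟨max n m, t', u, (stage hl hG S (max n m)).C1 _ _ _ _ _ _ k1 k1' hR,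
    by rw [k3', e3'], by rw [k2, e2]⟩

/-- the action on the union -/
noncomputable def OAct : Act P (Om hl hG S) where
  σ a x := (OE_total hl hG S x a).choose
  inv_left a x := by
    have h1 := (OE_total hl hG S x a).choose_spec
    have h2 := (OE_total hl hG S (OE_total hl hG S x a).choose (P.inv a)).choose_spec
    exact OE_det hl hG S h2 (OE_symm hl hG S h1)
  rel a b c x hR := by
    have h1 := (OE_total hl hG S x a).choose_spec
    have h2 := (OE_total hl hG S (OE_total hl hG S x a).choose b).choose_spec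
    have h3 := (OE_total hl hG S (OE_total hl hG S
      (OE_total hl hG S x a).choose b).choose c).choose_spec
    exact OE_det hl hG S h3 (OE_rel hl hG S h1 h2 hR)

theorem OAct_eq {x y : Om hl hG S} {a : A} (h : OE hl hG S x a y) :
    (OAct hl hG S).σ a x = y :=
  OE_det hl hG S (OE_total hl hG S x a).choose_spec h

end limit

theorem targetCompletion : TargetCompletion := by
  intro A P V Y l hl hG hC1 hC2
  let S : Stage P l := ⟨V, Y, hC1, hC2⟩
  refine ⟨Om hl hG S, OAct hl hG S, fun v => Sum.inl v, Sum.inl_injective, ?_, ?_⟩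
  · intro v a w h
    exact OAct_eq hl hG S ⟨0, v, w, h, rfl, rfl⟩
  · intro v a h
    obtain ⟨C, hC⟩ := exists_InC Y h
    have h1 : (OAct hl hG S).σ a (Sum.inl v) = Sum.inr ⟨0, C⟩ :=
      OAct_eq hl hG S ⟨1, Sum.inl v, Sum.inr C, hC, rfl, rfl⟩
    rw [h1]
    rintro ⟨w, hw⟩
    exact Sum.inl_ne_inr hw

end Pool.Agent.HTRank.Compl
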