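import Pool.Agent.HTRank.Model

/-!
Definitions for the rank of the fundamental group of random hypertrees (MP_e07d11_pr).

Part 1: triangular presentations, actions, incomplete actions (abstract group theory).
Part 2: typical properties of hypertrees and the targets (the model is in `Model.lean`).
-/

set_option autoImplicit false

open Finset

namespace Pool.Agent.HTRank

/-! ### Part 1: triangular presentations -/

/-- A triangular presentation: generators `A` with a fixed point free formal inverse `inv`,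
and relators `R a b c`, read as `a b c = 1`. -/
structure TriPres (A : Type) where
  inv : A → A
  inv_inv : ∀ a, inv (inv a) = a
  inv_ne : ∀ a, inv a ≠ a
  R : A → A → A → Prop
  rot : ∀ a b c, R a b c → R b c a
  flip : ∀ a b c, R a b c → R (inv c) (inv b) (inv a)
  ne1 : ∀ a b c, R a b c → a ≠ b
  ne2 : ∀ a b c, R a b c → a ≠ inv b
  uniq : ∀ a b c c', R a b c → R a b c' → c = c'

variable {A : Type}

/-- Adjacency in the link graph of the presentation complex. -/
def TriPres.adj (P : TriPres A) (x y : A) : Prop := ∃ c, P.R (P.inv x) y c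

/-- The link graph has no closed non-backtracking walk of length at most `g`,
not even up to inversion of the end point. -/
def TriPres.Girth (P : TriPres A) (g : ℕ) : Prop :=
  ∀ (p : ℕ) (x : ℕ → A), 1 ≤ p → p ≤ g → (∀ i, i < p → P.adj (x i) (x (i + 1))) →
    (∀ i, i + 2 ≤ p → x i ≠ x (i + 2)) → x p ≠ x 0 ∧ x p ≠ P.inv (x 0)

/-- An action of the presented group on a type `Ω`; `σ a` is the permutation of the letter `a`,
and the relator `a b c` says: first apply `a`, then `b`, then `c`. -/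
structure Act (P : TriPres A) (Ω : Type) where
  σ : A → Ω → Ω
  inv_left : ∀ a ω, σ (P.inv a) (σ a ω) = ω
  rel : ∀ a b c ω, P.R a b c → σ c (σ b (σ a ω)) = ω

/-- Apply a word, first letter first. -/
def Act.word {P : TriPres A} {Ω : Type} (X : Act P Ω) : List A → Ω → Ω
  | [], ω => ω
  | a :: l, ω => X.word l (X.σ a ω)

/-- The presented group is generated by `k` elements, expressed through actions:
there are `k` words such that in every action a point fixed by the `k` words is fixed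
by all letters. -/
def PGen (P : TriPres A) (k : ℕ) : Prop :=
  ∃ W : Fin k → List A, ∀ (Ω : Type) (X : Act P Ω) (ω : Ω),
    (∀ i, X.word (W i) ω = ω) → ∀ a, X.σ a ω = ω

/-- An incomplete action (labelled graph immersed in the rose). -/
structure PAct (P : TriPres A) (V : Type) where
  E : V → A → V → Prop
  symm : ∀ v a w, E v a w → E w (P.inv a) v
  det : ∀ v a w w', E v a w → E v a w' → w = w'

/-- The pair (vertex, letter) has no edge. -/
def PAct.miss {P : TriPres A} {V : Type} (Y : PAct P V) (q : V × A) : Prop :=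
  ∀ w, ¬ Y.E q.1 q.2 w

/-- Adjacency of missing pairs: in every action extending `Y` they lead to the same point. -/
def PAct.madj {P : TriPres A} {V : Type} (Y : PAct P V) (q r : V × A) : Prop :=
  Y.miss q ∧ Y.miss r ∧ ∃ c, Y.E q.1 c r.1 ∧ P.R c r.2 (P.inv q.2)

/-- Closed under two-of-three moves. -/
def PAct.C1 {P : TriPres A} {V : Type} (Y : PAct P V) : Prop :=
  ∀ v w u a b c, Y.E v a w → Y.E w b u → P.R a b c → Y.E u c v

/-- No missing fan of length `l`. -/
def PAct.C2 {P : TriPres A} {V : Type} (Y : PAct P V) (l : ℕ) : Prop :=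
  ∀ q : ℕ → V × A, (∀ i, i < l → Y.madj (q i) (q (i + 1))) →
    (∀ i, i + 2 ≤ l → q i ≠ q (i + 2)) → False

/-- Job 1 target. A closed incomplete action embeds in an action in a free way. -/
def TargetCompletion : Prop :=
  ∀ (A : Type) (P : TriPres A) (V : Type) (Y : PAct P V) (l : ℕ), 2 ≤ l → P.Girth (l + 3) →
    Y.C1 → Y.C2 l →
    ∃ (Ω : Type) (X : Act P Ω) (ι : V → Ω), Function.Injective ι ∧
      (∀ v a w, Y.E v a w → X.σ a (ι v) = ι w) ∧
      (∀ v a, Y.miss (v, a) → X.σ a (ι v) ∉ Set.range ι)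

/-- `R0` is a finite set of relators closed under rotation and inversion. -/
structure RelClosed (P : TriPres A) (R0 : Finset (A × A × A)) : Prop where
  sub : ∀ a b c, (a, b, c) ∈ R0 → P.R a b c
  rot : ∀ a b c, (a, b, c) ∈ R0 → (b, c, a) ∈ R0
  flip : ∀ a b c, (a, b, c) ∈ R0 → (P.inv c, P.inv b, P.inv a) ∈ R0

/-- The letters `x, y` span a corner of a relator of `R0`. -/
def corner (P : TriPres A) (R0 : Finset (A × A × A)) (x y : A) : Prop :=
  ∃ c, (P.inv x, y, c) ∈ R0

/-- `D` is connected through corners of `R0`. -/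
def LinkConn (P : TriPres A) (R0 : Finset (A × A × A)) (D : Finset A) : Prop :=
  ∀ U ⊆ D, U.Nonempty → U ≠ D → ∃ x ∈ U, ∃ y ∈ D, y ∉ U ∧ corner P R0 x y

open Classical in
/-- The weight condition on small sets of relators: corner weights adding up to 1 on each
relator, at most `(1 - μ) / 2` on each corner, and total weight at most `(1 - μ / 2) |D|`
(ordered corners) on connected sets `D` of more than `m` letters. -/
def WeightCond (P : TriPres A) (m : ℕ) (μ : ℝ) (r0 : ℕ) : Prop :=
  ∀ R0 : Finset (A × A × A), RelClosed P R0 → R0.card ≤ 6 * r0 →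
    ∃ w : A → A → ℝ, (∀ x y, 0 ≤ w x y) ∧ (∀ x y, w x y = w y x) ∧
      (∀ x y, corner P R0 x y → 2 * w x y ≤ 1 - μ) ∧
      (∀ a b c, (a, b, c) ∈ R0 → w (P.inv c) a + w (P.inv a) b + w (P.inv b) c = 1) ∧
      ∀ D : Finset A, m < D.card → LinkConn P R0 D →
        ∑ x ∈ D, ∑ y ∈ D.filter (fun y => corner P R0 x y), w x y ≤ (1 - μ / 2) * D.card

open Classical in
/-- The abstract main theorem (helper68). -/
def TargetAbstract : Prop :=
  ∀ (A : Type) [Fintype A] (P : TriPres A) (m B g r0 k : ℕ) (μ : ℝ),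
    0 < μ → μ ≤ 1 / 3 → 4 / μ ≤ B → 8 / μ ≤ m → m ≤ g → B + 4 ≤ g →
    4 * (k : ℝ) / μ + B + 1 ≤ r0 →
    P.Girth g → WeightCond P m μ r0 →
    6 * r0 < (univ.filter (fun q : A × A × A => P.R q.1 q.2.1 q.2.2)).card →
    ¬ PGen P k

/-! ### Part 2: hypertrees -/

/-- An action of the edge-path group of the complex with complete 1-skeleton on `Fin n` and
triangles `S`, based at the vertex `v0` (with the star of `v0` as spanning tree). -/
structure TAct (n : ℕ) (S : Finset (Finset (Fin n))) (v0 : Fin n) (Ω : Type) where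
  τ : Fin n → Fin n → Ω → Ω
  refl : ∀ i ω, τ i i ω = ω
  inv : ∀ i j ω, τ j i (τ i j ω) = ω
  root : ∀ j ω, τ v0 j ω = ω
  tri : ∀ i j k, ({i, j, k} : Finset (Fin n)) ∈ S → ∀ ω, τ j k (τ i j ω) = τ i k ω

/-- Apply a word, first letter first. -/
def TAct.word {n : ℕ} {S : Finset (Finset (Fin n))} {v0 : Fin n} {Ω : Type}
    (X : TAct n S v0 Ω) : List (Fin n × Fin n) → Ω → Ω
  | [], ω => ω
  | p :: l, ω => X.word l (X.τ p.1 p.2 ω)

/-- The edge-path group is generated by `k` elements. -/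
def TGen (n : ℕ) (S : Finset (Finset (Fin n))) (v0 : Fin n) (k : ℕ) : Prop :=
  ∃ W : Fin k → List (Fin n × Fin n), ∀ (Ω : Type) (X : TAct n S v0 Ω) (ω : Ω),
    (∀ i, X.word (W i) ω = ω) → ∀ i j, X.τ i j ω = ω

/-- The vertices covered by a set of triangles, except `v0`. -/
def cov {n : ℕ} (v0 : Fin n) (B : Finset (Finset (Fin n))) : Finset (Fin n) :=
  (B.biUnion id).erase v0

open Classical in
/-- The typical properties of the random hypertree that are used. -/
structure Good (n : ℕ) (v0 : Fin n) (T : Finset (Finset (Fin n)))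
    (Ms d0 : ℕ) (η κ ζ : ℝ) : Prop where
  tri : ∀ t ∈ T, t.card = 3
  ls : ∀ B ⊆ T, B.card ≤ Ms → B.card ≤ (cov v0 B).card
  few : ((T.filter (fun t => ∃ B ⊆ T, t ∈ B ∧ B.card ≤ Ms ∧
    (cov v0 B).card ≤ B.card + 1)).card : ℝ) ≤ (n : ℝ) ^ 2 / 8
  l1 : ∀ (i : Fin n) (D : Finset (Fin n)),
    (T.filter (fun t => i ∈ t ∧ t.erase i ⊆ D)).card ≤ 10 * D.card
  l2 : ∀ (i : Fin n) (D : Finset (Fin n)), d0 ≤ D.card → (D.card : ℝ) ≤ κ * n →
    ((T.filter (fun t => i ∈ t ∧ t.erase i ⊆ D)).card : ℝ) ≤ (1 + η) * D.card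
  l3 : ∀ (i : Fin n) (H : Finset (Fin n)), (H.card : ℝ) ≤ ζ * n →
    ((T.filter (fun t => i ∈ t ∧ ¬ Disjoint (t.erase i) H)).card : ℝ) ≤ κ * n / 2

open Classical in
/-- Job 2 target: combinatorics. From a good complex to a triangular presentation of a quotient
of the edge-path group. -/
def TargetComb : Prop :=
  ∀ (n : ℕ) (v0 : Fin n) (T : Finset (Finset (Fin n))) (κ ζ : ℝ) (r0 : ℕ),
    0 < κ → 0 < ζ → Good n v0 T 100000 8000 (1 / 1000) κ ζ →
    (6 * r0 : ℝ) ≤ κ * ζ * (n : ℝ) ^ 2 → (r0 : ℝ) + (n : ℝ) ^ 2 / 8 < T.card →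
    ∃ (A : Type) (_ : Fintype A) (P : TriPres A), P.Girth 1000 ∧
      WeightCond P 1000 (1 / 100) r0 ∧
      6 * r0 < (univ.filter (fun q : A × A × A => P.R q.1 q.2.1 q.2.2)).card ∧
      ∀ k, TGen n T v0 k → PGen P k

/-- Job 3 target: the determinantal measure. -/
def TargetDet : Prop :=
  ∀ (n : ℕ), 3 ≤ n → htProb n (fun _ => True) = 1 ∧
    ∀ B : Finset (Finset (Fin n)), (∀ t ∈ B, t.card = 3) →
      htProb n (fun S => B ⊆ S) ≤ (3 / (n : ℝ)) ^ B.card

/-- Job 4 target: union bounds. `p n` is a probability on sets of triangles. -/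
def TargetUnion : Prop :=
  ∀ (Ms d0 : ℕ) (η : ℝ), 0 < η → η ≤ 1 → 8 ≤ η * d0 → ∃ κ ζ : ℝ, 0 < κ ∧ κ ≤ 1 ∧ 0 < ζ ∧ ζ ≤ 1 ∧
    ∀ (p : (n : ℕ) → Finset (Finset (Fin n)) → ℝ) (v0 : (n : ℕ) → Fin (n + 1)),
      (∀ n S, 0 ≤ p n S) → (∀ n S, (∃ t ∈ S, t.card ≠ 3) → p n S = 0) →
      (∀ n, 3 ≤ n → ∑ S, p n S = 1) →
      (∀ n, 3 ≤ n → ∀ B : Finset (Finset (Fin n)), (∀ t ∈ B, t.card = 3) →
        ∑ S ∈ univ.filter (fun S => B ⊆ S), p n S ≤ (3 / (n : ℝ)) ^ B.card) →
      Filter.Tendsto (fun n : ℕ => ∑ S ∈ (open Classical in univ.filter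
        (fun S => ¬ Good (n + 1) (v0 n) S Ms d0 η κ ζ)), p (n + 1) S) Filter.atTop (nhds 0)

/-- Job 5 target: topology. If `π_1` is generated by a finite set then the edge-path group is
generated by as many elements. -/
def TargetTop : Prop :=
  ∀ (n : ℕ) (S : Finset (Finset (Fin n))) (v0 : Fin n), (∀ t ∈ S, t.card = 3) →
    ∀ (x : geom n S) (s : Finset (FundamentalGroup (geom n S) x)),
      Subgroup.closure (s : Set (FundamentalGroup (geom n S) x)) = ⊤ → TGen n S v0 s.card

/-- The final statement. -/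
def TargetFinal : Prop :=
  ∃ ε : ℝ, 0 < ε ∧ Filter.Tendsto (fun n : ℕ => htProb n (fun S =>
    ∀ x : geom n S, mgGt (FundamentalGroup (geom n S) x) (ε * (n : ℝ) ^ 2)))
    Filter.atTop (nhds 1)

end Pool.Agent.HTRank
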