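import Pool.Agent.HTRank.Defs

/-!
Determinantal measure, part 1: Cauchy-Binet in the form of a sum over column sets, and the
arithmetic-geometric mean bound for determinants.
-/

set_option autoImplicit false

open Finset Matrix

namespace Pool.Agent.HTRank.Det

section CauchyBinet

variable {m ν R : Type*} [Fintype m] [DecidableEq m] [Fintype ν] [DecidableEq ν] [CommRing R]

/-- Expansion of `det (A Z Aᵀ)` over functions from rows to columns. -/
theorem det_expand (A : Matrix m ν R) (z : ν → R) :
    (A * Matrix.diagonal z * Aᵀ).det =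
      ∑ r : m → ν, (∏ i, z (r i)) * ((∏ i, A i (r i)) * (Aᵀ.submatrix r id).det) := by
  have h1 : (A * Matrix.diagonal z * Aᵀ) = fun i => ∑ t, (A i t * z t) • (Aᵀ t) := by
    funext i j
    rw [Matrix.mul_apply]
    simp only [Matrix.mul_diagonal, Matrix.transpose_apply,
      Finset.sum_apply, Pi.smul_apply, smul_eq_mul]
  have h2 : (A * Matrix.diagonal z * Aᵀ).det = Matrix.detRowAlternating.toMultilinearMap
      (fun i => ∑ t, (A i t * z t) • (Aᵀ t)) := by
    rw [h1]; rfl
  rw [h2, MultilinearMap.map_sum]
  refine Finset.sum_congr rfl fun r _ => ?_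
  rw [MultilinearMap.map_smul_univ]
  have h3 : (Matrix.detRowAlternating.toMultilinearMap (fun i => Aᵀ (r i)) : R) =
      (Aᵀ.submatrix r id).det := rfl
  rw [h3, Finset.prod_mul_distrib, smul_eq_mul]
  ring

/-- The determinant of the columns with repeated choice vanishes. -/
theorem det_submatrix_noninj (A : Matrix m ν R) (r : m → ν) (h : ¬ Function.Injective r) :
    (Aᵀ.submatrix r id).det = 0 := by
  simp only [Function.Injective, not_forall] at h
  obtain ⟨i, j, hij, hne⟩ := h
  refine Matrix.det_zero_of_row_eq hne ?_
  funext k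
  simp [Matrix.submatrix_apply, hij]

/-- Cauchy-Binet, with the square of the minor written as `det (A 1_S Aᵀ)`. -/
theorem cauchy_binet (A : Matrix m ν R) (z : ν → R) :
    (A * Matrix.diagonal z * Aᵀ).det =
      ∑ S ∈ (univ : Finset (Finset ν)).filter (fun S => S.card = Fintype.card m),
        (∏ t ∈ S, z t) * (A * Matrix.diagonal (fun t => if t ∈ S then (1 : R) else 0) * Aᵀ).det := by
  set a : (m → ν) → R := fun r => (∏ i, A i (r i)) * (Aᵀ.submatrix r id).det with ha
  have ha0 : ∀ r : m → ν, ¬ Function.Injective r → a r = 0 := by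
    intro r hr
    simp [ha, det_submatrix_noninj A r hr]
  have key : ∀ S ∈ (univ : Finset (Finset ν)).filter (fun S => S.card = Fintype.card m),
      (A * Matrix.diagonal (fun t => if t ∈ S then (1 : R) else 0) * Aᵀ).det =
      ∑ r ∈ (univ : Finset (m → ν)).filter (fun r => univ.image r = S), a r := by
    intro S hS
    simp only [mem_filter, mem_univ, true_and] at hS
    rw [det_expand, Finset.sum_filter]
    refine Finset.sum_congr rfl fun r _ => ?_
    by_cases hr : Function.Injective r
    · by_cases hi : univ.image r = S
      · rw [if_pos hi]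
        have : ∀ i, (if r i ∈ S then (1 : R) else 0) = 1 := by
          intro i
          rw [if_pos]
          rw [← hi]; exact mem_image_of_mem _ (mem_univ i)
        simp only [this, Finset.prod_const_one, one_mul]
        rfl
      · rw [if_neg hi]
        have : ∃ i, r i ∉ S := by
          by_contra hcon
          push Not at hcon
          apply hi
          refine Finset.eq_of_subset_of_card_le ?_ ?_
          · intro t ht
            rw [mem_image] at ht
            obtain ⟨i, -, rfl⟩ := ht
            exact hcon i
          · rw [Finset.card_image_of_injective _ hr, Finset.card_univ, hS]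
        obtain ⟨i, hi'⟩ := this
        rw [Finset.prod_eq_zero (mem_univ i) (by rw [if_neg hi']), zero_mul]
    · rw [show (∏ i, A i (r i)) * (Aᵀ.submatrix r id).det = a r from rfl, ha0 r hr, mul_zero]
      simp
  rw [det_expand]
  have h4 : ∑ S ∈ (univ : Finset (Finset ν)).filter (fun S => S.card = Fintype.card m),
        (∏ t ∈ S, z t) * (A * Matrix.diagonal (fun t => if t ∈ S then (1 : R) else 0) * Aᵀ).det
      = ∑ S ∈ (univ : Finset (Finset ν)).filter (fun S => S.card = Fintype.card m),
        ∑ r ∈ (univ : Finset (m → ν)).filter (fun r => univ.image r = S),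
          (∏ i, z (r i)) * a r := by
    refine Finset.sum_congr rfl fun S hS => ?_
    rw [key S hS, Finset.mul_sum]
    refine Finset.sum_congr rfl fun r hr => ?_
    simp only [mem_filter, mem_univ, true_and] at hr
    by_cases hrinj : Function.Injective r
    · rw [← hr, Finset.prod_image (fun x _ y _ h => hrinj h)]
    · rw [ha0 r hrinj, mul_zero, mul_zero]
  rw [h4]
  have h5 : ∀ r : m → ν, Function.Injective r →
      univ.image r ∈ (univ : Finset (Finset ν)).filter (fun S => S.card = Fintype.card m) := by
    intro r hr
    simp only [mem_filter, mem_univ, true_and]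
    rw [Finset.card_image_of_injective _ hr, Finset.card_univ]
  rw [← Finset.sum_filter_add_sum_filter_not (univ : Finset (m → ν))
    (fun r => Function.Injective r)]
  have h6 : ∑ r ∈ (univ : Finset (m → ν)).filter (fun r => ¬ Function.Injective r),
      (∏ i, z (r i)) * ((∏ i, A i (r i)) * (Aᵀ.submatrix r id).det) = 0 := by
    refine Finset.sum_eq_zero fun r hr => ?_
    simp only [mem_filter, mem_univ, true_and] at hr
    rw [show (∏ i, A i (r i)) * (Aᵀ.submatrix r id).det = a r from rfl, ha0 r hr, mul_zero]
  rw [h6, add_zero]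
  have h7 : ∀ S ∈ (univ : Finset (Finset ν)).filter (fun S => S.card = Fintype.card m),
      ∑ r ∈ (univ : Finset (m → ν)).filter (fun r => univ.image r = S), (∏ i, z (r i)) * a r
      = ∑ r ∈ ((univ : Finset (m → ν)).filter (fun r => Function.Injective r)).filter
          (fun r => univ.image r = S), (∏ i, z (r i)) * a r := by
    intro S _
    symm
    refine Finset.sum_subset ?_ ?_
    · intro r hr
      simp only [mem_filter, mem_univ, true_and] at hr ⊢
      exact hr.2
    · intro r hr hr'
      simp only [mem_filter, mem_univ, true_and] at hr hr'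
      have : ¬ Function.Injective r := fun h => hr' ⟨h, hr⟩
      rw [ha0 r this, mul_zero]
  rw [Finset.sum_congr rfl h7]
  rw [Finset.sum_fiberwise_of_maps_to (g := fun r : m → ν => univ.image r)]
  intro r hr
  simp only [mem_filter, mem_univ, true_and] at hr
  exact h5 r hr

end CauchyBinet

/-- Arithmetic-geometric mean bound for the determinant of a positive semidefinite matrix. -/
theorem det_le_trace_pow {κ : Type*} [Fintype κ] [DecidableEq κ] (M : Matrix κ κ ℝ)
    (hM : M.PosSemidef) (c : ℝ) (hc : M.trace = c * Fintype.card κ) :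
    M.det ≤ c ^ Fintype.card κ := by
  classical
  rcases isEmpty_or_nonempty κ with hκ | hκ
  · simp
  have hH := hM.isHermitian
  have hev : ∀ i, 0 ≤ hH.eigenvalues i := hM.eigenvalues_nonneg
  have hcard : (0 : ℝ) < Fintype.card κ := by exact_mod_cast Fintype.card_pos
  have hdet : M.det = ∏ i, hH.eigenvalues i := by
    rw [hH.det_eq_prod_eigenvalues]; simp
  have htr : M.trace = ∑ i, hH.eigenvalues i := by
    rw [hH.trace_eq_sum_eigenvalues]; simp
  have amgm := Real.geom_mean_le_arith_mean_weighted (univ : Finset κ)
    (fun _ => (1 : ℝ) / Fintype.card κ) (fun i => hH.eigenvalues i)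
    (fun i _ => by positivity) (by simp) (fun i _ => hev i)
  have h1 : ∑ i, (1 : ℝ) / Fintype.card κ * hH.eigenvalues i = c := by
    rw [← Finset.mul_sum, ← htr, hc]; field_simp
  rw [h1] at amgm
  have h2 : (∏ i, hH.eigenvalues i ^ ((1 : ℝ) / Fintype.card κ)) ^ Fintype.card κ
      = ∏ i, hH.eigenvalues i := by
    rw [← Finset.prod_pow]
    refine Finset.prod_congr rfl fun i _ => ?_
    rw [← Real.rpow_natCast, ← Real.rpow_mul (hev i)]
    rw [one_div, inv_mul_cancel₀ hcard.ne', Real.rpow_one]
  rw [hdet, ← h2]
  refine pow_le_pow_left₀ ?_ amgm _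
  exact Finset.prod_nonneg fun i _ => Real.rpow_nonneg (hev i) _

end Pool.Agent.HTRank.Det
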