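import Pool.Agent.HTRank.Det1

/-!
Determinantal measure, part 2: the reduced boundary matrix and its Laplacian.
-/

set_option autoImplicit false

open Finset Matrix

namespace Pool.Agent.HTRank.Det

/-- boundary of an ordered triple -/
def tri (n : ℕ) (i j k : Fin n) : Fin n → Fin n → ℤ :=
  eChain n i j + eChain n j k + eChain n k i

theorem eChain_swap (n : ℕ) (i j : Fin n) : eChain n j i = - eChain n i j := by
  funext a b
  simp only [eChain, Pi.neg_apply]
  ring

theorem eChain_self (n : ℕ) (i : Fin n) : eChain n i i = 0 := by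
  funext a b
  simp only [eChain, Pi.zero_apply]
  ring

theorem eChain_anti (n : ℕ) (i j a b : Fin n) : eChain n i j b a = - eChain n i j a b := by
  simp only [eChain, and_comm (a := b = i), and_comm (a := b = j)]
  ring

theorem tri_rot (n : ℕ) (i j k : Fin n) : tri n j k i = tri n i j k := by
  simp only [tri]; abel

theorem tri_swap (n : ℕ) (i j k : Fin n) : tri n j i k = - tri n i j k := by
  simp only [tri]
  rw [eChain_swap n i j, eChain_swap n k i, eChain_swap n j k]
  abel

theorem tri_anti (n : ℕ) (i j k a b : Fin n) : tri n i j k b a = - tri n i j k a b := by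
  simp only [tri, Pi.add_apply, eChain_anti n _ _ a b]
  ring

/-- boundary of a set: zero unless the set has three elements -/
noncomputable def bd (n : ℕ) (t : Finset (Fin n)) : Fin n → Fin n → ℤ := by
  classical
  exact if h : t.card = 3 then
    tri n (Finset.card_eq_three.1 h).choose (Finset.card_eq_three.1 h).choose_spec.choose
      (Finset.card_eq_three.1 h).choose_spec.choose_spec.choose
  else 0

theorem bd_of_ne (n : ℕ) (t : Finset (Fin n)) (h : t.card ≠ 3) : bd n t = 0 := by
  unfold bd
  rw [dif_neg h]

theorem bd_exists (n : ℕ) (t : Finset (Fin n)) (h : t.card = 3) :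
    ∃ x y z : Fin n, x ≠ y ∧ x ≠ z ∧ y ≠ z ∧ t = {x, y, z} ∧ bd n t = tri n x y z := by
  have := (Finset.card_eq_three.1 h).choose_spec.choose_spec.choose_spec
  refine ⟨_, _, _, this.1, this.2.1, this.2.2.1, this.2.2.2, ?_⟩
  unfold bd
  rw [dif_pos h]

theorem bd_eq (n : ℕ) (i j k : Fin n) (hij : i ≠ j) (hik : i ≠ k) (hjk : j ≠ k) :
    bd n {i, j, k} = tri n i j k ∨ bd n {i, j, k} = - tri n i j k := by
  have hc : ({i, j, k} : Finset (Fin n)).card = 3 := Finset.card_eq_three.2 ⟨i, j, k, hij, hik, hjk, rfl⟩
  obtain ⟨x, y, z, hxy, hxz, hyz, ht, hb⟩ := bd_exists n _ hc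
  rw [hb]
  have hi : i ∈ ({x, y, z} : Finset (Fin n)) := by rw [← ht]; simp
  have hj : j ∈ ({x, y, z} : Finset (Fin n)) := by rw [← ht]; simp
  have hk : k ∈ ({x, y, z} : Finset (Fin n)) := by rw [← ht]; simp
  simp only [mem_insert, mem_singleton] at hi hj hk
  rcases hi with rfl | rfl | rfl <;> rcases hj with rfl | rfl | rfl <;>
    rcases hk with rfl | rfl | rfl <;> first
    | exact absurd rfl hij
    | exact absurd rfl hik
    | exact absurd rfl hjk
    | skip
  · left; rfl
  · right; rw [← tri_swap, ← tri_rot n i k j, tri_rot n k j i]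
  · right; rw [← tri_swap]
  · left; rw [tri_rot n j k i, tri_rot n i j k]
  · left; rw [tri_rot]
  · right; rw [← tri_swap, ← tri_rot]

theorem bd_mul_bd (n : ℕ) (i j k a b c d : Fin n) (hij : i ≠ j) (hik : i ≠ k) (hjk : j ≠ k) :
    bd n {i, j, k} a b * bd n {i, j, k} c d = tri n i j k a b * tri n i j k c d := by
  rcases bd_eq n i j k hij hik hjk with h | h
  · rw [h]
  · rw [h]; simp only [Pi.neg_apply]; ring

theorem bd_apply_not_mem (n : ℕ) (t : Finset (Fin n)) (a b : Fin n) (h : a ∉ t ∨ b ∉ t) :
    bd n t a b = 0 := by
  by_cases hc : t.card = 3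
  · obtain ⟨x, y, z, hxy, hxz, hyz, ht, hb⟩ := bd_exists n _ hc
    rw [hb]
    subst ht
    simp only [mem_insert, mem_singleton, not_or] at h
    simp only [tri, eChain, Pi.add_apply]
    rcases h with ⟨h1, h2, h3⟩ | ⟨h1, h2, h3⟩ <;> simp [h1, h2, h3]
  · rw [bd_of_ne n t hc]; rfl

theorem bd_anti (n : ℕ) (t : Finset (Fin n)) (a b : Fin n) : bd n t b a = - bd n t a b := by
  by_cases hc : t.card = 3
  · obtain ⟨x, y, z, hxy, hxz, hyz, ht, hb⟩ := bd_exists n _ hc
    rw [hb, tri_anti]
  · rw [bd_of_ne n t hc]; simp

theorem tri_ij (n : ℕ) (i j v : Fin n) (hij : i ≠ j) (hiv : v ≠ i) (hjv : v ≠ j) :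
    tri n i j v i j = 1 := by
  simp only [tri, eChain, Pi.add_apply]
  simp [hij, hij.symm, hiv.symm, hjv.symm]

/-- sum over sets of the products of boundary coefficients -/
theorem sum_bd (n : ℕ) (i j k l : Fin n) (hij : i ≠ j) :
    ∑ t : Finset (Fin n), bd n t i j * bd n t k l =
      n * eChain n i j k l + ((if k = j then 1 else 0) - (if l = j then 1 else 0)) +
        ((if l = i then 1 else 0) - (if k = i then 1 else 0)) := by
  classical
  have h1 : ∑ t : Finset (Fin n), bd n t i j * bd n t k l =
      ∑ v ∈ univ.filter (fun v : Fin n => v ≠ i ∧ v ≠ j), tri n i j v k l := by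
    have h2 : ∑ v ∈ univ.filter (fun v : Fin n => v ≠ i ∧ v ≠ j), tri n i j v k l
        = ∑ v ∈ univ.filter (fun v : Fin n => v ≠ i ∧ v ≠ j),
          (fun t : Finset (Fin n) => bd n t i j * bd n t k l) {i, j, v} := by
      refine Finset.sum_congr rfl fun v hv => ?_
      simp only [mem_filter, mem_univ, true_and] at hv
      simp only
      rw [bd_mul_bd n i j v i j k l hij hv.1.symm hv.2.symm, tri_ij n i j v hij hv.1 hv.2, one_mul]
    have hinj : ∀ v ∈ univ.filter (fun v : Fin n => v ≠ i ∧ v ≠ j),
        ∀ w ∈ univ.filter (fun v : Fin n => v ≠ i ∧ v ≠ j),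
        ({i, j, v} : Finset (Fin n)) = {i, j, w} → v = w := by
      intro v hv w hw h
      simp only [mem_filter, mem_univ, true_and] at hv hw
      have : v ∈ ({i, j, w} : Finset (Fin n)) := by rw [← h]; simp
      simp only [mem_insert, mem_singleton] at this
      rcases this with h | h | h
      · exact absurd h hv.1
      · exact absurd h hv.2
      · exact h
    rw [h2, ← Finset.sum_image (g := fun v : Fin n => ({i, j, v} : Finset (Fin n)))
      (f := fun t : Finset (Fin n) => bd n t i j * bd n t k l) hinj]
    symm
    refine Finset.sum_subset (Finset.subset_univ _) ?_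
    intro t _ ht
    by_cases hc : t.card = 3
    · by_cases hi : i ∈ t
      · by_cases hj : j ∈ t
        · exfalso
          apply ht
          have h3 : ((t.erase i).erase j).card = 1 := by
            rw [card_erase_of_mem (mem_erase.2 ⟨hij.symm, hj⟩), card_erase_of_mem hi, hc]
          obtain ⟨v, hv⟩ := Finset.card_eq_one.1 h3
          have hv' : v ∈ (t.erase i).erase j := by rw [hv]; simp
          simp only [mem_erase] at hv'
          rw [mem_image]
          refine ⟨v, by simp [hv'.1, hv'.2.1], ?_⟩
          ext x
          simp only [mem_insert, mem_singleton]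
          constructor
          · rintro (rfl | rfl | rfl)
            · exact hi
            · exact hj
            · exact hv'.2.2
          · intro hx
            by_cases hxi : x = i
            · left; exact hxi
            · by_cases hxj : x = j
              · right; left; exact hxj
              · right; right
                have : x ∈ (t.erase i).erase j := by simp [hxi, hxj, hx]
                rw [hv] at this
                simpa using this
        · rw [bd_apply_not_mem n t i j (Or.inr hj), zero_mul]
      · rw [bd_apply_not_mem n t i j (Or.inl hi), zero_mul]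
    · rw [bd_of_ne n t hc]; simp
  rw [h1]
  have h4 : ∑ v ∈ univ.filter (fun v : Fin n => v ≠ i ∧ v ≠ j), tri n i j v k l
      = ∑ v : Fin n, tri n i j v k l := by
    refine Finset.sum_subset (Finset.subset_univ _) ?_
    intro v _ hv
    simp only [mem_filter, mem_univ, true_and, not_and_or, not_not] at hv
    rcases hv with rfl | rfl
    · simp only [tri, Pi.add_apply, eChain_self]
      rw [eChain_swap n v j]; simp
    · simp only [tri, Pi.add_apply, eChain_self]
      rw [eChain_swap n i v]; simp
  rw [h4]
  simp only [tri, Pi.add_apply, Finset.sum_add_distrib]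
  have h5 : ∑ v : Fin n, eChain n j v k l = (if k = j then 1 else 0) - (if l = j then 1 else 0) := by
    simp only [eChain, Finset.sum_sub_distrib]
    congr 1
    · by_cases hk : k = j <;> simp [hk]
    · by_cases hl : l = j <;> simp [hl]
  have h6 : ∑ v : Fin n, eChain n v i k l = (if l = i then 1 else 0) - (if k = i then 1 else 0) := by
    simp only [eChain, Finset.sum_sub_distrib]
    congr 1
    · by_cases hk : l = i <;> simp [hk]
    · by_cases hl : k = i <;> simp [hl]
  rw [h5, h6]
  simp

end Pool.Agent.HTRank.Det
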