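import Pool.Agent.HTRank.Det2

/-!
Determinantal measure, part 3: the reduced Laplacian.
-/

set_option autoImplicit false

open Finset Matrix

namespace Pool.Agent.HTRank.Det

/-- edges of the complete graph on `Fin m` -/
abbrev E (m : ℕ) : Type := {p : Fin m × Fin m // p.1 < p.2}

theorem sum_edges {R : Type*} [CommRing R] (m : ℕ) (g : Fin m → Fin m → R)
    (hs : ∀ i j, g j i = g i j) (h0 : ∀ i, g i i = 0) :
    2 * ∑ e : E m, g e.1.1 e.1.2 = ∑ i, ∑ j, g i j := by
  have h1 : ∑ e : E m, g e.1.1 e.1.2 = ∑ p : Fin m × Fin m, if p.1 < p.2 then g p.1 p.2 else 0 := by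
    rw [← Finset.sum_filter]
    symm
    exact Finset.sum_subtype (univ.filter (fun p : Fin m × Fin m => p.1 < p.2))
      (p := fun p : Fin m × Fin m => p.1 < p.2) (fun x => by simp) (fun p => g p.1 p.2)
  have h2 : ∑ e : E m, g e.1.1 e.1.2 = ∑ p : Fin m × Fin m, if p.2 < p.1 then g p.1 p.2 else 0 := by
    rw [h1]
    refine Fintype.sum_equiv (Equiv.prodComm (Fin m) (Fin m)) _ _ ?_
    intro p
    simp only [Equiv.prodComm_apply, Prod.fst_swap, Prod.snd_swap, hs]
  rw [two_mul]
  nth_rewrite 1 [h1]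
  rw [h2, ← Finset.sum_add_distrib, ← Fintype.sum_prod_type' (f := fun i j => g i j)]
  refine Finset.sum_congr rfl fun p _ => ?_
  rcases lt_trichotomy p.1 p.2 with h | h | h
  · rw [if_pos h, if_neg (not_lt.2 h.le), add_zero]
  · rw [if_neg (by rw [h]; exact lt_irrefl _), if_neg (by rw [h]; exact lt_irrefl _), add_zero,
      h, h0]
  · rw [if_pos h, if_neg (not_lt.2 h.le), zero_add]

theorem card_E (m : ℕ) : Fintype.card (E m) = m.choose 2 := by
  have h := sum_edges m (fun i j => if i = j then (0 : ℤ) else 1)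
    (fun i j => by simp only [eq_comm]) (fun i => by simp)
  have h1 : ∑ e : E m, (fun i j : Fin m => if i = j then (0 : ℤ) else 1) e.1.1 e.1.2
      = Fintype.card (E m) := by
    rw [← Finset.card_univ, Finset.card_eq_sum_ones]
    push_cast
    refine Finset.sum_congr rfl fun e _ => ?_
    rw [if_neg (ne_of_lt e.2)]
  rw [h1] at h
  have h2 : ∑ i : Fin m, ∑ j : Fin m, (if i = j then (0 : ℤ) else 1) = m * m - m := by
    have : ∀ i : Fin m, ∑ j : Fin m, (if i = j then (0 : ℤ) else 1) = m - 1 := by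
      intro i
      have h3 : ∀ j : Fin m, (if i = j then (0 : ℤ) else 1) = 1 - (if i = j then 1 else 0) := by
        intro j; split_ifs <;> simp
      simp only [h3, Finset.sum_sub_distrib]
      simp
    simp only [this, Finset.sum_const, Finset.card_univ, Fintype.card_fin, nsmul_eq_mul]
    ring
  rw [h2] at h
  have h3 : (m.choose 2 : ℤ) * 2 = m * (m - 1) := by
    rw [Nat.choose_two_right]
    have h4 : (m * (m - 1)) / 2 * 2 = m * (m - 1) :=
      Nat.div_mul_cancel (Nat.even_mul_pred_self m).two_dvd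
    rcases Nat.eq_zero_or_pos m with rfl | hm
    · simp
    · have h5 : ((((m * (m - 1)) / 2 : ℕ) * 2 : ℕ) : ℤ) = ((m * (m - 1) : ℕ) : ℤ) := by rw [h4]
      rw [Nat.cast_mul] at h5
      rw [show ((2 : ℕ) : ℤ) = 2 from rfl] at h5
      rw [h5, Nat.cast_mul, Nat.cast_sub hm]
      simp
  have h6 : (Fintype.card (E m) : ℤ) = m.choose 2 := by linarith
  exact_mod_cast h6

/-- the reduced boundary matrix -/
noncomputable def D (m : ℕ) : Matrix (E m) (Finset (Fin (m + 1))) ℝ :=
  fun p t => (bd (m + 1) t p.1.1.succ p.1.2.succ : ℝ)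

/-- the incidence matrix of the complete graph -/
def Bm (m : ℕ) : Matrix (Fin m) (E m) ℝ :=
  fun v e => (if v = e.1.1 then 1 else 0) - (if v = e.1.2 then 1 else 0)

theorem lap (m : ℕ) : D m * (D m)ᵀ = ((m : ℝ) + 1) • (1 : Matrix (E m) (E m) ℝ) - (Bm m)ᵀ * Bm m := by
  classical
  ext e f
  rw [Matrix.mul_apply, Matrix.sub_apply, Matrix.smul_apply, Matrix.mul_apply, Matrix.one_apply]
  simp only [Matrix.transpose_apply, D, Bm]
  obtain ⟨⟨i, j⟩, hij⟩ := e
  obtain ⟨⟨k, l⟩, hkl⟩ := f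
  simp only at hij hkl ⊢
  have hne : i.succ ≠ j.succ := fun h => (ne_of_lt hij) (Fin.succ_injective _ h)
  have h := sum_bd (m + 1) i.succ j.succ k.succ l.succ hne
  have h' := congrArg (fun x : ℤ => (x : ℝ)) h
  push_cast at h'
  rw [h']
  have h2 : (eChain (m + 1) i.succ j.succ k.succ l.succ : ℝ) =
      if (⟨(i, j), hij⟩ : E m) = ⟨(k, l), hkl⟩ then 1 else 0 := by
    simp only [eChain, Fin.succ_inj, Subtype.mk.injEq, Prod.mk.injEq]
    have h3 : ¬ (k = j ∧ l = i) := by
      rintro ⟨rfl, rfl⟩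
      exact absurd hij (not_lt.2 hkl.le)
    rw [if_neg h3]
    by_cases h4 : k = i ∧ l = j
    · rw [if_pos h4, if_pos ⟨h4.1.symm, h4.2.symm⟩]; simp
    · rw [if_neg h4, if_neg (fun h => h4 ⟨h.1.symm, h.2.symm⟩)]; simp
  rw [h2]
  simp only [Fin.succ_inj]
  have h5 : ∑ x : Fin m, ((if x = i then (1 : ℝ) else 0) - if x = j then 1 else 0) *
      ((if x = k then 1 else 0) - if x = l then 1 else 0) =
      (if k = i then 1 else 0) - (if l = i then 1 else 0) - (if k = j then 1 else 0) +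
        (if l = j then 1 else 0) := by
    simp only [sub_mul, Finset.sum_sub_distrib, ite_mul, one_mul, zero_mul,
      Finset.sum_ite_eq', mem_univ, if_true]
    simp only [eq_comm (a := i), eq_comm (a := j)]
    ring
  rw [h5]
  simp only [smul_eq_mul]
  ring

theorem bbt (m : ℕ) : Bm m * (Bm m)ᵀ = (m : ℝ) • (1 : Matrix (Fin m) (Fin m) ℝ) -
    Matrix.of (fun _ _ => (1 : ℝ)) := by
  ext u v
  rw [Matrix.mul_apply, Matrix.sub_apply, Matrix.smul_apply, Matrix.one_apply, Matrix.of_apply]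
  simp only [Matrix.transpose_apply, Bm]
  have h := sum_edges m (fun i j => ((if u = i then (1 : ℝ) else 0) - (if u = j then 1 else 0)) *
    ((if v = i then 1 else 0) - (if v = j then 1 else 0)))
    (fun i j => by ring) (fun i => by simp)
  have h2 : ∑ i : Fin m, ∑ j : Fin m, ((if u = i then (1 : ℝ) else 0) - (if u = j then 1 else 0)) *
    ((if v = i then 1 else 0) - (if v = j then 1 else 0)) =
      2 * (m * (if u = v then 1 else 0) - 1) := by
    have h3 : ∀ i : Fin m, ∑ j : Fin m, ((if u = i then (1 : ℝ) else 0) - (if u = j then 1 else 0)) *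
      ((if v = i then 1 else 0) - (if v = j then 1 else 0)) =
      m * ((if u = i then (1 : ℝ) else 0) * (if v = i then 1 else 0)) -
        (if u = i then (1 : ℝ) else 0) - (if v = i then 1 else 0) + (if u = v then 1 else 0) := by
      intro i
      simp only [sub_mul, mul_sub, Finset.sum_sub_distrib]
      rw [← Finset.mul_sum, ← Finset.sum_mul]
      simp only [Finset.sum_ite_eq, mem_univ, if_true, Finset.sum_const, Finset.card_univ,
        Fintype.card_fin, nsmul_eq_mul, mul_ite, mul_one, mul_zero]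
      split_ifs <;> ring
    simp only [h3, Finset.sum_add_distrib, Finset.sum_sub_distrib, ← Finset.mul_sum]
    simp only [Finset.sum_ite_eq, mem_univ, if_true, Finset.sum_const, Finset.card_univ,
        Fintype.card_fin, nsmul_eq_mul, mul_ite, mul_one, mul_zero]
    ring
  rw [h2] at h
  simp only [smul_eq_mul]
  linarith

theorem jb (m : ℕ) : Matrix.of (fun (_ : Fin m) (_ : Fin m) => (1 : ℝ)) * Bm m = 0 := by
  ext u e
  rw [Matrix.mul_apply]
  simp only [Matrix.of_apply, Bm, one_mul, Finset.sum_sub_distrib, Finset.sum_ite_eq', mem_univ,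
    if_true, Matrix.zero_apply, sub_self]

theorem lap_inv (m : ℕ) : (D m * (D m)ᵀ) * (1 + (Bm m)ᵀ * Bm m) = ((m : ℝ) + 1) • 1 := by
  have h1 : (Bm m)ᵀ * Bm m * ((Bm m)ᵀ * Bm m) = (m : ℝ) • ((Bm m)ᵀ * Bm m) := by
    rw [Matrix.mul_assoc, ← Matrix.mul_assoc (Bm m), bbt, Matrix.sub_mul, jb, sub_zero,
      Matrix.smul_mul, Matrix.one_mul, Matrix.mul_smul]
  rw [lap, Matrix.sub_mul, Matrix.mul_add, Matrix.mul_add, h1, Matrix.mul_one, Matrix.mul_one,
    Matrix.smul_mul, Matrix.one_mul]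
  module

theorem det_one_add (m : ℕ) (hm : 1 ≤ m) :
    (1 + (Bm m)ᵀ * Bm m).det = ((m : ℝ) + 1) ^ (m - 1) := by
  have hne : ((m : ℝ) + 1) ≠ 0 := by positivity
  rw [Matrix.det_one_add_mul_comm, bbt]
  have h1 : (1 : Matrix (Fin m) (Fin m) ℝ) + ((m : ℝ) • (1 : Matrix (Fin m) (Fin m) ℝ) -
      Matrix.of (fun _ _ => (1 : ℝ))) = ((m : ℝ) + 1) • (1 +
        (Matrix.replicateCol Unit (fun _ : Fin m => -(1 / ((m : ℝ) + 1)))) *
          (Matrix.replicateRow Unit (fun _ : Fin m => (1 : ℝ)))) := by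
    ext i j
    simp only [Matrix.add_apply, Matrix.sub_apply, Matrix.smul_apply, Matrix.of_apply,
      Matrix.mul_apply, Matrix.replicateCol_apply, Matrix.replicateRow_apply, smul_eq_mul,
      Finset.univ_unique, Finset.sum_singleton]
    field_simp
    ring
  rw [h1, Matrix.det_smul, Matrix.det_one_add_replicateCol_mul_replicateRow]
  simp only [Fintype.card_fin]
  have h2 : (fun _ : Fin m => (1 : ℝ)) ⬝ᵥ (fun _ : Fin m => -(1 / ((m : ℝ) + 1))) =
      - (m / ((m : ℝ) + 1)) := by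
    simp [dotProduct]
    ring
  rw [h2]
  obtain ⟨k, rfl⟩ : ∃ k, m = k + 1 := ⟨m - 1, by omega⟩
  simp only [Nat.add_sub_cancel]
  rw [pow_succ]
  push_cast
  push_cast at hne
  field_simp
  ring

theorem det_lap (m : ℕ) (hm : 1 ≤ m) :
    (D m * (D m)ᵀ).det = ((m : ℝ) + 1) ^ ((m - 1).choose 2) := by
  have hne : ((m : ℝ) + 1) ≠ 0 := by positivity
  have h := congrArg Matrix.det (lap_inv m)
  rw [Matrix.det_mul, det_one_add m hm, Matrix.det_smul, Matrix.det_one, mul_one, card_E] at h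
  have h2 : m.choose 2 = (m - 1).choose 2 + (m - 1) := by
    obtain ⟨k, rfl⟩ : ∃ k, m = k + 1 := ⟨m - 1, by omega⟩
    simp only [Nat.add_sub_cancel]
    rw [Nat.choose_succ_succ' k 1, Nat.choose_one_right]
    ring
  rw [h2, pow_add] at h
  exact mul_right_cancel₀ (pow_ne_zero _ hne) h

end Pool.Agent.HTRank.Det
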