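import Pool.Agent.HTRank.Det3

/-!
Determinantal measure, part 4: the order of the first homology group is a minor.
-/

set_option autoImplicit false

open Finset Matrix

namespace Pool.Agent.HTRank.Det

/-- the cokernel of a square integer matrix -/
theorem card_coker {ι : Type} [Fintype ι] [DecidableEq ι] (A : Matrix ι ι ℤ) :
    Nat.card ((ι → ℤ) ⧸ LinearMap.range A.mulVecLin) = A.det.natAbs := by
  by_cases h : A.det = 0
  · rw [h, Int.natAbs_zero, Nat.card_eq_zero]
    right
    by_contra hfin
    rw [not_infinite_iff_finite] at hfin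
    set Q := (ι → ℤ) ⧸ LinearMap.range A.mulVecLin with hQ
    have hk : 0 < Nat.card Q := Nat.card_pos
    have h1 : ∀ x : ι → ℤ, (Nat.card Q) • x ∈ LinearMap.range A.mulVecLin := by
      intro x
      rw [← Submodule.Quotient.mk_eq_zero, Submodule.Quotient.mk_smul]
      exact card_nsmul_eq_zero'
    have h2 : ∀ j : ι, ∃ v : ι → ℤ, A.mulVec v = (Nat.card Q) • (Pi.single j (1 : ℤ)) := by
      intro j
      obtain ⟨v, hv⟩ := h1 (Pi.single j 1)
      exact ⟨v, by rw [← hv]; rfl⟩
    choose v hv using h2
    have h3 : A * (Matrix.of fun i j => v j i) = (Nat.card Q : ℤ) • (1 : Matrix ι ι ℤ) := by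
      ext i j
      have := congrFun (hv j) i
      rw [Matrix.mul_apply, Matrix.smul_apply, Matrix.one_apply]
      simp only [Matrix.of_apply]
      simp only [Matrix.mulVec, dotProduct, Pi.smul_apply, Pi.single_apply] at this
      rw [this]
      simp
    have h4 := congrArg Matrix.det h3
    rw [Matrix.det_mul, h, zero_mul, Matrix.det_smul, Matrix.det_one, mul_one] at h4
    have : (Nat.card Q : ℤ) ^ Fintype.card ι ≠ 0 := by positivity
    exact this h4.symm
  · have hinj : Function.Injective A.mulVecLin := by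
      rw [← LinearMap.ker_eq_bot, LinearMap.ker_eq_bot']
      intro x hx
      exact Matrix.eq_zero_of_mulVec_eq_zero h hx
    have := Submodule.natAbs_det_equiv (LinearMap.range A.mulVecLin)
      (LinearEquiv.ofInjective A.mulVecLin hinj)
    rw [← this]
    congr 1
    rw [← LinearMap.det_toLin' A]
    rfl

/-- restriction of a cycle to the nonroot edges -/
def resHom (m : ℕ) : Z1 (m + 1) →+ (E m → ℤ) where
  toFun := fun f p => f.1 p.1.1.succ p.1.2.succ
  map_zero' := rfl
  map_add' := fun _ _ => rfl

theorem res_inj (m : ℕ) : Function.Injective (resHom m) := by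
  rw [injective_iff_map_eq_zero]
  rintro ⟨f, hf, hf'⟩ h
  have h1 : ∀ i j : Fin m, f i.succ j.succ = 0 := by
    intro i j
    rcases lt_trichotomy i j with hij | hij | hij
    · exact congrFun h ⟨(i, j), hij⟩
    · subst hij
      have := hf i.succ i.succ
      omega
    · rw [hf]
      have : f j.succ i.succ = 0 := congrFun h ⟨(j, i), hij⟩
      rw [this]; rfl
  have h2 : ∀ i : Fin m, f i.succ 0 = 0 := by
    intro i
    have := hf' i.succ
    rw [Fin.sum_univ_succ] at this
    simpa [h1] using this
  apply Subtype.ext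
  funext i j
  show f i j = 0
  refine Fin.cases ?_ (fun i' => ?_) i
  · refine Fin.cases ?_ (fun j' => ?_) j
    · have := hf 0 0
      omega
    · rw [hf, h2]; rfl
  · refine Fin.cases ?_ (fun j' => ?_) j
    · exact h2 i'
    · exact h1 i' j'

theorem res_surj (m : ℕ) : Function.Surjective (resHom m) := by
  intro g
  let a : Fin m → Fin m → ℤ := fun i j => if h : i < j then g ⟨(i, j), h⟩ else
    if h : j < i then - g ⟨(j, i), h⟩ else 0
  have ha : ∀ i j, a i j = - a j i := by
    intro i j
    simp only [a]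
    rcases lt_trichotomy i j with hij | hij | hij
    · rw [dif_pos hij, dif_neg (not_lt.2 hij.le), dif_pos hij, neg_neg]
    · subst hij; simp
    · rw [dif_neg (not_lt.2 hij.le), dif_pos hij, dif_pos hij]
  let r : Fin m → ℤ := fun i => ∑ j, a i j
  let f : Fin (m + 1) → Fin (m + 1) → ℤ :=
    Fin.cons (Fin.cons 0 (fun j => r j)) (fun i => Fin.cons (- r i) (fun j => a i j))
  have hr : ∑ i, r i = 0 := by
    have h1 : ∑ i, r i = ∑ i, ∑ j, a i j := rfl
    have h2 : ∑ i, ∑ j, a i j = ∑ i, ∑ j, - a i j := by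
      rw [Finset.sum_comm]
      refine Finset.sum_congr rfl fun i _ => Finset.sum_congr rfl fun j _ => ha j i
    simp only [Finset.sum_neg_distrib] at h2
    omega
  refine ⟨⟨f, ?_, ?_⟩, ?_⟩
  · intro i j
    refine Fin.cases ?_ (fun i' => ?_) i
    · refine Fin.cases ?_ (fun j' => ?_) j
      · simp [f]
      · simp [f]
    · refine Fin.cases ?_ (fun j' => ?_) j
      · simp [f]
      · simp only [f, Fin.cons_succ]; exact ha i' j'
  · intro i
    refine Fin.cases ?_ (fun i' => ?_) i
    · rw [Fin.sum_univ_succ]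
      simp only [f, Fin.cons_zero, Fin.cons_succ, zero_add]
      exact hr
    · rw [Fin.sum_univ_succ]
      simp only [f, Fin.cons_zero, Fin.cons_succ]
      simp [r]
  · funext p
    show f p.1.1.succ p.1.2.succ = g p
    simp only [f, Fin.cons_succ, a]
    rw [dif_pos p.2]

/-- cycles are functions on the nonroot edges -/
noncomputable def resEquiv (m : ℕ) : Z1 (m + 1) ≃+ (E m → ℤ) :=
  AddEquiv.ofBijective (resHom m) ⟨res_inj m, res_surj m⟩

/-- column of the integer reduced boundary matrix -/
noncomputable def col (m : ℕ) (t : Finset (Fin (m + 1))) : E m → ℤ :=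
  fun p => bd (m + 1) t p.1.1.succ p.1.2.succ

theorem tri_mem_Z1 (n : ℕ) (i j k : Fin n) : tri n i j k ∈ Z1 n := by
  constructor
  · intro a b
    exact tri_anti n i j k b a
  · intro a
    have h : ∀ x y : Fin n, ∑ b, eChain n x y a b = (if a = x then 1 else 0) - (if a = y then 1 else 0) := by
      intro x y
      simp only [eChain, Finset.sum_sub_distrib]
      congr 1
      · by_cases h : a = x <;> simp [h]
      · by_cases h : a = y <;> simp [h]
    simp only [tri, Pi.add_apply, Finset.sum_add_distrib, h]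
    ring

theorem bd_mem_Z1 (n : ℕ) (t : Finset (Fin n)) : bd n t ∈ Z1 n := by
  by_cases hc : t.card = 3
  · obtain ⟨x, y, z, hxy, hxz, hyz, ht, hb⟩ := bd_exists n _ hc
    rw [hb]; exact tri_mem_Z1 n x y z
  · rw [bd_of_ne n t hc]; exact (Z1 n).zero_mem

theorem B1_eq (n : ℕ) (S : Finset (Finset (Fin n))) : B1 n S =
    AddSubgroup.closure (bd n '' (S : Set (Finset (Fin n)))) := by
  apply le_antisymm
  · unfold B1
    rw [AddSubgroup.closure_le]
    rintro f ⟨i, j, k, hij, hjk, hik, hS, rfl⟩
    show tri n i j k ∈ _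
    have hm : bd n {i, j, k} ∈ AddSubgroup.closure (bd n '' (S : Set (Finset (Fin n)))) :=
      AddSubgroup.subset_closure ⟨_, hS, rfl⟩
    rcases bd_eq n i j k hij hik hjk with h | h
    · rw [h] at hm; exact hm
    · rw [h] at hm
      have := AddSubgroup.neg_mem _ hm
      rwa [neg_neg] at this
  · rw [AddSubgroup.closure_le]
    rintro f ⟨t, ht, rfl⟩
    by_cases hc : t.card = 3
    · obtain ⟨x, y, z, hxy, hxz, hyz, ht', hb⟩ := bd_exists n _ hc
      rw [hb]
      apply AddSubgroup.subset_closure
      exact ⟨x, y, z, hxy, hyz, hxz, by rw [← ht']; exact ht, rfl⟩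
    · rw [bd_of_ne n t hc]; exact (B1 n S).zero_mem

theorem map_B1 (m : ℕ) (S : Finset (Finset (Fin (m + 1)))) :
    ((B1 (m + 1) S).addSubgroupOf (Z1 (m + 1))).map (resEquiv m : Z1 (m + 1) →+ (E m → ℤ)) =
      AddSubgroup.closure (col m '' (S : Set (Finset (Fin (m + 1))))) := by
  set K := Z1 (m + 1) with hK
  let b : Finset (Fin (m + 1)) → K := fun t => ⟨bd (m + 1) t, bd_mem_Z1 _ t⟩
  have h1 : (B1 (m + 1) S).addSubgroupOf K =
      AddSubgroup.closure (b '' (S : Set (Finset (Fin (m + 1))))) := by
    have h2 : (AddSubgroup.closure (b '' (S : Set (Finset (Fin (m + 1)))))).map K.subtype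
        = B1 (m + 1) S := by
      rw [AddMonoidHom.map_closure, B1_eq, ← Set.image_comp]
      rfl
    rw [← h2]
    exact AddSubgroup.comap_map_eq_self_of_injective K.subtype_injective _
  rw [h1, AddMonoidHom.map_closure, ← Set.image_comp]
  rfl

/-- the square matrix of a set of triangles -/
noncomputable def sq (m : ℕ) (S : Finset (Finset (Fin (m + 1)))) (e : E m ≃ S) :
    Matrix (E m) (E m) ℤ := fun p q => col m (e q).1 p

theorem card_H1 (m : ℕ) (S : Finset (Finset (Fin (m + 1)))) (e : E m ≃ S) :
    Nat.card (H1 (m + 1) S) = (sq m S e).det.natAbs := by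
  rw [← card_coker]
  have h : ((B1 (m + 1) S).addSubgroupOf (Z1 (m + 1))).map
      (resEquiv m : Z1 (m + 1) →+ (E m → ℤ)) =
      (LinearMap.range (sq m S e).mulVecLin).toAddSubgroup := by
    rw [map_B1, Matrix.range_mulVecLin, Submodule.span_int_eq_addSubgroupClosure]
    congr 1
    ext f
    constructor
    · rintro ⟨t, ht, rfl⟩
      refine ⟨e.symm ⟨t, ht⟩, ?_⟩
      funext p
      simp [sq, Matrix.col, Matrix.transpose]
    · rintro ⟨q, rfl⟩
      refine ⟨(e q).1, (e q).2, ?_⟩
      funext p
      simp [sq, Matrix.col, Matrix.transpose]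
  exact Nat.card_congr (QuotientAddGroup.congr _ _ (resEquiv m) h).toEquiv

end Pool.Agent.HTRank.Det
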