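import Pool.Agent.HTRank.Det4

/-!
Determinantal measure, part 5: the target theorem.
-/

set_option autoImplicit false

open Finset Matrix

namespace Pool.Agent.HTRank.Det

theorem minor_mul (m : ℕ) (S : Finset (Finset (Fin (m + 1)))) (e : E m ≃ S) :
    D m * Matrix.diagonal (fun t => if t ∈ S then (1 : ℝ) else 0) * (D m)ᵀ =
      ((sq m S e).map (Int.castRingHom ℝ)) * ((sq m S e).map (Int.castRingHom ℝ))ᵀ := by
  ext p q
  rw [Matrix.mul_apply, Matrix.mul_apply]
  simp only [Matrix.mul_diagonal, Matrix.transpose_apply, Matrix.map_apply]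
  have h1 : ∑ t : Finset (Fin (m + 1)), D m p t * (if t ∈ S then (1 : ℝ) else 0) * D m q t =
      ∑ t ∈ S, D m p t * D m q t := by
    rw [← Finset.sum_subset (Finset.subset_univ S)]
    · refine Finset.sum_congr rfl fun t ht => ?_
      rw [if_pos ht, mul_one]
    · intro t _ ht
      rw [if_neg ht]; ring
  rw [h1, ← Finset.sum_coe_sort S (fun t => D m p t * D m q t)]
  exact (Fintype.sum_equiv e _ _ (fun r => rfl)).symm

theorem minor_eq (m : ℕ) (S : Finset (Finset (Fin (m + 1)))) (e : E m ≃ S) :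
    (D m * Matrix.diagonal (fun t => if t ∈ S then (1 : ℝ) else 0) * (D m)ᵀ).det =
      (Nat.card (H1 (m + 1) S) : ℝ) ^ 2 := by
  rw [minor_mul m S e, Matrix.det_mul, Matrix.det_transpose, card_H1 m S e]
  rw [show (sq m S e).map (Int.castRingHom ℝ) = (Int.castRingHom ℝ).mapMatrix (sq m S e) from rfl,
    ← RingHom.map_det]
  rw [Nat.cast_natAbs]
  simp only [eq_intCast, Int.cast_abs, sq_abs]
  ring

theorem minor_zero (m : ℕ) (S : Finset (Finset (Fin (m + 1)))) (e : E m ≃ S)
    (h : ∃ t ∈ S, t.card ≠ 3) :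
    (D m * Matrix.diagonal (fun t => if t ∈ S then (1 : ℝ) else 0) * (D m)ᵀ).det = 0 := by
  obtain ⟨t, ht, hc⟩ := h
  rw [minor_mul m S e, Matrix.det_mul]
  have : ((sq m S e).map (Int.castRingHom ℝ)).det = 0 := by
    apply Matrix.det_eq_zero_of_column_eq_zero (e.symm ⟨t, ht⟩)
    intro p
    simp [sq, col, bd_of_ne _ t hc]
  rw [this, zero_mul]

theorem htProb_eq (m : ℕ) (F : Finset (Finset (Fin (m + 1))) → Prop) [DecidablePred F] :
    htProb (m + 1) F =
      (∑ S ∈ (univ : Finset (Finset (Finset (Fin (m + 1))))).filter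
        (fun S => S.card = Fintype.card (E m)), if F S then
        (D m * Matrix.diagonal (fun t => if t ∈ S then (1 : ℝ) else 0) * (D m)ᵀ).det else 0) /
        ((m : ℝ) + 1) ^ ((m - 1).choose 2) := by
  classical
  unfold htProb
  rw [show m + 1 - 2 = m - 1 by omega]
  push_cast
  rw [← Finset.sum_div]
  congr 1
  rw [Finset.sum_filter, Finset.sum_filter]
  refine Finset.sum_congr rfl fun S _ => ?_
  unfold IsHypertree
  rw [show m + 1 - 1 = m by omega, ← card_E]
  by_cases hc : S.card = Fintype.card (E m)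
  · rw [if_pos hc]
    have e : E m ≃ S := Fintype.equivOfCardEq (by rw [Fintype.card_coe, hc])
    by_cases hF : F S
    · rw [if_pos hF]
      by_cases h3 : ∀ t ∈ S, t.card = 3
      · rw [minor_eq m S e]
        by_cases hfin : Finite (H1 (m + 1) S)
        · rw [if_pos ⟨⟨h3, hc, hfin⟩, hF⟩]
        · rw [if_neg (fun h => hfin h.1.2.2)]
          have : Infinite (H1 (m + 1) S) := not_finite_iff_infinite.1 hfin
          rw [Nat.card_eq_zero_of_infinite]
          simp
      · rw [if_neg (fun h => h3 h.1.1)]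
        push Not at h3
        rw [minor_zero m S e h3]
    · rw [if_neg hF, if_neg (fun h => hF h.2)]
  · rw [if_neg hc, if_neg (fun h => hc h.1.2.1)]

theorem htProb_true (m : ℕ) (hm : 1 ≤ m) : htProb (m + 1) (fun _ => True) = 1 := by
  rw [htProb_eq m]
  have hcb := cauchy_binet (D m) (fun _ => (1 : ℝ))
  rw [Matrix.diagonal_one, Matrix.mul_one, det_lap m hm] at hcb
  simp only [Finset.prod_const_one, one_mul] at hcb
  simp only [if_true]
  rw [← hcb]
  exact div_self (by positivity)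

theorem sum_bd_sq (n : ℕ) (t : Finset (Fin n)) (ht : t.card = 3) :
    ∑ i, ∑ j, (bd n t i j) ^ 2 = 6 := by
  obtain ⟨x, y, z, hxy, hxz, hyz, ht', hb⟩ := bd_exists n _ ht
  rw [hb]
  have h1 : ∀ (u v : Fin n) (f : Fin n → Fin n → ℤ), ∑ i, ∑ j, eChain n u v i j * f i j =
      f u v - f v u := by
    intro u v f
    simp only [eChain, sub_mul, Finset.sum_sub_distrib, ite_and, ite_mul, one_mul, zero_mul]
    congr 1
    · simp
    · simp
  have h2 : ∀ i j, (tri n x y z i j) ^ 2 = eChain n x y i j * tri n x y z i j +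
      eChain n y z i j * tri n x y z i j + eChain n z x i j * tri n x y z i j := by
    intro i j
    conv_lhs => rw [pow_two]
    conv_lhs => enter [1]; rw [tri]
    simp only [Pi.add_apply]
    ring
  simp only [h2, Finset.sum_add_distrib, h1]
  have e1 : tri n x y z x y = 1 := tri_ij n x y z hxy hxz.symm hyz.symm
  have e2 : tri n x y z y z = 1 := by
    rw [← tri_rot]; exact tri_ij n y z x hyz hxy hxz
  have e3 : tri n x y z z x = 1 := by
    rw [← tri_rot, ← tri_rot]; exact tri_ij n z x y hxz.symm hyz hxy.symm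
  rw [tri_anti n x y z x y, tri_anti n x y z y z, tri_anti n x y z z x, e1, e2, e3]
  norm_num

theorem bm_mul_D (m : ℕ) (v : Fin m) (t : Finset (Fin (m + 1))) :
    (Bm m * D m) v t = - (bd (m + 1) t v.succ 0 : ℝ) := by
  rw [Matrix.mul_apply]
  simp only [Bm, D]
  have h := sum_edges m (fun i j => ((if v = i then (1 : ℝ) else 0) - (if v = j then 1 else 0)) *
    (bd (m + 1) t i.succ j.succ : ℝ)) (fun i j => by rw [bd_anti]; push_cast; ring)
    (fun i => by simp)
  have h2 : ∑ i : Fin m, ∑ j : Fin m, ((if v = i then (1 : ℝ) else 0) - (if v = j then 1 else 0)) *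
    (bd (m + 1) t i.succ j.succ : ℝ) = 2 * ∑ j : Fin m, (bd (m + 1) t v.succ j.succ : ℝ) := by
    simp only [sub_mul, Finset.sum_sub_distrib]
    have h3 : ∑ i : Fin m, ∑ j : Fin m, (if v = i then (1 : ℝ) else 0) *
        (bd (m + 1) t i.succ j.succ : ℝ) = ∑ j : Fin m, (bd (m + 1) t v.succ j.succ : ℝ) := by
      simp only [ite_mul, one_mul, zero_mul]
      simp
    have h4 : ∑ i : Fin m, ∑ j : Fin m, (if v = j then (1 : ℝ) else 0) *
        (bd (m + 1) t i.succ j.succ : ℝ) = - ∑ j : Fin m, (bd (m + 1) t v.succ j.succ : ℝ) := by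
      rw [Finset.sum_comm]
      have h7 : ∀ j : Fin m, ∑ i : Fin m, (if v = j then (1 : ℝ) else 0) *
          (bd (m + 1) t i.succ j.succ : ℝ) =
          if v = j then ∑ i : Fin m, (bd (m + 1) t i.succ j.succ : ℝ) else 0 := by
        intro j; split_ifs <;> simp
      simp only [h7]
      rw [Finset.sum_ite_eq, if_pos (mem_univ _), ← Finset.sum_neg_distrib]
      refine Finset.sum_congr rfl fun j _ => ?_
      rw [bd_anti (m + 1) t v.succ j.succ]; push_cast; ring
    rw [h3, h4]; ring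
  rw [h2] at h
  have h5 := (bd_mem_Z1 (m + 1) t).2 v.succ
  rw [Fin.sum_univ_succ] at h5
  have h6 : (bd (m + 1) t v.succ 0 : ℝ) + ∑ j : Fin m, (bd (m + 1) t v.succ j.succ : ℝ) = 0 := by
    exact_mod_cast h5
  linarith

theorem diag_eq (m : ℕ) (t : Finset (Fin (m + 1))) (ht : t.card = 3) :
    ∑ p, (D m p t) ^ 2 + ∑ v, ((Bm m * D m) v t) ^ 2 = 3 := by
  have h := sum_edges m (fun i j => (bd (m + 1) t i.succ j.succ : ℝ) ^ 2)
    (fun i j => by rw [bd_anti]; push_cast; ring)
    (fun i => by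
      have := bd_anti (m + 1) t i.succ i.succ
      have h0 : bd (m + 1) t i.succ i.succ = 0 := by omega
      rw [h0]; simp)
  have h1 : ∑ i, ∑ j, (bd (m + 1) t i j : ℝ) ^ 2 = 6 := by exact_mod_cast sum_bd_sq (m + 1) t ht
  rw [Fin.sum_univ_succ] at h1
  simp only [Fin.sum_univ_succ (n := m)] at h1
  have h0 : bd (m + 1) t 0 0 = 0 := by
    have := bd_anti (m + 1) t 0 0
    omega
  have h2 : ∀ i : Fin m, (bd (m + 1) t 0 i.succ : ℝ) ^ 2 = (bd (m + 1) t i.succ 0 : ℝ) ^ 2 := by
    intro i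
    rw [bd_anti (m + 1) t i.succ 0]; push_cast; ring
  rw [h0] at h1
  simp only [h2, Finset.sum_add_distrib] at h1
  simp only [bm_mul_D, neg_sq]
  simp only [D]
  rw [← h] at h1
  norm_num at h1
  linarith

theorem det_bound (m : ℕ) (hm : 1 ≤ m) (B : Finset (Finset (Fin (m + 1))))
    (hB : ∀ t ∈ B, t.card = 3) (z : ℝ) (hz : 0 ≤ z) :
    (D m * Matrix.diagonal (fun t => 1 + z * (if t ∈ B then (1 : ℝ) else 0)) * (D m)ᵀ).det ≤
      ((m : ℝ) + 1) ^ ((m - 1).choose 2) * (1 + 3 * z / ((m : ℝ) + 1)) ^ B.card := by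
  have hn : (0 : ℝ) < (m : ℝ) + 1 := by positivity
  set DB : Matrix (E m) B ℝ := fun p t => D m p t.1 with hDB
  have h1 : D m * Matrix.diagonal (fun t => 1 + z * (if t ∈ B then (1 : ℝ) else 0)) * (D m)ᵀ =
      D m * (D m)ᵀ + z • (DB * DBᵀ) := by
    ext p q
    rw [Matrix.add_apply, Matrix.smul_apply, Matrix.mul_apply, Matrix.mul_apply, Matrix.mul_apply]
    simp only [Matrix.mul_diagonal, Matrix.transpose_apply]
    have h2 : ∑ t : B, DB p t * DB q t = ∑ t ∈ B, D m p t * D m q t :=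
      Finset.sum_coe_sort B (fun t => D m p t * D m q t)
    have h3 : ∑ t ∈ B, D m p t * D m q t =
        ∑ t, (if t ∈ B then (1 : ℝ) else 0) * (D m p t * D m q t) := by
      rw [← Finset.sum_subset (Finset.subset_univ B)]
      · refine Finset.sum_congr rfl fun t ht => ?_
        rw [if_pos ht, one_mul]
      · intro t _ ht
        rw [if_neg ht, zero_mul]
    rw [h2, h3, smul_eq_mul, Finset.mul_sum, ← Finset.sum_add_distrib]
    refine Finset.sum_congr rfl fun t _ => ?_
    ring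
  have h4 : D m * (D m)ᵀ + z • (DB * DBᵀ) = (D m * (D m)ᵀ) *
      (1 + ((z / ((m : ℝ) + 1)) • ((1 + (Bm m)ᵀ * Bm m) * DB)) * DBᵀ) := by
    rw [Matrix.mul_add, Matrix.mul_one, Matrix.smul_mul, Matrix.mul_smul, Matrix.mul_assoc _ DB,
      ← Matrix.mul_assoc (D m * (D m)ᵀ), lap_inv, Matrix.smul_mul, Matrix.one_mul, smul_smul]
    congr 2
    field_simp
  rw [h1, h4, Matrix.det_mul, det_lap m hm, Matrix.det_one_add_mul_comm]
  refine mul_le_mul_of_nonneg_left ?_ (by positivity)
  have h5 : (1 : Matrix B B ℝ) + DBᵀ * ((z / ((m : ℝ) + 1)) • ((1 + (Bm m)ᵀ * Bm m) * DB)) =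
      1 + (z / ((m : ℝ) + 1)) • (DBᵀ * DB + (Bm m * DB)ᵀ * (Bm m * DB)) := by
    rw [Matrix.mul_smul, Matrix.add_mul, Matrix.one_mul, Matrix.mul_add, Matrix.transpose_mul,
      Matrix.mul_assoc, Matrix.mul_assoc]
  rw [h5]
  have hps : ((1 : Matrix B B ℝ) +
      (z / ((m : ℝ) + 1)) • (DBᵀ * DB + (Bm m * DB)ᵀ * (Bm m * DB))).PosSemidef := by
    refine Matrix.PosSemidef.one.add (Matrix.PosSemidef.smul (Matrix.PosSemidef.add ?_ ?_) (by positivity))
    · have := Matrix.posSemidef_conjTranspose_mul_self DB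
      rwa [Matrix.conjTranspose_eq_transpose_of_trivial] at this
    · have := Matrix.posSemidef_conjTranspose_mul_self (Bm m * DB)
      rwa [Matrix.conjTranspose_eq_transpose_of_trivial] at this
  have htr : ((1 : Matrix B B ℝ) +
      (z / ((m : ℝ) + 1)) • (DBᵀ * DB + (Bm m * DB)ᵀ * (Bm m * DB))).trace =
      (1 + 3 * z / ((m : ℝ) + 1)) * Fintype.card B := by
    have hd : ∀ t : B, ((1 : Matrix B B ℝ) +
      (z / ((m : ℝ) + 1)) • (DBᵀ * DB + (Bm m * DB)ᵀ * (Bm m * DB))) t t =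
      1 + 3 * z / ((m : ℝ) + 1) := by
      intro t
      have hdt := diag_eq m t.1 (hB t.1 t.2)
      have hBD : ∀ v, (Bm m * DB) v t = (Bm m * D m) v t.1 := by
        intro v
        rw [Matrix.mul_apply, Matrix.mul_apply]
      rw [Matrix.add_apply, Matrix.smul_apply, Matrix.add_apply, Matrix.mul_apply, Matrix.mul_apply,
        Matrix.one_apply_eq]
      simp only [Matrix.transpose_apply, hBD]
      have hx : ∑ j, DB j t * DB j t = ∑ p, (D m p t.1) ^ 2 := by
        refine Finset.sum_congr rfl fun j _ => ?_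
        rw [pow_two]
      have hy : ∑ j, (Bm m * D m) j t.1 * (Bm m * D m) j t.1 = ∑ v, ((Bm m * D m) v t.1) ^ 2 := by
        refine Finset.sum_congr rfl fun j _ => ?_
        rw [pow_two]
      rw [hx, hy, hdt, smul_eq_mul]
      ring
    rw [Matrix.trace]
    simp only [Matrix.diag_apply, hd, Finset.sum_const, Finset.card_univ, nsmul_eq_mul]
    ring
  have := det_le_trace_pow _ hps _ htr
  rwa [Fintype.card_coe] at this

theorem minor_nonneg (m : ℕ) (S : Finset (Finset (Fin (m + 1))))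
    (hS : S.card = Fintype.card (E m)) :
    0 ≤ (D m * Matrix.diagonal (fun t => if t ∈ S then (1 : ℝ) else 0) * (D m)ᵀ).det := by
  have e : E m ≃ S := Fintype.equivOfCardEq (by rw [Fintype.card_coe, hS])
  by_cases h3 : ∀ t ∈ S, t.card = 3
  · rw [minor_eq m S e]; positivity
  · push Not at h3
    rw [minor_zero m S e h3]

theorem prod_sub {m : ℕ} (S B : Finset (Finset (Fin (m + 1)))) (h : B ⊆ S) (z : ℝ) :
    ∏ t ∈ S, (1 + z * (if t ∈ B then (1 : ℝ) else 0)) = (1 + z) ^ B.card := by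
  rw [← Finset.prod_subset h]
  · rw [Finset.prod_congr rfl (g := fun _ => 1 + z)]
    · rw [Finset.prod_const]
    · intro t ht
      rw [if_pos ht, mul_one]
  · intro t _ ht
    rw [if_neg ht, mul_zero, add_zero]

theorem htProb_sub (m : ℕ) (hm : 1 ≤ m) (B : Finset (Finset (Fin (m + 1))))
    (hB : ∀ t ∈ B, t.card = 3) (z : ℝ) (hz : 0 ≤ z) :
    htProb (m + 1) (fun S => B ⊆ S) * (1 + z) ^ B.card ≤
      (1 + 3 * z / ((m : ℝ) + 1)) ^ B.card := by
  have hn : (0 : ℝ) < (m : ℝ) + 1 := by positivity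
  have h1 := det_bound m hm B hB z hz
  rw [cauchy_binet] at h1
  rw [htProb_eq m, div_mul_eq_mul_div, div_le_iff₀ (by positivity)]
  refine le_trans ?_ (le_trans h1 (le_of_eq (mul_comm _ _)))
  rw [Finset.sum_mul]
  refine Finset.sum_le_sum fun S hS => ?_
  simp only [mem_filter, mem_univ, true_and] at hS
  have h0 := minor_nonneg m S hS
  by_cases hBS : B ⊆ S
  · rw [if_pos hBS, prod_sub S B hBS, mul_comm]
  · rw [if_neg hBS, zero_mul]
    refine mul_nonneg (Finset.prod_nonneg fun t _ => ?_) h0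
    split_ifs <;> linarith

theorem targetDet : TargetDet := by
  intro n hn
  obtain ⟨m, rfl⟩ : ∃ m, n = m + 1 := ⟨n - 1, by omega⟩
  have hm : 1 ≤ m := by omega
  refine ⟨htProb_true m hm, fun B hB => ?_⟩
  have hpos : (0 : ℝ) < (m : ℝ) + 1 := by positivity
  push_cast
  have h1 : ∀ z : ℝ, 0 ≤ z → htProb (m + 1) (fun S => B ⊆ S) ≤
      (3 / ((m : ℝ) + 1) + (1 - 3 / ((m : ℝ) + 1)) * (1 + z)⁻¹) ^ B.card := by
    intro z hz
    have h2 := htProb_sub m hm B hB z hz
    have h3 : (0 : ℝ) < 1 + z := by linarith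
    rw [← le_div_iff₀ (by positivity), ← div_pow] at h2
    refine le_trans h2 (le_of_eq ?_)
    congr 1
    field_simp
    ring
  have h4 : Filter.Tendsto (fun z : ℝ => (3 / ((m : ℝ) + 1) +
      (1 - 3 / ((m : ℝ) + 1)) * (1 + z)⁻¹) ^ B.card) Filter.atTop
      (nhds ((3 / ((m : ℝ) + 1) + (1 - 3 / ((m : ℝ) + 1)) * 0) ^ B.card)) := by
    refine Filter.Tendsto.pow ?_ _
    refine Filter.Tendsto.add tendsto_const_nhds (Filter.Tendsto.mul tendsto_const_nhds ?_)
    exact tendsto_inv_atTop_zero.comp (Filter.tendsto_atTop_add_const_left _ _ Filter.tendsto_id)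
  rw [mul_zero, add_zero] at h4
  refine ge_of_tendsto h4 ?_
  filter_upwards [Filter.eventually_ge_atTop (0 : ℝ)] with z hz
  exact h1 z hz

end Pool.Agent.HTRank.Det
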