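import Pool.Agent.HTRank.Defs

/-! Assembly of the final statement from the five parts. -/

set_option autoImplicit false

open Finset Filter

namespace Pool.Agent.HTRank

open Classical in
/-- The weight of a set of triangles. -/
noncomputable def htW (n : ℕ) (S : Finset (Finset (Fin n))) : ℝ :=
  if IsHypertree n S then (Nat.card (H1 n S) : ℝ) ^ 2 / (n : ℝ) ^ ((n - 2).choose 2) else 0

lemma htW_nonneg (n : ℕ) (S : Finset (Finset (Fin n))) : 0 ≤ htW n S := by
  unfold htW; split_ifs <;> positivity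

open Classical in
lemma htProb_eq (n : ℕ) (F : Finset (Finset (Fin n)) → Prop) :
    htProb n F = ∑ S ∈ (univ : Finset (Finset (Finset (Fin n)))).filter F, htW n S := by
  unfold htProb htW
  rw [Finset.filter_and, Finset.sum_ite, Finset.sum_const_zero, add_zero]
  apply Finset.sum_congr _ (fun _ _ => rfl)
  ext S; simp [and_comm]

lemma core (hA : TargetAbstract) (hC : TargetComb) (hT : TargetTop) {κ ζ : ℝ} (hκ : 0 < κ)
    (hκ1 : κ ≤ 1) (hζ : 0 < ζ) (hζ1 : ζ ≤ 1) (n : ℕ) (v0 : Fin n)
    (hn : 402 * 12 ≤ κ * ζ * (n : ℝ) ^ 2) (hn2 : 100 ≤ n)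
    (S : Finset (Finset (Fin n))) (hS : IsHypertree n S)
    (hG : Good n v0 S 100000 8000 (1 / 1000) κ ζ) (x : geom n S) :
    mgGt (FundamentalGroup (geom n S) x) (κ * ζ / 4800 * (n : ℝ) ^ 2) := by
  intro s hs
  by_contra hcon
  push Not at hcon
  have h1 := hT n S v0 hS.1 x s hs
  set r0 : ℕ := ⌊κ * ζ * (n : ℝ) ^ 2 / 6⌋₊ with hr0
  have hpos : 0 ≤ κ * ζ * (n : ℝ) ^ 2 / 6 := by positivity
  have hr0le : (r0 : ℝ) ≤ κ * ζ * (n : ℝ) ^ 2 / 6 := Nat.floor_le hpos
  have hr0lt : κ * ζ * (n : ℝ) ^ 2 / 6 < r0 + 1 := Nat.lt_floor_add_one _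
  have hle1 : κ * ζ ≤ 1 := by nlinarith
  have hn2' : (100 : ℝ) ≤ n := by exact_mod_cast hn2
  have hcard : ((n - 1).choose 2 : ℝ) = ((n : ℝ) - 1) * ((n : ℝ) - 2) / 2 := by
    have h3 : ((n - 1 : ℕ) : ℝ) = (n : ℝ) - 1 := by
      rw [Nat.cast_sub (by omega)]; simp
    rw [Nat.cast_choose_two, h3]; ring
  have hSc : (S.card : ℝ) = ((n : ℝ) - 1) * ((n : ℝ) - 2) / 2 := by
    rw [hS.2.1]; exact hcard
  obtain ⟨A, instA, P, hgirth, hw, hR, hgen⟩ := hC n v0 S κ ζ r0 hκ hζ hG (by linarith) (by
    rw [hSc]; nlinarith)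
  refine hA A P 1000 400 1000 r0 s.card (1 / 100) (by norm_num) (by norm_num) (by norm_num)
    (by norm_num) (by norm_num) (by norm_num) ?_ hgirth hw ?_ (hgen _ h1)
  · push_cast
    have : (s.card : ℝ) ≤ κ * ζ / 4800 * (n : ℝ) ^ 2 := hcon
    nlinarith
  · refine lt_of_lt_of_le hR (Finset.card_le_card ?_)
    intro q hq
    simp only [Finset.mem_filter] at hq ⊢
    exact hq

theorem final (hA : TargetAbstract) (hC : TargetComb) (hD : TargetDet) (hU : TargetUnion)
    (hT : TargetTop) : TargetFinal := by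
  classical
  obtain ⟨κ, ζ, hκ, hκ1, hζ, hζ1, hU⟩ := hU 100000 8000 (1 / 1000) (by norm_num) (by norm_num)
    (by norm_num)
  refine ⟨κ * ζ / 4800, by positivity, ?_⟩
  have hlim := hU htW (fun n => 0) htW_nonneg ?_ ?_ ?_
  · rw [← tendsto_add_atTop_iff_nat 1]
    have hlim2 : Tendsto (fun n : ℕ => (1 : ℝ) - ∑ S ∈ (univ.filter
        (fun S => ¬ Good (n + 1) (0 : Fin (n + 1)) S 100000 8000 (1 / 1000) κ ζ)),
        htW (n + 1) S) atTop (nhds (1 - 0)) := tendsto_const_nhds.sub hlim
    rw [sub_zero] at hlim2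
    refine tendsto_of_tendsto_of_tendsto_of_le_of_le' hlim2 tendsto_const_nhds ?_ ?_
    · have hev : ∀ᶠ n : ℕ in atTop, 402 * 12 ≤ κ * ζ * ((n + 1 : ℕ) : ℝ) ^ 2 := by
        have h2 : Tendsto (fun n : ℕ => κ * ζ * ((n + 1 : ℕ) : ℝ) ^ 2) atTop atTop := by
          apply Tendsto.const_mul_atTop (by positivity)
          exact (tendsto_pow_atTop (by norm_num)).comp
            (tendsto_natCast_atTop_atTop.comp (tendsto_add_atTop_nat 1))
        exact h2.eventually_ge_atTop _
      filter_upwards [hev, eventually_ge_atTop 100] with n hn hn2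
      have htot : htProb (n + 1) (fun _ => True) = 1 := (hD (n + 1) (by omega)).1
      rw [htProb_eq] at htot
      rw [htProb_eq]
      have hsplit : (1 : ℝ) = ∑ S ∈ (univ : Finset (Finset (Finset (Fin (n + 1))))).filter
            (fun S => ¬ Good (n + 1) 0 S 100000 8000 (1 / 1000) κ ζ), htW (n + 1) S +
          ∑ S ∈ (univ : Finset (Finset (Finset (Fin (n + 1))))).filter
            (fun S => Good (n + 1) 0 S 100000 8000 (1 / 1000) κ ζ), htW (n + 1) S := by
        have h5 := Finset.sum_filter_add_sum_filter_not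
          (univ : Finset (Finset (Finset (Fin (n + 1)))))
          (fun S => Good (n + 1) 0 S 100000 8000 (1 / 1000) κ ζ) (htW (n + 1))
        rw [add_comm] at h5
        refine htot.symm.trans ?_
        rw [h5]
        apply Finset.sum_congr _ (fun _ _ => rfl)
        ext S; simp
      have hge : ∑ S ∈ (univ : Finset (Finset (Finset (Fin (n + 1))))).filter
            (fun S => Good (n + 1) 0 S 100000 8000 (1 / 1000) κ ζ), htW (n + 1) S ≤
          ∑ S ∈ (univ : Finset (Finset (Finset (Fin (n + 1))))).filter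
          (fun S => ∀ x : geom (n + 1) S, mgGt (FundamentalGroup (geom (n + 1) S) x)
            (κ * ζ / 4800 * ((n + 1 : ℕ) : ℝ) ^ 2)), htW (n + 1) S := ?_
      · linarith
      have hsub : ∑ S ∈ (univ : Finset (Finset (Finset (Fin (n + 1))))).filter
            (fun S => Good (n + 1) 0 S 100000 8000 (1 / 1000) κ ζ), htW (n + 1) S =
          ∑ S ∈ (univ : Finset (Finset (Finset (Fin (n + 1))))).filter
            (fun S => Good (n + 1) 0 S 100000 8000 (1 / 1000) κ ζ ∧ IsHypertree (n + 1) S),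
            htW (n + 1) S := by
        rw [← Finset.sum_filter_add_sum_filter_not (univ.filter
          (fun S => Good (n + 1) 0 S 100000 8000 (1 / 1000) κ ζ))
          (fun S => IsHypertree (n + 1) S)]
        have hz : ∑ S ∈ (univ.filter
          (fun S => Good (n + 1) (0 : Fin (n + 1)) S 100000 8000 (1 / 1000) κ ζ)).filter
          (fun S => ¬ IsHypertree (n + 1) S), htW (n + 1) S = 0 := by
          apply Finset.sum_eq_zero
          intro S hS
          rw [Finset.mem_filter] at hS
          unfold htW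
          rw [if_neg hS.2]
        rw [hz, add_zero]
        apply Finset.sum_congr _ (fun _ _ => rfl)
        ext S; simp
      rw [hsub]
      apply Finset.sum_le_sum_of_subset_of_nonneg
      · intro S hS
        rw [Finset.mem_filter] at hS ⊢
        refine ⟨hS.1, fun x => ?_⟩
        exact core hA hC hT hκ hκ1 hζ hζ1 (n + 1) 0 hn (by omega) S hS.2.2 hS.2.1 x
      · intro S _ _; exact htW_nonneg _ _
    · filter_upwards [eventually_ge_atTop 3] with n hn
      have htot : htProb (n + 1) (fun _ => True) = 1 := (hD (n + 1) (by omega)).1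
      rw [htProb_eq] at htot
      rw [htProb_eq]
      refine le_trans ?_ htot.le
      apply Finset.sum_le_sum_of_subset_of_nonneg
      · intro S _
        simp
      · intro S _ _; exact htW_nonneg _ _
  · intro n S ⟨t, ht, ht3⟩
    unfold htW
    rw [if_neg]
    intro h
    exact ht3 (h.1 t ht)
  · intro n hn
    have htot : htProb n (fun _ => True) = 1 := (hD n hn).1
    rw [htProb_eq] at htot
    refine Eq.trans ?_ htot
    apply Finset.sum_congr _ (fun _ _ => rfl)
    ext S; simp
  · intro n hn B hB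
    have h := (hD n hn).2 B hB
    rw [htProb_eq] at h
    refine le_trans (le_of_eq ?_) h
    apply Finset.sum_congr _ (fun _ _ => rfl)
    ext S
    simp

end Pool.Agent.HTRank
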