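import Pool.Agent.HTRank.AbsTargets

/-! Job HT-INIT: the initial admissible graph. -/

set_option autoImplicit false

open Finset Module

namespace Pool.Agent.HTRank.InitJ

open Pool.Agent.HTRank.Abs

variable {A : Type} {k : ℕ}

/-- vertices of the wedge of `k` subdivided circles -/
abbrev VT (Wd : Fin k → List A) : Type := Option (Σ i : Fin k, Fin ((Wd i).length - 1))

/-- the `j`-th vertex of the `i`-th circle -/
def pos (Wd : Fin k → List A) (i : Fin k) (j : ℕ) : VT Wd :=
  if h : 1 ≤ j ∧ j < (Wd i).length then some ⟨i, ⟨j - 1, by omega⟩⟩ else none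

lemma pos_zero (Wd : Fin k → List A) (i : Fin k) : pos Wd i 0 = none := by
  unfold pos
  rw [dif_neg]
  rintro ⟨h, _⟩
  omega

lemma pos_length (Wd : Fin k → List A) (i : Fin k) : pos Wd i (Wd i).length = none := by
  unfold pos
  rw [dif_neg]
  rintro ⟨_, h⟩
  omega

/-- edges of the circles -/
def ed (Wd : Fin k → List A) (x : Σ i : Fin k, Fin (Wd i).length) : VT Wd × A × VT Wd :=
  (pos Wd x.1 x.2, (Wd x.1)[(x.2 : ℕ)]'x.2.2, pos Wd x.1 (x.2 + 1))

open Classical in
/-- positively oriented edges -/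
noncomputable def E0 (Wd : Fin k → List A) : Finset (VT Wd × A × VT Wd) :=
  Finset.univ.image (ed Wd)

open Classical in
/-- all edges -/
noncomputable def EE (P : TriPres A) (Wd : Fin k → List A) : Finset (VT Wd × A × VT Wd) :=
  E0 Wd ∪ (E0 Wd).image (rev P)

lemma mem_EE {P : TriPres A} {Wd : Fin k → List A} {e : VT Wd × A × VT Wd} :
    e ∈ EE P Wd ↔ e ∈ E0 Wd ∨ ∃ e' ∈ E0 Wd, rev P e' = e := by
  classical
  unfold EE
  rw [Finset.mem_union, Finset.mem_image]

lemma symm_EE (P : TriPres A) (Wd : Fin k → List A) : Symm P (EE P Wd) := by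
  intro e he
  rw [mem_EE] at he ⊢
  rcases he with he | ⟨e', he', rfl⟩
  · exact Or.inr ⟨e, he, rfl⟩
  · left
    rw [rev_rev]
    exact he'

lemma ed_mem (Wd : Fin k → List A) (x : Σ i : Fin k, Fin (Wd i).length) : ed Wd x ∈ E0 Wd := by
  classical
  unfold E0
  exact Finset.mem_image_of_mem _ (Finset.mem_univ x)

lemma word_drop {P : TriPres A} {Wd : Fin k → List A} {Ω : Type} (X : Act P Ω)
    (g : VT Wd → Ω) (hg : ∀ e ∈ E0 Wd, X.σ e.2.1 (g e.1) = g e.2.2) (i : Fin k) :
    ∀ n j, n + j = (Wd i).length → X.word ((Wd i).drop j) (g (pos Wd i j)) = g none := by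
  intro n
  induction n with
  | zero =>
    intro j hj
    have hj' : j = (Wd i).length := by omega
    subst hj'
    rw [List.drop_length, pos_length]
    rfl
  | succ n ih =>
    intro j hj
    have hlt : j < (Wd i).length := by omega
    rw [List.drop_eq_getElem_cons hlt]
    have h1 := hg _ (ed_mem Wd ⟨i, ⟨j, hlt⟩⟩)
    have h2 := ih (j + 1) (by omega)
    simp only [ed] at h1
    change X.word ((Wd i).drop (j + 1)) (X.σ ((Wd i)[j]) (g (pos Wd i j))) = g none
    rw [h1]
    exact h2

lemma sj_aux {P : TriPres A} {Wd : Fin k → List A}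
    (hW : ∀ (Ω : Type) (X : Act P Ω) (ω : Ω), (∀ i, X.word (Wd i) ω = ω) → ∀ a, X.σ a ω = ω)
    {Ω : Type} (X : Act P Ω)
    (g : VT Wd → Ω) (hg : ∀ e ∈ E0 Wd, X.σ e.2.1 (g e.1) = g e.2.2) :
    (∀ v, g v = g none) ∧ ∀ a, X.σ a (g none) = g none := by
  have hfix : ∀ a, X.σ a (g none) = g none := by
    apply hW
    intro i
    have := word_drop X g hg i (Wd i).length 0 (by omega)
    rw [pos_zero, List.drop_zero] at this
    exact this
  refine ⟨?_, hfix⟩
  have key : ∀ (i : Fin k) (j : ℕ), j ≤ (Wd i).length → g (pos Wd i j) = g none := by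
    intro i j
    induction j with
    | zero => intro _; rw [pos_zero]
    | succ j ih =>
      intro hj
      have h1 := hg _ (ed_mem Wd ⟨i, ⟨j, by omega⟩⟩)
      simp only [ed] at h1
      rw [← h1, ih (by omega)]
      exact hfix _
  intro v
  rcases v with _ | ⟨i, m⟩
  · rfl
  · have hm := m.2
    have h1 := key i (m + 1) (by omega)
    have h2 : pos Wd i (m + 1) = some ⟨i, m⟩ := by
      unfold pos
      rw [dif_pos ⟨by omega, by omega⟩]
      rfl
    rw [h2] at h1
    exact h1

lemma dim_EE [Fintype A] (P : TriPres A) (Wd : Fin k → List A) :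
    finrank (ZMod 2) (Z P (EE P Wd) ∅) + 1 ≤ k + Fintype.card (VT Wd) := by
  classical
  let T : Z P (EE P Wd) ∅ →ₗ[ZMod 2] (E0 Wd → ZMod 2) :=
    { toFun := fun f e => f.1 e.1
      map_add' := fun f g => rfl
      map_smul' := fun c f => rfl }
  have hT : Function.Injective T := by
    rw [← LinearMap.ker_eq_bot, LinearMap.ker_eq_bot']
    intro f hf
    apply Subtype.ext
    funext e
    have hz := f.2
    rw [mem_Z] at hz
    have h0 : ∀ e ∈ E0 Wd, f.1 e = 0 := by
      intro e he
      exact congrFun hf ⟨e, he⟩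
    by_cases he : e ∈ EE P Wd
    · rcases mem_EE.mp he with h | ⟨e', h, rfl⟩
      · exact h0 e h
      · rw [hz.2.1 e' (mem_EE.mpr (Or.inl h)), h0 e' h]
        rfl
    · exact hz.1 e he
  have h1 := LinearMap.finrank_le_finrank_of_injective hT
  rw [Module.finrank_fintype_fun_eq_card, Fintype.card_coe] at h1
  have h2 : (E0 Wd).card ≤ ∑ i : Fin k, (Wd i).length := by
    unfold E0
    refine Finset.card_image_le.trans ?_
    rw [Finset.card_univ, Fintype.card_sigma]
    simp
  have h3 : Fintype.card (VT Wd) = ∑ i : Fin k, ((Wd i).length - 1) + 1 := by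
    rw [Fintype.card_option, Fintype.card_sigma]
    simp
  have h4 : ∑ i : Fin k, (Wd i).length ≤ ∑ i : Fin k, ((Wd i).length - 1) + k := by
    have : ∑ i : Fin k, (Wd i).length ≤ ∑ i : Fin k, (((Wd i).length - 1) + 1) :=
      Finset.sum_le_sum (fun i _ => by omega)
    rw [Finset.sum_add_distrib] at this
    simpa using this
  omega

theorem targetInit : TargetInit := by
  intro A _ P k r0 hgen
  obtain ⟨Wd, hW⟩ := hgen
  obtain ⟨W, iW, π, hπ, hs, hd, hconst⟩ := exists_fold P (EE P Wd) (symm_EE P Wd)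
  refine ⟨W, iW, img π (EE P Wd), hs, hd, ?_, by simp, ?_, ?_, ⟨π none⟩⟩
  · exact ⟨fun a b c h => by simp at h, fun a b c h => by simp at h, fun a b c h => by simp at h⟩
  · intro Ω X g hg v
    have h1 := sj_aux hW X (g ∘ π) (fun e he =>
      hg (eMap π e) (mem_img_of (mem_EE.mpr (Or.inl he))))
    obtain ⟨y, rfl⟩ := hπ v
    have hy : g (π y) = g (π none) := h1.1 y
    refine ⟨?_, ?_⟩
    · intro w
      obtain ⟨z, rfl⟩ := hπ w
      have hz : g (π z) = g (π none) := h1.1 z
      rw [hz, hy]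
    · intro a
      rw [hy]
      exact h1.2 a
  · have h1 := fold_dim (R0 := ∅) (symm_EE P Wd) π hconst hπ
    have h2 := dim_EE P Wd
    omega

end Pool.Agent.HTRank.InitJ
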