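import Mathlib

/-!
The determinantal random 2-dimensional hypertree (MP_e07d11_pr): simplicial homology of the
complex with complete 1-skeleton, hypertrees, the probability measure, the geometric realization
and the minimum number of generators.
-/

set_option autoImplicit false

open Finset

namespace Pool.Agent.HTRank

/-- The antisymmetric function of the oriented edge `i → j`. -/
def eChain (n : ℕ) (i j : Fin n) : Fin n → Fin n → ℤ :=
  fun a b => (if a = i ∧ b = j then 1 else 0) - (if a = j ∧ b = i then 1 else 0)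

/-- Simplicial 1-cycles of the complete graph on `Fin n` (antisymmetric functions on ordered
pairs with zero boundary). -/
def Z1 (n : ℕ) : AddSubgroup (Fin n → Fin n → ℤ) where
  carrier := {f | (∀ i j, f i j = - f j i) ∧ ∀ i, ∑ j, f i j = 0}
  add_mem' := by
    rintro f g ⟨hf, hf'⟩ ⟨hg, hg'⟩
    refine ⟨fun i j => ?_, fun i => ?_⟩
    · simp only [Pi.add_apply]; rw [hf i j, hg i j]; ring
    · simp only [Pi.add_apply, Finset.sum_add_distrib, hf' i, hg' i, add_zero]
  zero_mem' := ⟨fun i j => by simp, fun i => by simp⟩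
  neg_mem' := by
    rintro f ⟨hf, hf'⟩
    refine ⟨fun i j => ?_, fun i => ?_⟩
    · simp only [Pi.neg_apply]; rw [hf i j]
    · simp only [Pi.neg_apply, Finset.sum_neg_distrib, hf' i, neg_zero]

/-- Boundaries of the triangles of `S`. -/
def B1 (n : ℕ) (S : Finset (Finset (Fin n))) : AddSubgroup (Fin n → Fin n → ℤ) :=
  AddSubgroup.closure {f | ∃ i j k : Fin n, i ≠ j ∧ j ≠ k ∧ i ≠ k ∧
    ({i, j, k} : Finset (Fin n)) ∈ S ∧ f = eChain n i j + eChain n j k + eChain n k i}

/-- First integral simplicial homology of the complex with vertex set `Fin n`, all edges, and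
the triangles of `S`: cycles modulo boundaries. -/
abbrev H1 (n : ℕ) (S : Finset (Finset (Fin n))) : Type :=
  Z1 n ⧸ (B1 n S).addSubgroupOf (Z1 n)

/-- 2-dimensional hypertrees on `Fin n`. -/
def IsHypertree (n : ℕ) (S : Finset (Finset (Fin n))) : Prop :=
  (∀ t ∈ S, t.card = 3) ∧ S.card = (n - 1).choose 2 ∧ Finite (H1 n S)

open Classical in
/-- The probability that the determinantal hypertree `T_n` has the property `F`:
each hypertree `S` has probability `|H_1(S)|^2 / n^(choose (n-2) 2)`. -/
noncomputable def htProb (n : ℕ) (F : Finset (Finset (Fin n)) → Prop) : ℝ :=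
  ∑ S ∈ (univ : Finset (Finset (Finset (Fin n)))).filter (fun S => IsHypertree n S ∧ F S),
    (Nat.card (H1 n S) : ℝ) ^ 2 / (n : ℝ) ^ ((n - 2).choose 2)

/-- The geometric realization of the complex with vertex set `Fin n`, all edges and the
triangles of `S`, in barycentric coordinates. -/
def geom (n : ℕ) (S : Finset (Finset (Fin n))) : Set (Fin n → ℝ) :=
  {x | (∀ i, 0 ≤ x i) ∧ ∑ i, x i = 1 ∧
    ((univ.filter (fun i => x i ≠ 0)).card ≤ 2 ∨ univ.filter (fun i => x i ≠ 0) ∈ S)}

/-- The minimum size of a generating set of `Γ` is greater than `x`. -/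
def mgGt (Γ : Type) [Group Γ] (x : ℝ) : Prop :=
  ∀ s : Finset Γ, Subgroup.closure (s : Set Γ) = ⊤ → x < s.card

end Pool.Agent.HTRank
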