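import Pool.Agent.HTRank.AbsTargets

/-! Job HT-REM: removing a vertex whose link is a small tree. -/

set_option autoImplicit false

open Finset Module

namespace Pool.Agent.HTRank.RemJ

open Pool.Agent.HTRank.Abs

variable {A V : Type}

/-- hypotheses on a graph and a vertex without loops -/
structure Hx (P : TriPres A) (E : Finset (V × A × V)) (R0 : Finset (A × A × A)) (x : V) :
    Prop where
  symm : Symm P E
  det : Det E
  rel : RelClosed P R0
  nl : ∀ a, (x, a, x) ∉ E

lemma no_loop {P : TriPres A} {E : Finset (V × A × V)} {R0 : Finset (A × A × A)}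
    (hE : Symm P E) (hR : RelClosed P R0) {x : V} {B g : ℕ} (hg : P.Girth g) (hB : B ≤ g)
    (hrem : Rem (Dl E x) (Kl P E R0 x) B) : ∀ a, (x, a, x) ∉ E := by
  classical
  intro a ha
  have hL : Lnk P R0 (Dl E x) (Kl P E R0 x) :=
    ⟨fun _ _ h => Kl_mem hE h, fun _ _ h => Kl_symm hR hE h, fun _ _ h => Kl_ne hR h,
      fun _ _ h => Kl_corner hR h⟩
  have ha1 : a ∈ Dl E x := mem_Dl.mpr ⟨x, ha⟩
  have ha2 : P.inv a ∈ Dl E x := mem_Dl.mpr ⟨x, hE _ ha⟩
  have hconn := Gr_connected hL hrem.1 ⟨a, ha1⟩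
  obtain ⟨p, hp⟩ := (hconn.preconnected ⟨a, ha1⟩ ⟨P.inv a, ha2⟩).exists_isPath
  have hlen : p.length < Fintype.card {b // b ∈ Dl E x} := hp.length_lt
  rw [Fintype.card_coe] at hlen
  have hpos : 1 ≤ p.length := by
    by_contra h0
    have h1 : p.length = 0 := by omega
    have h2 := SimpleGraph.Walk.eq_of_length_eq_zero h1
    exact P.inv_ne a (congrArg Subtype.val h2).symm
  have hadj : ∀ i, i < p.length → P.adj (p.getVert i).1 (p.getVert (i + 1)).1 := by
    intro i hi
    have h1 := p.adj_getVert_succ hi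
    obtain ⟨c, hc⟩ := hL.cor _ _ h1
    exact ⟨c, hR.sub _ _ _ hc⟩
  have hinj := hp.getVert_injOn
  have h := hg p.length (fun i => (p.getVert i).1) hpos (by have := hrem.2.2; omega) hadj (by
    intro i hi h
    have h2 := hinj (show i ∈ {i | i ≤ p.length} by simp only [Set.mem_ofPred_eq]; omega)
      (show i + 2 ∈ {i | i ≤ p.length} by simp only [Set.mem_ofPred_eq]; omega)
      (Subtype.ext h)
    omega)
  apply h.2
  simp

/-- the vertices different from `x` -/
abbrev Vx (x : V) : Type := {v : V // v ≠ x}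

open Classical in
/-- the graph without `x` -/
noncomputable def Ex [Fintype A] [Fintype V] (E : Finset (V × A × V)) (x : V) :
    Finset (Vx x × A × Vx x) :=
  univ.filter (fun e => eMap Subtype.val e ∈ E)

lemma mem_Ex [Fintype A] [Fintype V] {E : Finset (V × A × V)} {x : V} {e : Vx x × A × Vx x} :
    e ∈ Ex E x ↔ eMap Subtype.val e ∈ E := by
  classical
  unfold Ex
  simp only [mem_filter, mem_univ, true_and]

lemma eMap_inj (x : V) : Function.Injective (eMap (A := A) (Subtype.val : Vx x → V)) := by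
  rintro ⟨v, a, w⟩ ⟨v', a', w'⟩ h
  simp only [eMap, Prod.mk.injEq] at h
  exact Prod.ext (Subtype.ext h.1) (Prod.ext h.2.1 (Subtype.ext h.2.2))

lemma symm_Ex [Fintype A] [Fintype V] {P : TriPres A} {E : Finset (V × A × V)} {x : V}
    (hE : Symm P E) : Symm P (Ex E x) := by
  intro e he
  rw [mem_Ex] at he ⊢
  exact hE _ he

lemma det_Ex [Fintype A] [Fintype V] {E : Finset (V × A × V)} {x : V}
    (hD : Det E) : Det (Ex E x) := by
  intro e he e' he' h1 h2
  rw [mem_Ex] at he he'
  exact eMap_inj x (hD _ he _ he' (by simp only [eMap]; rw [h1]) h2)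

lemma card_Ex [Fintype A] [Fintype V] {P : TriPres A} {E : Finset (V × A × V)}
    {R0 : Finset (A × A × A)} {x : V} (h : Hx P E R0 x) :
    (Ex E x).card + 2 * (Dl E x).card ≤ E.card := by
  classical
  have h1 : (Ex E x).card = ((Ex E x).image (eMap Subtype.val)).card :=
    (Finset.card_image_of_injective _ (eMap_inj x)).symm
  have h2 : (Dl E x).card = (E.filter (fun e => e.1 = x)).card := by
    unfold Dl
    rw [Finset.card_image_of_injOn]
    intro e he e' he' h'
    simp only [coe_filter, Set.mem_ofPred_eq] at he he'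
    exact h.det e he.1 e' he'.1 (he.2.trans he'.2.symm) h'
  have h3 : (E.filter (fun e => e.1 = x)).card = ((E.filter (fun e => e.1 = x)).image
      (rev P)).card :=
    (Finset.card_image_of_injective _
      (fun a b hab => by rw [← rev_rev P a, hab, rev_rev])).symm
  have hd1 : Disjoint ((Ex E x).image (eMap Subtype.val)) (E.filter (fun e => e.1 = x)) := by
    rw [Finset.disjoint_left]
    intro e he he'
    simp only [mem_image, mem_filter] at he he'
    obtain ⟨e0, _, rfl⟩ := he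
    exact e0.1.2 he'.2
  have hd2 : Disjoint ((Ex E x).image (eMap Subtype.val) ∪ E.filter (fun e => e.1 = x))
      ((E.filter (fun e => e.1 = x)).image (rev P)) := by
    rw [Finset.disjoint_left]
    intro e he he'
    rw [Finset.mem_union] at he
    simp only [mem_image, mem_filter] at he he'
    obtain ⟨e1, ⟨h4, h5⟩, rfl⟩ := he'
    rcases he with ⟨e0, _, he0⟩ | he
    · have := congrArg (fun e => e.2.2) he0
      simp only [eMap, rev] at this
      exact e0.2.2.2 (this.trans h5)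
    · have h6 := he.2
      simp only [rev] at h6
      apply h.nl e1.2.1
      have : e1 = (x, e1.2.1, x) := Prod.ext h5 (Prod.ext rfl h6)
      rw [← this]
      exact h4
  have hsub : ((Ex E x).image (eMap Subtype.val) ∪ E.filter (fun e => e.1 = x)) ∪
      ((E.filter (fun e => e.1 = x)).image (rev P)) ⊆ E := by
    intro e he
    rw [Finset.mem_union, Finset.mem_union] at he
    simp only [mem_image, mem_filter] at he
    rcases he with (⟨e0, he0, rfl⟩ | he) | ⟨e1, ⟨h4, h5⟩, rfl⟩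
    · exact mem_Ex.mp he0
    · exact he.1
    · exact h.symm _ h4
  have h4 := Finset.card_le_card hsub
  rw [Finset.card_union_of_disjoint hd2, Finset.card_union_of_disjoint hd1, ← h1, ← h3,
    ← h2] at h4
  omega

/-- cells without `x` come from the smaller graph -/
lemma cell_lift [Fintype A] [Fintype V] {E : Finset (V × A × V)}
    {R0 : Finset (A × A × A)} {x : V} {t : (V × A × V) × (V × A × V) × (V × A × V)}
    (ht : t ∈ cells E R0) (h1 : t.1.1 ≠ x) (h2 : t.2.1.1 ≠ x) (h3 : t.2.2.1 ≠ x) :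
    ∃ t' ∈ cells (Ex E x) R0, eMap Subtype.val t'.1 = t.1 ∧
      eMap Subtype.val t'.2.1 = t.2.1 ∧ eMap Subtype.val t'.2.2 = t.2.2 := by
  rw [mem_cells] at ht
  obtain ⟨⟨a1, a2, a3⟩, a4, a5, a6, a7⟩ := ht
  obtain ⟨⟨v1, a, w1⟩, ⟨v2, b, w2⟩, ⟨v3, c, w3⟩⟩ := t
  simp only at *
  subst a4 a5 a6
  refine ⟨((⟨w3, h1⟩, a, ⟨w1, h2⟩), (⟨w1, h2⟩, b, ⟨w2, h3⟩), (⟨w2, h3⟩, c, ⟨w3, h1⟩)),
    ?_, rfl, rfl, rfl⟩
  rw [mem_cells]
  exact ⟨⟨mem_Ex.mpr a1, mem_Ex.mpr a2, mem_Ex.mpr a3⟩, rfl, rfl, rfl, a7⟩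

lemma card_cells_Ex [Fintype A] [Fintype V] {P : TriPres A} {E : Finset (V × A × V)}
    {R0 : Finset (A × A × A)} {x : V} (h : Hx P E R0 x) :
    (cells E R0).card ≤ (cells (Ex E x) R0).card + 3 * (Kl P E R0 x).card := by
  classical
  have h2 : (Kl P E R0 x).card = ((cells E R0).filter (fun t => t.1.1 = x)).card := by
    unfold Kl
    rw [Finset.card_image_of_injOn]
    intro t ht t' ht' h'
    simp only [coe_filter, Set.mem_ofPred_eq] at ht ht'
    simp only [Prod.mk.injEq] at h'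
    apply cell_inj h.rel h.symm h.det ht.1 ht'.1 (ht.2.trans ht'.2.symm) _ h'.2
    have := h'.1
    rw [← P.inv_inv t.2.2.2.1, this, P.inv_inv]
  have hsub : cells E R0 ⊆ (((cells (Ex E x) R0).image (fun t => (eMap Subtype.val t.1,
      eMap Subtype.val t.2.1, eMap Subtype.val t.2.2)) ∪
      (cells E R0).filter (fun t => t.1.1 = x)) ∪
      ((cells E R0).filter (fun t => t.1.1 = x)).image rot3) ∪
      ((cells E R0).filter (fun t => t.1.1 = x)).image (fun t => rot3 (rot3 t)) := by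
    intro t ht
    rw [Finset.mem_union, Finset.mem_union, Finset.mem_union]
    by_cases h1 : t.1.1 = x
    · exact Or.inl (Or.inl (Or.inr (Finset.mem_filter.mpr ⟨ht, h1⟩)))
    by_cases h3 : t.2.1.1 = x
    · right
      rw [Finset.mem_image]
      exact ⟨rot3 t, Finset.mem_filter.mpr ⟨rot_mem h.rel ht, h3⟩, rfl⟩
    by_cases h4 : t.2.2.1 = x
    · left; right
      rw [Finset.mem_image]
      exact ⟨rot3 (rot3 t), Finset.mem_filter.mpr ⟨rot_mem h.rel (rot_mem h.rel ht), h4⟩, rfl⟩
    · left; left; left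
      rw [Finset.mem_image]
      obtain ⟨t', ht', e1, e2, e3⟩ := cell_lift ht h1 h3 h4
      exact ⟨t', ht', Prod.ext e1 (Prod.ext e2 e3)⟩
  have h4 := Finset.card_le_card hsub
  have h5 := Finset.card_union_le (((cells (Ex E x) R0).image (fun t => (eMap Subtype.val t.1,
      eMap Subtype.val t.2.1, eMap Subtype.val t.2.2)) ∪
      (cells E R0).filter (fun t => t.1.1 = x)) ∪
      ((cells E R0).filter (fun t => t.1.1 = x)).image rot3)
      (((cells E R0).filter (fun t => t.1.1 = x)).image (fun t => rot3 (rot3 t)))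
  have h6 := Finset.card_union_le ((cells (Ex E x) R0).image (fun t => (eMap Subtype.val t.1,
      eMap Subtype.val t.2.1, eMap Subtype.val t.2.2)) ∪
      (cells E R0).filter (fun t => t.1.1 = x))
      (((cells E R0).filter (fun t => t.1.1 = x)).image rot3)
  have h7 := Finset.card_union_le ((cells (Ex E x) R0).image (fun t => (eMap Subtype.val t.1,
      eMap Subtype.val t.2.1, eMap Subtype.val t.2.2)))
      ((cells E R0).filter (fun t => t.1.1 = x))
  have h8 := Finset.card_image_le (s := cells (Ex E x) R0) (f := fun t => (eMap Subtype.val t.1,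
      eMap Subtype.val t.2.1, eMap Subtype.val t.2.2))
  have h9 := Finset.card_image_le (s := (cells E R0).filter (fun t => t.1.1 = x)) (f := rot3)
  have h10 := Finset.card_image_le (s := (cells E R0).filter (fun t => t.1.1 = x))
    (f := fun t => rot3 (rot3 t))
  omega

lemma phi_Ex [Fintype A] [Fintype V] {P : TriPres A} {E : Finset (V × A × V)}
    {R0 : Finset (A × A × A)} {x : V} {B : ℕ} (h : Hx P E R0 x)
    (hrem : Rem (Dl E x) (Kl P E R0 x) B) : phi B (Ex E x) R0 < phi B E R0 := by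
  have h1 := card_Ex h
  have h2 := card_cells_Ex h
  obtain ⟨_, h3, h4⟩ := hrem
  unfold phi
  have h1' : ((Ex E x).card : ℤ) + 2 * (Dl E x).card ≤ E.card := by exact_mod_cast h1
  have h2' : ((cells E R0).card : ℤ) ≤ (cells (Ex E x) R0).card + 3 * (Kl P E R0 x).card := by
    exact_mod_cast h2
  have h3' : ((Kl P E R0 x).card : ℤ) + 2 = 2 * (Dl E x).card := by exact_mod_cast h3
  have h4' : ((Dl E x).card : ℤ) ≤ B := by exact_mod_cast h4
  have hB : (0 : ℤ) ≤ B := by positivity
  have h5 : 3 * (B : ℤ) * ((Ex E x).card : ℤ) ≤ 3 * B * (E.card - 2 * (Dl E x).card) := by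
    apply mul_le_mul_of_nonneg_left _ (by positivity)
    linarith
  have h6 : ((B : ℤ) + 1) * (cells E R0).card ≤
      (B + 1) * ((cells (Ex E x) R0).card + 3 * (2 * (Dl E x).card - 2)) := by
    apply mul_le_mul_of_nonneg_left _ (by positivity)
    linarith
  nlinarith

/-! ### morphisms -/

lemma sj_Ex [Fintype A] [Fintype V] {P : TriPres A} {E : Finset (V × A × V)}
    {R0 : Finset (A × A × A)} {x : V} {B : ℕ} (h : Hx P E R0 x)
    (hrem : Rem (Dl E x) (Kl P E R0 x) B) (hS : Sj P E) : Sj P (Ex E x) := by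
  classical
  intro Ω X g' hg'
  have hne : (Dl E x).Nonempty := by
    rw [← Finset.card_pos]
    have := hrem.2.1
    omega
  obtain ⟨a0, ha0⟩ := hne
  -- neighbours
  have hnb : ∀ a, a ∈ Dl E x → ∃ y : Vx x, (x, a, y.1) ∈ E := by
    intro a ha
    obtain ⟨y, hy⟩ := mem_Dl.mp ha
    refine ⟨⟨y, fun hyx => h.nl a (by rw [hyx] at hy; exact hy)⟩, hy⟩
  choose y hy using hnb
  let hh : A → Ω := fun a => if ha : a ∈ Dl E x then X.σ (P.inv a) (g' (y a ha))
    else X.σ (P.inv a0) (g' (y a0 ha0))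
  have hhD : ∀ a (ha : a ∈ Dl E x), hh a = X.σ (P.inv a) (g' (y a ha)) := by
    intro a ha
    simp only [hh]
    rw [dif_pos ha]
  have hedge : ∀ a (w : Vx x), (x, a, w.1) ∈ E → hh a = X.σ (P.inv a) (g' w) := by
    intro a w hw
    have ha : a ∈ Dl E x := mem_Dl.mpr ⟨_, hw⟩
    have h1 := h.det _ hw _ (hy a ha) rfl rfl
    simp only [Prod.mk.injEq, true_and] at h1
    have h2 : w = y a ha := Subtype.ext h1
    rw [hhD a ha, h2]
  have hright : ∀ a ω, X.σ a (X.σ (P.inv a) ω) = ω := by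
    intro a ω
    have := X.inv_left (P.inv a) ω
    rwa [P.inv_inv] at this
  have hK : ∀ a b, (a, b) ∈ Kl P E R0 x → hh a = hh b := by
    intro a b hab
    obtain ⟨t, ht, h1, h2⟩ := mem_Kl.mp hab
    rw [mem_cells] at ht
    obtain ⟨⟨v1, l1, w1⟩, ⟨v2, l2, w2⟩, ⟨v3, l3, w3⟩⟩ := t
    obtain ⟨⟨a1, a2, a3⟩, a4, a5, a6, a7⟩ := ht
    simp only [Prod.mk.injEq] at *
    subst a4 a5 a6 h1
    obtain ⟨rfl, rfl⟩ := h2
    -- vertices: x = w3, w1, w2
    have n1 : w1 ≠ w3 := fun hh => h.nl l1 (by rw [hh] at a1; exact a1)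
    have n2 : w2 ≠ w3 := fun hh => h.nl l3 (by rw [hh] at a3; exact a3)
    have e1 := hedge l1 ⟨w1, n1⟩ a1
    have e3 := hedge (P.inv l3) ⟨w2, n2⟩ (h.symm _ a3)
    rw [e1, e3, P.inv_inv]
    have e2 : X.σ l2 (g' ⟨w1, n1⟩) = g' ⟨w2, n2⟩ :=
      hg' (⟨w1, n1⟩, l2, ⟨w2, n2⟩) (mem_Ex.mpr a2)
    rw [← e2]
    have hr := X.rel _ _ _ (X.σ (P.inv l1) (g' ⟨w1, n1⟩)) (h.rel.sub _ _ _ a7)
    rw [hright] at hr
    exact hr
  have hconst : ∀ a ∈ Dl E x, hh a = hh a0 := by
    by_contra hcon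
    push Not at hcon
    obtain ⟨b, hb, hbne⟩ := hcon
    obtain ⟨u, hu, v, hv, hvU, huv⟩ := hrem.1 ((Dl E x).filter (fun a => hh a = hh a0))
      (Finset.filter_subset _ _) ⟨a0, Finset.mem_filter.mpr ⟨ha0, rfl⟩⟩ (by
        intro heq
        rw [← heq, Finset.mem_filter] at hb
        exact hbne hb.2)
    rw [Finset.mem_filter] at hu
    apply hvU
    rw [Finset.mem_filter]
    exact ⟨hv, (hK u v huv).symm.trans hu.2⟩
  let g : V → Ω := fun v => if hv : v ≠ x then g' ⟨v, hv⟩ else hh a0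
  have hgx : g x = hh a0 := by simp only [g]; rw [dif_neg]; simp
  have hgv : ∀ w : Vx x, g w.1 = g' w := by
    intro w
    simp only [g]
    rw [dif_pos w.2]
  have hmor : ∀ e ∈ E, X.σ e.2.1 (g e.1) = g e.2.2 := by
    rintro ⟨v, a, w⟩ he
    simp only
    by_cases hv : v = x
    · subst hv
      have hw : w ≠ v := fun hh => h.nl a (by rw [hh] at he; exact he)
      have h1 := hedge a ⟨w, hw⟩ he
      rw [hgx, ← hconst a (mem_Dl.mpr ⟨w, he⟩), h1, hright]
      exact (hgv ⟨w, hw⟩).symm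
    · by_cases hw : w = x
      · subst hw
        have h1 := hedge (P.inv a) ⟨v, hv⟩ (h.symm _ he)
        rw [hgx, ← hconst (P.inv a) (mem_Dl.mpr ⟨v, h.symm _ he⟩), h1, P.inv_inv]
        rw [hgv ⟨v, hv⟩]
      · have := hg' (⟨v, hv⟩, a, ⟨w, hw⟩) (mem_Ex.mpr he)
        rw [hgv ⟨v, hv⟩, hgv ⟨w, hw⟩]
        exact this
  have hfin := hS Ω X g hmor
  intro v
  have h1 := hfin v.1
  rw [hgv v] at h1
  refine ⟨fun w => ?_, h1.2⟩
  have := h1.1 w.1
  rw [hgv w] at this
  exact this

/-! ### dimension -/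

open Classical in
/-- extension by zero of a function on the edges without `x` -/
noncomputable def ext (x : V) (f : Vx x × A × Vx x → ZMod 2) (e : V × A × V) : ZMod 2 :=
  if h : e.1 ≠ x ∧ e.2.2 ≠ x then f (⟨e.1, h.1⟩, e.2.1, ⟨e.2.2, h.2⟩) else 0

lemma ext_val (x : V) (f : Vx x × A × Vx x → ZMod 2) (e : Vx x × A × Vx x) :
    ext x f (eMap Subtype.val e) = f e := by
  unfold ext
  rw [dif_pos ⟨e.1.2, e.2.2.2⟩]
  rfl

lemma ext_add (x : V) (f g : Vx x × A × Vx x → ZMod 2) (e : V × A × V) :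
    ext x (f + g) e = ext x f e + ext x g e := by
  unfold ext
  split_ifs <;> simp

lemma ext_smul (x : V) (c : ZMod 2) (f : Vx x × A × Vx x → ZMod 2) (e : V × A × V) :
    ext x (c • f) e = c * ext x f e := by
  unfold ext
  split_ifs <;> simp

lemma ext_rev [Fintype A] [Fintype V] {P : TriPres A} {E : Finset (V × A × V)}
    {R0 : Finset (A × A × A)} {x : V} {f : Vx x × A × Vx x → ZMod 2}
    (hf : f ∈ Z P (Ex E x) R0) {e : V × A × V} (he : e ∈ E) :
    ext x f (rev P e) = ext x f e := by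
  rw [mem_Z] at hf
  by_cases h : e.1 ≠ x ∧ e.2.2 ≠ x
  · have h1 := hf.2.1 (⟨e.1, h.1⟩, e.2.1, ⟨e.2.2, h.2⟩) (mem_Ex.mpr he)
    unfold ext
    rw [dif_pos h, dif_pos (show (rev P e).1 ≠ x ∧ (rev P e).2.2 ≠ x from ⟨h.2, h.1⟩)]
    exact h1
  · unfold ext
    rw [dif_neg h, dif_neg (show ¬ ((rev P e).1 ≠ x ∧ (rev P e).2.2 ≠ x) from
      fun h' => h ⟨h'.2, h'.1⟩)]

open Classical in
/-- extension by zero of a function on letters -/
noncomputable def sx (D : Finset A) (s : D → ZMod 2) (a : A) : ZMod 2 :=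
  if h : a ∈ D then s ⟨a, h⟩ else 0

lemma sx_add (D : Finset A) (s s' : D → ZMod 2) (a : A) :
    sx D (s + s') a = sx D s a + sx D s' a := by
  unfold sx
  split_ifs <;> simp

lemma sx_smul (D : Finset A) (c : ZMod 2) (s : D → ZMod 2) (a : A) :
    sx D (c • s) a = c * sx D s a := by
  unfold sx
  split_ifs <;> simp

open Classical in
/-- the extension of a cocycle to the full graph -/
noncomputable def FF (P : TriPres A) (E : Finset (V × A × V)) (x : V)
    (f : Vx x × A × Vx x → ZMod 2) (s : (Dl E x) → ZMod 2) (e : V × A × V) : ZMod 2 :=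
  if e ∈ E then (if e.1 = x then sx (Dl E x) s e.2.1 else
    (if e.2.2 = x then sx (Dl E x) s (P.inv e.2.1) else ext x f e)) else 0

/-- the extension is a cocycle if the equations at the corners hold -/
lemma FF_mem [Fintype A] [Fintype V] {P : TriPres A} {E : Finset (V × A × V)}
    {R0 : Finset (A × A × A)} {x : V} (h : Hx P E R0 x)
    {f : Vx x × A × Vx x → ZMod 2} (hf : f ∈ Z P (Ex E x) R0) (s : (Dl E x) → ZMod 2)
    (heq : ∀ t ∈ cells E R0, t.1.1 = x →
      sx (Dl E x) s (P.inv t.2.2.2.1) + sx (Dl E x) s t.1.2.1 + ext x f t.2.1 = 0) :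
    FF P E x f s ∈ Z P E R0 := by
  classical
  have hnl : ∀ e ∈ E, e.1 = x → e.2.2 ≠ x := by
    intro e he h1 h2
    apply h.nl e.2.1
    have : e = (x, e.2.1, x) := Prod.ext h1 (Prod.ext rfl h2)
    rw [← this]
    exact he
  -- cells at x
  have hA : ∀ t ∈ cells E R0, t.1.1 = x →
      FF P E x f s t.1 + FF P E x f s t.2.1 + FF P E x f s t.2.2 = 0 := by
    intro t ht hx
    have h0 := heq t ht hx
    rw [mem_cells] at ht
    obtain ⟨⟨a1, a2, a3⟩, a4, a5, a6, a7⟩ := ht
    have n1 := hnl _ a1 hx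
    have n2 : t.2.2.1 ≠ x := fun hh => hnl _ a3 hh (a6.trans hx)
    have e1 : FF P E x f s t.1 = sx (Dl E x) s t.1.2.1 := by
      unfold FF
      rw [if_pos a1, if_pos hx]
    have e2 : FF P E x f s t.2.1 = ext x f t.2.1 := by
      unfold FF
      rw [if_pos a2, if_neg (by rw [← a4]; exact n1), if_neg (by rw [a5]; exact n2)]
    have e3 : FF P E x f s t.2.2 = sx (Dl E x) s (P.inv t.2.2.2.1) := by
      unfold FF
      rw [if_pos a3, if_neg n2, if_pos (a6.trans hx)]
    rw [e1, e2, e3, ← h0]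
    ring
  rw [mem_Z]
  refine ⟨fun e he => if_neg he, fun e he => ?_, fun t ht => ?_⟩
  · have he' := h.symm e he
    unfold FF
    rw [if_pos he, if_pos he']
    by_cases h1 : e.1 = x
    · have h2 := hnl e he h1
      rw [if_pos h1, if_neg (show ¬ (rev P e).1 = x from h2),
        if_pos (show (rev P e).2.2 = x from h1)]
      simp only [rev, P.inv_inv]
    · rw [if_neg h1]
      by_cases h2 : e.2.2 = x
      · rw [if_pos h2, if_pos (show (rev P e).1 = x from h2)]
        rfl
      · rw [if_neg h2, if_neg (show ¬ (rev P e).1 = x from h2),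
          if_neg (show ¬ (rev P e).2.2 = x from h1)]
        exact ext_rev hf he
  · by_cases h1 : t.1.1 = x
    · exact hA t ht h1
    by_cases h2 : t.2.1.1 = x
    · have := hA (rot3 t) (rot_mem h.rel ht) h2
      simp only [rot3] at this
      rw [← this]
      ring
    by_cases h3 : t.2.2.1 = x
    · have := hA (rot3 (rot3 t)) (rot_mem h.rel (rot_mem h.rel ht)) h3
      simp only [rot3] at this
      rw [← this]
      ring
    obtain ⟨t', ht', e1, e2, e3⟩ := cell_lift ht h1 h2 h3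
    rw [mem_Z] at hf
    have h5 := hf.2.2 t' ht'
    rw [mem_cells] at ht
    obtain ⟨⟨a1, a2, a3⟩, a4, a5, a6, a7⟩ := ht
    have f1 : FF P E x f s t.1 = f t'.1 := by
      unfold FF
      rw [if_pos a1, if_neg h1, if_neg (by rw [a4]; exact h2), ← e1, ext_val]
    have f2 : FF P E x f s t.2.1 = f t'.2.1 := by
      unfold FF
      rw [if_pos a2, if_neg h2, if_neg (by rw [a5]; exact h3), ← e2, ext_val]
    have f3 : FF P E x f s t.2.2 = f t'.2.2 := by
      unfold FF
      rw [if_pos a3, if_neg h3, if_neg (by rw [a6]; exact h1), ← e3, ext_val]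
    rw [f1, f2, f3]
    exact h5

lemma FF_add (P : TriPres A) (E : Finset (V × A × V)) (x : V)
    (f g : Vx x × A × Vx x → ZMod 2) (s s' : (Dl E x) → ZMod 2) (e : V × A × V) :
    FF P E x (f + g) (s + s') e = FF P E x f s e + FF P E x g s' e := by
  unfold FF
  split_ifs
  · exact sx_add _ _ _ _
  · exact sx_add _ _ _ _
  · exact ext_add _ _ _ _
  · simp

lemma FF_smul (P : TriPres A) (E : Finset (V × A × V)) (x : V) (c : ZMod 2)
    (f : Vx x × A × Vx x → ZMod 2) (s : (Dl E x) → ZMod 2) (e : V × A × V) :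
    FF P E x (c • f) (c • s) e = c * FF P E x f s e := by
  unfold FF
  split_ifs
  · exact sx_smul _ _ _ _
  · exact sx_smul _ _ _ _
  · exact ext_smul _ _ _ _
  · simp

lemma dim_Ex [Fintype A] [Fintype V] {P : TriPres A} {E : Finset (V × A × V)}
    {R0 : Finset (A × A × A)} {x : V} {B : ℕ} (h : Hx P E R0 x)
    (hrem : Rem (Dl E x) (Kl P E R0 x) B) :
    finrank (ZMod 2) (Z P (Ex E x) R0) + 1 ≤ finrank (ZMod 2) (Z P E R0) := by
  classical
  let φ := Fintype.equivFin A
  obtain ⟨K, hKdef⟩ : ∃ K, K = Kl P E R0 x := ⟨_, rfl⟩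
  obtain ⟨D, hDdef⟩ : ∃ D, D = Dl E x := ⟨_, rfl⟩
  let Kp : Finset (A × A) := K.filter (fun p => φ p.1 < φ p.2)
  have hKp : K.card = 2 * Kp.card := by
    have h1 : K = Kp ∪ Kp.image Prod.swap := by
      ext p
      rw [Finset.mem_union, Finset.mem_image]
      constructor
      · intro hp
        have hp' : (p.1, p.2) ∈ Kl P E R0 x := by rw [← hKdef]; exact hp
        have hne := Kl_ne h.rel hp'
        have hsw : (p.2, p.1) ∈ K := by rw [hKdef]; exact Kl_symm h.rel h.symm hp'
        have hne' : φ p.1 ≠ φ p.2 := fun hh => hne (φ.injective hh)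
        rcases lt_or_gt_of_ne hne' with hlt | hlt
        · exact Or.inl (Finset.mem_filter.mpr ⟨hp, hlt⟩)
        · exact Or.inr ⟨(p.2, p.1), Finset.mem_filter.mpr ⟨hsw, hlt⟩, rfl⟩
      · rintro (hp | ⟨q, hq, rfl⟩)
        · exact (Finset.mem_filter.mp hp).1
        · have hq' : (q.1, q.2) ∈ Kl P E R0 x := by
            rw [← hKdef]; exact (Finset.mem_filter.mp hq).1
          rw [hKdef]
          exact Kl_symm h.rel h.symm hq'
    have hdisj : Disjoint Kp (Kp.image Prod.swap) := by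
      rw [Finset.disjoint_left]
      intro p hp hp'
      rw [Finset.mem_image] at hp'
      obtain ⟨q, hq, rfl⟩ := hp'
      have h2 := (Finset.mem_filter.mp hp).2
      have h3 := (Finset.mem_filter.mp hq).2
      exact absurd h2 (not_lt.mpr h3.le)
    have h2 : K.card = (Kp ∪ Kp.image Prod.swap).card := congrArg Finset.card h1
    rw [h2, Finset.card_union_of_disjoint hdisj,
      Finset.card_image_of_injective _ Prod.swap_injective]
    ring
  have hcellK : ∀ p : Kp, ∃ t ∈ cells E R0, t.1.1 = x ∧ (P.inv t.2.2.2.1, t.1.2.1) = p.1 := by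
    intro p
    apply mem_Kl.mp
    rw [← hKdef]
    exact (Finset.mem_filter.mp p.2).1
  choose tc htc1 htc2 htc3 using hcellK
  let L : (Z P (Ex E x) R0 × ((Dl E x) → ZMod 2)) →ₗ[ZMod 2] (Kp → ZMod 2) :=
    { toFun := fun q p => sx (Dl E x) q.2 p.1.1 + sx (Dl E x) q.2 p.1.2 +
        ext x q.1.1 (tc p).2.1
      map_add' := by
        intro q q'
        funext p
        simp only [Prod.fst_add, Prod.snd_add, Submodule.coe_add, sx_add, ext_add, Pi.add_apply]
        ring
      map_smul' := by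
        intro c q
        funext p
        simp only [Prod.smul_fst, Prod.smul_snd, Submodule.coe_smul, sx_smul, ext_smul,
          Pi.smul_apply, RingHom.id_apply, smul_eq_mul]
        ring }
  have hker : finrank (ZMod 2) (Z P (Ex E x) R0) + (Dl E x).card ≤
      finrank (ZMod 2) (LinearMap.ker L) + Kp.card := by
    have h1 := LinearMap.finrank_range_add_finrank_ker L
    have h2 : finrank (ZMod 2) (LinearMap.range L) ≤ Kp.card := by
      refine (Submodule.finrank_le _).trans ?_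
      rw [Module.finrank_fintype_fun_eq_card, Fintype.card_coe]
    rw [Module.finrank_prod, Module.finrank_fintype_fun_eq_card, Fintype.card_coe] at h1
    omega
  have hT0 : ∀ q : LinearMap.ker L, ∀ t ∈ cells E R0, t.1.1 = x →
      sx (Dl E x) q.1.2 (P.inv t.2.2.2.1) + sx (Dl E x) q.1.2 t.1.2.1 +
        ext x q.1.1.1 t.2.1 = 0 := by
    intro q t ht hx
    have hq := q.2
    rw [LinearMap.mem_ker] at hq
    have hq' : ∀ p : Kp, sx (Dl E x) q.1.2 p.1.1 + sx (Dl E x) q.1.2 p.1.2 +
        ext x q.1.1.1 (tc p).2.1 = 0 := fun p => congrFun hq p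
    have hpK : (P.inv t.2.2.2.1, t.1.2.1) ∈ Kl P E R0 x := mem_Kl.mpr ⟨t, ht, hx, rfl⟩
    have hne := Kl_ne h.rel hpK
    have hne' : φ (P.inv t.2.2.2.1) ≠ φ t.1.2.1 := fun hh => hne (φ.injective hh)
    rcases lt_or_gt_of_ne hne' with hlt | hlt
    · have hp : (P.inv t.2.2.2.1, t.1.2.1) ∈ Kp :=
        Finset.mem_filter.mpr ⟨by rw [hKdef]; exact hpK, hlt⟩
      have h1 := hq' ⟨_, hp⟩
      have h2 := htc3 ⟨_, hp⟩
      simp only [Prod.mk.injEq] at h2
      have h3 : tc ⟨_, hp⟩ = t := by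
        apply cell_inj h.rel h.symm h.det (htc1 _) ht ((htc2 _).trans hx.symm) _ h2.2
        rw [← P.inv_inv (tc ⟨_, hp⟩).2.2.2.1, h2.1, P.inv_inv]
      rw [h3] at h1
      exact h1
    · have hsw := Kl_symm h.rel h.symm hpK
      have hp : (t.1.2.1, P.inv t.2.2.2.1) ∈ Kp :=
        Finset.mem_filter.mpr ⟨by rw [hKdef]; exact hsw, hlt⟩
      have h1 := hq' ⟨_, hp⟩
      have h2 := htc3 ⟨_, hp⟩
      simp only [Prod.mk.injEq] at h2
      have hfl := flip_mem h.rel h.symm ht
      have hx2 : (flip3 P t).1.1 = x := by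
        rw [mem_cells] at ht
        simp only [flip3, rev]
        rw [ht.2.2.2.1, hx]
      have h3 : tc ⟨_, hp⟩ = flip3 P t := by
        apply cell_inj h.rel h.symm h.det (htc1 _) hfl ((htc2 _).trans hx2.symm)
        · rw [← P.inv_inv (tc ⟨_, hp⟩).2.2.2.1, h2.1]
          rfl
        · rw [h2.2]
          rfl
      rw [h3] at h1
      have h4 : (flip3 P t).2.1 = rev P t.2.1 := rfl
      rw [h4, ext_rev q.1.1.2 ((mem_cells.mp ht).1.2.1)] at h1
      rw [← h1]
      ring
  let T : LinearMap.ker L →ₗ[ZMod 2] Z P E R0 :=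
    { toFun := fun q => ⟨FF P E x q.1.1.1 q.1.2, FF_mem h q.1.1.2 q.1.2 (hT0 q)⟩
      map_add' := by
        intro q q'
        apply Subtype.ext
        funext e
        exact FF_add P E x _ _ _ _ e
      map_smul' := by
        intro c q
        apply Subtype.ext
        funext e
        exact FF_smul P E x c _ _ e }
  have hT : Function.Injective T := by
    rw [← LinearMap.ker_eq_bot, LinearMap.ker_eq_bot']
    intro q hq
    have hq1 : ∀ e, FF P E x q.1.1.1 q.1.2 e = 0 := fun e =>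
      congrFun (congrArg Subtype.val hq) e
    have h1 : q.1.1.1 = 0 := by
      funext e
      by_cases he : e ∈ Ex E x
      · have h2 := hq1 (eMap Subtype.val e)
        unfold FF at h2
        rw [if_pos (mem_Ex.mp he), if_neg (show ¬ (eMap Subtype.val e).1 = x from e.1.2),
          if_neg (show ¬ (eMap Subtype.val e).2.2 = x from e.2.2.2), ext_val] at h2
        exact h2
      · have h3 := q.1.1.2
        rw [mem_Z] at h3
        exact h3.1 e he
    have h2 : q.1.2 = 0 := by
      funext a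
      obtain ⟨w, hw⟩ := mem_Dl.mp a.2
      have h3 := hq1 (x, a.1, w)
      unfold FF at h3
      rw [if_pos hw, if_pos rfl] at h3
      unfold sx at h3
      rw [dif_pos a.2] at h3
      exact h3
    apply Subtype.ext
    exact Prod.ext (Subtype.ext h1) h2
  have hle := LinearMap.finrank_le_finrank_of_injective hT
  have h3 := hrem.2.1
  rw [← hKdef] at h3
  omega

theorem targetRem : TargetRem := by
  intro A V _ _ P k r0 B g E R0 x hg hB hA hrem
  classical
  have hx : Hx P E R0 x := ⟨hA.symm, hA.det, hA.rel, no_loop hA.symm hA.rel hg (by omega) hrem⟩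
  have hD : (Dl E x).Nonempty := by
    rw [← Finset.card_pos]
    have := hrem.2.1
    omega
  obtain ⟨a, ha⟩ := hD
  obtain ⟨y, hy⟩ := mem_Dl.mp ha
  have hyx : y ≠ x := fun hh => hx.nl a (by rw [hh] at hy; exact hy)
  refine ⟨Vx x, inferInstance, Ex E x, ⟨symm_Ex hA.symm, det_Ex hA.det, hA.rel, hA.card,
    sj_Ex hx hrem hA.surj, ?_, ⟨⟨y, hyx⟩⟩⟩, phi_Ex hx hrem⟩
  have h1 := dim_Ex hx hrem
  have h2 := hA.dim
  have h3 : Fintype.card (Vx x) = Fintype.card V - 1 := by
    simp [Vx]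
  have h4 : 0 < Fintype.card V := Fintype.card_pos_iff.mpr ⟨x⟩
  omega

end Pool.Agent.HTRank.RemJ
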