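import Pool.Agent.HTRank.Defs

/-!
Job 5 (HT-TOP) for MP_e07d11_pr: the fundamental group of the geometric realization surjects onto
the edge-path group (in the form of actions). The covering space attached to an action is the set
of pairs (point `x`, compatible family of elements of `Ω` indexed by the support of `x`).
-/

set_option autoImplicit false

open Topology

namespace Pool.Agent.HTRank.Top

/-- `Option Ω` with the topology in which the points `some ω` are open. -/
def Opt (Ω : Type) : Type := Option Ω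

instance instOpt (Ω : Type) : TopologicalSpace (Opt Ω) :=
  TopologicalSpace.generateFrom (Set.range (fun ω : Ω => ({(some ω : Option Ω)} : Set (Option Ω))))

/-- The identity map. -/
def toOpt {Ω : Type} (q : Option Ω) : Opt Ω := q

theorem isOpen_some {Ω : Type} (ω : Ω) : IsOpen ({q | q = toOpt (some ω)} : Set (Opt Ω)) :=
  TopologicalSpace.isOpen_generateFrom_of_mem ⟨ω, rfl⟩

theorem continuous_opt {Y Ω : Type} [TopologicalSpace Y] (f : Y → Option Ω)
    (h : ∀ ω : Ω, IsOpen {y | f y = some ω}) : Continuous (fun y => toOpt (f y)) := by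
  refine continuous_generateFrom_iff.2 ?_
  rintro _ ⟨ω, rfl⟩
  exact h ω

variable {n : ℕ} {S : Finset (Finset (Fin n))} {v0 : Fin n} {Ω : Type}

/-- The total space of the covering attached to an action. -/
structure Cov (X : TAct n S v0 Ω) where
  x : geom n S
  o : Fin n → Option Ω
  nn : ∀ i, o i = none ↔ x.1 i = 0
  ta : ∀ i j ω, x.1 i ≠ 0 → x.1 j ≠ 0 → o i = some ω → o j = some (X.τ i j ω)

instance instCov (X : TAct n S v0 Ω) : TopologicalSpace (Cov X) :=
  TopologicalSpace.induced (fun e => (e.x, fun i => toOpt (e.o i))) inferInstance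

theorem continuous_emb (X : TAct n S v0 Ω) :
    Continuous (fun e : Cov X => ((e.x, fun i => toOpt (e.o i)) : geom n S × (Fin n → Opt Ω))) :=
  continuous_induced_dom

theorem continuous_proj (X : TAct n S v0 Ω) : Continuous (Cov.x (X := X)) :=
  continuous_fst.comp (continuous_emb X)

theorem isOpen_opt {X : TAct n S v0 Ω} (i : Fin n) (ω : Ω) :
    IsOpen {e : Cov X | e.o i = some ω} := by
  have h : Continuous (fun e : Cov X => toOpt (e.o i)) :=
    (continuous_apply i).comp (continuous_snd.comp (continuous_emb X))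
  exact (isOpen_some ω).preimage h

theorem cov_ext {X : TAct n S v0 Ω} {e e' : Cov X} (h : e.x = e'.x) (i : Fin n)
    (hi : e.x.1 i ≠ 0) (ho : e.o i = e'.o i) : e = e' := by
  obtain ⟨ω, hω⟩ : ∃ ω, e.o i = some ω := by
    cases hc : e.o i with
    | none => exact absurd ((e.nn i).1 hc) hi
    | some ω => exact ⟨ω, rfl⟩
  have h2 : e.o = e'.o := by
    funext j
    by_cases hj : e.x.1 j = 0
    · rw [(e.nn j).2 hj, (e'.nn j).2 (h ▸ hj)]
    · rw [e.ta i j ω hi hj hω, e'.ta i j ω (h ▸ hi) (h ▸ hj) (ho ▸ hω)]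
  cases e; cases e'
  cases h; cases h2
  rfl

/-- The value of the family at a vertex of the support. -/
noncomputable def val {X : TAct n S v0 Ω} (i : Fin n) (e : {e : Cov X // e.x.1 i ≠ 0}) :
    Ω :=
  (e.1.o i).get (by
    rw [Option.isSome_iff_ne_none]
    exact fun h => e.2 ((e.1.nn i).1 h))

theorem some_val {X : TAct n S v0 Ω} (i : Fin n) (e : {e : Cov X // e.x.1 i ≠ 0}) :
    some (val i e) = e.1.o i := Option.some_get _

theorem continuous_val {X : TAct n S v0 Ω} [TopologicalSpace Ω] [DiscreteTopology Ω]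
    (i : Fin n) : Continuous (val (X := X) i) := by
  refine continuous_discrete_rng.2 fun ω => ?_
  have : (val (X := X) i) ⁻¹' {ω} = Subtype.val ⁻¹' {e : Cov X | e.o i = some ω} := by
    ext e
    change val i e = ω ↔ e.1.o i = some ω
    rw [← some_val i e]
    simp
  rw [this]
  exact (isOpen_opt i ω).preimage continuous_subtype_val

theorem cocycle (hS : ∀ t ∈ S, t.card = 3) (X : TAct n S v0 Ω) (x : geom n S) (i j k : Fin n)
    (hi : x.1 i ≠ 0) (hj : x.1 j ≠ 0) (hk : x.1 k ≠ 0) (ω : Ω) :
    X.τ j k (X.τ i j ω) = X.τ i k ω := by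
  by_cases hij : i = j
  · subst hij; rw [X.refl]
  by_cases hjk : j = k
  · subst hjk; rw [X.refl]
  by_cases hik : i = k
  · subst hik; rw [X.inv, X.refl]
  have hsub : ({i, j, k} : Finset (Fin n)) ⊆ Finset.univ.filter (fun l => x.1 l ≠ 0) := by
    intro l hl
    simp only [Finset.mem_insert, Finset.mem_singleton] at hl
    simp only [Finset.mem_filter, Finset.mem_univ, true_and]
    rcases hl with rfl | rfl | rfl <;> assumption
  have h3 : ({i, j, k} : Finset (Fin n)).card = 3 := by
    rw [Finset.card_eq_three]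
    exact ⟨i, j, k, hij, hik, hjk, rfl⟩
  have hle := Finset.card_le_card hsub
  rcases x.2.2.2 with h | h
  · omega
  · have : ({i, j, k} : Finset (Fin n)) = Finset.univ.filter (fun l => x.1 l ≠ 0) :=
      Finset.eq_of_subset_of_card_le hsub (by rw [hS _ h, h3])
    exact X.tri i j k (this ▸ h) ω

open Classical in
/-- The point over `x` whose value at the vertex `i` is `ω`. -/
noncomputable def pt (hS : ∀ t ∈ S, t.card = 3) (X : TAct n S v0 Ω) (i : Fin n)
    (x : {x : geom n S // x.1 i ≠ 0}) (ω : Ω) : Cov X where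
  x := x.1
  o := fun j => if x.1.1 j = 0 then none else some (X.τ i j ω)
  nn := by
    intro j
    by_cases h : x.1.1 j = 0
    · simp [h]
    · simp [h]
  ta := by
    intro j k ω' hj hk h
    rw [if_neg hj] at h
    rw [if_neg hk]
    have h1 : X.τ i j ω = ω' := Option.some.inj h
    rw [← h1, cocycle hS X x.1 i j k x.2 hj hk]

theorem opt_pt (hS : ∀ t ∈ S, t.card = 3) (X : TAct n S v0 Ω) (i : Fin n)
    (x : {x : geom n S // x.1 i ≠ 0}) (ω : Ω) (j : Fin n) (hj : x.1.1 j ≠ 0) :
    (pt hS X i x ω).o j = some (X.τ i j ω) := if_neg hj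

theorem opt_pt_self (hS : ∀ t ∈ S, t.card = 3) (X : TAct n S v0 Ω) (i : Fin n)
    (x : {x : geom n S // x.1 i ≠ 0}) (ω : Ω) :
    (pt hS X i x ω).o i = some ω := by
  rw [opt_pt hS X i x ω i x.2, X.refl]

theorem continuous_pt (hS : ∀ t ∈ S, t.card = 3) (X : TAct n S v0 Ω) [TopologicalSpace Ω]
    [DiscreteTopology Ω] (i : Fin n) :
    Continuous (fun p : {x : geom n S // x.1 i ≠ 0} × Ω => pt hS X i p.1 p.2) := by
  refine continuous_induced_rng.2 ?_
  refine Continuous.prodMk (continuous_subtype_val.comp continuous_fst) ?_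
  refine continuous_pi fun j => ?_
  refine continuous_opt _ fun ω' => ?_
  have : {y : {x : geom n S // x.1 i ≠ 0} × Ω | (pt hS X i y.1 y.2).o j = some ω'} =
      (fun y : {x : geom n S // x.1 i ≠ 0} × Ω => y.1.1.1 j) ⁻¹' {0}ᶜ ∩
      (fun y : {x : geom n S // x.1 i ≠ 0} × Ω => y.2) ⁻¹' {ω | X.τ i j ω = ω'} := by
    ext y
    change (pt hS X i y.1 y.2).o j = some ω' ↔ y.1.1.1 j ≠ 0 ∧ X.τ i j y.2 = ω'
    by_cases h : y.1.1.1 j = 0
    · simp [pt, h]
    · rw [opt_pt _ _ _ _ _ _ h]
      simp [h]
  have hc : Continuous (fun y : {x : geom n S // x.1 i ≠ 0} × Ω => y.1.1.1 j) :=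
    (continuous_apply j).comp (continuous_subtype_val.comp
      (continuous_subtype_val.comp continuous_fst))
  have h1 : IsOpen ((fun y : {x : geom n S // x.1 i ≠ 0} × Ω => y.1.1.1 j) ⁻¹' {0}ᶜ) :=
    isOpen_compl_singleton.preimage hc
  have h2 : IsOpen ((fun y : {x : geom n S // x.1 i ≠ 0} × Ω => y.2) ⁻¹'
      {ω | X.τ i j ω = ω'}) :=
    (isOpen_discrete {ω | X.τ i j ω = ω'}).preimage continuous_snd
  have ho := h1.inter h2
  rw [← this] at ho
  exact ho

theorem isOpen_star (i : Fin n) : IsOpen {x : geom n S | x.1 i ≠ 0} :=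
  isOpen_compl_singleton.preimage ((continuous_apply i).comp continuous_subtype_val)

theorem exists_supp (x : geom n S) : ∃ i, x.1 i ≠ 0 := by
  by_contra h
  push Not at h
  have h1 := x.2.2.1
  rw [Finset.sum_eq_zero (fun i _ => h i)] at h1
  exact zero_ne_one h1

/-- The projection is a covering map. -/
theorem isCov (hS : ∀ t ∈ S, t.card = 3) (X : TAct n S v0 Ω) : IsCoveringMap (Cov.x (X := X)) := by
  let _ : TopologicalSpace Ω := ⊥
  have _ : DiscreteTopology Ω := ⟨rfl⟩
  intro x
  obtain ⟨i, hi⟩ := exists_supp x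
  refine IsEvenlyCovered.to_isEvenlyCovered_preimage (I := Ω)
    ⟨inferInstance, {x : geom n S | x.1 i ≠ 0}, hi, isOpen_star i,
      (isOpen_star i).preimage (continuous_proj X), ?_⟩
  refine ⟨{ toFun := fun e => (⟨e.1.x, e.2⟩, val i e)
            invFun := fun p => ⟨pt hS X i p.1 p.2, p.1.2⟩
            left_inv := ?_
            right_inv := ?_
            continuous_toFun := ?_
            continuous_invFun := ?_ }, fun _ => rfl⟩
  · intro e
    refine Subtype.ext ?_
    refine cov_ext (i := i) rfl e.2 ?_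
    dsimp only
    rw [opt_pt_self, some_val i e]
  · intro p
    refine Prod.ext rfl ?_
    have := some_val i (⟨pt hS X i p.1 p.2, p.1.2⟩ : {e : Cov X // e.x.1 i ≠ 0})
    dsimp only at this
    rw [opt_pt_self] at this
    exact Option.some.inj this
  · exact (((continuous_proj X).comp continuous_subtype_val).subtype_mk _).prodMk
      (continuous_val i)
  · exact (continuous_pt hS X i).subtype_mk _

/-! ### Reading words along paths -/

theorem const_on {X : TAct n S v0 Ω} (Γ : C(unitInterval, Cov X)) (i : Fin n)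
    (s : Set unitInterval) (hs : IsPreconnected s) (h : ∀ t ∈ s, (Γ t).x.1 i ≠ 0)
    (t t' : unitInterval) (ht : t ∈ s) (ht' : t' ∈ s) : (Γ t).o i = (Γ t').o i := by
  let _ : TopologicalSpace Ω := ⊥
  have _ : DiscreteTopology Ω := ⟨rfl⟩
  have _ : PreconnectedSpace s := Subtype.preconnectedSpace hs
  have hc : Continuous (fun u : s => val (X := X) i ⟨Γ u.1, h u.1 u.2⟩) :=
    (continuous_val i).comp ((Γ.continuous.comp continuous_subtype_val).subtype_mk _)
  have := PreconnectedSpace.constant (inferInstance : PreconnectedSpace s) hc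
    (x := ⟨t, ht⟩) (y := ⟨t', ht'⟩)
  have h2 := congrArg (some : Ω → Option Ω) this
  rw [some_val, some_val] at h2
  exact h2

theorem word_append {X : TAct n S v0 Ω} (w w' : List (Fin n × Fin n)) (ω : Ω) :
    X.word (w ++ w') ω = X.word w' (X.word w ω) := by
  induction w generalizing ω with
  | nil => rfl
  | cons p l ih => exact ih (X.τ p.1 p.2 ω)

/-- The word `w` describes the lifts of the path `γ` up to time `t`, from the value at the vertex
`i` to the value at the vertex `j`. -/
def Reads (v0 : Fin n) (γ : C(unitInterval, geom n S)) (i j : Fin n) (t : unitInterval)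
    (w : List (Fin n × Fin n)) : Prop :=
  ∀ (Ω : Type) (X : TAct n S v0 Ω) (Γ : C(unitInterval, Cov X)), (∀ u, (Γ u).x = γ u) →
    ∀ ω, (Γ 0).o i = some ω → (Γ t).o j = some (X.word w ω)

theorem exists_reads (v0 : Fin n) (γ : C(unitInterval, geom n S)) (i j : Fin n)
    (hi : (γ 0).1 i ≠ 0) (hj : (γ 1).1 j ≠ 0) : ∃ w, Reads v0 γ i j 1 w := by
  obtain ⟨t, t0, tm, ⟨m, hm⟩, hsub⟩ := exists_monotone_Icc_subset_open_cover_unitInterval
    (c := fun i : Fin n => γ ⁻¹' {x : geom n S | x.1 i ≠ 0})
    (fun i => (isOpen_star i).preimage γ.continuous)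
    (fun u _ => by
      obtain ⟨i, hi⟩ := exists_supp (γ u)
      exact Set.mem_iUnion.2 ⟨i, hi⟩)
  have key : ∀ k : ℕ, ∃ (i' : Fin n) (w : List (Fin n × Fin n)), (γ (t k)).1 i' ≠ 0 ∧
      Reads v0 γ i i' (t k) w := by
    intro k
    induction k with
    | zero =>
      refine ⟨i, [], by rw [t0]; exact hi, ?_⟩
      intro Ω X Γ _ ω hω
      rw [t0]; exact hω
    | succ k ih =>
      obtain ⟨i', w, hi', hw⟩ := ih
      obtain ⟨c, hc⟩ := hsub k
      have hk1 : t k ∈ Set.Icc (t k) (t (k + 1)) := ⟨le_rfl, tm (Nat.le_succ k)⟩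
      have hk2 : t (k + 1) ∈ Set.Icc (t k) (t (k + 1)) := ⟨tm (Nat.le_succ k), le_rfl⟩
      refine ⟨c, w ++ [(i', c)], hc hk2, ?_⟩
      intro Ω X Γ hΓ ω hω
      have h1 := hw Ω X Γ hΓ ω hω
      have hck : (γ (t k)).1 c ≠ 0 := hc hk1
      have h2 := (Γ (t k)).ta i' c _ (by rw [hΓ]; exact hi') (by rw [hΓ]; exact hck) h1
      rw [word_append]
      rw [← const_on Γ c (Set.Icc (t k) (t (k + 1))) isPreconnected_Icc
        (fun u hu => by rw [hΓ]; exact hc hu) _ _ hk1 hk2]
      exact h2
  obtain ⟨i', w, hi', hw⟩ := key m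
  rw [hm m le_rfl] at hi' hw
  refine ⟨w ++ [(i', j)], ?_⟩
  intro Ω X Γ hΓ ω hω
  rw [word_append]
  exact (Γ 1).ta i' j _ (by rw [hΓ]; exact hi') (by rw [hΓ]; exact hj) (hw Ω X Γ hΓ ω hω)

/-! ### Segments in stars -/

/-- The segment from `x` to the vertex `a`. -/
noncomputable def segFun (x : Fin n → ℝ) (a : Fin n) (t : ℝ) : Fin n → ℝ :=
  fun b => (1 - t) * x b + t * (if b = a then 1 else 0)

theorem segFun_mem (x : geom n S) (a : Fin n) (ha : x.1 a ≠ 0) (t : unitInterval) :
    segFun x.1 a t ∈ geom n S := by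
  obtain ⟨h0, h1, h2⟩ := x.2
  have t0 := t.2.1
  have t1 := t.2.2
  refine ⟨fun i => ?_, ?_, ?_⟩
  · unfold segFun
    have := h0 i
    have h3 : 0 ≤ (1 - (t : ℝ)) * x.1 i := mul_nonneg (by linarith) this
    have h4 : (0 : ℝ) ≤ t * (if i = a then 1 else 0) := by
      split_ifs
      · simpa using t0
      · simp
    linarith
  · unfold segFun
    rw [Finset.sum_add_distrib, ← Finset.mul_sum, ← Finset.mul_sum, h1]
    simp
  · by_cases ht : (t : ℝ) = 1
    · left
      have : Finset.univ.filter (fun i => segFun x.1 a t i ≠ 0) ⊆ {a} := by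
        intro i hi
        simp only [Finset.mem_filter, Finset.mem_univ, true_and] at hi
        by_contra hia
        apply hi
        rw [Finset.mem_singleton] at hia
        simp [segFun, ht, hia]
      exact (Finset.card_le_card this).trans (by simp)
    · have : Finset.univ.filter (fun i => segFun x.1 a t i ≠ 0) =
          Finset.univ.filter (fun i => x.1 i ≠ 0) := by
        ext i
        simp only [Finset.mem_filter, Finset.mem_univ, true_and]
        have h5 : 1 - (t : ℝ) ≠ 0 := fun h => ht (by linarith)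
        by_cases hia : i = a
        · subst hia
          refine ⟨fun _ => ha, fun _ => ?_⟩
          have h6 : 0 < x.1 i := lt_of_le_of_ne (h0 i) (Ne.symm ha)
          have h7 : 0 < 1 - (t : ℝ) := lt_of_le_of_ne (by linarith) (Ne.symm h5)
          have h8 : 0 < (1 - (t : ℝ)) * x.1 i := mul_pos h7 h6
          unfold segFun
          rw [if_pos rfl]
          intro h9
          linarith
        · simp [segFun, hia, h5]
      rw [this]
      exact h2

/-- The segment as a point of the star of `a`. -/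
noncomputable def seg (x : geom n S) (a : Fin n) (ha : x.1 a ≠ 0) (t : unitInterval) :
    {x : geom n S // x.1 a ≠ 0} :=
  ⟨⟨segFun x.1 a t, segFun_mem x a ha t⟩, by
    have h6 : 0 < x.1 a := lt_of_le_of_ne (x.2.1 a) (Ne.symm ha)
    have t0 := t.2.1
    have t1 := t.2.2
    have h8 : 0 ≤ (1 - (t : ℝ)) * x.1 a := mul_nonneg (by linarith) h6.le
    change segFun x.1 a t a ≠ 0
    unfold segFun
    rw [if_pos rfl]
    intro h9
    have h10 : (t : ℝ) = 0 := by linarith
    rw [h10] at h9
    linarith⟩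

theorem continuous_seg (x : geom n S) (a : Fin n) (ha : x.1 a ≠ 0) :
    Continuous (seg x a ha) := by
  refine (Continuous.subtype_mk (Continuous.subtype_mk ?_ _) _)
  refine continuous_pi fun b => ?_
  unfold segFun
  fun_prop

/-- The vertex `a` as a point of the geometric realization. -/
noncomputable def vert (n : ℕ) (S : Finset (Finset (Fin n))) (a : Fin n) : geom n S :=
  ⟨fun b => if b = a then 1 else 0, by
    refine ⟨fun i => ?_, ?_, Or.inl ?_⟩
    · change (0 : ℝ) ≤ if i = a then 1 else 0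
      split_ifs <;> norm_num
    · simp
    · have : Finset.univ.filter (fun i => (if i = a then (1 : ℝ) else 0) ≠ 0) ⊆ {a} := by
        intro i hi
        simp only [Finset.mem_filter, Finset.mem_univ, true_and] at hi
        by_contra hia
        apply hi
        rw [Finset.mem_singleton] at hia
        simp [hia]
      exact (Finset.card_le_card this).trans (by simp)⟩

theorem vert_ne (a : Fin n) : (vert n S a).1 a ≠ 0 := by
  change (if a = a then (1 : ℝ) else 0) ≠ 0
  rw [if_pos rfl]; exact one_ne_zero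

theorem joined_pt (hS : ∀ t ∈ S, t.card = 3) (X : TAct n S v0 Ω) (x : geom n S) (a : Fin n)
    (ha : x.1 a ≠ 0) (ω : Ω) :
    Joined (pt hS X a ⟨x, ha⟩ ω) (pt hS X a ⟨vert n S a, vert_ne a⟩ ω) := by
  let _ : TopologicalSpace Ω := ⊥
  have _ : DiscreteTopology Ω := ⟨rfl⟩
  refine ⟨⟨⟨fun t => pt hS X a (seg x a ha t) ω, ?_⟩, ?_, ?_⟩⟩
  · exact (continuous_pt hS X a).comp ((continuous_seg x a ha).prodMk continuous_const)
  · have : seg x a ha 0 = ⟨x, ha⟩ := by
      refine Subtype.ext (Subtype.ext (funext fun b => ?_))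
      change segFun x.1 a _ b = _
      simp [segFun]
    change pt hS X a (seg x a ha 0) ω = _
    rw [this]
  · have : seg x a ha 1 = ⟨vert n S a, vert_ne a⟩ := by
      refine Subtype.ext (Subtype.ext (funext fun b => ?_))
      change segFun x.1 a _ b = (if b = a then (1 : ℝ) else 0)
      simp [segFun]
    change pt hS X a (seg x a ha 1) ω = _
    rw [this]

/-- The midpoint of two vertices. -/
noncomputable def mid (n : ℕ) (S : Finset (Finset (Fin n))) (i j : Fin n) (hij : i ≠ j) :
    geom n S :=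
  ⟨fun b => if b = i ∨ b = j then 1 / 2 else 0, by
    have hset : Finset.univ.filter (fun b => b = i ∨ b = j) = {i, j} := by
      ext b; simp
    refine ⟨fun b => ?_, ?_, Or.inl ?_⟩
    · change (0 : ℝ) ≤ if b = i ∨ b = j then 1 / 2 else 0
      split_ifs <;> norm_num
    · rw [← Finset.sum_filter, hset, Finset.sum_pair hij]; norm_num
    · have : Finset.univ.filter (fun b => (if b = i ∨ b = j then (1 / 2 : ℝ) else 0) ≠ 0) ⊆
          {i, j} := by
        rw [← hset]
        intro b hb
        simp only [Finset.mem_filter, Finset.mem_univ, true_and] at hb ⊢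
        by_contra hia
        apply hb
        rw [if_neg hia]
      exact (Finset.card_le_card this).trans Finset.card_le_two⟩

theorem joined_vert (hS : ∀ t ∈ S, t.card = 3) (X : TAct n S v0 Ω) (i j : Fin n) (ω : Ω) :
    Joined (pt hS X i ⟨vert n S i, vert_ne i⟩ ω)
      (pt hS X j ⟨vert n S j, vert_ne j⟩ (X.τ i j ω)) := by
  by_cases hij : i = j
  · subst hij
    rw [X.refl]
  · have hi : (mid n S i j hij).1 i ≠ 0 := by
      change (if i = i ∨ i = j then (1 / 2 : ℝ) else 0) ≠ 0
      rw [if_pos (Or.inl rfl)]; norm_num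
    have hj : (mid n S i j hij).1 j ≠ 0 := by
      change (if j = i ∨ j = j then (1 / 2 : ℝ) else 0) ≠ 0
      rw [if_pos (Or.inr rfl)]; norm_num
    have h1 := joined_pt hS X (mid n S i j hij) i hi ω
    have h2 := joined_pt hS X (mid n S i j hij) j hj (X.τ i j ω)
    have h3 : pt hS X i ⟨mid n S i j hij, hi⟩ ω = pt hS X j ⟨mid n S i j hij, hj⟩ (X.τ i j ω) := by
      refine cov_ext (i := j) rfl hj ?_
      rw [opt_pt_self, opt_pt _ _ _ _ _ _ hj]
    rw [← h3] at h2
    exact h1.symm.trans h2

theorem tau_root' (X : TAct n S v0 Ω) (j : Fin n) (ω : Ω) : X.τ j v0 ω = ω := by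
  have := X.inv v0 j ω
  rwa [X.root] at this

theorem joined_main (hS : ∀ t ∈ S, t.card = 3) (X : TAct n S v0 Ω) (x : geom n S) (a : Fin n)
    (ha : x.1 a ≠ 0) (i j : Fin n) (ω : Ω) :
    Joined (pt hS X a ⟨x, ha⟩ ω) (pt hS X a ⟨x, ha⟩ (X.τ i j ω)) := by
  have h1 := joined_pt hS X x a ha ω
  have h2 := joined_vert hS X a v0 ω
  rw [tau_root'] at h2
  have h3 := joined_vert hS X v0 i ω
  rw [X.root] at h3
  have h4 := joined_vert hS X i j ω
  have h5 := joined_vert hS X j v0 (X.τ i j ω)
  rw [tau_root'] at h5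
  have h6 := joined_vert hS X v0 a (X.τ i j ω)
  rw [X.root] at h6
  have h7 := joined_pt hS X x a ha (X.τ i j ω)
  exact ((((((h1.trans h2).trans h3).trans h4).trans h5).trans h6).trans h7.symm)

/-- Job 5. -/
theorem targetTop : TargetTop := by
  intro n S v0 hS x s hs
  obtain ⟨a, ha⟩ := exists_supp x
  have hrep : ∀ g : FundamentalGroup (geom n S) x, ∃ (γ : Path x x) (w : List (Fin n × Fin n)),
      (Path.Homotopic.Quotient.mk γ : FundamentalGroup (geom n S) x) = g ∧
      Reads v0 γ.toContinuousMap a a 1 w := by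
    intro g
    obtain ⟨γ, hγ⟩ := Quotient.exists_rep g
    obtain ⟨w, hw⟩ := exists_reads v0 γ.toContinuousMap a a
      (by
        change (γ 0).1 a ≠ 0
        rw [γ.source]; exact ha)
      (by
        change (γ 1).1 a ≠ 0
        rw [γ.target]; exact ha)
    exact ⟨γ, w, hγ, hw⟩
  choose γ w hγ hw using hrep
  refine ⟨fun k => w (s.equivFin.symm k).1, ?_⟩
  intro Ω X ω hfix i j
  have cov := isCov hS X
  let e : Cov.x (X := X) ⁻¹' {x} := ⟨pt hS X a ⟨x, ha⟩ ω, rfl⟩
  -- every generator fixes `e`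
  have h1 : ∀ g ∈ s, cov.monodromyPerm x g e = e := by
    intro g hg
    have hwfix : X.word (w g) ω = ω := by
      have := hfix (s.equivFin ⟨g, hg⟩)
      dsimp only at this
      rw [Equiv.symm_apply_apply] at this
      exact this
    rw [← hγ g]
    have h2 : (γ g).toContinuousMap 0 = Cov.x (X := X) e.1 := (γ g).source
    refine Subtype.ext ?_
    change cov.liftPath (γ g).toContinuousMap e.1 h2 1 = e.1
    have h3 := cov.liftPath_lifts (γ g).toContinuousMap e.1 h2
    have h4 := cov.liftPath_zero (γ g).toContinuousMap e.1 h2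
    have h5 := hw g Ω X (cov.liftPath (γ g).toContinuousMap e.1 h2) (fun u => congrFun h3 u) ω
      (by rw [h4]; exact opt_pt_self hS X a ⟨x, ha⟩ ω)
    have h6 : (cov.liftPath (γ g).toContinuousMap e.1 h2 1).x = x :=
      (congrFun h3 1).trans (γ g).target
    refine cov_ext (i := a) h6 (by rw [h6]; exact ha) ?_
    rw [h5, hwfix]
    exact (opt_pt_self hS X a ⟨x, ha⟩ ω).symm
  -- the stabiliser
  have h2 : ∀ g : FundamentalGroup (geom n S) x, cov.monodromyPerm x g e = e := by
    intro g
    have hle : Subgroup.closure (s : Set (FundamentalGroup (geom n S) x)) ≤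
        (MulAction.stabilizer (Equiv.Perm (Cov.x (X := X) ⁻¹' {x})) e).comap
          (cov.monodromyPerm x) := by
      rw [Subgroup.closure_le]
      intro g hg
      exact h1 g hg
    rw [hs] at hle
    exact hle (Subgroup.mem_top g)
  obtain ⟨Γ⟩ := joined_main hS X x a ha i j ω
  have h3 := cov.monodromy_map (Path.Homotopic.Quotient.mk Γ)
  have h4 := h2 ((Path.Homotopic.Quotient.mk Γ).map ⟨Cov.x, cov.continuous⟩)
  have h5 : pt hS X a ⟨x, ha⟩ (X.τ i j ω) = pt hS X a ⟨x, ha⟩ ω :=
    (congrArg Subtype.val h3).symm.trans (congrArg Subtype.val h4)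
  have h6 := congrArg (fun e : Cov X => e.o a) h5
  rw [opt_pt_self, opt_pt_self] at h6
  exact Option.some.inj h6

end Pool.Agent.HTRank.Top
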