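import Pool.Agent.HTRank.UnionB

/-!
Union bounds for the random hypertree: the final statement.
-/

set_option autoImplicit false

open Finset

namespace Pool.Agent.HTRank.Union

/-- Choice of the constant `κ`. -/
lemma exists_kappa (η : ℝ) (hη : 0 < η) (hη1 : η ≤ 1) : ∃ κ : ℝ, 0 < κ ∧ κ ≤ 1 ∧
    Real.exp 1 * (3 / 2 * Real.exp 1) ^ 2 * κ ^ (η / 2) ≤ 1 / 2 ∧
    3 / 2 * Real.exp 1 * κ ≤ 1 := by
  have he : Real.exp 1 < 2.7182818286 := Real.exp_one_lt_d9
  have he' : 2.7182818283 < Real.exp 1 := Real.exp_one_gt_d9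
  set C : ℝ := Real.exp 1 * (3 / 2 * Real.exp 1) ^ 2 with hC
  have hC0 : 0 < C := by positivity
  have hC1 : 3 / 2 * Real.exp 1 ≤ 2 * C := by
    rw [hC]
    nlinarith [mul_pos (Real.exp_pos 1) (Real.exp_pos 1)]
  have hC2 : 1 ≤ 2 * C := by linarith
  have hx0 : 0 < 1 / (2 * C) := by positivity
  have hx1 : 1 / (2 * C) ≤ 1 := by
    rw [div_le_one (by positivity)]
    exact hC2
  have hk : (1 / (2 * C)) ^ (2 / η) ≤ 1 / (2 * C) := by
    calc (1 / (2 * C)) ^ (2 / η) ≤ (1 / (2 * C)) ^ (1 : ℝ) := by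
          apply Real.rpow_le_rpow_of_exponent_ge hx0 hx1
          rw [le_div_iff₀ hη]
          linarith
      _ = _ := Real.rpow_one _
  refine ⟨(1 / (2 * C)) ^ (2 / η), by positivity, hk.trans hx1, ?_, ?_⟩
  · rw [← Real.rpow_mul hx0.le, show 2 / η * (η / 2) = 1 by field_simp, Real.rpow_one]
    rw [mul_one_div, div_le_div_iff₀ (by positivity) (by norm_num)]
    linarith
  · calc 3 / 2 * Real.exp 1 * (1 / (2 * C)) ^ (2 / η) ≤ 3 / 2 * Real.exp 1 * (1 / (2 * C)) :=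
          mul_le_mul_of_nonneg_left hk (by positivity)
      _ ≤ 1 := by
        rw [mul_one_div, div_le_one (by positivity)]
        exact hC1

/-- Choice of the constant `ζ`. -/
lemma exists_zeta (κ : ℝ) (hκ : 0 < κ) (hκ1 : κ ≤ 1) : ∃ ζ : ℝ, 0 < ζ ∧ ζ ≤ 1 ∧
    6 * Real.exp 1 * ζ / κ ≤ 1 ∧ (6 * Real.exp 1 * ζ / κ) ^ (κ / 2) ≤ 1 / 4 := by
  have he' : 2.7182818283 < Real.exp 1 := Real.exp_one_gt_d9
  have h1 : ((1 : ℝ) / 4) ^ (2 / κ) ≤ 1 :=
    Real.rpow_le_one (by norm_num) (by norm_num) (by positivity)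
  have h0 : 0 < ((1 : ℝ) / 4) ^ (2 / κ) := by positivity
  have e : 6 * Real.exp 1 * (κ / (6 * Real.exp 1) * ((1 : ℝ) / 4) ^ (2 / κ)) / κ =
      ((1 : ℝ) / 4) ^ (2 / κ) := by
    field_simp
  refine ⟨κ / (6 * Real.exp 1) * ((1 : ℝ) / 4) ^ (2 / κ), by positivity, ?_, ?_, ?_⟩
  · have h2 : κ / (6 * Real.exp 1) ≤ 1 := by
      rw [div_le_one (by positivity)]
      linarith
    calc κ / (6 * Real.exp 1) * ((1 : ℝ) / 4) ^ (2 / κ) ≤ 1 * 1 :=
          mul_le_mul h2 h1 h0.le (by norm_num)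
      _ = 1 := one_mul _
  · rw [e]; exact h1
  · rw [e, ← Real.rpow_mul (by norm_num), show 2 / κ * (κ / 2) = 1 by field_simp,
      Real.rpow_one]

theorem targetUnion : TargetUnion := by
  classical
  intro Ms d0 η hη hη1 hd0
  obtain ⟨κ, hκ0, hκ1, hκ, hκ2⟩ := exists_kappa η hη hη1
  obtain ⟨ζ, hζ0, hζ1, hz1, hz4⟩ := exists_zeta κ hκ0 hκ1
  refine ⟨κ, ζ, hκ0, hκ1, hζ0, hζ1, ?_⟩
  intro p v0 hp hp3 _ hsub
  obtain ⟨K1, hK1⟩ := l1_bound
  obtain ⟨K2, hK2⟩ := l2_bound d0 η κ hη hη1 hd0 hκ0 hκ1 hκ hκ2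
  obtain ⟨K3, hK3⟩ := l3_bound κ ζ hκ0 hζ0 hz1 hz4
  set C0 : ℝ := (Ms + 1) * (2 ^ (2 ^ (Ms + 2)) * 3 ^ Ms) with hC0
  set K : ℝ := C0 + (8 * Ms * C0 + (K1 + (K2 + K3))) with hK
  have hlim : Filter.Tendsto (fun n : ℕ => K * (1 / ((n : ℝ) + 1))) Filter.atTop (nhds 0) := by
    have := (tendsto_one_div_add_atTop_nhds_zero_nat (𝕜 := ℝ)).const_mul K
    simpa using this
  refine squeeze_zero' ?_ ?_ hlim
  · exact Filter.Eventually.of_forall (fun n => sum_nonneg (fun S _ => hp (n + 1) S))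
  · filter_upwards [Filter.eventually_ge_atTop (Ms + 2)] with n hn
    have hN0 : 0 < n + 1 := by omega
    have hN3 : 3 ≤ n + 1 := by omega
    have hNR : (0 : ℝ) < ((n + 1 : ℕ) : ℝ) := by positivity
    have hc : Sub (p (n + 1)) (3 / ((n + 1 : ℕ) : ℝ)) := by
      intro B hB
      rw [Pr_eq]
      exact hsub (n + 1) hN3 B hB
    have hq := hp (n + 1)
    have hq3 := hp3 (n + 1)
    have e : ∑ S ∈ univ.filter (fun S => ¬ Good (n + 1) (v0 n) S Ms d0 η κ ζ), p (n + 1) S =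
        Pr (p (n + 1)) (fun S => ¬ Good (n + 1) (v0 n) S Ms d0 η κ ζ) := by
      rw [Pr_eq]
    have e' : ∑ S ∈ (open Classical in univ.filter
        (fun S => ¬ Good (n + 1) (v0 n) S Ms d0 η κ ζ)), p (n + 1) S =
        Pr (p (n + 1)) (fun S => ¬ Good (n + 1) (v0 n) S Ms d0 η κ ζ) := by
      rw [Pr_eq]
    rw [e']
    -- the five bad events
    set E1 : Finset (Finset (Fin (n + 1))) → Prop := fun S => ∃ B ⊆ S, B.card ≤ Ms ∧
      (cov (v0 n) B).card < B.card with hE1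
    set E2 : Finset (Finset (Fin (n + 1))) → Prop := fun S => ((n + 1 : ℕ) : ℝ) ^ 2 / 8 <
      ((S.filter (fun t => ∃ B ⊆ S, t ∈ B ∧ B.card ≤ Ms ∧
        (cov (v0 n) B).card ≤ B.card + 1)).card : ℝ) with hE2
    set E3 : Finset (Finset (Fin (n + 1))) → Prop := fun S => ∃ (i : Fin (n + 1))
      (D : Finset (Fin (n + 1))),
      10 * D.card < (S.filter (fun t => i ∈ t ∧ t.erase i ⊆ D)).card with hE3
    set E4 : Finset (Finset (Fin (n + 1))) → Prop := fun S => ∃ (i : Fin (n + 1))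
      (D : Finset (Fin (n + 1))), d0 ≤ D.card ∧ (D.card : ℝ) ≤ κ * ((n + 1 : ℕ) : ℝ) ∧
      (1 + η) * D.card < ((S.filter (fun t => i ∈ t ∧ t.erase i ⊆ D)).card : ℝ) with hE4
    set E5 : Finset (Finset (Fin (n + 1))) → Prop := fun S => ∃ (i : Fin (n + 1))
      (H : Finset (Fin (n + 1))), (H.card : ℝ) ≤ ζ * ((n + 1 : ℕ) : ℝ) ∧
      κ * ((n + 1 : ℕ) : ℝ) / 2 <
        ((S.filter (fun t => i ∈ t ∧ ¬ Disjoint (t.erase i) H)).card : ℝ) with hE5
    have b1 := ls_bound hq hq3 hc (v0 n) Ms (by omega)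
    have b2 := few_bound hq hq3 hc (v0 n) Ms (by omega)
    have b3 := hK1 (n + 1) (p (n + 1)) hN0 hq hq3 hc
    have b4 := hK2 (n + 1) (p (n + 1)) hN0 hq hq3 hc
    have b5 := hK3 (n + 1) (p (n + 1)) hN0 hq hq3 hc
    have hsplit : Pr (p (n + 1)) (fun S => ¬ Good (n + 1) (v0 n) S Ms d0 η κ ζ) ≤
        Pr (p (n + 1)) E1 + (Pr (p (n + 1)) E2 + (Pr (p (n + 1)) E3 +
          (Pr (p (n + 1)) E4 + Pr (p (n + 1)) E5))) := by
      have s1 := Pr_or (q := p (n + 1)) hq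
        (F := fun S => ¬ Good (n + 1) (v0 n) S Ms d0 η κ ζ) (G := E1)
        (H := fun S => E2 S ∨ E3 S ∨ E4 S ∨ E5 S) (by
          intro S hS hG
          by_contra hcon
          push Not at hcon
          obtain ⟨c1, c2, c3, c4, c5⟩ := hcon
          apply hG
          refine ⟨?_, ?_, ?_, ?_, ?_, ?_⟩
          · intro t ht
            by_contra hne
            exact hS (hq3 S ⟨t, ht, hne⟩)
          · intro B hB hBc
            by_contra hlt
            exact c1 ⟨B, hB, hBc, not_le.1 hlt⟩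
          · by_contra hlt
            apply c2
            rw [hE2]
            convert not_le.1 hlt using 1
          · intro i D
            by_contra hlt
            apply c3
            refine ⟨i, D, ?_⟩
            convert not_le.1 hlt using 1
          · intro i D h1 h2
            by_contra hlt
            apply c4
            refine ⟨i, D, h1, h2, ?_⟩
            convert not_le.1 hlt using 1
          · intro i H h1
            by_contra hlt
            apply c5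
            refine ⟨i, H, h1, ?_⟩
            convert not_le.1 hlt using 1)
      have s2 := Pr_or (q := p (n + 1)) hq
        (F := fun S => E2 S ∨ E3 S ∨ E4 S ∨ E5 S) (G := E2)
        (H := fun S => E3 S ∨ E4 S ∨ E5 S) (fun S _ h => h)
      have s3 := Pr_or (q := p (n + 1)) hq
        (F := fun S => E3 S ∨ E4 S ∨ E5 S) (G := E3)
        (H := fun S => E4 S ∨ E5 S) (fun S _ h => h)
      have s4 := Pr_or (q := p (n + 1)) hq
        (F := fun S => E4 S ∨ E5 S) (G := E4)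
        (H := E5) (fun S _ h => h)
      linarith
    have b1' : ((n + 1 : ℕ) : ℝ) * Pr (p (n + 1)) E1 ≤ C0 := b1
    have b2' : ((n + 1 : ℕ) : ℝ) * Pr (p (n + 1)) E2 ≤ 8 * Ms * C0 := by
      convert b2 using 1
    have b3' : ((n + 1 : ℕ) : ℝ) * Pr (p (n + 1)) E3 ≤ K1 := by
      convert b3 using 1
    have b4' : ((n + 1 : ℕ) : ℝ) * Pr (p (n + 1)) E4 ≤ K2 := by
      convert b4 using 1
    have b5' : ((n + 1 : ℕ) : ℝ) * Pr (p (n + 1)) E5 ≤ K3 := by
      convert b5 using 1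
    have hfin : ((n + 1 : ℕ) : ℝ) *
        Pr (p (n + 1)) (fun S => ¬ Good (n + 1) (v0 n) S Ms d0 η κ ζ) ≤ K := by
      calc _ ≤ ((n + 1 : ℕ) : ℝ) * (Pr (p (n + 1)) E1 + (Pr (p (n + 1)) E2 +
            (Pr (p (n + 1)) E3 + (Pr (p (n + 1)) E4 + Pr (p (n + 1)) E5)))) :=
            mul_le_mul_of_nonneg_left hsplit hNR.le
        _ ≤ K := by
            rw [hK]
            linarith
    rw [mul_one_div, le_div_iff₀ (by positivity), mul_comm]
    have : ((n + 1 : ℕ) : ℝ) = (n : ℝ) + 1 := by push_cast; rfl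
    rw [← this]
    exact hfin

end Pool.Agent.HTRank.Union
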