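import Pool.Agent.HTRank.Defs

/-!
Union bounds for the random hypertree: general tools.
-/

set_option autoImplicit false

open Finset

namespace Pool.Agent.HTRank.Union

open Classical in
/-- Total weight of the elements with property `F`. -/
noncomputable def Pr {β : Type} [Fintype β] (q : β → ℝ) (F : β → Prop) : ℝ :=
  ∑ S ∈ univ.filter F, q S

section general

variable {β : Type} [Fintype β] {q : β → ℝ}

lemma Pr_eq (F : β → Prop) [DecidablePred F] : Pr q F = ∑ S ∈ univ.filter F, q S := by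
  unfold Pr; congr

lemma Pr_nonneg (hq : ∀ S, 0 ≤ q S) (F : β → Prop) : 0 ≤ Pr q F := by
  classical
  rw [Pr_eq]
  exact sum_nonneg (fun S _ => hq S)

lemma Pr_mono (hq : ∀ S, 0 ≤ q S) {F G : β → Prop} (h : ∀ S, q S ≠ 0 → F S → G S) :
    Pr q F ≤ Pr q G := by
  classical
  rw [Pr_eq, Pr_eq, sum_filter, sum_filter]
  apply sum_le_sum
  intro S _
  by_cases hS : q S = 0
  · simp [hS]
  · by_cases hF : F S
    · simp [hF, h S hS hF]
    · simp only [hF, if_false]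
      split_ifs
      · exact hq S
      · exact le_rfl

lemma Pr_union {ι : Type} (hq : ∀ S, 0 ≤ q S) (F : β → Prop) (X : Finset ι) (G : ι → β → Prop)
    (h : ∀ S, q S ≠ 0 → F S → ∃ x ∈ X, G x S) : Pr q F ≤ ∑ x ∈ X, Pr q (G x) := by
  classical
  simp only [Pr_eq, sum_filter]
  rw [sum_comm]
  apply sum_le_sum
  intro S _
  by_cases hS : q S = 0
  · simp [hS]
  by_cases hF : F S
  · obtain ⟨x, hx, hG⟩ := h S hS hF
    rw [if_pos hF]
    calc q S = (if G x S then q S else 0) := by rw [if_pos hG]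
      _ ≤ _ := single_le_sum (f := fun x => if G x S then q S else 0)
        (fun y _ => by
          show (0 : ℝ) ≤ if G y S then q S else 0
          split_ifs
          · exact hq S
          · exact le_rfl) hx
  · rw [if_neg hF]
    exact sum_nonneg (fun y _ => by
      split_ifs
      · exact hq S
      · exact le_rfl)

lemma Pr_or (hq : ∀ S, 0 ≤ q S) {F G H : β → Prop} (h : ∀ S, q S ≠ 0 → F S → G S ∨ H S) :
    Pr q F ≤ Pr q G + Pr q H := by
  have := Pr_union hq F (univ : Finset Bool) (fun b => if b then G else H) (by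
    intro S hS hF
    rcases h S hS hF with h | h
    · exact ⟨true, mem_univ _, by simpa using h⟩
    · exact ⟨false, mem_univ _, by simpa using h⟩)
  simpa using this

end general

section tail

variable {N : ℕ} {q : Finset (Finset (Fin N)) → ℝ} {c : ℝ}

/-- The probability of containing a given set of triangles is at most a power of `c`. -/
def Sub (q : Finset (Finset (Fin N)) → ℝ) (c : ℝ) : Prop :=
  ∀ B : Finset (Finset (Fin N)), (∀ t ∈ B, t.card = 3) → Pr q (fun S => B ⊆ S) ≤ c ^ B.card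

lemma tail (hq : ∀ S, 0 ≤ q S) (hc : Sub q c) (U : Finset (Finset (Fin N)))
    (hU : ∀ t ∈ U, t.card = 3) (s : ℕ) :
    Pr q (fun S => s ≤ (S ∩ U).card) ≤ (U.card.choose s : ℝ) * c ^ s := by
  calc Pr q (fun S => s ≤ (S ∩ U).card) ≤ ∑ B ∈ U.powersetCard s, Pr q (fun S => B ⊆ S) := by
        refine Pr_union hq _ _ _ ?_
        intro S _ hs
        obtain ⟨B, hB, hBc⟩ := exists_subset_card_eq hs
        exact ⟨B, mem_powersetCard.2 ⟨hB.trans inter_subset_right, hBc⟩,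
          hB.trans inter_subset_left⟩
    _ ≤ ∑ B ∈ U.powersetCard s, c ^ s := by
        refine sum_le_sum (fun B hB => ?_)
        rw [mem_powersetCard] at hB
        have := hc B (fun t ht => hU t (hB.1 ht))
        rwa [hB.2] at this
    _ = _ := by rw [sum_const, card_powersetCard, nsmul_eq_mul]

lemma choose_le (M s : ℕ) (hs : 0 < s) :
    (M.choose s : ℝ) ≤ (Real.exp 1 * M / s) ^ s := by
  have h1 : (M.choose s : ℝ) ≤ (M : ℝ) ^ s / (s.factorial : ℝ) := Nat.choose_le_pow_div s M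
  have h2 : (s : ℝ) ^ s / (s.factorial : ℝ) ≤ Real.exp s :=
    Real.pow_div_factorial_le_exp (s : ℝ) (by positivity) s
  have hs' : (0 : ℝ) < s := by exact_mod_cast hs
  have hf : (0 : ℝ) < s.factorial := by exact_mod_cast s.factorial_pos
  have h3 : Real.exp (s : ℝ) = Real.exp 1 ^ s := by
    rw [← Real.exp_nat_mul, mul_one]
  rw [h3] at h2
  calc (M.choose s : ℝ) ≤ (M : ℝ) ^ s / (s.factorial : ℝ) := h1
    _ = ((M : ℝ) / s) ^ s * ((s : ℝ) ^ s / (s.factorial : ℝ)) := by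
        rw [div_pow]; field_simp
    _ ≤ ((M : ℝ) / s) ^ s * Real.exp 1 ^ s := by
        apply mul_le_mul_of_nonneg_left h2 (by positivity)
    _ = (Real.exp 1 * M / s) ^ s := by rw [← mul_pow]; congr 1; ring

lemma tail' (hq : ∀ S, 0 ≤ q S) (hc : Sub q c) (hc0 : 0 ≤ c) (U : Finset (Finset (Fin N)))
    (hU : ∀ t ∈ U, t.card = 3) (s : ℕ) (hs : 0 < s) (X : ℝ)
    (hX : Real.exp 1 * U.card * c / s ≤ X) :
    Pr q (fun S => s ≤ (S ∩ U).card) ≤ X ^ s := by
  refine (tail hq hc U hU s).trans ?_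
  calc (U.card.choose s : ℝ) * c ^ s ≤ (Real.exp 1 * U.card / s) ^ s * c ^ s :=
        mul_le_mul_of_nonneg_right (choose_le _ _ hs) (by positivity)
    _ = (Real.exp 1 * U.card * c / s) ^ s := by rw [← mul_pow]; congr 1; ring
    _ ≤ X ^ s := pow_le_pow_left₀ (by positivity) hX s

end tail

section ls

variable {N : ℕ} {q : Finset (Finset (Fin N)) → ℝ}

/-- Sets of `b` triangles covering at most `v` vertices besides `v0`. -/
def Fam (v0 : Fin N) (b v : ℕ) : Finset (Finset (Finset (Fin N))) :=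
  univ.filter (fun B => (∀ t ∈ B, t.card = 3) ∧ B.card = b ∧ (cov v0 B).card ≤ v)

lemma card_Fam_le (v0 : Fin N) (b v : ℕ) (hv : v ≤ N) :
    ((Fam v0 b v).card : ℝ) ≤ (N : ℝ) ^ v * 2 ^ (2 ^ (v + 1)) := by
  classical
  have hsub : Fam v0 b v ⊆ (univ.powersetCard v : Finset (Finset (Fin N))).biUnion
      (fun W => (insert v0 W).powerset.powerset) := by
    intro B hB
    simp only [Fam, mem_filter, mem_univ, true_and] at hB
    obtain ⟨W, hW, hWc⟩ := exists_superset_card_eq (s := cov v0 B) (n := v) hB.2.2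
      (by simpa using hv)
    rw [mem_biUnion]
    refine ⟨W, mem_powersetCard.2 ⟨subset_univ _, hWc⟩, ?_⟩
    rw [mem_powerset]
    intro t ht
    rw [mem_powerset]
    intro x hx
    by_cases hx0 : x = v0
    · exact mem_insert.2 (Or.inl hx0)
    · exact mem_insert_of_mem (hW (mem_erase.2 ⟨hx0, mem_biUnion.2 ⟨t, ht, hx⟩⟩))
  have h1 : (Fam v0 b v).card ≤ N.choose v * 2 ^ (2 ^ (v + 1)) := by
    refine (card_le_card hsub).trans ?_
    refine (card_biUnion_le_card_mul _ _ (2 ^ (2 ^ (v + 1))) ?_).trans ?_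
    · intro W hW
      rw [mem_powersetCard] at hW
      rw [card_powerset, card_powerset]
      apply Nat.pow_le_pow_right (by norm_num)
      apply Nat.pow_le_pow_right (by norm_num)
      refine (card_insert_le _ _).trans ?_
      rw [hW.2]
    · rw [card_powersetCard, card_univ, Fintype.card_fin]
  have h2 : N.choose v ≤ N ^ v := Nat.choose_le_pow N v
  calc ((Fam v0 b v).card : ℝ) ≤ ((N.choose v * 2 ^ (2 ^ (v + 1)) : ℕ) : ℝ) := by
        exact_mod_cast h1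
    _ ≤ ((N ^ v * 2 ^ (2 ^ (v + 1)) : ℕ) : ℝ) := by
        exact_mod_cast Nat.mul_le_mul_right _ h2
    _ = _ := by push_cast; rfl

/-- Expected number of members of the family inside the random set. -/
lemma sum_Fam_le (hc : Sub q (3 / (N : ℝ))) (hN : 0 < N) (v0 : Fin N) (b v Ms a : ℕ) (hv : v ≤ N)
    (hb : b ≤ Ms) (hv' : v ≤ Ms + 1) (hab : v ≤ b + a) :
    (N : ℝ) * ∑ B ∈ Fam v0 b v, Pr q (fun S => B ⊆ S) ≤
      2 ^ (2 ^ (Ms + 2)) * 3 ^ Ms * (N : ℝ) ^ (a + 1) := by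
  have hN' : (1 : ℝ) ≤ N := by exact_mod_cast hN
  have hN0 : (0 : ℝ) < N := by linarith
  have h1 : ∑ B ∈ Fam v0 b v, Pr q (fun S => B ⊆ S) ≤
      ∑ B ∈ Fam v0 b v, (3 / (N : ℝ)) ^ b := by
    refine sum_le_sum (fun B hB => ?_)
    simp only [Fam, mem_filter, mem_univ, true_and] at hB
    have := hc B hB.1
    rwa [hB.2.1] at this
  rw [sum_const, nsmul_eq_mul] at h1
  have h2 := card_Fam_le v0 b v hv
  have h3 : (2 : ℝ) ^ (2 ^ (v + 1)) ≤ 2 ^ (2 ^ (Ms + 2)) := by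
    apply pow_le_pow_right₀ (by norm_num)
    apply Nat.pow_le_pow_right (by norm_num)
    omega
  have h4 : (3 : ℝ) ^ b ≤ 3 ^ Ms := pow_le_pow_right₀ (by norm_num) hb
  have h5 : (N : ℝ) ^ v ≤ (N : ℝ) ^ (b + a) := pow_le_pow_right₀ hN' hab
  calc (N : ℝ) * ∑ B ∈ Fam v0 b v, Pr q (fun S => B ⊆ S)
      ≤ (N : ℝ) * (((Fam v0 b v).card : ℝ) * (3 / (N : ℝ)) ^ b) :=
        mul_le_mul_of_nonneg_left h1 hN0.le
    _ ≤ (N : ℝ) * (((N : ℝ) ^ v * 2 ^ (2 ^ (v + 1))) * (3 / (N : ℝ)) ^ b) := by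
        apply mul_le_mul_of_nonneg_left _ hN0.le
        exact mul_le_mul_of_nonneg_right h2 (by positivity)
    _ ≤ (N : ℝ) * (((N : ℝ) ^ (b + a) * 2 ^ (2 ^ (Ms + 2))) * (3 ^ Ms / (N : ℝ) ^ b)) := by
        apply mul_le_mul_of_nonneg_left _ hN0.le
        rw [div_pow]
        apply mul_le_mul _ _ (by positivity) (by positivity)
        · exact mul_le_mul h5 h3 (by positivity) (by positivity)
        · exact div_le_div_of_nonneg_right h4 (by positivity)
    _ = _ := by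
        rw [pow_add (N : ℝ) b a, pow_succ (N : ℝ) a]
        field_simp

/-- The bad event for small sets of triangles. -/
lemma ls_bound (hq : ∀ S, 0 ≤ q S) (h3 : ∀ S, (∃ t ∈ S, t.card ≠ 3) → q S = 0)
    (hc : Sub q (3 / (N : ℝ))) (v0 : Fin N) (Ms : ℕ)
    (hN : Ms + 1 ≤ N) :
    (N : ℝ) * Pr q (fun S => ∃ B ⊆ S, B.card ≤ Ms ∧ (cov v0 B).card < B.card) ≤
      (Ms + 1) * (2 ^ (2 ^ (Ms + 2)) * 3 ^ Ms) := by
  have hN0 : 0 < N := by omega
  have h1 : Pr q (fun S => ∃ B ⊆ S, B.card ≤ Ms ∧ (cov v0 B).card < B.card) ≤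
      ∑ x ∈ (range (Ms + 1)).filter (fun b => 0 < b), ∑ B ∈ Fam v0 x (x - 1),
        Pr q (fun S => B ⊆ S) := by
    rw [sum_sigma']
    refine Pr_union (ι := (_ : ℕ) × Finset (Finset (Fin N))) hq
      (fun S => ∃ B ⊆ S, B.card ≤ Ms ∧ (cov v0 B).card < B.card)
      (((range (Ms + 1)).filter (fun b => 0 < b)).sigma (fun x => Fam v0 x (x - 1)))
      (fun x S => x.snd ⊆ S) ?_
    intro S hS hB
    obtain ⟨B, hBS, hBc, hcov⟩ := hB
    refine ⟨⟨B.card, B⟩, ?_, hBS⟩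
    rw [mem_sigma]
    simp only [mem_filter, mem_range, Fam, mem_univ, true_and]
    refine ⟨⟨by omega, by omega⟩, ?_, by omega⟩
    intro t ht
    by_contra hne
    exact hS (h3 S ⟨t, hBS ht, hne⟩)
  have h2 : ∀ x ∈ (range (Ms + 1)).filter (fun b => 0 < b),
      (N : ℝ) * ∑ B ∈ Fam v0 x (x - 1), Pr q (fun S => B ⊆ S) ≤
        2 ^ (2 ^ (Ms + 2)) * 3 ^ Ms := by
    intro x hx
    simp only [mem_filter, mem_range] at hx
    have hNR : (0 : ℝ) < N := by exact_mod_cast hN0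
    have h := sum_Fam_le hc hN0 v0 x (x - 1) Ms 0 (by omega) (by omega) (by omega) (by omega)
    have h' : ((Fam v0 x (x - 1)).card : ℝ) * (3 / (N : ℝ)) ^ x * N ≤
        2 ^ (2 ^ (Ms + 2)) * 3 ^ Ms := by
      have hN' : (1 : ℝ) ≤ N := by exact_mod_cast hN0
      have h2 := card_Fam_le v0 x (x - 1) (by omega)
      have h3 : (2 : ℝ) ^ (2 ^ (x - 1 + 1)) ≤ 2 ^ (2 ^ (Ms + 2)) := by
        apply pow_le_pow_right₀ (by norm_num)
        apply Nat.pow_le_pow_right (by norm_num)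
        omega
      have h4 : (3 : ℝ) ^ x ≤ 3 ^ Ms := pow_le_pow_right₀ (by norm_num) (by omega)
      calc ((Fam v0 x (x - 1)).card : ℝ) * (3 / (N : ℝ)) ^ x * N
          ≤ ((N : ℝ) ^ (x - 1) * 2 ^ (2 ^ (x - 1 + 1))) * (3 / (N : ℝ)) ^ x * N := by
            apply mul_le_mul_of_nonneg_right _ hNR.le
            exact mul_le_mul_of_nonneg_right h2 (by positivity)
        _ = 2 ^ (2 ^ (x - 1 + 1)) * 3 ^ x := by
            obtain ⟨y, rfl⟩ : ∃ y, x = y + 1 := ⟨x - 1, by omega⟩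
            rw [Nat.add_sub_cancel, div_pow, pow_succ (N : ℝ) y]
            field_simp
        _ ≤ _ := mul_le_mul h3 h4 (by positivity) (by positivity)
    refine le_trans ?_ h'
    rw [mul_comm]
    apply mul_le_mul_of_nonneg_right _ hNR.le
    rw [← nsmul_eq_mul, ← sum_const]
    refine sum_le_sum (fun B hB => ?_)
    simp only [Fam, mem_filter, mem_univ, true_and] at hB
    have := hc B hB.1
    rwa [hB.2.1] at this
  calc (N : ℝ) * Pr q (fun S => ∃ B ⊆ S, B.card ≤ Ms ∧ (cov v0 B).card < B.card)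
      ≤ (N : ℝ) * ∑ x ∈ (range (Ms + 1)).filter (fun b => 0 < b), ∑ B ∈ Fam v0 x (x - 1),
        Pr q (fun S => B ⊆ S) := mul_le_mul_of_nonneg_left h1 (by positivity)
    _ = ∑ x ∈ (range (Ms + 1)).filter (fun b => 0 < b), (N : ℝ) * ∑ B ∈ Fam v0 x (x - 1),
        Pr q (fun S => B ⊆ S) := by rw [mul_sum]
    _ ≤ ∑ x ∈ (range (Ms + 1)).filter (fun b => 0 < b), (2 ^ (2 ^ (Ms + 2)) * 3 ^ Ms : ℝ) :=
        sum_le_sum h2
    _ = (((range (Ms + 1)).filter (fun b => 0 < b)).card : ℝ) *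
        (2 ^ (2 ^ (Ms + 2)) * 3 ^ Ms) := by rw [sum_const, nsmul_eq_mul]
    _ ≤ _ := by
        apply mul_le_mul_of_nonneg_right _ (by positivity)
        have := card_filter_le (range (Ms + 1)) (fun b => 0 < b)
        rw [card_range] at this
        exact_mod_cast this

open Classical in
/-- The bad event for the number of triangles in small sets covering few vertices. -/
lemma few_bound (hq : ∀ S, 0 ≤ q S) (h3 : ∀ S, (∃ t ∈ S, t.card ≠ 3) → q S = 0)
    (hc : Sub q (3 / (N : ℝ))) (v0 : Fin N) (Ms : ℕ)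
    (hN : Ms + 1 ≤ N) :
    (N : ℝ) * Pr q (fun S => (N : ℝ) ^ 2 / 8 < ((S.filter (fun t => ∃ B ⊆ S, t ∈ B ∧
      B.card ≤ Ms ∧ (cov v0 B).card ≤ B.card + 1)).card : ℝ)) ≤
      8 * Ms * ((Ms + 1) * (2 ^ (2 ^ (Ms + 2)) * 3 ^ Ms)) := by
  have hN0 : 0 < N := by omega
  have hNR : (0 : ℝ) < N := by exact_mod_cast hN0
  -- pointwise bound of the number of triangles
  have hpt : ∀ S, q S ≠ 0 → ((S.filter (fun t => ∃ B ⊆ S, t ∈ B ∧
      B.card ≤ Ms ∧ (cov v0 B).card ≤ B.card + 1)).card : ℝ) ≤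
      Ms * ∑ b ∈ range (Ms + 1), ∑ B ∈ Fam v0 b (b + 1), if B ⊆ S then (1 : ℝ) else 0 := by
    intro S hS
    have hsub : S.filter (fun t => ∃ B ⊆ S, t ∈ B ∧
      B.card ≤ Ms ∧ (cov v0 B).card ≤ B.card + 1) ⊆
      (range (Ms + 1)).biUnion (fun b => ((Fam v0 b (b + 1)).filter (fun B => B ⊆ S)).biUnion
        id) := by
      intro t ht
      rw [mem_filter] at ht
      obtain ⟨htS, B, hBS, htB, hBc, hcov⟩ := ht
      rw [mem_biUnion]
      refine ⟨B.card, mem_range.2 (by omega), ?_⟩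
      rw [mem_biUnion]
      refine ⟨B, ?_, htB⟩
      simp only [mem_filter, Fam, mem_univ, true_and]
      refine ⟨⟨?_, hcov⟩, hBS⟩
      intro t' ht'
      by_contra hne
      exact hS (h3 S ⟨t', hBS ht', hne⟩)
    have hcard : (S.filter (fun t => ∃ B ⊆ S, t ∈ B ∧
      B.card ≤ Ms ∧ (cov v0 B).card ≤ B.card + 1)).card ≤
      ∑ b ∈ range (Ms + 1), ((Fam v0 b (b + 1)).filter (fun B => B ⊆ S)).card * Ms := by
      refine (card_le_card hsub).trans (card_biUnion_le.trans ?_)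
      refine sum_le_sum (fun b hb => ?_)
      apply card_biUnion_le_card_mul
      intro B hB
      simp only [mem_filter, Fam, mem_univ, true_and] at hB
      rw [id, hB.1.2.1]
      have := mem_range.1 hb
      omega
    calc ((S.filter (fun t => ∃ B ⊆ S, t ∈ B ∧
      B.card ≤ Ms ∧ (cov v0 B).card ≤ B.card + 1)).card : ℝ)
        ≤ ((∑ b ∈ range (Ms + 1), ((Fam v0 b (b + 1)).filter (fun B => B ⊆ S)).card * Ms : ℕ) :
          ℝ) := by exact_mod_cast hcard
      _ = _ := by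
          push_cast
          rw [mul_sum]
          refine sum_congr rfl (fun b _ => ?_)
          rw [mul_comm, ← sum_filter, sum_const, nsmul_eq_mul, mul_one]
  have hM : (N : ℝ) ^ 2 / 8 * Pr q (fun S => (N : ℝ) ^ 2 / 8 < ((S.filter (fun t => ∃ B ⊆ S,
      t ∈ B ∧ B.card ≤ Ms ∧ (cov v0 B).card ≤ B.card + 1)).card : ℝ)) ≤
      Ms * ∑ b ∈ range (Ms + 1), ∑ B ∈ Fam v0 b (b + 1), Pr q (fun S => B ⊆ S) := by
    have e1 : ∑ b ∈ range (Ms + 1), ∑ B ∈ Fam v0 b (b + 1), Pr q (fun S => B ⊆ S) =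
        ∑ S, (∑ b ∈ range (Ms + 1), ∑ B ∈ Fam v0 b (b + 1), if B ⊆ S then (1 : ℝ) else 0) *
          q S := by
      simp only [Pr_eq, sum_filter]
      rw [sum_sigma', sum_comm]
      refine sum_congr rfl (fun S _ => ?_)
      rw [sum_sigma', sum_mul]
      refine sum_congr rfl (fun B _ => ?_)
      rw [ite_mul, one_mul, zero_mul]
    rw [e1, Pr_eq, mul_sum, mul_sum, sum_filter]
    refine sum_le_sum (fun S _ => ?_)
    by_cases hS : q S = 0
    · simp [hS]
    have hnn : (0 : ℝ) ≤ Ms * ∑ b ∈ range (Ms + 1), ∑ B ∈ Fam v0 b (b + 1),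
        if B ⊆ S then (1 : ℝ) else 0 := by
      apply mul_nonneg (by positivity)
      refine sum_nonneg (fun b _ => sum_nonneg (fun B _ => ?_))
      split_ifs <;> norm_num
    rw [← mul_assoc]
    split_ifs with hbad
    · apply mul_le_mul_of_nonneg_right _ (hq S)
      exact hbad.le.trans (hpt S hS)
    · exact mul_nonneg hnn (hq S)
  have h2 : ∀ x ∈ range (Ms + 1),
      (N : ℝ) * ∑ B ∈ Fam v0 x (x + 1), Pr q (fun S => B ⊆ S) ≤
        2 ^ (2 ^ (Ms + 2)) * 3 ^ Ms * (N : ℝ) ^ (1 + 1) := by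
    intro x hx
    rw [mem_range] at hx
    exact sum_Fam_le hc hN0 v0 x (x + 1) Ms 1 (by omega) (by omega) (by omega) (by omega)
  have h4 : (N : ℝ) * ∑ b ∈ range (Ms + 1), ∑ B ∈ Fam v0 b (b + 1), Pr q (fun S => B ⊆ S) ≤
      (Ms + 1) * (2 ^ (2 ^ (Ms + 2)) * 3 ^ Ms * (N : ℝ) ^ (1 + 1)) := by
    rw [mul_sum]
    refine (sum_le_sum h2).trans ?_
    rw [sum_const, nsmul_eq_mul, card_range]
    push_cast
    exact le_rfl
  set X := Pr q (fun S => (N : ℝ) ^ 2 / 8 < ((S.filter (fun t => ∃ B ⊆ S,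
      t ∈ B ∧ B.card ≤ Ms ∧ (cov v0 B).card ≤ B.card + 1)).card : ℝ)) with hX
  set E := ∑ b ∈ range (Ms + 1), ∑ B ∈ Fam v0 b (b + 1), Pr q (fun S => B ⊆ S) with hE
  have h5 : (N : ℝ) * ((N : ℝ) ^ 2 / 8 * X) ≤
      Ms * ((Ms + 1) * (2 ^ (2 ^ (Ms + 2)) * 3 ^ Ms * (N : ℝ) ^ (1 + 1))) := by
    calc (N : ℝ) * ((N : ℝ) ^ 2 / 8 * X) ≤ (N : ℝ) * (Ms * E) :=
          mul_le_mul_of_nonneg_left hM hNR.le
      _ = Ms * ((N : ℝ) * E) := by ring
      _ ≤ _ := mul_le_mul_of_nonneg_left h4 (by positivity)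
  have h6 : (0 : ℝ) < (N : ℝ) ^ 2 / 8 := by positivity
  have h7 : (N : ℝ) ^ 2 / 8 * ((N : ℝ) * X) ≤
      (N : ℝ) ^ 2 / 8 * (8 * Ms * ((Ms + 1) * (2 ^ (2 ^ (Ms + 2)) * 3 ^ Ms))) := by
    calc (N : ℝ) ^ 2 / 8 * ((N : ℝ) * X) = (N : ℝ) * ((N : ℝ) ^ 2 / 8 * X) := by ring
      _ ≤ _ := h5
      _ = _ := by ring
  exact le_of_mul_le_mul_left h7 h6

end ls

end Pool.Agent.HTRank.Union
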