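import Pool.Agent.HTRank.UnionA

/-!
Union bounds for the random hypertree: the link conditions.
-/

set_option autoImplicit false

open Finset

namespace Pool.Agent.HTRank.Union

lemma exists_K (k : ℕ) : ∃ K : ℝ, 0 < K ∧ ∀ d : ℕ, (d : ℝ) ^ k ≤ K * 2 ^ d := by
  have hl : 0 < Real.log 2 := Real.log_pos (by norm_num)
  refine ⟨(k.factorial : ℝ) / (Real.log 2) ^ k, by positivity, fun d => ?_⟩
  have h := Real.pow_div_factorial_le_exp ((d : ℝ) * Real.log 2) (by positivity) k
  have e : Real.exp ((d : ℝ) * Real.log 2) = 2 ^ d := by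
    rw [Real.exp_nat_mul, Real.exp_log (by norm_num)]
  rw [e, mul_pow, div_le_iff₀ (by positivity)] at h
  rw [div_mul_eq_mul_div, le_div_iff₀ (by positivity)]
  linarith

section link

variable {N : ℕ} {q : Finset (Finset (Fin N)) → ℝ}

/-- Triangles at `i` with opposite edge inside `D`. -/
def UD (i : Fin N) (D : Finset (Fin N)) : Finset (Finset (Fin N)) :=
  univ.filter (fun t => t.card = 3 ∧ i ∈ t ∧ t.erase i ⊆ D)

lemma card_UD_le (i : Fin N) (D : Finset (Fin N)) :
    ((UD i D).card : ℝ) ≤ (D.card : ℝ) ^ 2 / 2 := by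
  have h1 : (UD i D).card ≤ (D.powersetCard 2).card := by
    apply card_le_card_of_injOn (fun t => t.erase i)
    · intro t ht
      simp only [UD, coe_filter, mem_univ, true_and, Set.mem_ofPred_eq] at ht
      rw [mem_coe, mem_powersetCard]
      refine ⟨ht.2.2, ?_⟩
      rw [card_erase_of_mem ht.2.1, ht.1]
    · intro t ht t' ht' h
      simp only [UD, coe_filter, mem_univ, true_and, Set.mem_ofPred_eq] at ht ht'
      have : insert i (t.erase i) = insert i (t'.erase i) := by
        have h' : t.erase i = t'.erase i := h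
        rw [h']
      rwa [insert_erase ht.2.1, insert_erase ht'.2.1] at this
  rw [card_powersetCard] at h1
  calc ((UD i D).card : ℝ) ≤ ((D.card.choose 2 : ℕ) : ℝ) := by exact_mod_cast h1
    _ = (D.card : ℝ) * ((D.card : ℝ) - 1) / 2 := Nat.cast_choose_two ℝ _
    _ ≤ _ := by nlinarith [(Nat.cast_nonneg D.card : (0 : ℝ) ≤ D.card)]

/-- Sum of a function of the cardinality over all subsets. -/
lemma sum_card (f : ℕ → ℝ) : ∑ D : Finset (Fin N), f D.card =
    ∑ d ∈ range (N + 1), (N.choose d : ℝ) * f d := by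
  have h := sum_powerset_apply_card (x := (univ : Finset (Fin N))) f
  rw [card_univ, Fintype.card_fin, powerset_univ] at h
  rw [h]
  simp only [nsmul_eq_mul]

open Classical in
lemma filter_sub (S : Finset (Finset (Fin N))) (i : Fin N) (D : Finset (Fin N))
    (h3 : ∀ t ∈ S, t.card = 3) :
    S.filter (fun t => i ∈ t ∧ t.erase i ⊆ D) ⊆ S ∩ UD i D := by
  intro t ht
  rw [mem_filter] at ht
  simp only [UD, mem_inter, mem_filter, mem_univ, true_and]
  exact ⟨ht.1, h3 t ht.1, ht.2.1, ht.2.2⟩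

/-- The term of the first link bound. -/
lemma l1_term (hq : ∀ S, 0 ≤ q S) (hc : Sub q (3 / (N : ℝ))) (hN : 0 < N) (i : Fin N)
    (D : Finset (Fin N)) (hD : 0 < D.card) :
    Pr q (fun S => 10 * D.card ≤ (S ∩ UD i D).card) ≤
      (((D.card : ℝ) / (2 * N)) ^ 10) ^ D.card := by
  have hNR : (0 : ℝ) < N := by exact_mod_cast hN
  have hdR : (0 : ℝ) < D.card := by exact_mod_cast hD
  have he : Real.exp 1 < 2.7182818286 := Real.exp_one_lt_d9
  rw [← pow_mul]
  refine tail' hq hc (by positivity) (UD i D) ?_ (10 * D.card) (by omega) _ ?_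
  · intro t ht
    simp only [UD, mem_filter, mem_univ, true_and] at ht
    exact ht.1
  · push_cast
    have h1 := card_UD_le i D
    calc Real.exp 1 * ((UD i D).card : ℝ) * (3 / N) / (10 * D.card)
        ≤ Real.exp 1 * ((D.card : ℝ) ^ 2 / 2) * (3 / N) / (10 * D.card) := by
          apply div_le_div_of_nonneg_right _ (by positivity)
          apply mul_le_mul_of_nonneg_right _ (by positivity)
          exact mul_le_mul_of_nonneg_left h1 (by positivity)
      _ = (3 / 10 * Real.exp 1) * ((D.card : ℝ) / (2 * N)) := by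
          field_simp
      _ ≤ 1 * ((D.card : ℝ) / (2 * N)) := by
          apply mul_le_mul_of_nonneg_right _ (by positivity)
          linarith
      _ = _ := one_mul _

open Classical in
/-- First link bound. -/
lemma l1_bound : ∃ K : ℝ, ∀ (N : ℕ) (q : Finset (Finset (Fin N)) → ℝ), 0 < N →
    (∀ S, 0 ≤ q S) → (∀ S, (∃ t ∈ S, t.card ≠ 3) → q S = 0) → Sub q (3 / (N : ℝ)) →
    (N : ℝ) * Pr q (fun S => ∃ (i : Fin N) (D : Finset (Fin N)),
      10 * D.card < (S.filter (fun t => i ∈ t ∧ t.erase i ⊆ D)).card) ≤ K := by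
  obtain ⟨K, hK0, hK⟩ := exists_K 9
  refine ⟨K, fun N q hN hq h3 hc => ?_⟩
  have hNR : (0 : ℝ) < N := by exact_mod_cast hN
  have hN1 : (1 : ℝ) ≤ N := by exact_mod_cast hN
  have he : Real.exp 1 < 2.7182818286 := Real.exp_one_lt_d9
  -- the function of the size
  set f : ℕ → ℝ := fun d => if 0 < d then (((d : ℝ) / (2 * N)) ^ 10) ^ d else 0 with hf
  have hstep1 : Pr q (fun S => ∃ (i : Fin N) (D : Finset (Fin N)),
      10 * D.card < (S.filter (fun t => i ∈ t ∧ t.erase i ⊆ D)).card) ≤
      ∑ x ∈ (univ : Finset (Fin N × Finset (Fin N))), f x.2.card := by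
    have h0 : Pr q (fun S => ∃ (i : Fin N) (D : Finset (Fin N)),
      10 * D.card < (S.filter (fun t => i ∈ t ∧ t.erase i ⊆ D)).card) ≤
      ∑ x ∈ (univ : Finset (Fin N × Finset (Fin N))),
        Pr q (fun S => 10 * x.2.card < (S ∩ UD x.1 x.2).card) := by
      refine Pr_union (ι := Fin N × Finset (Fin N)) hq
        (fun S => ∃ (i : Fin N) (D : Finset (Fin N)),
          10 * D.card < (S.filter (fun t => i ∈ t ∧ t.erase i ⊆ D)).card) univ
        (fun x S => 10 * x.2.card < (S ∩ UD x.1 x.2).card) ?_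
      intro S hS hbad
      obtain ⟨i, D, hD⟩ := hbad
      refine ⟨(i, D), mem_univ _, ?_⟩
      refine hD.trans_le (card_le_card (filter_sub S i D ?_))
      intro t ht
      by_contra hne
      exact hS (h3 S ⟨t, ht, hne⟩)
    refine h0.trans (sum_le_sum (fun x _ => ?_))
    by_cases hx : 0 < x.2.card
    · simp only [hf, hx, if_true]
      refine (Pr_mono hq ?_).trans (l1_term hq hc hN x.1 x.2 hx)
      intro S _ h
      exact h.le
    · simp only [hf, hx, if_false]
      have hU : UD x.1 x.2 = ∅ := by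
        rw [← card_eq_zero]
        have h1 := card_UD_le x.1 x.2
        have h2 : x.2.card = 0 := by omega
        rw [h2] at h1
        have h3 : ((UD x.1 x.2).card : ℝ) ≤ 0 := by simpa using h1
        exact_mod_cast le_antisymm h3 (by positivity)
      rw [Pr_eq, filter_false_of_mem, sum_empty]
      intro S _
      rw [hU, inter_empty, card_empty]
      omega
  have hterm : ∀ d ∈ range (N + 1), (N.choose d : ℝ) * f d ≤
      if 0 < d then K / (N : ℝ) ^ 9 else 0 := by
    intro d hd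
    by_cases hd0 : 0 < d
    · have hdR : (0 : ℝ) < d := by exact_mod_cast hd0
      have hdN : (d : ℝ) ≤ N := by
        have := mem_range.1 hd
        exact_mod_cast (by omega : d ≤ N)
      simp only [hf, hd0, if_true]
      have hc1 := choose_le N d hd0
      have hy1 : ((d : ℝ) / N) ^ 9 ≤ 1 := by
        apply pow_le_one₀ (by positivity)
        rw [div_le_one hNR]
        exact hdN
      calc (N.choose d : ℝ) * (((d : ℝ) / (2 * N)) ^ 10) ^ d
          ≤ (Real.exp 1 * N / d) ^ d * (((d : ℝ) / (2 * N)) ^ 10) ^ d :=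
            mul_le_mul_of_nonneg_right hc1 (by positivity)
        _ = (Real.exp 1 / 1024 * ((d : ℝ) / N) ^ 9) ^ d := by
            rw [← mul_pow]
            congr 1
            field_simp
            norm_num
        _ ≤ (1 / 2 * ((d : ℝ) / N) ^ 9) ^ d := by
            apply pow_le_pow_left₀ (by positivity)
            apply mul_le_mul_of_nonneg_right _ (by positivity)
            linarith
        _ = (1 / 2) ^ d * (((d : ℝ) / N) ^ 9) ^ d := mul_pow _ _ _
        _ ≤ (1 / 2) ^ d * ((d : ℝ) / N) ^ 9 := by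
            apply mul_le_mul_of_nonneg_left _ (by positivity)
            exact pow_le_of_le_one (by positivity) hy1 (by omega)
        _ = (d : ℝ) ^ 9 / 2 ^ d / (N : ℝ) ^ 9 := by
            rw [div_pow, div_pow, one_pow]
            field_simp
        _ ≤ K / (N : ℝ) ^ 9 := by
            apply div_le_div_of_nonneg_right _ (by positivity)
            rw [div_le_iff₀ (by positivity)]
            exact hK d
    · simp [hf, hd0]
  calc (N : ℝ) * Pr q (fun S => ∃ (i : Fin N) (D : Finset (Fin N)),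
      10 * D.card < (S.filter (fun t => i ∈ t ∧ t.erase i ⊆ D)).card)
      ≤ (N : ℝ) * ∑ x ∈ (univ : Finset (Fin N × Finset (Fin N))), f x.2.card :=
        mul_le_mul_of_nonneg_left hstep1 hNR.le
    _ = (N : ℝ) * ((N : ℝ) * ∑ d ∈ range (N + 1), (N.choose d : ℝ) * f d) := by
        rw [← univ_product_univ, sum_product]
        simp only [sum_card f, sum_const, card_univ, Fintype.card_fin, nsmul_eq_mul]
    _ ≤ (N : ℝ) * ((N : ℝ) * ∑ d ∈ range (N + 1), if 0 < d then K / (N : ℝ) ^ 9 else 0) := by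
        apply mul_le_mul_of_nonneg_left _ hNR.le
        apply mul_le_mul_of_nonneg_left _ hNR.le
        exact sum_le_sum hterm
    _ = (N : ℝ) * ((N : ℝ) * (N * (K / (N : ℝ) ^ 9))) := by
        congr 2
        rw [← sum_filter, sum_const, nsmul_eq_mul]
        congr 1
        have : (range (N + 1)).filter (fun d => 0 < d) = Ico 1 (N + 1) := by
          ext x
          simp only [mem_filter, mem_range, mem_Ico]
          omega
        rw [this, Nat.card_Ico]
        norm_num
    _ = K / (N : ℝ) ^ 6 := by field_simp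
    _ ≤ K := by
        apply div_le_self hK0.le
        exact one_le_pow₀ hN1

open Classical in
/-- Second link bound. -/
lemma l2_bound (d0 : ℕ) (η κ : ℝ) (hη : 0 < η) (hη1 : η ≤ 1) (hd0 : 8 ≤ η * d0)
    (hκ0 : 0 < κ) (hκ1 : κ ≤ 1)
    (hκ : Real.exp 1 * (3 / 2 * Real.exp 1) ^ 2 * κ ^ (η / 2) ≤ 1 / 2)
    (hκ2 : 3 / 2 * Real.exp 1 * κ ≤ 1) : ∃ K : ℝ,
    ∀ (N : ℕ) (q : Finset (Finset (Fin N)) → ℝ), 0 < N →
    (∀ S, 0 ≤ q S) → (∀ S, (∃ t ∈ S, t.card ≠ 3) → q S = 0) → Sub q (3 / (N : ℝ)) →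
    (N : ℝ) * Pr q (fun S => ∃ (i : Fin N) (D : Finset (Fin N)),
      d0 ≤ D.card ∧ (D.card : ℝ) ≤ κ * N ∧
      (1 + η) * D.card < ((S.filter (fun t => i ∈ t ∧ t.erase i ⊆ D)).card : ℝ)) ≤ K := by
  obtain ⟨K, hK0, hK⟩ := exists_K 4
  refine ⟨2 * K, fun N q hN hq h3 hc => ?_⟩
  have hNR : (0 : ℝ) < N := by exact_mod_cast hN
  have hN1 : (1 : ℝ) ≤ N := by exact_mod_cast hN
  have he : Real.exp 1 < 2.7182818286 := Real.exp_one_lt_d9
  have he' : 2.7182818283 < Real.exp 1 := Real.exp_one_gt_d9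
  have hd00 : 0 < d0 := by
    rcases Nat.eq_zero_or_pos d0 with h | h
    · rw [h] at hd0; norm_num at hd0
    · exact h
  -- the function of the size
  set f : ℕ → ℝ := fun d => if d0 ≤ d ∧ (d : ℝ) ≤ κ * N then
    (3 / 2 * Real.exp 1 * ((d : ℝ) / N)) ^ ((1 + η) * (d : ℝ)) else 0 with hf
  have hstep1 : Pr q (fun S => ∃ (i : Fin N) (D : Finset (Fin N)),
      d0 ≤ D.card ∧ (D.card : ℝ) ≤ κ * N ∧
      (1 + η) * D.card < ((S.filter (fun t => i ∈ t ∧ t.erase i ⊆ D)).card : ℝ)) ≤
      ∑ x ∈ (univ : Finset (Fin N × Finset (Fin N))), f x.2.card := by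
    have h0 : Pr q (fun S => ∃ (i : Fin N) (D : Finset (Fin N)),
      d0 ≤ D.card ∧ (D.card : ℝ) ≤ κ * N ∧
      (1 + η) * D.card < ((S.filter (fun t => i ∈ t ∧ t.erase i ⊆ D)).card : ℝ)) ≤
      ∑ x ∈ (univ : Finset (Fin N × Finset (Fin N))),
        Pr q (fun S => (d0 ≤ x.2.card ∧ (x.2.card : ℝ) ≤ κ * N) ∧
          (1 + η) * x.2.card < ((S ∩ UD x.1 x.2).card : ℝ)) := by
      refine Pr_union (ι := Fin N × Finset (Fin N)) hq
        (fun S => ∃ (i : Fin N) (D : Finset (Fin N)),
          d0 ≤ D.card ∧ (D.card : ℝ) ≤ κ * N ∧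
          (1 + η) * D.card < ((S.filter (fun t => i ∈ t ∧ t.erase i ⊆ D)).card : ℝ)) univ
        (fun x S => (d0 ≤ x.2.card ∧ (x.2.card : ℝ) ≤ κ * N) ∧
          (1 + η) * x.2.card < ((S ∩ UD x.1 x.2).card : ℝ)) ?_
      intro S hS hbad
      obtain ⟨i, D, hD1, hD2, hD⟩ := hbad
      refine ⟨(i, D), mem_univ _, ⟨hD1, hD2⟩, ?_⟩
      refine hD.trans_le ?_
      have : (S.filter (fun t => i ∈ t ∧ t.erase i ⊆ D)).card ≤ (S ∩ UD i D).card := by
        refine card_le_card (filter_sub S i D ?_)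
        intro t ht
        by_contra hne
        exact hS (h3 S ⟨t, ht, hne⟩)
      exact_mod_cast this
    refine h0.trans (sum_le_sum (fun x _ => ?_))
    by_cases hx : d0 ≤ x.2.card ∧ (x.2.card : ℝ) ≤ κ * N
    · simp only [hf]
      rw [if_pos hx]
      have hdR : (0 : ℝ) < x.2.card := by exact_mod_cast (lt_of_lt_of_le hd00 hx.1)
      have hs0 : 0 < ⌈(1 + η) * (x.2.card : ℝ)⌉₊ := Nat.ceil_pos.2 (by positivity)
      have hs1 : (1 + η) * (x.2.card : ℝ) ≤ (⌈(1 + η) * (x.2.card : ℝ)⌉₊ : ℝ) := Nat.le_ceil _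
      have hs2 : (x.2.card : ℝ) ≤ (⌈(1 + η) * (x.2.card : ℝ)⌉₊ : ℝ) := by nlinarith
      have hX1 : 3 / 2 * Real.exp 1 * ((x.2.card : ℝ) / N) ≤ 1 := by
        have : (x.2.card : ℝ) / N ≤ κ := by
          rw [div_le_iff₀ hNR]; exact hx.2
        calc 3 / 2 * Real.exp 1 * ((x.2.card : ℝ) / N) ≤ 3 / 2 * Real.exp 1 * κ :=
              mul_le_mul_of_nonneg_left this (by positivity)
          _ ≤ 1 := hκ2
      calc Pr q (fun S => (d0 ≤ x.2.card ∧ (x.2.card : ℝ) ≤ κ * N) ∧
          (1 + η) * x.2.card < ((S ∩ UD x.1 x.2).card : ℝ))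
          ≤ Pr q (fun S => ⌈(1 + η) * (x.2.card : ℝ)⌉₊ ≤ (S ∩ UD x.1 x.2).card) := by
            refine Pr_mono hq ?_
            intro S _ h
            exact Nat.ceil_le.2 h.2.le
        _ ≤ (3 / 2 * Real.exp 1 * ((x.2.card : ℝ) / N)) ^ ⌈(1 + η) * (x.2.card : ℝ)⌉₊ := by
            refine tail' hq hc (by positivity) (UD x.1 x.2) ?_ _ hs0 _ ?_
            · intro t ht
              simp only [UD, mem_filter, mem_univ, true_and] at ht
              exact ht.1
            · have h1 := card_UD_le x.1 x.2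
              calc Real.exp 1 * ((UD x.1 x.2).card : ℝ) * (3 / N) /
                  (⌈(1 + η) * (x.2.card : ℝ)⌉₊ : ℝ)
                  ≤ Real.exp 1 * ((x.2.card : ℝ) ^ 2 / 2) * (3 / N) / (x.2.card : ℝ) := by
                    apply div_le_div₀ (by positivity) _ hdR hs2
                    apply mul_le_mul_of_nonneg_right _ (by positivity)
                    exact mul_le_mul_of_nonneg_left h1 (by positivity)
                _ = _ := by field_simp
        _ = (3 / 2 * Real.exp 1 * ((x.2.card : ℝ) / N)) ^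
            ((⌈(1 + η) * (x.2.card : ℝ)⌉₊ : ℝ)) := (Real.rpow_natCast _ _).symm
        _ ≤ _ := Real.rpow_le_rpow_of_exponent_ge (by positivity) hX1 hs1
    · simp only [hf, hx, if_false]
      rw [Pr_eq, filter_false_of_mem, sum_empty]
      intro S _ h
      exact h.1
  have hterm : ∀ d ∈ range (N + 1), (N.choose d : ℝ) * f d ≤ K / (N : ℝ) ^ 4 := by
    intro d hd
    by_cases hx : d0 ≤ d ∧ (d : ℝ) ≤ κ * N
    · have hdR : (0 : ℝ) < d := by exact_mod_cast (lt_of_lt_of_le hd00 hx.1)
      have hd0' : 0 < d := by exact_mod_cast hdR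
      simp only [hf]
      rw [if_pos hx]
      have hc1 := choose_le N d hd0'
      set y : ℝ := (d : ℝ) / N with hy
      have hy0 : 0 < y := by positivity
      have hyκ : y ≤ κ := by
        rw [hy, div_le_iff₀ hNR]; exact hx.2
      have hy1 : y ≤ 1 := hyκ.trans hκ1
      have hey : Real.exp 1 * N / d = Real.exp 1 / y := by
        rw [hy]; field_simp
      have h32 : (1 : ℝ) ≤ 3 / 2 * Real.exp 1 := by linarith
      have hyη : y ^ (η / 2) ≤ κ ^ (η / 2) :=
        Real.rpow_le_rpow hy0.le hyκ (by positivity)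
      have hbase : Real.exp 1 / y * (3 / 2 * Real.exp 1 * y) ^ (1 + η) ≤
          1 / 2 * y ^ (η / 2) := by
        calc Real.exp 1 / y * (3 / 2 * Real.exp 1 * y) ^ (1 + η)
            = Real.exp 1 * (3 / 2 * Real.exp 1) ^ (1 + η) * (y ^ (1 + η) / y) := by
              rw [Real.mul_rpow (by positivity) hy0.le]; ring
          _ = Real.exp 1 * (3 / 2 * Real.exp 1) ^ (1 + η) * y ^ η := by
              congr 1
              rw [Real.rpow_add hy0, Real.rpow_one]
              field_simp
          _ ≤ Real.exp 1 * (3 / 2 * Real.exp 1) ^ (2 : ℝ) * y ^ η := by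
              apply mul_le_mul_of_nonneg_right _ (by positivity)
              apply mul_le_mul_of_nonneg_left _ (by positivity)
              exact Real.rpow_le_rpow_of_exponent_le h32 (by linarith)
          _ = (Real.exp 1 * (3 / 2 * Real.exp 1) ^ 2 * y ^ (η / 2)) * y ^ (η / 2) := by
              rw [mul_assoc _ (y ^ (η / 2)) (y ^ (η / 2)), ← Real.rpow_add hy0,
                add_halves]
              norm_num
          _ ≤ 1 / 2 * y ^ (η / 2) := by
              apply mul_le_mul_of_nonneg_right _ (by positivity)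
              refine le_trans ?_ hκ
              exact mul_le_mul_of_nonneg_left hyη (by positivity)
      calc (N.choose d : ℝ) * (3 / 2 * Real.exp 1 * y) ^ ((1 + η) * (d : ℝ))
          ≤ (Real.exp 1 / y) ^ d * (3 / 2 * Real.exp 1 * y) ^ ((1 + η) * (d : ℝ)) := by
            rw [← hey]
            exact mul_le_mul_of_nonneg_right hc1 (by positivity)
        _ = (Real.exp 1 / y * (3 / 2 * Real.exp 1 * y) ^ (1 + η)) ^ d := by
            rw [Real.rpow_mul (by positivity), Real.rpow_natCast, ← mul_pow]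
        _ ≤ (1 / 2 * y ^ (η / 2)) ^ d := pow_le_pow_left₀ (by positivity) hbase d
        _ = (1 / 2) ^ d * y ^ (η / 2 * d) := by
            rw [mul_pow, Real.rpow_mul hy0.le, Real.rpow_natCast]
        _ ≤ (1 / 2) ^ d * y ^ (4 : ℝ) := by
            apply mul_le_mul_of_nonneg_left _ (by positivity)
            apply Real.rpow_le_rpow_of_exponent_ge hy0 hy1
            have : (d0 : ℝ) ≤ d := by exact_mod_cast hx.1
            nlinarith
        _ = (d : ℝ) ^ 4 / 2 ^ d / (N : ℝ) ^ 4 := by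
            have : y ^ (4 : ℝ) = y ^ 4 := by
              rw [← Real.rpow_natCast]; norm_num
            rw [this, hy, div_pow, div_pow, one_pow]
            field_simp
        _ ≤ K / (N : ℝ) ^ 4 := by
            apply div_le_div_of_nonneg_right _ (by positivity)
            rw [div_le_iff₀ (by positivity)]
            exact hK d
    · simp only [hf, hx, if_false, mul_zero]
      positivity
  calc (N : ℝ) * Pr q (fun S => ∃ (i : Fin N) (D : Finset (Fin N)),
      d0 ≤ D.card ∧ (D.card : ℝ) ≤ κ * N ∧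
      (1 + η) * D.card < ((S.filter (fun t => i ∈ t ∧ t.erase i ⊆ D)).card : ℝ))
      ≤ (N : ℝ) * ∑ x ∈ (univ : Finset (Fin N × Finset (Fin N))), f x.2.card :=
        mul_le_mul_of_nonneg_left hstep1 hNR.le
    _ = (N : ℝ) * ((N : ℝ) * ∑ d ∈ range (N + 1), (N.choose d : ℝ) * f d) := by
        rw [← univ_product_univ, sum_product]
        simp only [sum_card f, sum_const, card_univ, Fintype.card_fin, nsmul_eq_mul]
    _ ≤ (N : ℝ) * ((N : ℝ) * ∑ d ∈ range (N + 1), K / (N : ℝ) ^ 4) := by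
        apply mul_le_mul_of_nonneg_left _ hNR.le
        apply mul_le_mul_of_nonneg_left _ hNR.le
        exact sum_le_sum hterm
    _ = K * (((N : ℝ) + 1) / (N : ℝ) ^ 2) := by
        rw [sum_const, nsmul_eq_mul, card_range]
        push_cast
        field_simp
    _ ≤ K * 2 := by
        apply mul_le_mul_of_nonneg_left _ hK0.le
        rw [div_le_iff₀ (by positivity)]
        nlinarith
    _ = 2 * K := mul_comm _ _

/-- Triangles at `i` with opposite edge meeting `H`. -/
def UH (i : Fin N) (H : Finset (Fin N)) : Finset (Finset (Fin N)) :=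
  univ.filter (fun t => t.card = 3 ∧ i ∈ t ∧ ¬ Disjoint (t.erase i) H)

lemma card_UH_le (i : Fin N) (H : Finset (Fin N)) :
    ((UH i H).card : ℝ) ≤ (H.card : ℝ) * N := by
  classical
  have hsub : UH i H ⊆ (H ×ˢ (univ : Finset (Fin N))).image (fun x => {i, x.1, x.2}) := by
    intro t ht
    simp only [UH, mem_filter, mem_univ, true_and] at ht
    obtain ⟨hc, hi, hd⟩ := ht
    rw [not_disjoint_iff] at hd
    obtain ⟨h, ht, hH⟩ := hd
    have h1 : ((t.erase i).erase h).card = 1 := by
      rw [card_erase_of_mem ht, card_erase_of_mem hi, hc]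
    obtain ⟨x, hx⟩ := card_eq_one.1 h1
    rw [mem_image]
    refine ⟨(h, x), mem_product.2 ⟨hH, mem_univ _⟩, ?_⟩
    show insert i (insert h ({x} : Finset (Fin N))) = t
    rw [← hx, insert_erase ht, insert_erase hi]
  have h1 := (card_le_card hsub).trans card_image_le
  rw [card_product, card_univ, Fintype.card_fin] at h1
  exact_mod_cast h1

open Classical in
/-- Third link bound. -/
lemma l3_bound (κ ζ : ℝ) (hκ0 : 0 < κ) (hζ0 : 0 < ζ)
    (h1 : 6 * Real.exp 1 * ζ / κ ≤ 1) (h4 : (6 * Real.exp 1 * ζ / κ) ^ (κ / 2) ≤ 1 / 4) :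
    ∃ K : ℝ, ∀ (N : ℕ) (q : Finset (Finset (Fin N)) → ℝ), 0 < N →
    (∀ S, 0 ≤ q S) → (∀ S, (∃ t ∈ S, t.card ≠ 3) → q S = 0) → Sub q (3 / (N : ℝ)) →
    (N : ℝ) * Pr q (fun S => ∃ (i : Fin N) (H : Finset (Fin N)), (H.card : ℝ) ≤ ζ * N ∧
      κ * N / 2 < ((S.filter (fun t => i ∈ t ∧ ¬ Disjoint (t.erase i) H)).card : ℝ)) ≤ K := by
  obtain ⟨K, hK0, hK⟩ := exists_K 2
  refine ⟨K, fun N q hN hq h3 hc => ?_⟩
  have hNR : (0 : ℝ) < N := by exact_mod_cast hN
  have hstep1 : Pr q (fun S => ∃ (i : Fin N) (H : Finset (Fin N)), (H.card : ℝ) ≤ ζ * N ∧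
      κ * N / 2 < ((S.filter (fun t => i ∈ t ∧ ¬ Disjoint (t.erase i) H)).card : ℝ)) ≤
      ∑ x ∈ (univ : Finset (Fin N × Finset (Fin N))), (1 / 4 : ℝ) ^ N := by
    have h0 : Pr q (fun S => ∃ (i : Fin N) (H : Finset (Fin N)), (H.card : ℝ) ≤ ζ * N ∧
      κ * N / 2 < ((S.filter (fun t => i ∈ t ∧ ¬ Disjoint (t.erase i) H)).card : ℝ)) ≤
      ∑ x ∈ (univ : Finset (Fin N × Finset (Fin N))),
        Pr q (fun S => (x.2.card : ℝ) ≤ ζ * N ∧ κ * N / 2 < ((S ∩ UH x.1 x.2).card : ℝ)) := by
      refine Pr_union (ι := Fin N × Finset (Fin N)) hq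
        (fun S => ∃ (i : Fin N) (H : Finset (Fin N)), (H.card : ℝ) ≤ ζ * N ∧
          κ * N / 2 < ((S.filter (fun t => i ∈ t ∧ ¬ Disjoint (t.erase i) H)).card : ℝ)) univ
        (fun x S => (x.2.card : ℝ) ≤ ζ * N ∧
        κ * N / 2 < ((S ∩ UH x.1 x.2).card : ℝ)) ?_
      intro S hS hbad
      obtain ⟨i, D, hD1, hD⟩ := hbad
      refine ⟨(i, D), mem_univ _, hD1, ?_⟩
      refine hD.trans_le ?_
      have : (S.filter (fun t => i ∈ t ∧ ¬ Disjoint (t.erase i) D)).card ≤
          (S ∩ UH i D).card := by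
        refine card_le_card ?_
        intro t ht
        rw [mem_filter] at ht
        simp only [UH, mem_inter, mem_filter, mem_univ, true_and]
        refine ⟨ht.1, ?_, ht.2.1, ht.2.2⟩
        by_contra hne
        exact hS (h3 S ⟨t, ht.1, hne⟩)
      exact_mod_cast this
    refine h0.trans (sum_le_sum (fun x _ => ?_))
    by_cases hx : (x.2.card : ℝ) ≤ ζ * N
    · have hs0 : 0 < ⌈κ * N / 2⌉₊ := Nat.ceil_pos.2 (by positivity)
      have hs1 : κ * N / 2 ≤ (⌈κ * N / 2⌉₊ : ℝ) := Nat.le_ceil _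
      calc Pr q (fun S => (x.2.card : ℝ) ≤ ζ * N ∧ κ * N / 2 < ((S ∩ UH x.1 x.2).card : ℝ))
          ≤ Pr q (fun S => ⌈κ * N / 2⌉₊ ≤ (S ∩ UH x.1 x.2).card) := by
            refine Pr_mono hq ?_
            intro S _ h
            exact Nat.ceil_le.2 h.2.le
        _ ≤ (6 * Real.exp 1 * ζ / κ) ^ ⌈κ * N / 2⌉₊ := by
            refine tail' hq hc (by positivity) (UH x.1 x.2) ?_ _ hs0 _ ?_
            · intro t ht
              simp only [UH, mem_filter, mem_univ, true_and] at ht
              exact ht.1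
            · have h1 := card_UH_le x.1 x.2
              have h2 : (x.2.card : ℝ) * N ≤ ζ * N * N :=
                mul_le_mul_of_nonneg_right hx hNR.le
              calc Real.exp 1 * ((UH x.1 x.2).card : ℝ) * (3 / N) / (⌈κ * N / 2⌉₊ : ℝ)
                  ≤ Real.exp 1 * (ζ * N * N) * (3 / N) / (κ * N / 2) := by
                    apply div_le_div₀ (by positivity) _ (by positivity) hs1
                    apply mul_le_mul_of_nonneg_right _ (by positivity)
                    exact mul_le_mul_of_nonneg_left (h1.trans h2) (by positivity)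
                _ = _ := by field_simp; ring
        _ = (6 * Real.exp 1 * ζ / κ) ^ ((⌈κ * N / 2⌉₊ : ℝ)) := (Real.rpow_natCast _ _).symm
        _ ≤ (6 * Real.exp 1 * ζ / κ) ^ (κ / 2 * N) := by
            apply Real.rpow_le_rpow_of_exponent_ge (by positivity) h1
            calc κ / 2 * N = κ * N / 2 := by ring
              _ ≤ _ := hs1
        _ = ((6 * Real.exp 1 * ζ / κ) ^ (κ / 2)) ^ N := by
            rw [Real.rpow_mul (by positivity), Real.rpow_natCast]
        _ ≤ (1 / 4) ^ N := pow_le_pow_left₀ (by positivity) h4 N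
    · rw [Pr_eq, filter_false_of_mem, sum_empty]
      · positivity
      · intro S _ h
        exact hx h.1
  calc (N : ℝ) * Pr q (fun S => ∃ (i : Fin N) (H : Finset (Fin N)), (H.card : ℝ) ≤ ζ * N ∧
      κ * N / 2 < ((S.filter (fun t => i ∈ t ∧ ¬ Disjoint (t.erase i) H)).card : ℝ))
      ≤ (N : ℝ) * ∑ x ∈ (univ : Finset (Fin N × Finset (Fin N))), (1 / 4 : ℝ) ^ N :=
        mul_le_mul_of_nonneg_left hstep1 hNR.le
    _ = (N : ℝ) ^ 2 / 2 ^ N := by
        rw [sum_const, nsmul_eq_mul, card_univ, Fintype.card_prod, Fintype.card_finset,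
          Fintype.card_fin]
        push_cast
        rw [div_pow, one_pow, show (4 : ℝ) = 2 * 2 by norm_num, mul_pow]
        field_simp
    _ ≤ K := by
        rw [div_le_iff₀ (by positivity)]
        exact hK N

end link

end Pool.Agent.HTRank.Union
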